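import Pool.Agent.AEW.Defs

/-!
# Absorption by small pieces: the embedding of the core
-/

namespace AEW

open Finset AE15 AED AELT
open scoped Classical

/-- pieces which are not yet placed, with the hosts of their neighbours -/
inductive Pd (V : Type) : Type
  | one (w : V) (d : Bool) (q : Fd) : Pd V
  | two (w : V) (d : Bool) (M : Cx) (d' : Bool) (w' : V) : Pd V

section

variable {V : Type} {R : V → V → Prop}

/-- number of vertices of the piece -/
def Pd.sz : Pd V → ℕ
  | .one _ _ q => q.size + 1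
  | .two _ _ M _ _ => M.un.size + 1

/-- the hosts of the neighbours -/
noncomputable def Pd.hosts : Pd V → Finset V
  | .one w _ _ => {w}
  | .two w _ _ _ w' => {w, w'}

/-- the piece is good and has at most `m` vertices -/
def Pd.Ok (ε : ℝ) (m : ℕ) : Pd V → Prop
  | .one _ _ q => Good1 ε q ∧ q.size + 1 ≤ m
  | .two _ _ M _ _ => Good2 ε M ∧ M.un.size + 1 ≤ m

/-- the core is embedded: the common vertex on `x`, the other vertices of the core onto `A`; `ps` are the pieces -/
def EmbD (R : V → V → Prop) : Dk → V → Finset V → List (Pd V) → Prop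
  | .nil, _, A, ps => A = ∅ ∧ ps = []
  | .node d c s, x, A, ps => ∃ x1 A1 A2 ps1 ps2, Adj R d x x1 ∧ x1 ∉ A1 ∧ x1 ∉ A2 ∧ Disjoint A1 A2 ∧
      A = insert x1 (A1 ∪ A2) ∧ ps = ps1 ++ ps2 ∧ EmbD R c x1 A1 ps1 ∧ EmbD R s x A2 ps2
  | .pc1 d q s, x, A, ps => ∃ ps2, ps = .one x d q :: ps2 ∧ EmbD R s x A ps2
  | .pc2 d M d' c s, x, A, ps => ∃ w' A1 A2 ps1 ps2, w' ∉ A1 ∧ w' ∉ A2 ∧ Disjoint A1 A2 ∧
      A = insert w' (A1 ∪ A2) ∧ ps = .two x d M d' w' :: (ps1 ++ ps2) ∧ EmbD R c w' A1 ps1 ∧ EmbD R s x A2 ps2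

/-- the pieces are placed on `Q` -/
def Pl (R : V → V → Prop) : List (Pd V) → Finset V → Prop
  | [], Q => Q = ∅
  | .one w d q :: ps, Q => ∃ u B Q', Adj R d w u ∧ u ∉ B ∧ Emb R q u B ∧ Disjoint (insert u B) Q' ∧
      Q = insert u B ∪ Q' ∧ Pl R ps Q'
  | .two w d M d' w' :: ps, Q => ∃ u y B Q', Adj R d w u ∧ u ∉ B ∧ EmbC R M u B y ∧ Adj R d' y w' ∧
      Disjoint (insert u B) Q' ∧ Q = insert u B ∪ Q' ∧ Pl R ps Q'

theorem Cx.deg_plug {b : ℕ} (p : Bool × Fd) (M : Cx) (h : (M.plug p).Deg b) : p.2.len ≤ b ∧ p.2.Deg b := by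
  induction M with
  | here s => exact ⟨h.1, h.2.1⟩
  | dn d t s ih => exact ih h.2.1
  | nx d c t ih => exact ih h.2.2

theorem Dk.core_len (D : Dk) : D.core.len ≤ D.un.len := by
  induction D with
  | nil => exact le_rfl
  | node d c s ihc ihs => simp only [Dk.core, Dk.un, Fd.len]; omega
  | pc1 d q s ihs => simp only [Dk.core, Dk.un, Fd.len]; omega
  | pc2 d M d' c s ihc ihs => simp only [Dk.core, Dk.un, Fd.len]; omega

theorem Dk.core_deg {b : ℕ} (D : Dk) (h : D.un.Deg b) : D.core.Deg b := by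
  induction D with
  | nil => trivial
  | node d c s ihc ihs => exact ⟨c.core_len.trans h.1, ihc h.2.1, ihs h.2.2⟩
  | pc1 d q s ihs => exact ihs h.2.2
  | pc2 d M d' c s ihc ihs => exact ihs h.2.2

theorem Dk.core_le (D : Dk) : D.core.size ≤ D.csz := by
  induction D with
  | nil => exact le_rfl
  | node d c s ihc ihs => simp only [Dk.core, Dk.csz, Fd.size]; omega
  | pc1 d q s ihs => simp only [Dk.core, Dk.csz]; omega
  | pc2 d M d' c s ihc ihs => simp only [Dk.core, Dk.csz]; omega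

/-- the other components of the core are added one after the other -/
theorem core_ext {b : ℕ} {β Cβ : ℝ} (hβ : 0 ≤ β) (hU : Un R b (1 + β) Cβ) (D : Dk) (hD : D.un.Deg b) {T : ℝ}
    (hT : (D.un.size : ℝ) + 1 ≤ T) : ∀ (x : V) (A₀ Y : Finset V), Emb R D.core x A₀ → Disjoint A₀ Y →
      (D.csz : ℝ) + (β * T + Cβ) ≤ Y.card + D.core.size → 0 ≤ β * T + Cβ →
        ∃ A₁ ⊆ Y, ∃ ps : List (Pd V), EmbD R D x (A₀ ∪ A₁) ps ∧ (A₁.card : ℝ) = D.csz - D.core.size := by
  induction D with
  | nil =>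
    intro x A₀ Y h _ _ _
    have h0 : A₀ = ∅ := h
    subst h0
    exact ⟨∅, empty_subset _, [], ⟨by simp, rfl⟩, by simp [Dk.csz, Dk.core, Fd.size]⟩
  | node d c s ihc ihs =>
    intro x A₀ Y h hdj hY hC
    obtain ⟨x1, B1, B2, h1, h2, h3, h4, rfl, h5, h6⟩ := h
    obtain ⟨g1, g2, g3⟩ := hD
    have hun : (((Dk.node d c s).un.size : ℕ) : ℝ) = c.un.size + s.un.size + 1 := by
      simp only [Dk.un, Fd.size]; push_cast; ring
    have hcs : (((Dk.node d c s).csz : ℕ) : ℝ) = c.csz + s.csz + 1 := by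
      simp only [Dk.csz]; push_cast; ring
    have hco : (((Dk.node d c s).core.size : ℕ) : ℝ) = c.core.size + s.core.size + 1 := by
      simp only [Dk.core, Fd.size]; push_cast; ring
    rw [hun] at hT
    rw [hcs, hco] at hY
    have a1 : (0 : ℝ) ≤ c.un.size := Nat.cast_nonneg _
    have a2 : (0 : ℝ) ≤ s.un.size := Nat.cast_nonneg _
    have a3 : (s.core.size : ℝ) ≤ s.csz := by exact_mod_cast s.core_le
    rw [disjoint_insert_left, disjoint_union_left] at hdj
    obtain ⟨d1, d2, d3⟩ := hdj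
    obtain ⟨C1, c1, ps1, c2, c3⟩ := ihc g2 (by linarith) x1 B1 Y h5 d2 (by linarith) hC
    have hk : (((Y \ C1).card : ℕ) : ℝ) = Y.card - C1.card := by
      rw [card_sdiff_of_subset c1, Nat.cast_sub (card_le_card c1)]
    obtain ⟨C2, e1, ps2, e2, e3⟩ := ihs g3 (by linarith) x B2 (Y \ C1) h6 (d3.mono_right sdiff_subset)
      (by rw [hk]; linarith) hC
    have e1' : C2 ⊆ Y := e1.trans sdiff_subset
    have hC12 : Disjoint C1 C2 := (disjoint_sdiff.mono_right e1)
    refine ⟨C1 ∪ C2, union_subset c1 e1', ps1 ++ ps2, ⟨x1, B1 ∪ C1, B2 ∪ C2, ps1, ps2, h1, ?_, ?_, ?_, ?_, rfl, c2, e2⟩, ?_⟩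
    · rw [mem_union]
      rintro (hm | hm)
      · exact h2 hm
      · exact d1 (c1 hm)
    · rw [mem_union]
      rintro (hm | hm)
      · exact h3 hm
      · exact d1 (e1' hm)
    · rw [disjoint_union_left, disjoint_union_right, disjoint_union_right]
      exact ⟨⟨h4, d2.mono_right e1'⟩, (d3.mono_right c1).symm, hC12⟩
    · ext t
      simp only [mem_union, mem_insert]
      tauto
    · rw [card_union_of_disjoint hC12, Nat.cast_add, c3, e3, hcs, hco]
      ring
  | pc1 d q s ihs =>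
    intro x A₀ Y h hdj hY hC
    obtain ⟨g1, g2, g3⟩ := hD
    have hun : (((Dk.pc1 d q s).un.size : ℕ) : ℝ) = q.size + s.un.size + 1 := by
      simp only [Dk.un, Fd.size]; push_cast; ring
    rw [hun] at hT
    have a1 : (0 : ℝ) ≤ q.size := Nat.cast_nonneg _
    obtain ⟨C1, c1, ps1, c2, c3⟩ := ihs g3 (by linarith) x A₀ Y h hdj hY hC
    exact ⟨C1, c1, .one x d q :: ps1, ⟨ps1, rfl, c2⟩, c3⟩
  | pc2 d M d' c s ihc ihs =>
    intro x A₀ Y h hdj hY hC
    obtain ⟨g1, g2, g3⟩ := hD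
    obtain ⟨k1, k2⟩ := Cx.deg_plug (d', c.un) M g2
    simp only at k1 k2
    have hun : (((Dk.pc2 d M d' c s).un.size : ℕ) : ℝ) = M.un.size + (c.un.size + 1) + s.un.size + 1 := by
      simp only [Dk.un, Fd.size, Cx.size_plug]; push_cast; ring
    have hcs : (((Dk.pc2 d M d' c s).csz : ℕ) : ℝ) = c.csz + s.csz + 1 := by
      simp only [Dk.csz]; push_cast; ring
    have hco : (((Dk.pc2 d M d' c s).core.size : ℕ) : ℝ) = s.core.size := rfl
    rw [hun] at hT
    rw [hcs, hco] at hY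
    have a1 : (0 : ℝ) ≤ c.un.size := Nat.cast_nonneg _
    have a2 : (0 : ℝ) ≤ s.un.size := Nat.cast_nonneg _
    have a0 : (0 : ℝ) ≤ M.un.size := Nat.cast_nonneg _
    have a3 : (s.core.size : ℝ) ≤ s.csz := by exact_mod_cast s.core_le
    have a4 : (c.core.size : ℝ) ≤ c.csz := by exact_mod_cast c.core_le
    have a5 : (c.csz : ℝ) ≤ c.un.size := by
      rw [Dk.size_un]; push_cast; linarith [(Nat.cast_nonneg (c.psz) : (0 : ℝ) ≤ _)]
    have a6 : β * (c.core.size + 1) ≤ β * T := mul_le_mul_of_nonneg_left (by linarith) hβ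
    obtain ⟨w', w1, B, w2, w3, -, w4⟩ := hU c.core (c.core_len.trans k1) (c.core_deg k2) Y (by linarith)
    have hkB : ((insert w' B).card : ℝ) = c.core.size + 1 := by
      rw [card_insert_of_notMem w3, w4.card]; push_cast; ring
    have hsB : insert w' B ⊆ Y := insert_subset w1 w2
    have hk1 : (((Y \ insert w' B).card : ℕ) : ℝ) = Y.card - (c.core.size + 1) := by
      rw [card_sdiff_of_subset hsB, Nat.cast_sub (card_le_card hsB), hkB]
    obtain ⟨C1, c1, ps1, c2, c3⟩ := ihc k2 (by linarith) w' B (Y \ insert w' B) w4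
      (disjoint_sdiff.mono_left (subset_insert _ _)) (by rw [hk1]; linarith) hC
    have c1' : C1 ⊆ Y := c1.trans sdiff_subset
    have hd1 : Disjoint (insert w' B) C1 := disjoint_sdiff.mono_right c1
    rw [disjoint_insert_left] at hd1
    have hk2 : ((((Y \ insert w' B) \ C1).card : ℕ) : ℝ) = Y.card - (c.core.size + 1) - C1.card := by
      rw [card_sdiff_of_subset c1, Nat.cast_sub (card_le_card c1), hk1]
    obtain ⟨C2, e1, ps2, e2, e3⟩ := ihs g3 (by linarith) x A₀ ((Y \ insert w' B) \ C1) h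
      (hdj.mono_right (sdiff_subset.trans sdiff_subset)) (by rw [hk2]; linarith) hC
    have e1' : C2 ⊆ Y := e1.trans (sdiff_subset.trans sdiff_subset)
    have hd2 : Disjoint (insert w' B) C2 := (disjoint_sdiff.mono_right (e1.trans sdiff_subset))
    rw [disjoint_insert_left] at hd2
    have hd3 : Disjoint C1 C2 := disjoint_sdiff.mono_right e1
    have hw0 : w' ∉ A₀ := fun hm => disjoint_left.1 hdj hm w1
    refine ⟨insert w' (B ∪ C1 ∪ C2), ?_, .two x d M d' w' :: (ps1 ++ ps2),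
      ⟨w', B ∪ C1, A₀ ∪ C2, ps1, ps2, ?_, ?_, ?_, ?_, rfl, c2, e2⟩, ?_⟩
    · exact insert_subset w1 (union_subset (union_subset w2 c1') e1')
    · rw [mem_union]
      rintro (hm | hm)
      · exact w3 hm
      · exact hd1.1 hm
    · rw [mem_union]
      rintro (hm | hm)
      · exact hw0 hm
      · exact hd2.1 hm
    · rw [disjoint_union_left, disjoint_union_right, disjoint_union_right]
      exact ⟨⟨(hdj.mono_right w2).symm, hd2.2⟩, (hdj.mono_right c1').symm, hd3⟩
    · ext t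
      simp only [mem_union, mem_insert]
      tauto
    · have hn : w' ∉ B ∪ C1 ∪ C2 := by
        rw [mem_union, mem_union]
        rintro ((hm | hm) | hm)
        · exact w3 hm
        · exact hd1.1 hm
        · exact hd2.1 hm
      rw [card_insert_of_notMem hn, card_union_of_disjoint (disjoint_union_left.2 ⟨hd2.2, hd3⟩),
        card_union_of_disjoint hd1.2]
      rw [card_insert_of_notMem w3] at hkB
      push_cast at hkB ⊢
      rw [c3, e3, hcs, hco]
      linarith

/-- **the core**: from the unrooted theorem with ratio `1 + β` (`hU`) -/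
theorem core_emb {b : ℕ} {β Cβ : ℝ} (hβ : 0 ≤ β) (hC : 0 ≤ Cβ) (hU : Un R b (1 + β) Cβ) (D : Dk) (hl : D.un.len ≤ b)
    (hD : D.un.Deg b) {Y : Finset V} (hY : (D.csz : ℝ) + 1 + β * (D.un.size + 1) + Cβ ≤ Y.card) :
    ∃ x ∈ Y, ∃ A ⊆ Y, ∃ ps : List (Pd V), x ∉ A ∧ EmbD R D x A ps := by
  have a4 : (D.core.size : ℝ) ≤ D.csz := by exact_mod_cast D.core_le
  have a5 : (D.csz : ℝ) ≤ D.un.size := by
    rw [Dk.size_un]; push_cast; linarith [(Nat.cast_nonneg (D.psz) : (0 : ℝ) ≤ _)]
  have a6 : β * (D.core.size + 1) ≤ β * (D.un.size + 1) := mul_le_mul_of_nonneg_left (by linarith) hβ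
  have a7 : (0 : ℝ) ≤ D.un.size := Nat.cast_nonneg _
  obtain ⟨x, w1, B, w2, w3, -, w4⟩ := hU D.core (D.core_len.trans hl) (D.core_deg hD) Y (by linarith)
  have hkB : ((insert x B).card : ℝ) = D.core.size + 1 := by
    rw [card_insert_of_notMem w3, w4.card]; push_cast; ring
  have hsB : insert x B ⊆ Y := insert_subset w1 w2
  have hk1 : (((Y \ insert x B).card : ℕ) : ℝ) = Y.card - (D.core.size + 1) := by
    rw [card_sdiff_of_subset hsB, Nat.cast_sub (card_le_card hsB), hkB]
  obtain ⟨A₁, c1, ps, c2, -⟩ := core_ext hβ hU D hD (T := D.un.size + 1) le_rfl x B (Y \ insert x B) w4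
    (disjoint_sdiff.mono_left (subset_insert _ _)) (by rw [hk1]; linarith) (by positivity)
  have hd1 : Disjoint (insert x B) A₁ := disjoint_sdiff.mono_right c1
  rw [disjoint_insert_left] at hd1
  refine ⟨x, w1, B ∪ A₁, union_subset w2 (c1.trans sdiff_subset), ps, ?_, c2⟩
  rw [mem_union]
  rintro (hm | hm)
  · exact w3 hm
  · exact hd1.1 hm

theorem EmbD.card {D : Dk} {x : V} {A : Finset V} {ps : List (Pd V)} (h : EmbD R D x A ps) : A.card = D.csz := by
  induction D generalizing x A ps with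
  | nil =>
    obtain ⟨h1, -⟩ := h
    subst h1
    rfl
  | node d c s ihc ihs =>
    obtain ⟨x1, A1, A2, ps1, ps2, -, h2, h3, h4, rfl, -, h6, h7⟩ := h
    rw [card_insert_of_notMem (by rw [mem_union]; rintro (hm | hm); exacts [h2 hm, h3 hm]), card_union_of_disjoint h4,
      ihc h6, ihs h7]
    rfl
  | pc1 d q s ihs =>
    obtain ⟨ps2, -, h2⟩ := h
    exact ihs h2
  | pc2 d M d' c s ihc ihs =>
    obtain ⟨w', A1, A2, ps1, ps2, h2, h3, h4, rfl, -, h6, h7⟩ := h
    rw [card_insert_of_notMem (by rw [mem_union]; rintro (hm | hm); exacts [h2 hm, h3 hm]), card_union_of_disjoint h4,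
      ihc h6, ihs h7]
    rfl

theorem EmbD.hosts {D : Dk} {x : V} {A : Finset V} {ps : List (Pd V)} (h : EmbD R D x A ps) :
    ∀ p ∈ ps, p.hosts ⊆ insert x A := by
  induction D generalizing x A ps with
  | nil =>
    obtain ⟨-, h1⟩ := h
    subst h1
    intro p hp
    exact absurd hp (by simp)
  | node d c s ihc ihs =>
    obtain ⟨x1, A1, A2, ps1, ps2, -, -, -, -, rfl, rfl, h6, h7⟩ := h
    intro p hp
    rcases List.mem_append.1 hp with hp | hp
    · refine (ihc h6 p hp).trans ((insert_subset_insert _ subset_union_left).trans (subset_insert _ _))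
    · exact (ihs h7 p hp).trans (insert_subset_insert _ (subset_union_right.trans (subset_insert _ _)))
  | pc1 d q s ihs =>
    obtain ⟨ps2, rfl, h2⟩ := h
    intro p hp
    rcases List.mem_cons.1 hp with hp | hp
    · subst hp
      exact singleton_subset_iff.2 (mem_insert_self _ _)
    · exact ihs h2 p hp
  | pc2 d M d' c s ihc ihs =>
    obtain ⟨w', A1, A2, ps1, ps2, -, -, -, rfl, rfl, h6, h7⟩ := h
    intro p hp
    rcases List.mem_cons.1 hp with hp | hp
    · subst hp
      refine insert_subset (mem_insert_self _ _) (singleton_subset_iff.2 (mem_insert_of_mem (mem_insert_self _ _)))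
    rcases List.mem_append.1 hp with hp | hp
    · refine (ihc h6 p hp).trans ((insert_subset_insert _ subset_union_left).trans (subset_insert _ _))
    · exact (ihs h7 p hp).trans (insert_subset_insert _ (subset_union_right.trans (subset_insert _ _)))

theorem EmbD.sum {D : Dk} {x : V} {A : Finset V} {ps : List (Pd V)} (h : EmbD R D x A ps) :
    (ps.map Pd.sz).sum = D.psz := by
  induction D generalizing x A ps with
  | nil =>
    obtain ⟨-, h1⟩ := h
    subst h1
    rfl
  | node d c s ihc ihs =>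
    obtain ⟨x1, A1, A2, ps1, ps2, -, -, -, -, -, rfl, h6, h7⟩ := h
    rw [List.map_append, List.sum_append, ihc h6, ihs h7]
    rfl
  | pc1 d q s ihs =>
    obtain ⟨ps2, rfl, h2⟩ := h
    rw [List.map_cons, List.sum_cons, ihs h2]
    simp only [Pd.sz, Dk.psz]
    omega
  | pc2 d M d' c s ihc ihs =>
    obtain ⟨w', A1, A2, ps1, ps2, -, -, -, -, rfl, h6, h7⟩ := h
    rw [List.map_cons, List.sum_cons, List.map_append, List.sum_append, ihc h6, ihs h7]
    simp only [Pd.sz, Dk.psz]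
    omega

theorem EmbD.ok {ε : ℝ} {m : ℕ} {D : Dk} (hD : D.Ok ε m) {x : V} {A : Finset V} {ps : List (Pd V)}
    (h : EmbD R D x A ps) : ∀ p ∈ ps, p.Ok ε m := by
  induction D generalizing x A ps with
  | nil =>
    obtain ⟨-, h1⟩ := h
    subst h1
    intro p hp
    exact absurd hp (by simp)
  | node d c s ihc ihs =>
    obtain ⟨x1, A1, A2, ps1, ps2, -, -, -, -, -, rfl, h6, h7⟩ := h
    intro p hp
    rcases List.mem_append.1 hp with hp | hp
    · exact ihc hD.1 h6 p hp
    · exact ihs hD.2 h7 p hp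
  | pc1 d q s ihs =>
    obtain ⟨ps2, rfl, h2⟩ := h
    intro p hp
    rcases List.mem_cons.1 hp with hp | hp
    · subst hp
      exact ⟨hD.1, hD.2.1⟩
    · exact ihs hD.2.2 h2 p hp
  | pc2 d M d' c s ihc ihs =>
    obtain ⟨w', A1, A2, ps1, ps2, -, -, -, -, rfl, h6, h7⟩ := h
    intro p hp
    rcases List.mem_cons.1 hp with hp | hp
    · subst hp
      exact ⟨hD.1, hD.2.1⟩
    rcases List.mem_append.1 hp with hp | hp
    · exact ihc hD.2.2.1 h6 p hp
    · exact ihs hD.2.2.2 h7 p hp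

theorem Pl.split {ps1 ps2 : List (Pd V)} {Q : Finset V} (h : Pl R (ps1 ++ ps2) Q) :
    ∃ Q1 Q2, Disjoint Q1 Q2 ∧ Q = Q1 ∪ Q2 ∧ Pl R ps1 Q1 ∧ Pl R ps2 Q2 := by
  induction ps1 generalizing Q with
  | nil => exact ⟨∅, Q, disjoint_empty_left _, by simp, rfl, h⟩
  | cons p ps ih =>
    cases p with
    | one w d q =>
      obtain ⟨u, B, Q', h1, h2, h3, h4, rfl, h6⟩ := h
      obtain ⟨Q1, Q2, k1, rfl, k3, k4⟩ := ih h6
      rw [disjoint_union_right] at h4
      refine ⟨insert u B ∪ Q1, Q2, disjoint_union_left.2 ⟨h4.2, k1⟩, by rw [union_assoc],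
        ⟨u, B, Q1, h1, h2, h3, h4.1, rfl, k3⟩, k4⟩
    | two w d M d' w' =>
      obtain ⟨u, y, B, Q', h1, h2, h3, h3', h4, rfl, h6⟩ := h
      obtain ⟨Q1, Q2, k1, rfl, k3, k4⟩ := ih h6
      rw [disjoint_union_right] at h4
      refine ⟨insert u B ∪ Q1, Q2, disjoint_union_left.2 ⟨h4.2, k1⟩, by rw [union_assoc],
        ⟨u, y, B, Q1, h1, h2, h3, h3', h4.1, rfl, k3⟩, k4⟩

/-- a tree is put into the hole -/
theorem EmbC.plug {M : Cx} {u : V} {B : Finset V} {y : V} (h : EmbC R M u B y) {d : Bool} {c : Fd} {w : V} {E : Finset V}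
    (hA : Adj R d y w) (hw : w ∉ E) (hc : Emb R c w E) (hd : Disjoint B (insert w E)) :
    Emb R (M.plug (d, c)) u (B ∪ insert w E) := by
  induction M generalizing u B with
  | here s =>
    obtain ⟨h1, rfl⟩ := h
    rw [disjoint_insert_right] at hd
    refine ⟨w, E, B, hA, hw, hd.1, hd.2.symm, ?_, hc, h1⟩
    ext t
    simp only [mem_union, mem_insert]
    tauto
  | dn d1 t s ih =>
    obtain ⟨x1, A, B', h1, h2, h3, h4, rfl, h6, h7⟩ := h
    rw [disjoint_insert_left, disjoint_union_left] at hd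
    obtain ⟨e1, e2, e3⟩ := hd
    refine ⟨x1, A ∪ insert w E, B', h1, ?_, h3, ?_, ?_, ih h6 e2, h7⟩
    · rw [mem_union]
      rintro (hm | hm)
      · exact h2 hm
      · exact e1 hm
    · exact disjoint_union_left.2 ⟨h4, e3.symm⟩
    · ext t
      simp only [mem_union, mem_insert]
      tauto
  | nx d1 c1 t ih =>
    obtain ⟨x1, A, B', h1, h2, h3, h4, rfl, h6, h7⟩ := h
    rw [disjoint_insert_left, disjoint_union_left] at hd
    obtain ⟨e1, e2, e3⟩ := hd
    refine ⟨x1, A, B' ∪ insert w E, h1, h2, ?_, ?_, ?_, h6, ih h7 e3⟩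
    · rw [mem_union]
      rintro (hm | hm)
      · exact h3 hm
      · exact e1 hm
    · exact disjoint_union_right.2 ⟨h4, e2⟩
    · ext t
      simp only [mem_union, mem_insert]
      tauto

/-- the pieces are added -/
theorem EmbD.done {D : Dk} {x : V} {A : Finset V} {ps : List (Pd V)} (h : EmbD R D x A ps) (hx : x ∉ A) {Q : Finset V}
    (hQ : Pl R ps Q) (hd : Disjoint Q (insert x A)) : Emb R D.un x (A ∪ Q) := by
  induction D generalizing x A ps Q with
  | nil =>
    obtain ⟨rfl, rfl⟩ := h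
    have hQ' : Q = ∅ := hQ
    subst hQ'
    show (∅ ∪ ∅ : Finset V) = ∅
    simp
  | node d c s ihc ihs =>
    obtain ⟨x1, A1, A2, ps1, ps2, h1, h2, h3, h4, rfl, rfl, h6, h7⟩ := h
    obtain ⟨Q1, Q2, k1, rfl, k3, k4⟩ := hQ.split
    rw [disjoint_insert_right, disjoint_insert_right, disjoint_union_right, disjoint_union_left, disjoint_union_left,
      mem_union, mem_union] at hd
    obtain ⟨e1, e2, ⟨e3, e4⟩, e5, e6⟩ := hd
    push Not at e1 e2
    rw [mem_insert, mem_union] at hx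
    push Not at hx
    refine ⟨x1, A1 ∪ Q1, A2 ∪ Q2, h1, ?_, ?_, ?_, ?_, ihc h6 h2 k3 (disjoint_insert_right.2 ⟨e2.1, e3⟩),
      ihs h7 hx.2.2 k4 (disjoint_insert_right.2 ⟨e1.2, e6⟩)⟩
    · rw [mem_union]
      rintro (hm | hm)
      · exact h2 hm
      · exact e2.1 hm
    · rw [mem_union]
      rintro (hm | hm)
      · exact h3 hm
      · exact e2.2 hm
    · rw [disjoint_union_left, disjoint_union_right, disjoint_union_right]
      exact ⟨⟨h4, e4.symm⟩, e5, k1⟩
    · ext t
      simp only [mem_union, mem_insert]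
      tauto
  | pc1 d q s ihs =>
    obtain ⟨ps2, rfl, h2⟩ := h
    obtain ⟨u, B, Q', g1, g2, g3, g4, rfl, g6⟩ := hQ
    rw [disjoint_union_left] at hd
    obtain ⟨e1, e2⟩ := hd
    rw [disjoint_insert_left] at g4
    rw [disjoint_insert_right, disjoint_insert_left] at e1
    refine ⟨u, B, A ∪ Q', g1, g2, ?_, ?_, ?_, g3, ihs h2 hx g6 e2⟩
    · rw [mem_union]
      rintro (hm | hm)
      · exact e1.2.1 hm
      · exact g4.1 hm
    · exact disjoint_union_right.2 ⟨e1.2.2, g4.2⟩
    · ext t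
      simp only [mem_union, mem_insert]
      tauto
  | pc2 d M d' c s ihc ihs =>
    obtain ⟨w', A1, A2, ps1, ps2, h2, h3, h4, rfl, rfl, h6, h7⟩ := h
    obtain ⟨u, y, B, Q', g1, g2, g3, g3', g4, rfl, g6⟩ := hQ
    obtain ⟨Q1, Q2, k1, rfl, k3, k4⟩ := g6.split
    rw [disjoint_union_left, disjoint_union_left] at hd
    obtain ⟨e1, e2, e3⟩ := hd
    rw [disjoint_insert_left, mem_union, disjoint_union_right] at g4
    obtain ⟨g4, g5, g6⟩ := g4
    push Not at g4
    rw [disjoint_insert_right, disjoint_insert_right, disjoint_union_right, disjoint_insert_left, disjoint_insert_left,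
      mem_insert] at e1
    rw [disjoint_insert_right, disjoint_insert_right, disjoint_union_right] at e2 e3
    rw [mem_insert, mem_union] at hx
    push Not at hx e1
    obtain ⟨e11, e12, ⟨e13, e14⟩, e15, e16⟩ := e1
    have hwB : w' ∉ B := fun hm => e12 (mem_insert_of_mem hm)
    have hwu : u ≠ w' := fun hm => e12 (hm ▸ mem_insert_self _ _)
    have E1 : Emb R c.un w' (A1 ∪ Q1) := ihc h6 h2 k3 (disjoint_insert_right.2 ⟨e2.2.1, e2.2.2.1⟩)
    have E2 : Emb R s.un x (A2 ∪ Q2) := ihs h7 hx.2.2 k4 (disjoint_insert_right.2 ⟨e3.1, e3.2.2.2⟩)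
    have hw1 : w' ∉ A1 ∪ Q1 := by
      rw [mem_union]
      rintro (hm | hm)
      · exact h2 hm
      · exact e2.2.1 hm
    have hB1 : Disjoint B (insert w' (A1 ∪ Q1)) := by
      rw [disjoint_insert_right, disjoint_union_right]
      exact ⟨hwB, e14, g5⟩
    have E3 := g3.plug g3' hw1 E1 hB1
    refine ⟨u, B ∪ insert w' (A1 ∪ Q1), A2 ∪ Q2, g1, ?_, ?_, ?_, ?_, E3, E2⟩
    · simp only [mem_union, mem_insert]
      rintro (hm | hm | hm | hm)
      · exact g2 hm
      · exact hwu hm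
      · exact e13 hm
      · exact g4.1 hm
    · rw [mem_union]
      rintro (hm | hm)
      · exact e15 hm
      · exact g4.2 hm
    · rw [disjoint_union_left, disjoint_insert_left, disjoint_union_left]
      refine ⟨disjoint_union_right.2 ⟨e16, g6⟩, ?_, disjoint_union_right.2 ⟨h4, e3.2.2.1.symm⟩,
        disjoint_union_right.2 ⟨e2.2.2.2, k1⟩⟩
      rw [mem_union]
      rintro (hm | hm)
      · exact h3 hm
      · exact e3.2.1 hm
    · ext t
      simp only [mem_union, mem_insert]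
      tauto

end

end AEW
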