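import Pool.Agent.AEW.Defs
import Pool.Agent.AE15.Pieces
import Pool.Agent.AE15.Structure

/-!
# The pool
-/

namespace AEW

open Finset AE15 AED AELT
open scoped Classical

variable {V : Type} {R : V → V → Prop}

/-- few vertices have few neighbours of a given sign -/
theorem card_few (hT : AE32.Tour R) (d : Bool) (B : Finset V) (K : ℕ) :
    (B.filter (fun v => (nb R d B v).card < K)).card ≤ 2 * K := by
  rcases K with _ | K
  · simp
  cases d with
  | true =>
    have h1 := card_low hT B K
    have h2 : B.filter (fun v => (nb R true B v).card < K + 1) = B.filter (fun v => (nO R B v).card ≤ K) := by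
      apply filter_congr
      intro v _
      simp [nb, nO, Adj]
    rw [h2]
    omega
  | false =>
    have hT' : AE32.Tour (fun a b => R b a) := ⟨hT.irr, fun a b h => (hT.tot a b h).symm, fun a b h => hT.asym b a h⟩
    have h1 := card_low hT' B K
    have h2 : B.filter (fun v => (nb R false B v).card < K + 1) =
        B.filter (fun v => (nO (fun a b => R b a) B v).card ≤ K) := by
      apply filter_congr
      intro v _
      simp [nb, nO, Adj]
    rw [h2]
    omega

/-- **the pool**: in every large tournament there is a set `S` of about `s` vertices such that all but `6 η |X|` further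
vertices have at least `(η / 4) |S|` out-neighbours and in-neighbours in `S` -/
theorem pool {η : ℝ} (hη : 0 < η) (hη1 : η ≤ 1 / 8) : ∃ n₀ : ℕ, ∀ {V : Type} {R : V → V → Prop}, AE32.Tour R →
    ∀ (X : Finset V) (s : ℕ), n₀ ≤ X.card → η * X.card ≤ s → 2 * s ≤ X.card →
      ∃ S Y : Finset V, S ⊆ X ∧ Y ⊆ X ∧ Disjoint S Y ∧ S.card ≤ s ∧ (s : ℝ) / 2 ≤ S.card ∧
        (X.card : ℝ) - s - 6 * (η * X.card) ≤ Y.card ∧ ∀ y ∈ Y, ∀ d, η / 4 * S.card ≤ ((nb R d S y).card : ℝ) := by
  obtain ⟨n₁, hn₁⟩ := exists_pieces (ε := η / 2) (c := η / 2) (by positivity) (by linarith) (by positivity) 2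
  obtain ⟨n₂, hn₂⟩ := exists_nat_ge (2 / η)
  refine ⟨max n₁ (max n₂ 2), ?_⟩
  intro V R hT X s hX hs hs2
  have hX1 : n₁ ≤ X.card := (le_max_left _ _).trans hX
  have hX2 : n₂ ≤ X.card := (le_max_left _ _).trans ((le_max_right _ _).trans hX)
  have hX3 : 2 ≤ X.card := (le_max_right _ _).trans ((le_max_right _ _).trans hX)
  have hx0 : (0 : ℝ) < X.card := by
    have : 0 < X.card := by omega
    exact_mod_cast this
  have h2η : 2 ≤ η * X.card := by
    have h1 : (n₂ : ℝ) ≤ X.card := by exact_mod_cast hX2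
    have h2 : 2 / η ≤ X.card := hn₂.trans h1
    rwa [div_le_iff₀' hη] at h2
  have hs2' : 2 * (s : ℝ) ≤ X.card := by exact_mod_cast hs2
  obtain ⟨𝓕, h𝓕⟩ : ∃ 𝓕, 𝓕 = X.image (fun y => nb R true X y) ∪ X.image (fun y => nb R false X y) := ⟨_, rfl⟩
  have hF1 : 𝓕.card ≤ X.card ^ 5 := by
    have h1 : 𝓕.card ≤ X.card + X.card := by
      rw [h𝓕]
      exact (card_union_le _ _).trans (add_le_add card_image_le card_image_le)
    have h2 : X.card + X.card ≤ X.card ^ 2 := by nlinarith
    exact h1.trans (h2.trans (Nat.pow_le_pow_right (by omega) (by norm_num)))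
  obtain ⟨t, ht⟩ : ∃ t : ℝ, t = s - η / 2 * X.card := ⟨_, rfl⟩
  have ht0 : (s : ℝ) / 2 ≤ t := by rw [ht]; linarith
  have hs0 : (0 : ℝ) ≤ s := Nat.cast_nonneg _
  obtain ⟨P, Q, p1, p2, p3, p4, p5, p6, p7, p8, p9⟩ := hn₁ X 𝓕 hX1 hF1 2
    (fun i => if i = 0 then t else (1 - 2 * (η / 2)) * X.card - t) le_rfl
    (by
      intro i
      fin_cases i
      · simp only [Fin.zero_eta, Fin.isValue, if_true]
        linarith
      · simp only [Fin.mk_one, Fin.isValue, one_ne_zero, if_false]
        rw [ht]
        nlinarith)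
    (by
      rw [Fin.sum_univ_two]
      simp only [Fin.isValue, if_true, one_ne_zero, if_false]
      linarith)
  have q0 := p6 0
  have q1 := p6 1
  simp only [Fin.isValue, if_true, one_ne_zero, if_false] at q0 q1
  have hsum : ((P 0).card : ℝ) + (P 1).card + Q.card ≤ X.card := by
    have h1 : (P 0 ∪ P 1 ∪ Q) ⊆ X := union_subset (union_subset (p1 0) (p1 1)) p5
    have h2 : Disjoint (P 0 ∪ P 1) Q := disjoint_union_left.2 ⟨p4 0, p4 1⟩
    have h3 := card_le_card h1
    rw [card_union_of_disjoint h2, card_union_of_disjoint (p3 0 1 (by decide))] at h3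
    exact_mod_cast h3
  obtain ⟨Y, hY⟩ : ∃ Y, Y = (X \ P 0).filter (fun y => ∀ d, η * X.card ≤ ((nb R d X y).card : ℝ)) := ⟨_, rfl⟩
  refine ⟨P 0, Y, p1 0, ?_, ?_, ?_, ?_, ?_, ?_⟩
  · rw [hY]
    exact (filter_subset _ _).trans sdiff_subset
  · rw [hY, disjoint_left]
    intro v hv hv'
    exact (mem_sdiff.1 (mem_filter.1 hv').1).2 hv
  · have h1 : ((P 0).card : ℝ) ≤ s := by
      rw [ht] at q1
      linarith
    exact_mod_cast h1
  · linarith
  · -- the number of bad vertices
    obtain ⟨K, hK⟩ : ∃ K : ℕ, K = ⌈η * X.card⌉₊ := ⟨_, rfl⟩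
    have hK1 : η * X.card ≤ K := by rw [hK]; exact Nat.le_ceil _
    have hK2 : (K : ℝ) ≤ 3 / 2 * (η * X.card) := by
      have : (K : ℝ) < η * X.card + 1 := by rw [hK]; exact Nat.ceil_lt_add_one (by positivity)
      linarith
    have hsub : X ⊆ Y ∪ P 0 ∪ (X.filter (fun v => (nb R true X v).card < K) ∪
        X.filter (fun v => (nb R false X v).card < K)) := by
      intro v hv
      by_cases h0 : v ∈ P 0
      · exact mem_union_left _ (mem_union_right _ h0)
      by_cases h1 : (nb R true X v).card < K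
      · exact mem_union_right _ (mem_union_left _ (mem_filter.2 ⟨hv, h1⟩))
      by_cases h2 : (nb R false X v).card < K
      · exact mem_union_right _ (mem_union_right _ (mem_filter.2 ⟨hv, h2⟩))
      refine mem_union_left _ (mem_union_left _ ?_)
      rw [hY, mem_filter, mem_sdiff]
      refine ⟨⟨hv, h0⟩, ?_⟩
      intro d
      push Not at h1 h2
      cases d
      · have h3 : (K : ℝ) ≤ (nb R false X v).card := by exact_mod_cast h2
        exact hK1.trans h3
      · have h3 : (K : ℝ) ≤ (nb R true X v).card := by exact_mod_cast h1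
        exact hK1.trans h3
    have h1 := card_le_card hsub
    have h2 := card_union_le (Y ∪ P 0) (X.filter (fun v => (nb R true X v).card < K) ∪
        X.filter (fun v => (nb R false X v).card < K))
    have h3 := card_union_le Y (P 0)
    have h4 := card_union_le (X.filter (fun v => (nb R true X v).card < K)) (X.filter (fun v => (nb R false X v).card < K))
    have h5 := card_few hT true X K
    have h6 := card_few hT false X K
    have h7 : X.card ≤ Y.card + (P 0).card + 4 * K := by omega
    have h8 : (X.card : ℝ) ≤ Y.card + (P 0).card + 4 * K := by exact_mod_cast h7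
    have h9 : ((P 0).card : ℝ) ≤ s := by
      rw [ht] at q1
      linarith
    linarith
  · intro y hy d
    rw [hY, mem_filter, mem_sdiff] at hy
    have hyX : y ∈ X := hy.1.1
    have hF : nb R d X y ∈ 𝓕 := by
      rw [h𝓕]
      cases d
      · exact mem_union_right _ (mem_image_of_mem _ hyX)
      · exact mem_union_left _ (mem_image_of_mem _ hyX)
    have h1 := p7 0 _ hF
    have h2 : nb R d X y ∩ X = nb R d X y := inter_eq_left.2 (filter_subset _ _)
    have h3 : nb R d X y ∩ P 0 = nb R d (P 0) y := by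
      ext v
      simp only [nb, mem_inter, mem_filter]
      constructor
      · rintro ⟨⟨_, h⟩, h'⟩
        exact ⟨h', h⟩
      · rintro ⟨h', h⟩
        exact ⟨⟨p1 0 h', h⟩, h'⟩
    rw [h2, h3] at h1
    refine le_trans ?_ h1
    apply mul_le_mul_of_nonneg_right _ (Nat.cast_nonneg _)
    have h4 : η ≤ ((nb R d X y).card : ℝ) / X.card := by
      rw [le_div_iff₀ hx0]
      exact hy.2 d
    linarith

end AEW
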