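import Pool.Agent.AEW.Defs

/-!
# Absorption by small pieces: the decomposition of a tree

Every tree of bounded degree is cut into pieces of bounded size. A vertex is closed as soon as its open mass is at least
`m`; a closed vertex with at most one closed subtree below its open part gets a piece.
-/

namespace AEW

open Finset AE15 AED AELT

variable {a b K L : ℕ}

/-- all vertices are ordinary -/
def ofF : Fd → Dk
  | .nil => .nil
  | .node d c s => .node d (ofF c) (ofF s)

/-- all vertices outside the hole are ordinary -/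
def ofC (p : Bool × Dk) : Cx → Dk
  | .here s => .node p.1 p.2 (ofF s)
  | .dn d t s => .node d (ofC p t) (ofF s)
  | .nx d c t => .node d (ofF c) (ofC p t)

theorem ofF_un (F : Fd) : (ofF F).un = F := by
  induction F with
  | nil => rfl
  | node d c s ihc ihs => simp only [ofF, Dk.un, ihc, ihs]

theorem ofF_sz (F : Fd) : (ofF F).Sz a K L := by
  induction F with
  | nil => trivial
  | node d c s ihc ihs => exact ⟨ihc, ihs⟩

theorem ofF_cnt (F : Fd) : (ofF F).cnt = 0 := by
  induction F with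
  | nil => rfl
  | node d c s ihc ihs => simp only [ofF, Dk.cnt, ihc, ihs]

theorem ofC_un (p : Bool × Dk) (M : Cx) : (ofC p M).un = M.plug (p.1, p.2.un) := by
  induction M with
  | here s => simp only [ofC, Dk.un, Cx.plug, ofF_un]
  | dn d t s ih => simp only [ofC, Dk.un, Cx.plug, ofF_un, ih]
  | nx d c t ih => simp only [ofC, Dk.un, Cx.plug, ofF_un, ih]

theorem ofC_sz {p : Bool × Dk} (hp : p.2.Sz a K L) (M : Cx) : (ofC p M).Sz a K L := by
  induction M with
  | here s => exact ⟨hp, ofF_sz s⟩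
  | dn d t s ih => exact ⟨ih, ofF_sz s⟩
  | nx d c t ih => exact ⟨ofF_sz c, ih⟩

theorem ofC_cnt (p : Bool × Dk) (M : Cx) : (ofC p M).cnt = p.2.cnt := by
  induction M with
  | here s => simp only [ofC, Dk.cnt, ofF_cnt, add_zero]
  | dn d t s ih => simp only [ofC, Dk.cnt, ofF_cnt, ih, add_zero]
  | nx d c t ih => simp only [ofC, Dk.cnt, ofF_cnt, ih, zero_add]

/-- one of the trees of the forest is large enough, or the forest is small -/
theorem big_or (F : Fd) : F.size ≤ K → (∃ D : Dk, D.un = F ∧ D.Sz a K L ∧ D.cnt = 1) ∨ F.size ≤ F.len * a := by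
  induction F with
  | nil => intro _; right; simp [Fd.size, Fd.len]
  | node d c s _ ihs =>
    intro hK
    simp only [Fd.size] at hK
    by_cases h : a ≤ c.size + 1
    · left
      refine ⟨.pc1 d c (ofF s), by simp only [Dk.un, ofF_un], ⟨h, by omega, ofF_sz s⟩, by simp only [Dk.cnt, ofF_cnt]⟩
    · rcases ihs (by omega) with ⟨D, h1, h2, h3⟩ | h1
      · left
        exact ⟨.node d (ofF c) D, by simp only [Dk.un, ofF_un, h1], ⟨ofF_sz c, h2⟩, by simp only [Dk.cnt, ofF_cnt, h3]⟩
      · right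
        simp only [Fd.size, Fd.len]
        have : (s.len + 1) * a = s.len * a + a := by ring
        omega

/-- a piece in a forest with a hole beside the path to the hole, or the forest is small -/
theorem side_or (p : Bool × Dk) (hp : p.2.Sz a K L) (ha : 1 ≤ a) (M : Cx) : M.un.size ≤ K → M.un.Deg b →
    (∃ D : Dk, D.un = M.plug (p.1, p.2.un) ∧ D.Sz a K L ∧ D.cnt = p.2.cnt + 1) ∨
      M.un.size ≤ M.un.len * a + M.sg.length * (b * a) := by
  induction M with
  | here s =>
    intro hK _
    simp only [Cx.un] at hK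
    rcases big_or (a := a) (L := L) s hK with ⟨D, h1, h2, h3⟩ | h1
    · left
      exact ⟨.node p.1 p.2 D, by simp only [Dk.un, Cx.plug, h1], ⟨hp, h2⟩, by simp only [Dk.cnt, h3]⟩
    · right
      simp only [Cx.un, Cx.sg, List.length_nil]
      omega
  | dn d t s ih =>
    intro hK hD
    simp only [Cx.un, Fd.size] at hK
    simp only [Cx.un] at hD
    obtain ⟨g1, g2, g3⟩ := hD
    rcases big_or (a := a) (L := L) s (show s.size ≤ K by omega) with ⟨D, h1, h2, h3⟩ | h1
    · left
      exact ⟨.node d (ofC p t) D, by simp only [Dk.un, Cx.plug, h1, ofC_un], ⟨ofC_sz hp t, h2⟩,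
        by simp only [Dk.cnt, h3, ofC_cnt]⟩
    · rcases ih (by omega) g2 with ⟨D, h4, h5, h6⟩ | h4
      · left
        exact ⟨.node d D (ofF s), by simp only [Dk.un, Cx.plug, h4, ofF_un], ⟨h5, ofF_sz s⟩,
          by simp only [Dk.cnt, h6, ofF_cnt, add_zero]⟩
      · right
        simp only [Cx.un, Cx.sg, Fd.size, Fd.len, List.length_cons]
        have h7 : t.un.len * a ≤ b * a := Nat.mul_le_mul_right _ g1
        have h8 : (s.len + 1) * a = s.len * a + a := by ring
        have h9 : (t.sg.length + 1) * (b * a) = t.sg.length * (b * a) + b * a := by ring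
        omega
  | nx d c t ih =>
    intro hK hD
    simp only [Cx.un, Fd.size] at hK
    simp only [Cx.un] at hD
    obtain ⟨g1, g2, g3⟩ := hD
    by_cases h : a ≤ c.size + 1
    · left
      refine ⟨.pc1 d c (ofC p t), by simp only [Dk.un, Cx.plug, ofC_un], ⟨h, by omega, ofC_sz hp t⟩,
        by simp only [Dk.cnt, ofC_cnt]⟩
    · rcases ih (by omega) g3 with ⟨D, h4, h5, h6⟩ | h4
      · left
        exact ⟨.node d (ofF c) D, by simp only [Dk.un, Cx.plug, h4, ofF_un], ⟨ofF_sz c, h5⟩,
          by simp only [Dk.cnt, h6, ofF_cnt, zero_add]⟩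
      · right
        simp only [Cx.un, Cx.sg, Fd.size, Fd.len]
        have h8 : (t.un.len + 1) * a = t.un.len * a + a := by ring
        omega

/-- a piece in a large forest with a hole if the path to the hole is long -/
theorem seg_or (p : Bool × Dk) (hp : p.2.Sz a K L) (M : Cx) : M.un.size ≤ K → L + 1 ≤ M.sg.length →
    M.un.len * a + a ≤ M.un.size → ∃ D : Dk, D.un = M.plug (p.1, p.2.un) ∧ D.Sz a K L ∧ D.cnt = p.2.cnt + 1 := by
  induction M with
  | here s =>
    intro _ hL _
    simp [Cx.sg] at hL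
  | dn d t s ih =>
    intro hK hL hM
    simp only [Cx.un, Fd.size] at hK
    simp only [Cx.un, Fd.size, Fd.len] at hM
    simp only [Cx.sg, List.length_cons] at hL
    rcases big_or (a := a) (L := L) s (show s.size ≤ K by omega) with ⟨D, h1, h2, h3⟩ | h1
    · exact ⟨.node d (ofC p t) D, by simp only [Dk.un, Cx.plug, h1, ofC_un], ⟨ofC_sz hp t, h2⟩,
        by simp only [Dk.cnt, h3, ofC_cnt]⟩
    · have h8 : (s.len + 1) * a = s.len * a + a := by ring
      exact ⟨.pc2 d t p.1 p.2 (ofF s), by simp only [Dk.un, Cx.plug, ofF_un],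
        ⟨by omega, by omega, by omega, hp, ofF_sz s⟩, by simp only [Dk.cnt, ofF_cnt, add_zero]⟩
  | nx d c t ih =>
    intro hK hL hM
    simp only [Cx.un, Fd.size] at hK
    simp only [Cx.un, Fd.size, Fd.len] at hM
    simp only [Cx.sg] at hL
    by_cases h : a ≤ c.size + 1
    · exact ⟨.pc1 d c (ofC p t), by simp only [Dk.un, Cx.plug, ofC_un], ⟨h, by omega, ofC_sz hp t⟩,
        by simp only [Dk.cnt, ofC_cnt]⟩
    · have h8 : (t.un.len + 1) * a = t.un.len * a + a := by ring
      obtain ⟨D, h4, h5, h6⟩ := ih (by omega) hL (by omega)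
      exact ⟨.node d (ofF c) D, by simp only [Dk.un, Cx.plug, h4, ofF_un], ⟨ofF_sz c, h5⟩,
        by simp only [Dk.cnt, h6, ofF_cnt, zero_add]⟩

theorem un_len_le (p : Bool × Fd) (M : Cx) : M.un.len ≤ (M.plug p).len := by
  induction M with
  | here s => simp only [Cx.un, Cx.plug, Fd.len]; omega
  | dn d t s ih => simp only [Cx.un, Cx.plug, Fd.len]; omega
  | nx d c t ih => simp only [Cx.un, Cx.plug, Fd.len]; omega

theorem un_deg (p : Bool × Fd) (M : Cx) : (M.plug p).Deg b → M.un.Deg b := by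
  induction M with
  | here s => intro h; exact h.2.2
  | dn d t s ih => intro h; exact ⟨(un_len_le p t).trans h.1, ih h.2.1, h.2.2⟩
  | nx d c t ih => intro h; exact ⟨h.1, h.2.1, ih h.2.2⟩

/-- the state of a forest with open mass `o`: no closed subtree, one closed subtree, at least two closed subtrees -/
def Dst (a K L : ℕ) (F : Fd) (o : ℕ) : Prop :=
  o = F.size ∨
  (∃ (M : Cx) (d : Bool) (D : Dk), F = M.plug (d, D.un) ∧ D.Sz a K L ∧ D.un.size + 1 + K ≤ 2 * K * D.cnt ∧
    o = M.un.size) ∨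
  ∃ D : Dk, D.un = F ∧ D.Sz a K L ∧ F.size + 2 * K ≤ 2 * K * D.cnt + o

/-- a decomposition from a state -/
theorem Dst.dk {F : Fd} {o : ℕ} (h : Dst a K L F o) : ∃ D : Dk, D.un = F ∧ D.Sz a K L ∧ F.size ≤ 2 * K * D.cnt + o := by
  rcases h with h | ⟨M, d, D, h1, h2, h3, h4⟩ | ⟨D, h1, h2, h3⟩
  · exact ⟨ofF F, ofF_un F, ofF_sz F, by rw [ofF_cnt]; omega⟩
  · refine ⟨ofC (d, D) M, by rw [ofC_un, h1], ofC_sz h2 M, ?_⟩
    rw [ofC_cnt, h1, Cx.size_plug]
    simp only at h3 ⊢
    omega
  · exact ⟨D, h1, h2, by omega⟩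

/-- a decomposition from a state with a closed subtree -/
theorem Dst.dk1 {F : Fd} {o : ℕ} (h : Dst a K L F o) (ho : o ≠ F.size) :
    ∃ D : Dk, D.un = F ∧ D.Sz a K L ∧ F.size + K ≤ 2 * K * D.cnt + o := by
  rcases h with h | ⟨M, d, D, h1, h2, h3, h4⟩ | ⟨D, h1, h2, h3⟩
  · exact absurd h ho
  · refine ⟨ofC (d, D) M, by rw [ofC_un, h1], ofC_sz h2 M, ?_⟩
    rw [ofC_cnt, h1, Cx.size_plug]
    simp only at h3 ⊢
    omega
  · exact ⟨D, h1, h2, by omega⟩

/-- a vertex is closed -/
theorem Dst.close {F : Fd} {o : ℕ} (h : Dst a K L F o) (ha : 1 ≤ a) (hl : F.len ≤ b) (hD : F.Deg b)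
    (ho : 16 * b * (L + 1) * a ≤ o + 1) (hb : 1 ≤ b) (hK : o + 1 ≤ K) :
    ∃ D : Dk, D.un = F ∧ D.Sz a K L ∧ F.size + 1 + K ≤ 2 * K * D.cnt := by
  have hba : 1 ≤ b * a := Nat.one_le_iff_ne_zero.2 (by positivity)
  have e1 : 16 * b * (L + 1) * a = 16 * ((L + 1) * (b * a)) := by ring
  have e2 : b * a ≤ (L + 1) * (b * a) := Nat.le_mul_of_pos_left _ (by omega)
  rw [e1] at ho
  rcases h with h | ⟨M, d, D, h1, h2, h3, h4⟩ | ⟨D, h1, h2, h3⟩
  · rcases big_or (a := a) (L := L) F (show F.size ≤ K by omega) with ⟨D, g1, g2, g3⟩ | g1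
    · exact ⟨D, g1, g2, by rw [g3]; omega⟩
    · exfalso
      have : F.len * a ≤ b * a := Nat.mul_le_mul_right _ hl
      omega
  · have hMl : M.un.len ≤ b := (un_len_le (d, D.un) M).trans (by rw [← h1]; exact hl)
    have hMD : M.un.Deg b := un_deg (d, D.un) M (by rw [← h1]; exact hD)
    have hl2 : M.un.len * a ≤ b * a := Nat.mul_le_mul_right _ hMl
    have hmain : ∃ D' : Dk, D'.un = M.plug (d, D.un) ∧ D'.Sz a K L ∧ D'.cnt = D.cnt + 1 := by
      rcases side_or (d, D) h2 ha M (by omega) hMD with g | g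
      · exact g
      · refine seg_or (d, D) h2 M (by omega) ?_ ?_
        · by_contra hc
          have h5 : M.sg.length ≤ L := by omega
          have h6 : M.sg.length * (b * a) ≤ L * (b * a) := Nat.mul_le_mul_right _ h5
          have h7 : (L + 1) * (b * a) = L * (b * a) + b * a := by ring
          omega
        · have h8 : a ≤ b * a := Nat.le_mul_of_pos_left _ (by omega)
          omega
    obtain ⟨D', g1, g2, g3⟩ := hmain
    refine ⟨D', by rw [g1, h1], g2, ?_⟩
    rw [g3, h1, Cx.size_plug]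
    simp only
    have : 2 * K * (D.cnt + 1) = 2 * K * D.cnt + 2 * K := by ring
    omega
  · exact ⟨D, h1, h2, by omega⟩

/-- the state of every forest -/
theorem exists_dst (ha : 1 ≤ a) (hb : 1 ≤ b) (hK : b * (16 * b * (L + 1) * a) ≤ K) (F : Fd) : F.Deg b →
    ∃ o, o ≤ F.len * (16 * b * (L + 1) * a - 1) ∧ Dst a K L F o := by
  induction F with
  | nil => intro _; exact ⟨0, by omega, Or.inl rfl⟩
  | node d c s ihc ihs =>
    intro hD
    obtain ⟨g1, g2, g3⟩ := hD
    obtain ⟨oc, hc1, hc2⟩ := ihc g2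
    obtain ⟨os, hs1, hs2⟩ := ihs g3
    set m := 16 * b * (L + 1) * a with hm
    have hm1 : 1 ≤ m := Nat.one_le_iff_ne_zero.2 (by positivity)
    have e1 : (s.len + 1) * (m - 1) = s.len * (m - 1) + (m - 1) := by ring
    have hlen : (Fd.node d c s).len = s.len + 1 := rfl
    have hsize : (Fd.node d c s).size = c.size + s.size + 1 := rfl
    rw [hlen, e1]
    by_cases hclo : m ≤ oc + 1
    · -- the root of the first tree is closed
      have hoc : oc + 1 ≤ K := by
        have h1 : c.len * (m - 1) ≤ b * (m - 1) := Nat.mul_le_mul_right _ g1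
        have h2 : b * (m - 1) + b = b * m := by
          have : m - 1 + 1 = m := by omega
          calc b * (m - 1) + b = b * (m - 1 + 1) := by ring
            _ = b * m := by rw [this]
        omega
      obtain ⟨D, k1, k2, k3⟩ := hc2.close ha g1 g2 hclo hb hoc
      refine ⟨os, by omega, ?_⟩
      by_cases hs : os = s.size
      · right; left
        exact ⟨.here s, d, D, by simp only [Cx.plug, k1], k2, by rw [k1]; exact k3, hs⟩
      · obtain ⟨E, l1, l2, l3⟩ := hs2.dk1 hs
        right; right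
        refine ⟨.node d D E, by simp only [Dk.un, k1, l1], ⟨k2, l2⟩, ?_⟩
        rw [hsize]
        simp only [Dk.cnt]
        have : 2 * K * (D.cnt + E.cnt) = 2 * K * D.cnt + 2 * K * E.cnt := by ring
        omega
    · -- the first tree is open
      refine ⟨oc + 1 + os, by omega, ?_⟩
      rcases hc2 with h | ⟨M, d', D, h1, h2, h3, h4⟩ | ⟨D, h1, h2, h3⟩
      · rcases hs2 with k | ⟨N, e, E, k1, k2, k3, k4⟩ | ⟨E, k1, k2, k3⟩
        · left; rw [hsize]; omega
        · right; left
          refine ⟨.nx d c N, e, E, by simp only [Cx.plug, k1], k2, k3, ?_⟩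
          simp only [Cx.un, Fd.size]; omega
        · right; right
          refine ⟨.node d (ofF c) E, by simp only [Dk.un, ofF_un, k1], ⟨ofF_sz c, k2⟩, ?_⟩
          rw [hsize]
          simp only [Dk.cnt, ofF_cnt, zero_add]
          omega
      · by_cases hs : os = s.size
        · right; left
          refine ⟨.dn d M s, d', D, by simp only [Cx.plug, h1], h2, h3, ?_⟩
          simp only [Cx.un, Fd.size]; omega
        · obtain ⟨E, l1, l2, l3⟩ := hs2.dk1 hs
          right; right
          refine ⟨.node d (ofC (d', D) M) E, by simp only [Dk.un, ofC_un, l1, h1], ⟨ofC_sz h2 M, l2⟩, ?_⟩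
          have hcs : c.size = M.un.size + (D.un.size + 1) := by rw [h1, Cx.size_plug]
          rw [hsize]
          simp only [Dk.cnt, ofC_cnt]
          have : 2 * K * (D.cnt + E.cnt) = 2 * K * D.cnt + 2 * K * E.cnt := by ring
          omega
      · obtain ⟨E, l1, l2, l3⟩ := hs2.dk
        right; right
        refine ⟨.node d D E, by simp only [Dk.un, l1, h1], ⟨h2, l2⟩, ?_⟩
        rw [hsize]
        simp only [Dk.cnt]
        have : 2 * K * (D.cnt + E.cnt) = 2 * K * D.cnt + 2 * K * E.cnt := by ring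
        omega

/-- **decomposition** of a tree of bounded degree into pieces of size about `a`; `K = 16 b ^ 2 (L + 1)` -/
theorem decomp (b L a : ℕ) (hb : 1 ≤ b) (ha : 1 ≤ a) (c : Fd) (hl : c.len ≤ b) (hD : c.Deg b) :
    ∃ D : Dk, D.un = c ∧ D.Sz a (16 * b ^ 2 * (L + 1) * a) L ∧
      c.size + 1 ≤ 2 * (16 * b ^ 2 * (L + 1) * a) * (D.cnt + 1) := by
  have e : b * (16 * b * (L + 1) * a) = 16 * b ^ 2 * (L + 1) * a := by ring
  obtain ⟨o, h1, h2⟩ := exists_dst (L := L) ha hb e.le c hD
  obtain ⟨D, k1, k2, k3⟩ := h2.dk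
  refine ⟨D, k1, k2, ?_⟩
  set K := 16 * b ^ 2 * (L + 1) * a with hK
  set m := 16 * b * (L + 1) * a with hm
  have hm1 : 1 ≤ m := Nat.one_le_iff_ne_zero.2 (by positivity)
  have h3 : c.len * (m - 1) ≤ b * (m - 1) := Nat.mul_le_mul_right _ hl
  have h4 : b * (m - 1) + b = K := by
    rw [← e]
    have : m - 1 + 1 = m := by omega
    calc b * (m - 1) + b = b * (m - 1 + 1) := by ring
      _ = b * m := by rw [this]
  have h5 : 2 * K * (D.cnt + 1) = 2 * K * D.cnt + 2 * K := by ring
  omega

end AEW
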