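import Pool.Agent.AEW.Defs

/-!
# Placing a piece in arbitrary unused vertices

`L` is an arbitrary set of unused vertices, `R₁` and `R₂` are the small sets reserved for the root and for the exit of the
piece. If most arcs between `R₁` and `L` have the same direction, then the part of the piece which is joined to its root
by arcs of the other direction only goes into `R₁`, everything else hangs on it by arcs of this direction and goes into `L`.
-/

namespace AEW

open Finset AE15 AED AELT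
open scoped Classical

variable {V : Type*} {R : V → V → Prop}

theorem len_le_size (c : Fd) : c.len ≤ c.size := by
  induction c with
  | nil => exact le_rfl
  | node d c s _ ihs => simp only [Fd.len, Fd.size]; omega

theorem deg_size (c : Fd) : ∀ {b : ℕ}, c.size ≤ b → c.Deg b := by
  induction c with
  | nil => intro b _; trivial
  | node d c s ihc ihs =>
    intro b hb
    simp only [Fd.size] at hb
    exact ⟨(len_le_size c).trans (by omega), ihc (by omega), ihs (by omega)⟩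

/-- every tree is contained in every set with four times as many vertices -/
theorem four (hT : AE32.Tour R) (c : Fd) {X : Finset V} (h : 4 * (c.size + 1) ≤ X.card) :
    ∃ x ∈ X, ∃ A ⊆ X, x ∉ A ∧ Emb R c x A := by
  obtain ⟨x, hx, A, hA, hxA, -, hE⟩ := AEX.un_four hT c.size c (len_le_size c) (deg_size c le_rfl) X (by
    have : (4 : ℝ) * (c.size + 1) ≤ X.card := by exact_mod_cast h
    linarith)
  exact ⟨x, hx, A, hA, hxA, hE⟩

theorem mem_nb {d : Bool} {X : Finset V} {v u : V} : u ∈ nb R d X v ↔ u ∈ X ∧ Adj R d v u := by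
  rw [nb, mem_filter]

/-- in one of the two directions at least half of the vertices of `A` see at least half of `L` -/
theorem maj (hT : AE32.Tour R) {A L : Finset V} (hd : Disjoint A L) :
    ∃ σ : Bool, A.card ≤ 2 * (A.filter (fun x => L.card ≤ 2 * (nb R σ L x).card)).card := by
  have h1 : ∀ x ∈ A, L.card ≤ (nb R true L x).card + (nb R false L x).card := by
    intro x hx
    have h2 : L ⊆ nb R true L x ∪ nb R false L x := by
      intro u hu
      rw [mem_union, mem_nb, mem_nb]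
      have hne : x ≠ u := fun e => disjoint_left.1 hd hx (e ▸ hu)
      rcases hT.tot x u hne with h | h
      · exact Or.inl ⟨hu, by simpa [Adj] using h⟩
      · exact Or.inr ⟨hu, by simpa [Adj] using h⟩
    exact (card_le_card h2).trans (card_union_le _ _)
  have h3 : A ⊆ A.filter (fun x => L.card ≤ 2 * (nb R true L x).card) ∪
      A.filter (fun x => L.card ≤ 2 * (nb R false L x).card) := by
    intro x hx
    rw [mem_union, mem_filter, mem_filter]
    have := h1 x hx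
    by_cases h : L.card ≤ 2 * (nb R true L x).card
    · exact Or.inl ⟨hx, h⟩
    · exact Or.inr ⟨hx, by omega⟩
  have h4 := (card_le_card h3).trans (card_union_le _ _)
  by_cases h : A.card ≤ 2 * (A.filter (fun x => L.card ≤ 2 * (nb R true L x).card)).card
  · exact ⟨true, h⟩
  · exact ⟨false, by omega⟩

theorem card_union_inter_le' (A B Q : Finset V) : ((A ∪ B) ∩ Q).card ≤ (A ∩ Q).card + B.card := by
  rw [union_inter_distrib_right]
  exact (card_union_le _ _).trans (Nat.add_le_add_left (card_le_card inter_subset_left) _)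

theorem adj_flip {d : Bool} {x y : V} (h : Adj R d x y) : Adj R (!d) y x := by
  cases d <;> simpa [Adj] using h

/-- a tree in the unused part of a neighbourhood -/
theorem four_nb (hT : AE32.Tour R) {σ : Bool} {L W : Finset V} {x : V} {a : ℕ} (ha : a ≤ (nb R σ L x).card) (c : Fd)
    (h : (W ∩ L).card + 4 * (c.size + 1) ≤ a) : ∃ x1 ∈ L, Adj R σ x x1 ∧ x1 ∉ W ∧ ∃ A ⊆ L, Disjoint A W ∧ x1 ∉ A ∧
      Emb R c x1 A := by
  have h1 : (nb R σ L x).card ≤ (nb R σ L x \ W).card + (W ∩ L).card := by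
    have h2 : nb R σ L x ⊆ (nb R σ L x \ W) ∪ (W ∩ L) := by
      intro u hu
      rw [mem_union, mem_sdiff, mem_inter]
      by_cases hW : u ∈ W
      · exact Or.inr ⟨hW, (mem_nb.1 hu).1⟩
      · exact Or.inl ⟨hu, hW⟩
    exact (card_le_card h2).trans (card_union_le _ _)
  obtain ⟨x1, hx1, A, hA, hxA, hE⟩ := four hT c (X := nb R σ L x \ W) (by omega)
  rw [mem_sdiff, mem_nb] at hx1
  refine ⟨x1, hx1.1.1, hx1.1.2, hx1.2, A, fun u hu => (mem_nb.1 (mem_sdiff.1 (hA hu)).1).1, ?_, hxA, hE⟩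
  rw [disjoint_left]
  intro u hu
  exact (mem_sdiff.1 (hA hu)).2

/-- **Extension**: the part `clo σ q` is embedded in `Q`, all vertices of `Q` see at least `a` vertices of `L` in the
direction `σ`; then the rest is embedded in `L` -/
theorem clo_ext (hT : AE32.Tour R) {σ : Bool} {Q L : Finset V} (hQL : Disjoint Q L) {a : ℕ}
    (ha : ∀ x ∈ Q, a ≤ (nb R σ L x).card) (q : Fd) : ∀ {x : V} {P W : Finset V}, x ∈ Q → P ⊆ Q → x ∉ P →
      Emb R (clo σ q) x P → (W ∩ L).card + 4 * (q.size + 1) ≤ a →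
        ∃ T ⊆ L, Disjoint T W ∧ Emb R q x (P ∪ T) ∧ T.card ≤ q.size := by
  induction q with
  | nil =>
    intro x P W _ _ _ hE _
    refine ⟨∅, empty_subset _, disjoint_empty_left _, ?_, by simp⟩
    rw [union_empty]
    exact hE
  | node d c s ihc ihs =>
    intro x P W hx hP hxP hE hW
    simp only [Fd.size] at hW ⊢
    by_cases hd : d = σ
    · subst hd
      rw [clo, if_pos rfl] at hE
      obtain ⟨T1, t1, t2, t3, t4⟩ := ihs hx hP hxP hE (W := W) (by omega)
      obtain ⟨x1, y1, y2, y3, A, y4, y5, y6, y7⟩ := four_nb hT (ha x hx) (W := W ∪ T1) c (by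
        have := card_union_inter_le' W T1 L
        omega)
      rw [mem_union, not_or] at y3
      rw [disjoint_union_right] at y5
      have hx1P : x1 ∉ P := fun h => disjoint_left.1 hQL (hP h) y1
      have hAP : Disjoint A P := by
        rw [disjoint_left]
        intro u hu hu'
        exact disjoint_left.1 hQL (hP hu') (y4 hu)
      have hAc := y7.card
      refine ⟨insert x1 A ∪ T1, union_subset (insert_subset y1 y4) t1, ?_, ?_, ?_⟩
      · rw [disjoint_union_left, disjoint_insert_left]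
        exact ⟨⟨y3.1, y5.1⟩, t2⟩
      · refine ⟨x1, A, P ∪ T1, y2, y6, ?_, ?_, ?_, y7, t3⟩
        · rw [mem_union, not_or]; exact ⟨hx1P, y3.2⟩
        · rw [disjoint_union_right]; exact ⟨hAP, y5.2⟩
        · ext u; simp only [mem_union, mem_insert]; tauto
      · have h1 := card_union_le (insert x1 A) T1
        have h2 := card_insert_le x1 A
        omega
    · rw [clo, if_neg hd] at hE
      obtain ⟨x1, A1, B1, e1, e2, e3, e4, e5, e6, e7⟩ := hE
      have hx1 : x1 ∈ Q := hP (by rw [e5]; simp)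
      have hA1 : A1 ⊆ Q := fun u hu => hP (by rw [e5]; simp [hu])
      have hB1 : B1 ⊆ Q := fun u hu => hP (by rw [e5]; simp [hu])
      have hxB : x ∉ B1 := fun h => hxP (by rw [e5]; simp [h])
      obtain ⟨T1, t1, t2, t3, t4⟩ := ihc hx1 hA1 e2 e6 (W := W) (by omega)
      obtain ⟨T2, s1, s2, s3, s4⟩ := ihs hx hB1 hxB e7 (W := W ∪ T1) (by
        have := card_union_inter_le' W T1 L
        omega)
      rw [disjoint_union_right] at s2
      have hQL' : ∀ {u}, u ∈ Q → u ∉ L := fun h h' => disjoint_left.1 hQL h h'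
      refine ⟨T1 ∪ T2, union_subset t1 s1, ?_, ?_, ?_⟩
      · rw [disjoint_union_left]; exact ⟨t2, s2.1⟩
      · refine ⟨x1, A1 ∪ T1, B1 ∪ T2, e1, ?_, ?_, ?_, ?_, t3, s3⟩
        · rw [mem_union, not_or]; exact ⟨e2, fun h => hQL' hx1 (t1 h)⟩
        · rw [mem_union, not_or]; exact ⟨e3, fun h => hQL' hx1 (s1 h)⟩
        · rw [disjoint_union_left, disjoint_union_right, disjoint_union_right]
          refine ⟨⟨e4, ?_⟩, ?_, s2.2.symm⟩
          · rw [disjoint_left]; intro u hu hu'; exact hQL' (hA1 hu) (s1 hu')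
          · rw [disjoint_left]; intro u hu hu'; exact hQL' (hB1 hu') (t1 hu)
        · rw [e5]; ext u; simp only [mem_union, mem_insert]; tauto
      · have := card_union_le T1 T2
        omega

/-! ### forests with a hole -/

theorem EmbC.emb {M : Cx} : ∀ {x : V} {S : Finset V} {w : V}, EmbC R M x S w → Emb R M.un x S := by
  induction M with
  | here s => intro x S w h; exact h.1
  | dn d t s ih =>
    rintro x S w ⟨x1, A, B, h1, h2, h3, h4, h5, h6, h7⟩
    exact ⟨x1, A, B, h1, h2, h3, h4, h5, ih h6, h7⟩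
  | nx d c t ih =>
    rintro x S w ⟨x1, A, B, h1, h2, h3, h4, h5, h6, h7⟩
    exact ⟨x1, A, B, h1, h2, h3, h4, h5, h6, ih h7⟩

theorem EmbC.mem {M : Cx} : ∀ {x : V} {S : Finset V} {w : V}, EmbC R M x S w → w ∈ insert x S := by
  induction M with
  | here s => intro x S w h; rw [h.2]; exact mem_insert_self _ _
  | dn d t s ih =>
    rintro x S w ⟨x1, A, B, h1, h2, h3, h4, rfl, h6, h7⟩
    have := ih h6
    rw [mem_insert] at this
    rw [mem_insert, mem_insert, mem_union]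
    tauto
  | nx d c t ih =>
    rintro x S w ⟨x1, A, B, h1, h2, h3, h4, rfl, h6, h7⟩
    have := ih h7
    rw [mem_insert] at this
    rw [mem_insert, mem_insert, mem_union]
    tauto

theorem exists_embC (M : Cx) : ∀ {x : V} {S : Finset V}, Emb R M.un x S → ∃ w, EmbC R M x S w := by
  induction M with
  | here s => intro x S h; exact ⟨x, h, rfl⟩
  | dn d t s ih =>
    rintro x S ⟨x1, A, B, h1, h2, h3, h4, h5, h6, h7⟩
    obtain ⟨w, hw⟩ := ih h6
    exact ⟨w, x1, A, B, h1, h2, h3, h4, h5, hw, h7⟩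
  | nx d c t ih =>
    rintro x S ⟨x1, A, B, h1, h2, h3, h4, h5, h6, h7⟩
    obtain ⟨w, hw⟩ := ih h7
    exact ⟨w, x1, A, B, h1, h2, h3, h4, h5, h6, hw⟩

theorem EmbC.card {M : Cx} {x : V} {S : Finset V} {w : V} (h : EmbC R M x S w) : S.card = M.un.size := h.emb.card

/-- composition -/
theorem EmbC.cmp {d : Bool} {M : Cx} {U : Cx} : ∀ {x : V} {S : Finset V} {w x2 w2 : V} {S2 : Finset V},
    EmbC R U x S w → Adj R d w x2 → EmbC R M x2 S2 w2 → x2 ∉ S2 → Disjoint (insert x2 S2) (insert x S) →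
      EmbC R (U.cmp d M) x (S ∪ insert x2 S2) w2 := by
  induction U with
  | here s =>
    rintro x S w x2 w2 S2 ⟨h1, rfl⟩ h2 h3 h4 h5
    rw [disjoint_insert_left, disjoint_insert_right, mem_insert, not_or] at h5
    refine ⟨x2, S2, S, h2, h4, h5.1.2, h5.2.2, ?_, h3, h1⟩
    ext u; simp only [mem_union, mem_insert]; tauto
  | dn d1 t s ih =>
    rintro x S w x2 w2 S2 ⟨x1, A, B, g1, g2, g3, g4, rfl, g6, g7⟩ h2 h3 h4 h5
    have hA : Disjoint (insert x2 S2) (insert x1 A) := h5.mono_right (by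
      intro u hu; rw [mem_insert] at hu; simp only [mem_insert, mem_union]; tauto)
    have hB : Disjoint (insert x2 S2) B := h5.mono_right (by
      intro u hu; simp only [mem_insert, mem_union]; tauto)
    have hx1 : x1 ∉ insert x2 S2 := fun h => disjoint_left.1 hA h (mem_insert_self _ _)
    refine ⟨x1, A ∪ insert x2 S2, B, g1, ?_, g3, ?_, ?_, ih g6 h2 h3 h4 hA, g7⟩
    · rw [mem_union, not_or]; exact ⟨g2, hx1⟩
    · rw [disjoint_union_left]; exact ⟨g4, hB⟩
    · ext u; simp only [mem_union, mem_insert]; tauto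
  | nx d1 c t ih =>
    rintro x S w x2 w2 S2 ⟨x1, A, B, g1, g2, g3, g4, rfl, g6, g7⟩ h2 h3 h4 h5
    have hA : Disjoint (insert x2 S2) A := h5.mono_right (by
      intro u hu; simp only [mem_insert, mem_union]; tauto)
    have hx1 : x1 ∉ insert x2 S2 := fun h => disjoint_left.1 h5 h (by simp)
    have hB : Disjoint (insert x2 S2) (insert x B) := h5.mono_right (by
      intro u hu; rw [mem_insert] at hu; simp only [mem_insert, mem_union]; tauto)
    refine ⟨x1, A, B ∪ insert x2 S2, g1, g2, ?_, ?_, ?_, g6, ih g7 h2 h3 h4 hB⟩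
    · rw [mem_union, not_or]; exact ⟨g3, hx1⟩
    · rw [disjoint_union_right]; exact ⟨g4, hA.symm⟩
    · ext u; simp only [mem_union, mem_insert]; tauto

/-- **Extension** for forests with a hole -/
theorem cloC_ext (hT : AE32.Tour R) {σ : Bool} {Q L : Finset V} (hQL : Disjoint Q L) {a : ℕ}
    (ha : ∀ x ∈ Q, a ≤ (nb R σ L x).card) (M : Cx) : ∀ {x w : V} {P W : Finset V}, x ∈ Q → P ⊆ Q → x ∉ P →
      EmbC R (M.clo σ) x P w → (W ∩ L).card + 4 * (M.un.size + 1) ≤ a →
        ∃ T ⊆ L, Disjoint T W ∧ EmbC R M x (P ∪ T) w ∧ T.card ≤ M.un.size := by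
  have hQL' : ∀ {u}, u ∈ Q → u ∉ L := fun h h' => disjoint_left.1 hQL h h'
  induction M with
  | here s =>
    rintro x w P W hx hP hxP ⟨hE, rfl⟩ hW
    obtain ⟨T, t1, t2, t3, t4⟩ := clo_ext hT hQL ha s hx hP hxP hE (W := W) hW
    exact ⟨T, t1, t2, ⟨t3, rfl⟩, t4⟩
  | dn d t s ih =>
    intro x w P W hx hP hxP hE hW
    simp only [Cx.un, Fd.size] at hW ⊢
    obtain ⟨x1, A1, B1, e1, e2, e3, e4, e5, e6, e7⟩ := hE
    have hx1 : x1 ∈ Q := hP (by rw [e5]; simp)
    have hA1 : A1 ⊆ Q := fun u hu => hP (by rw [e5]; simp [hu])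
    have hB1 : B1 ⊆ Q := fun u hu => hP (by rw [e5]; simp [hu])
    have hxB : x ∉ B1 := fun h => hxP (by rw [e5]; simp [h])
    obtain ⟨T1, t1, t2, t3, t4⟩ := ih hx1 hA1 e2 e6 (W := W) (by omega)
    obtain ⟨T2, s1, s2, s3, s4⟩ := clo_ext hT hQL ha s hx hB1 hxB e7 (W := W ∪ T1) (by
      have := card_union_inter_le' W T1 L
      omega)
    rw [disjoint_union_right] at s2
    refine ⟨T1 ∪ T2, union_subset t1 s1, ?_, ?_, ?_⟩
    · rw [disjoint_union_left]; exact ⟨t2, s2.1⟩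
    · refine ⟨x1, A1 ∪ T1, B1 ∪ T2, e1, ?_, ?_, ?_, ?_, t3, s3⟩
      · rw [mem_union, not_or]; exact ⟨e2, fun h => hQL' hx1 (t1 h)⟩
      · rw [mem_union, not_or]; exact ⟨e3, fun h => hQL' hx1 (s1 h)⟩
      · rw [disjoint_union_left, disjoint_union_right, disjoint_union_right]
        refine ⟨⟨e4, ?_⟩, ?_, s2.2.symm⟩
        · rw [disjoint_left]; intro u hu hu'; exact hQL' (hA1 hu) (s1 hu')
        · rw [disjoint_left]; intro u hu hu'; exact hQL' (hB1 hu') (t1 hu)
      · rw [e5]; ext u; simp only [mem_union, mem_insert]; tauto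
    · have := card_union_le T1 T2
      omega
  | nx d c t ih =>
    intro x w P W hx hP hxP hE hW
    simp only [Cx.un, Fd.size] at hW ⊢
    by_cases hd : d = σ
    · subst hd
      rw [Cx.clo, if_pos rfl] at hE
      obtain ⟨T1, t1, t2, t3, t4⟩ := ih hx hP hxP hE (W := W) (by omega)
      obtain ⟨x1, y1, y2, y3, A, y4, y5, y6, y7⟩ := four_nb hT (ha x hx) (W := W ∪ T1) c (by
        have := card_union_inter_le' W T1 L
        omega)
      rw [mem_union, not_or] at y3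
      rw [disjoint_union_right] at y5
      have hx1P : x1 ∉ P := fun h => hQL' (hP h) y1
      have hAP : Disjoint A P := by
        rw [disjoint_left]
        intro u hu hu'
        exact hQL' (hP hu') (y4 hu)
      have hAc := y7.card
      refine ⟨insert x1 A ∪ T1, union_subset (insert_subset y1 y4) t1, ?_, ?_, ?_⟩
      · rw [disjoint_union_left, disjoint_insert_left]
        exact ⟨⟨y3.1, y5.1⟩, t2⟩
      · refine ⟨x1, A, P ∪ T1, y2, y6, ?_, ?_, ?_, y7, t3⟩
        · rw [mem_union, not_or]; exact ⟨hx1P, y3.2⟩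
        · rw [disjoint_union_right]; exact ⟨hAP, y5.2⟩
        · ext u; simp only [mem_union, mem_insert]; tauto
      · have h1 := card_union_le (insert x1 A) T1
        have h2 := card_insert_le x1 A
        omega
    · rw [Cx.clo, if_neg hd] at hE
      obtain ⟨x1, A1, B1, e1, e2, e3, e4, e5, e6, e7⟩ := hE
      have hx1 : x1 ∈ Q := hP (by rw [e5]; simp)
      have hA1 : A1 ⊆ Q := fun u hu => hP (by rw [e5]; simp [hu])
      have hB1 : B1 ⊆ Q := fun u hu => hP (by rw [e5]; simp [hu])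
      have hxB : x ∉ B1 := fun h => hxP (by rw [e5]; simp [h])
      obtain ⟨T1, t1, t2, t3, t4⟩ := clo_ext hT hQL ha c hx1 hA1 e2 e6 (W := W) (by omega)
      obtain ⟨T2, s1, s2, s3, s4⟩ := ih hx hB1 hxB e7 (W := W ∪ T1) (by
        have := card_union_inter_le' W T1 L
        omega)
      rw [disjoint_union_right] at s2
      refine ⟨T1 ∪ T2, union_subset t1 s1, ?_, ?_, ?_⟩
      · rw [disjoint_union_left]; exact ⟨t2, s2.1⟩
      · refine ⟨x1, A1 ∪ T1, B1 ∪ T2, e1, ?_, ?_, ?_, ?_, t3, s3⟩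
        · rw [mem_union, not_or]; exact ⟨e2, fun h => hQL' hx1 (t1 h)⟩
        · rw [mem_union, not_or]; exact ⟨e3, fun h => hQL' hx1 (s1 h)⟩
        · rw [disjoint_union_left, disjoint_union_right, disjoint_union_right]
          refine ⟨⟨e4, ?_⟩, ?_, s2.2.symm⟩
          · rw [disjoint_left]; intro u hu hu'; exact hQL' (hA1 hu) (s1 hu')
          · rw [disjoint_left]; intro u hu hu'; exact hQL' (hB1 hu') (t1 hu)
        · rw [e5]; ext u; simp only [mem_union, mem_insert]; tauto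
      · have := card_union_le T1 T2
        omega

/-- **A good branch** is placed with its root in `R₁`, the rest in `R₁ ∪ L`, where `L` is arbitrary -/
theorem leaf_place (hT : AE32.Tour R) (q : Fd) {R₁ L : Finset V} (hd : Disjoint R₁ L)
    (h1 : ∀ σ, 16 * ((clo σ q).size + 1) ≤ R₁.card) (h2 : 64 * (q.size + 1) ≤ L.card) :
    ∃ u ∈ R₁, ∃ B ⊆ R₁ ∪ L, u ∉ B ∧ Emb R q u B := by
  obtain ⟨σ, hσ⟩ := maj hT hd
  obtain ⟨Q, hQ⟩ : ∃ Q, Q = R₁.filter (fun x => L.card ≤ 2 * (nb R σ L x).card) := ⟨_, rfl⟩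
  rw [← hQ] at hσ
  have hQR : Q ⊆ R₁ := by rw [hQ]; exact filter_subset _ _
  obtain ⟨u, hu, P, hP, huP, hE⟩ := four hT (clo σ q) (X := Q) (by have := h1 σ; omega)
  obtain ⟨T, t1, -, t3, -⟩ := clo_ext hT (hd.mono_left hQR) (a := 4 * (q.size + 1)) (σ := σ) (by
    intro x hx
    rw [hQ, mem_filter] at hx
    omega) q hu hP huP hE (W := ∅) (by simp)
  refine ⟨u, hQR hu, P ∪ T, union_subset_union (hP.trans hQR) t1, ?_, t3⟩
  rw [mem_union, not_or]
  exact ⟨huP, fun h => disjoint_left.1 hd (hQR hu) (t1 h)⟩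

/-- **A good segment** is placed with its root in `R₁` and its exit in `R₂` -/
theorem seg_place (hT : AE32.Tour R) {ε : ℝ} (M : Cx) (hM : Good2 ε M) {R₁ R₂ L : Finset V} (hd12 : Disjoint R₁ R₂)
    (hd1 : Disjoint R₁ L) (hd2 : Disjoint R₂ L) (h1 : 16 * (ε * (M.un.size + 1)) ≤ (R₁.card : ℝ))
    (h2 : 16 * (ε * (M.un.size + 1)) ≤ (R₂.card : ℝ)) (h3 : 1024 * (M.un.size + 1) ≤ L.card) :
    ∃ u ∈ R₁, ∃ y ∈ R₂, ∃ B ⊆ R₁ ∪ R₂ ∪ L, u ∉ B ∧ EmbC R M u B y := by
  obtain ⟨σ₁, hσ₁⟩ := maj hT hd1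
  obtain ⟨σ₂, hσ₂⟩ := maj hT hd2
  obtain ⟨Q₁, hQ₁⟩ : ∃ Q, Q = R₁.filter (fun x => L.card ≤ 2 * (nb R σ₁ L x).card) := ⟨_, rfl⟩
  obtain ⟨Q₂, hQ₂⟩ : ∃ Q, Q = R₂.filter (fun x => L.card ≤ 2 * (nb R σ₂ L x).card) := ⟨_, rfl⟩
  rw [← hQ₁] at hσ₁
  rw [← hQ₂] at hσ₂
  have hQR₁ : Q₁ ⊆ R₁ := by rw [hQ₁]; exact filter_subset _ _
  have hQR₂ : Q₂ ⊆ R₂ := by rw [hQ₂]; exact filter_subset _ _
  obtain ⟨U, C, B, hUCB, hU, hB, hC⟩ := hM σ₁ σ₂
  have hsz : M.un.size = U.un.size + (C.un.size + (B.un.size + 1) + 1) := by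
    rw [hUCB, Cx.size_cmp, Cx.size_cmp]
  obtain ⟨f, hf⟩ : ∃ f, f = M.un.size + 1 := ⟨_, rfl⟩
  have hUr : 16 * ((U.clo σ₁).un.size + 1) ≤ R₁.card := by
    have : (16 : ℝ) * ((U.clo σ₁).un.size + 1) ≤ R₁.card := by linarith
    exact_mod_cast this
  have hBr : 16 * ((B.clo σ₂).un.size + 1) ≤ R₂.card := by
    have : (16 : ℝ) * ((B.clo σ₂).un.size + 1) ≤ R₂.card := by linarith
    exact_mod_cast this
  -- the upper part
  obtain ⟨u, hu, P₁, hP₁, huP₁, hE₁⟩ := four hT (U.clo σ₁).un (X := Q₁) (by omega)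
  obtain ⟨h, hEU⟩ := exists_embC (U.clo σ₁) hE₁
  obtain ⟨T₁, t1, -, t3, t4⟩ := cloC_ext hT (hd1.mono_left hQR₁) (a := 4 * f) (σ := σ₁) (by
    intro x hx
    rw [hQ₁, mem_filter] at hx
    omega) U hu hP₁ huP₁ hEU (W := ∅) (by simp; omega)
  have hhQ : h ∈ Q₁ := by
    have := hEU.mem
    rw [mem_insert] at this
    rcases this with rfl | h'
    · exact hu
    · exact hP₁ h'
  -- the lower part
  obtain ⟨g, hg, P₂, hP₂, hgP₂, hE₂⟩ := four hT (B.clo σ₂).un (X := Q₂) (by omega)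
  obtain ⟨y, hEB⟩ := exists_embC (B.clo σ₂) hE₂
  obtain ⟨T₂, s1, s2, s3, s4⟩ := cloC_ext hT (hd2.mono_left hQR₂) (a := 8 * f) (σ := σ₂) (by
    intro x hx
    rw [hQ₂, mem_filter] at hx
    omega) B hg hP₂ hgP₂ hEB (W := T₁) (by
      have : (T₁ ∩ L).card ≤ T₁.card := card_le_card inter_subset_left
      omega)
  have hyQ : y ∈ Q₂ := by
    have := hEB.mem
    rw [mem_insert] at this
    rcases this with rfl | h'
    · exact hg
    · exact hP₂ h'
  -- the middle part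
  obtain ⟨N₁, hN₁⟩ : ∃ N, N = nb R σ₁ L h \ (T₁ ∪ T₂) := ⟨_, rfl⟩
  obtain ⟨N₂, hN₂⟩ : ∃ N, N = nb R σ₂ L g \ (T₁ ∪ T₂) := ⟨_, rfl⟩
  have hTT : (T₁ ∪ T₂).card ≤ 2 * f := by
    have := card_union_le T₁ T₂
    omega
  have hN₁c : 500 * f ≤ N₁.card := by
    have h4 := le_card_sdiff (T₁ ∪ T₂) (nb R σ₁ L h)
    rw [← hN₁] at h4
    rw [hQ₁, mem_filter] at hhQ
    have := hhQ.2
    omega
  have hN₂c : 500 * f ≤ N₂.card := by
    have h4 := le_card_sdiff (T₁ ∪ T₂) (nb R σ₂ L g)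
    rw [← hN₂] at h4
    rw [hQ₂, mem_filter] at hg
    have := hg.2
    omega
  obtain ⟨N₁', hN₁', hN₁'c⟩ := exists_subset_card_eq (show 200 * f ≤ N₁.card by omega)
  have hN₂'c : 300 * f ≤ (N₂ \ N₁').card := by
    have h4 := le_card_sdiff N₁' N₂
    omega
  obtain ⟨σ₃, hσ₃⟩ := maj hT (A := N₁') (L := N₂ \ N₁') disjoint_sdiff
  obtain ⟨Q₃, hQ₃⟩ : ∃ Q, Q = N₁'.filter (fun x => (N₂ \ N₁').card ≤ 2 * (nb R σ₃ (N₂ \ N₁') x).card) := ⟨_, rfl⟩
  rw [← hQ₃] at hσ₃
  have hQN₃ : Q₃ ⊆ N₁' := by rw [hQ₃]; exact filter_subset _ _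
  obtain ⟨C₁, C₂, hCC⟩ := hC σ₃
  have hszC : C.un.size = C₁.un.size + (C₂.un.size + 1) := by rw [hCC, Cx.size_cmp]
  obtain ⟨x₃, hx₃, P₃, hP₃, hxP₃, hE₃⟩ := four hT C₁.un (X := Q₃) (by omega)
  obtain ⟨h₃, hEC₁⟩ := exists_embC C₁ hE₃
  have hh₃ : h₃ ∈ Q₃ := by
    have := hEC₁.mem
    rw [mem_insert] at this
    rcases this with rfl | h'
    · exact hx₃
    · exact hP₃ h'
  obtain ⟨x₄, hx₄, P₄, hP₄, hxP₄, hE₄⟩ := four hT C₂.un (X := nb R σ₃ (N₂ \ N₁') h₃) (by
    rw [hQ₃, mem_filter] at hh₃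
    have := hh₃.2
    omega)
  obtain ⟨h₄, hEC₂⟩ := exists_embC C₂ hE₄
  have hnbN : nb R σ₃ (N₂ \ N₁') h₃ ⊆ N₂ \ N₁' := fun v hv => (mem_nb.1 hv).1
  have hh₄ : h₄ ∈ N₂ \ N₁' := by
    have := hEC₂.mem
    rw [mem_insert] at this
    rcases this with rfl | h'
    · exact hnbN hx₄
    · exact hnbN (hP₄ h')
  -- sets
  have hN₁L : ∀ {v}, v ∈ N₁ → v ∈ L ∧ v ∉ T₁ ∧ v ∉ T₂ := by
    intro v hv
    rw [hN₁, mem_sdiff, mem_nb, mem_union, not_or] at hv
    exact ⟨hv.1.1, hv.2⟩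
  have hN₂L : ∀ {v}, v ∈ N₂ → v ∈ L ∧ v ∉ T₁ ∧ v ∉ T₂ := by
    intro v hv
    rw [hN₂, mem_sdiff, mem_nb, mem_union, not_or] at hv
    exact ⟨hv.1.1, hv.2⟩
  have hA₃ : insert x₃ P₃ ⊆ N₁' := insert_subset (hQN₃ hx₃) (hP₃.trans hQN₃)
  have hA₄ : insert x₄ P₄ ⊆ N₂ \ N₁' := insert_subset (hnbN hx₄) (hP₄.trans hnbN)
  have hd34 : Disjoint (insert x₄ P₄) (insert x₃ P₃) := by
    rw [disjoint_left]
    intro v hv hv'
    exact (mem_sdiff.1 (hA₄ hv)).2 (hA₃ hv')
  -- the middle part with the lower part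
  have hEC := EmbC.cmp hEC₁ (mem_nb.1 hx₄).2 hEC₂ hxP₄ hd34
  rw [← hCC] at hEC
  have hCsub : insert x₃ (P₃ ∪ insert x₄ P₄) ⊆ N₁' ∪ (N₂ \ N₁') := by
    rw [← insert_union]
    exact union_subset_union hA₃ hA₄
  have hCL : ∀ {v}, v ∈ insert x₃ (P₃ ∪ insert x₄ P₄) → v ∈ L ∧ v ∉ T₁ ∧ v ∉ T₂ := by
    intro v hv
    rcases mem_union.1 (hCsub hv) with h' | h'
    · exact hN₁L (hN₁' h')
    · exact hN₂L (mem_sdiff.1 h').1
  have hgL : g ∉ L := fun h' => disjoint_left.1 hd2 (hQR₂ hg) h'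
  have hadj₄ : Adj R (!σ₂) h₄ g := by
    have := (mem_sdiff.1 hh₄).1
    rw [hN₂, mem_sdiff, mem_nb] at this
    exact adj_flip this.1.2
  have hgT₂ : g ∉ P₂ ∪ T₂ := by
    rw [mem_union, not_or]
    exact ⟨hgP₂, fun h' => hgL (s1 h')⟩
  have hBsub : insert g (P₂ ∪ T₂) ⊆ R₂ ∪ T₂ := by
    refine insert_subset (mem_union_left _ (hQR₂ hg)) (union_subset_union (hP₂.trans hQR₂) Subset.rfl)
  have hdBC : Disjoint (insert g (P₂ ∪ T₂)) (insert x₃ (P₃ ∪ insert x₄ P₄)) := by
    rw [disjoint_left]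
    intro v hv hv'
    have h4 := hCL hv'
    rcases mem_union.1 (hBsub hv) with h' | h'
    · exact disjoint_left.1 hd2 h' h4.1
    · exact h4.2.2 h'
  have hECB := EmbC.cmp hEC hadj₄ s3 hgT₂ hdBC
  -- the whole piece
  have hadj₁ : Adj R σ₁ h x₃ := by
    have := hN₁' (hQN₃ hx₃)
    rw [hN₁, mem_sdiff, mem_nb] at this
    exact this.1.2
  have hxnot : x₃ ∉ (P₃ ∪ insert x₄ P₄) ∪ insert g (P₂ ∪ T₂) := by
    rw [mem_union, mem_union, not_or, not_or]
    refine ⟨⟨hxP₃, fun h' => disjoint_left.1 hd34 h' (mem_insert_self _ _)⟩, fun h' => ?_⟩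
    exact disjoint_left.1 hdBC h' (mem_insert_self _ _)
  have hdU : Disjoint (insert x₃ ((P₃ ∪ insert x₄ P₄) ∪ insert g (P₂ ∪ T₂))) (insert u (P₁ ∪ T₁)) := by
    have hUsub : insert u (P₁ ∪ T₁) ⊆ R₁ ∪ T₁ :=
      insert_subset (mem_union_left _ (hQR₁ hu)) (union_subset_union (hP₁.trans hQR₁) Subset.rfl)
    rw [← insert_union, disjoint_left]
    intro v hv hv'
    rcases mem_union.1 hv with h4 | h4
    · have h5 := hCL h4
      rcases mem_union.1 (hUsub hv') with h' | h'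
      · exact disjoint_left.1 hd1 h' h5.1
      · exact h5.2.1 h'
    · rcases mem_union.1 (hBsub h4) with h5 | h5
      · rcases mem_union.1 (hUsub hv') with h' | h'
        · exact disjoint_left.1 hd12 h' h5
        · exact disjoint_left.1 hd2 h5 (t1 h')
      · rcases mem_union.1 (hUsub hv') with h' | h'
        · exact disjoint_left.1 hd1 h' (s1 h5)
        · exact disjoint_left.1 s2 h5 h'
  have hfin := EmbC.cmp t3 hadj₁ hECB hxnot hdU
  rw [← hUCB] at hfin
  refine ⟨u, hQR₁ hu, y, hQR₂ hyQ, _, ?_, ?_, hfin⟩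
  · refine union_subset (union_subset ?_ ?_) ?_
    · exact (hP₁.trans hQR₁).trans (subset_union_left.trans subset_union_left)
    · exact t1.trans subset_union_right
    · rw [← insert_union]
      refine union_subset ?_ ?_
      · intro v hv
        exact mem_union_right _ (hCL hv).1
      · intro v hv
        rcases mem_union.1 (hBsub hv) with h5 | h5
        · exact mem_union_left _ (mem_union_right _ h5)
        · exact mem_union_right _ (s1 h5)
  · intro h'
    rw [mem_union] at h'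
    rcases h' with h' | h'
    · rw [mem_union] at h'
      rcases h' with h' | h'
      · exact huP₁ h'
      · exact disjoint_left.1 hd1 (hQR₁ hu) (t1 h')
    · exact disjoint_left.1 hdU h' (mem_insert_self _ _)

end AEW
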