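import Pool.Agent.AEW.Core
import Pool.Agent.AEW.Piece

/-!
# Absorption by small pieces: the pieces are placed one after the other

`S` is the pool. A part `R₁` of the neighbours in `S` of the host of the piece is reserved (two parts `R₁`, `R₂` for a
segment), then the other pieces are placed, and finally the piece is placed in the reserved vertices and whatever remains.
-/

namespace AEW

open Finset AE15 AED AELT
open scoped Classical

variable {V : Type} {R : V → V → Prop}

private theorem embC_card {M : Cx} : ∀ {x : V} {S : Finset V} {w : V}, EmbC R M x S w → S.card = M.un.size := by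
  induction M with
  | here s => intro x S w h; exact h.1.card
  | dn d t s ih =>
    intro x S w h
    obtain ⟨x1, A, B, _, hA, hB, hAB, rfl, h1, h2⟩ := h
    rw [card_insert_of_notMem (by simp [hA, hB]), card_union_of_disjoint hAB, ih h1, h2.card]
    rfl
  | nx d c t ih =>
    intro x S w h
    obtain ⟨x1, A, B, _, hA, hB, hAB, rfl, h1, h2⟩ := h
    rw [card_insert_of_notMem (by simp [hA, hB]), card_union_of_disjoint hAB, h1.card, ih h2]
    rfl

private theorem pl_card (ps : List (Pd V)) : ∀ {Q : Finset V}, Pl R ps Q → Q.card = (ps.map Pd.sz).sum := by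
  induction ps with
  | nil =>
    intro Q h
    have h' : Q = ∅ := h
    simp [h']
  | cons p ps ih =>
    intro Q h
    cases p with
    | one w d q =>
      obtain ⟨u, B, Q', _, hu, hB, hd, rfl, h'⟩ := h
      rw [card_union_of_disjoint hd, card_insert_of_notMem hu, hB.card, ih h', List.map_cons, List.sum_cons]
      rfl
    | two w d M d' w' =>
      obtain ⟨u, y, B, Q', _, hu, hB, _, hd, rfl, h'⟩ := h
      rw [card_union_of_disjoint hd, card_insert_of_notMem hu, embC_card hB, ih h', List.map_cons, List.sum_cons]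
      rfl

private theorem nb_sdiff (d : Bool) (S T : Finset V) (w : V) {c : ℕ} (hT : T.card ≤ c) :
    ((nb R d S w).card : ℝ) - c ≤ ((nb R d (S \ T) w).card : ℝ) := by
  have h1 : nb R d S w \ T ⊆ nb R d (S \ T) w := by
    intro z hz
    simp only [nb, mem_sdiff, mem_filter] at hz ⊢
    exact ⟨⟨hz.1.1, hz.2⟩, hz.1.2⟩
  have h2 : (nb R d S w).card ≤ (nb R d (S \ T) w).card + T.card := by
    have h3 := card_le_card h1
    have h4 := le_card_sdiff T (nb R d S w)
    omega
  have h3 : (T.card : ℝ) ≤ c := by exact_mod_cast hT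
  have h4 : ((nb R d S w).card : ℝ) ≤ (nb R d (S \ T) w).card + T.card := by exact_mod_cast h2
  linarith

/-- **absorption**: `S` is the pool, `U` the set of all unused vertices -/
theorem absorb_list (hT : AE32.Tour R) {ε : ℝ} (hε : 0 < ε) (hε1 : ε ≤ 1 / 64) {m C : ℕ} (hC : 1024 * m ≤ C)
    (ps : List (Pd V)) (hps : ∀ p ∈ ps, p.Ok ε m) {U S : Finset V} (hSU : S ⊆ U) (hU : (ps.map Pd.sz).sum + C ≤ U.card)
    (hS : ∀ p ∈ ps, ∀ w ∈ p.hosts, ∀ d, 64 * ε * ((ps.map Pd.sz).sum : ℕ) ≤ ((nb R d S w).card : ℝ)) :
    ∃ Q ⊆ U, Pl R ps Q := by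
  induction ps generalizing U S with
  | nil => exact ⟨∅, empty_subset _, rfl⟩
  | cons p ps ih =>
    have hok := hps p (List.mem_cons_self ..)
    have hps' : ∀ p ∈ ps, p.Ok ε m := fun p hp => hps p (List.mem_cons_of_mem _ hp)
    rw [List.map_cons, List.sum_cons] at hU
    -- the size of the piece and the size of the reserved sets
    set f : ℕ := p.sz with hf
    set T : ℕ := (ps.map Pd.sz).sum with hTdef
    set r : ℕ := ⌈16 * (ε * (f : ℝ))⌉₊ with hr
    have hr1 : 16 * (ε * (f : ℝ)) ≤ r := Nat.le_ceil _
    have hr2 : (r : ℝ) < 16 * (ε * (f : ℝ)) + 1 := Nat.ceil_lt_add_one (by positivity)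
    have hef : 1 ≤ ε * (f : ℝ) := by
      cases p with
      | one w d q =>
        have h := hok.1 true
        have h0 : (0 : ℝ) ≤ ((clo true q).size : ℝ) := Nat.cast_nonneg _
        have e : (f : ℝ) = (q.size : ℝ) + 1 := by rw [hf]; simp [Pd.sz]
        rw [e]; linarith
      | two w d M d' w' =>
        obtain ⟨U1, _, _, _, h, _⟩ := hok.1 true true
        have h0 : (0 : ℝ) ≤ ((U1.clo true).un.size : ℝ) := Nat.cast_nonneg _
        have e : (f : ℝ) = (M.un.size : ℝ) + 1 := by rw [hf]; simp [Pd.sz]
        rw [e]; linarith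
    have hfm : f ≤ m := by
      cases p with
      | one w d q => exact hok.2
      | two w d M d' w' => exact hok.2
    have hf64 : 64 ≤ (f : ℝ) := by nlinarith [hef, hε1, hε, (Nat.cast_nonneg f : (0 : ℝ) ≤ f)]
    have hrf : 2 * r ≤ f := by
      have h : (2 * r : ℝ) ≤ f := by nlinarith [hr2, hε1, hf64]
      exact_mod_cast h
    have hS' : ∀ p' ∈ p :: ps, ∀ w ∈ p'.hosts, ∀ d, 64 * (ε * f) + 64 * ε * T ≤ ((nb R d S w).card : ℝ) := by
      intro p' hp' w hw d
      have h := hS p' hp' w hw d
      have e0 : (((p :: ps).map Pd.sz).sum : ℕ) = f + T := by rw [List.map_cons, List.sum_cons]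
      rw [e0] at h
      push_cast at h
      linarith
    have hT0 : 0 ≤ 64 * ε * (T : ℝ) := by positivity
    -- the tail, when a set of at most `2 r` vertices is reserved
    have htail : ∀ P : Finset V, P ⊆ U → P.card ≤ 2 * r → ∃ Q ⊆ U \ P, Pl R ps Q := by
      intro P hPU hP
      apply ih hps' (U := U \ P) (S := S \ P) (sdiff_subset_sdiff hSU (subset_refl _))
      · rw [card_sdiff_of_subset hPU]
        omega
      · intro p' hp' w hw d
        have h1 := hS' p' (List.mem_cons_of_mem _ hp') w hw d
        have h2 := nb_sdiff (R := R) d S P w hP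
        push_cast at h2
        linarith
    cases p with
    | one w d q =>
      have hw := hS' _ (List.mem_cons_self ..) w (by simp [Pd.hosts]) d
      have h1 : r ≤ (nb R d S w).card := by
        have : (r : ℝ) ≤ ((nb R d S w).card : ℝ) := by linarith
        exact_mod_cast this
      obtain ⟨R1, hR1, hR1c⟩ := exists_subset_card_eq h1
      have hR1U : R1 ⊆ U := hR1.trans ((filter_subset _ _).trans hSU)
      obtain ⟨Q, hQU, hQ⟩ := htail R1 hR1U (by omega)
      have hQc := pl_card ps hQ
      have hQR : Disjoint Q R1 := disjoint_left.2 fun z hz hz' => (mem_sdiff.1 (hQU hz)).2 hz'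
      set L := (U \ R1) \ Q with hL
      have hLc : L.card + r + T = U.card := by
        rw [hL, card_sdiff_of_subset hQU, card_sdiff_of_subset hR1U]
        have e1 := card_le_card hQU
        rw [card_sdiff_of_subset hR1U] at e1
        have e2 := card_le_card hR1U
        omega
      have hRL : Disjoint R1 L := disjoint_left.2 fun z hz hz' => (mem_sdiff.1 (mem_sdiff.1 hz').1).2 hz
      have hq : f = q.size + 1 := by rw [hf]; rfl
      obtain ⟨u, hu, B, hB, huB, hE⟩ := leaf_place hT q (R₁ := R1) (L := L) hRL (fun σ => by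
        have h := hok.1 σ
        have e : (f : ℝ) = (q.size : ℝ) + 1 := by rw [hq]; push_cast; ring
        rw [← e] at h
        have : (16 * (((clo σ q).size : ℕ) + 1 : ℝ)) ≤ R1.card := by rw [hR1c]; linarith
        exact_mod_cast this) (by omega)
      have hRLU : R1 ∪ L ⊆ U := union_subset hR1U ((sdiff_subset).trans sdiff_subset)
      have hRLQ : Disjoint (R1 ∪ L) Q := by
        rw [disjoint_union_left]
        exact ⟨hQR.symm, sdiff_disjoint⟩
      have huB' : insert u B ⊆ R1 ∪ L := insert_subset (mem_union_left _ hu) hB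
      exact ⟨insert u B ∪ Q, union_subset (huB'.trans hRLU) (hQU.trans sdiff_subset), u, B, Q,
        (mem_filter.1 (hR1 hu)).2, huB, hE, disjoint_of_subset_left huB' hRLQ, rfl, hQ⟩
    | two w d M d' w' =>
      have hw := hS' _ (List.mem_cons_self ..) w (by simp [Pd.hosts]) d
      have hw' := hS' _ (List.mem_cons_self ..) w' (by simp [Pd.hosts]) (!d')
      have h1 : r ≤ (nb R d S w).card := by
        have : (r : ℝ) ≤ ((nb R d S w).card : ℝ) := by linarith
        exact_mod_cast this
      obtain ⟨R1, hR1, hR1c⟩ := exists_subset_card_eq h1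
      have h2 : r ≤ (nb R (!d') S w' \ R1).card := by
        have h3 : 2 * r ≤ (nb R (!d') S w').card := by
          have : (2 * r : ℝ) ≤ ((nb R (!d') S w').card : ℝ) := by linarith
          exact_mod_cast this
        have h4 := le_card_sdiff R1 (nb R (!d') S w')
        omega
      obtain ⟨R2, hR2, hR2c⟩ := exists_subset_card_eq h2
      have hR1U : R1 ⊆ U := hR1.trans ((filter_subset _ _).trans hSU)
      have hR2U : R2 ⊆ U := (hR2.trans sdiff_subset).trans ((filter_subset _ _).trans hSU)
      have hR12 : Disjoint R1 R2 := disjoint_right.2 fun z hz => (mem_sdiff.1 (hR2 hz)).2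
      have hPc : (R1 ∪ R2).card = 2 * r := by rw [card_union_of_disjoint hR12]; omega
      have hPU : R1 ∪ R2 ⊆ U := union_subset hR1U hR2U
      obtain ⟨Q, hQU, hQ⟩ := htail (R1 ∪ R2) hPU hPc.le
      have hQc := pl_card ps hQ
      have hQR : Disjoint Q (R1 ∪ R2) := disjoint_left.2 fun z hz hz' => (mem_sdiff.1 (hQU hz)).2 hz'
      set L := (U \ (R1 ∪ R2)) \ Q with hL
      have hLc : L.card + 2 * r + T = U.card := by
        rw [hL, card_sdiff_of_subset hQU, card_sdiff_of_subset hPU]
        have e1 := card_le_card hQU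
        rw [card_sdiff_of_subset hPU] at e1
        have e2 := card_le_card hPU
        omega
      have hPL : Disjoint (R1 ∪ R2) L := disjoint_left.2 fun z hz hz' => (mem_sdiff.1 (mem_sdiff.1 hz').1).2 hz
      have hq : f = M.un.size + 1 := by rw [hf]; rfl
      have e : (f : ℝ) = (M.un.size : ℝ) + 1 := by rw [hq]; push_cast; ring
      obtain ⟨u, hu, y, hy, B, hB, huB, hE⟩ := seg_place hT M hok.1 (R₁ := R1) (R₂ := R2) (L := L) hR12
        (disjoint_of_subset_left subset_union_left hPL) (disjoint_of_subset_left subset_union_right hPL)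
        (by rw [← e, hR1c]; exact hr1) (by rw [← e, hR2c]; exact hr1) (by omega)
      have hRLU : R1 ∪ R2 ∪ L ⊆ U := union_subset hPU ((sdiff_subset).trans sdiff_subset)
      have hRLQ : Disjoint (R1 ∪ R2 ∪ L) Q := by
        rw [disjoint_union_left]
        exact ⟨hQR.symm, sdiff_disjoint⟩
      have huB' : insert u B ⊆ R1 ∪ R2 ∪ L := insert_subset (mem_union_left _ (mem_union_left _ hu)) hB
      have hyA : Adj R (!d') w' y := (mem_filter.1 (mem_sdiff.1 (hR2 hy)).1).2
      have hyA' : Adj R d' y w' := by
        cases d' <;> simpa [Adj] using hyA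
      exact ⟨insert u B ∪ Q, union_subset (huB'.trans hRLU) (hQU.trans sdiff_subset), u, y, B, Q,
        (mem_filter.1 (hR1 hu)).2, huB, hE, hyA', disjoint_of_subset_left huB' hRLQ, rfl, hQ⟩

end AEW
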