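import Pool.Agent.AEX.Four

/-!
# Absorption by small pieces: definitions

A tree is cut into its core and many small pieces: branches (`pc1`) and segments (`pc2`, a subtree with an exit below which
the tree goes on). Forests with a hole describe the segments.
-/

namespace AEW

open Finset AE15 AED AELT
open scoped Classical

/-- forests with a hole: a further tree may be put at the common vertex, in front of `s` (`here s`), or the hole is in the
first tree (`dn`), or behind the first tree (`nx`) -/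
inductive Cx : Type
  | here (s : Fd) : Cx
  | dn (d : Bool) (t : Cx) (s : Fd) : Cx
  | nx (d : Bool) (c : Fd) (t : Cx) : Cx

/-- the forest without the hole -/
def Cx.un : Cx → Fd
  | .here s => s
  | .dn d t s => .node d t.un s
  | .nx d c t => .node d c t.un

/-- the tree `p` is put into the hole -/
def Cx.plug (p : Bool × Fd) : Cx → Fd
  | .here s => .node p.1 p.2 s
  | .dn d t s => .node d (t.plug p) s
  | .nx d c t => .node d c (t.plug p)

/-- the directions of the arcs from the common vertex to the vertex with the hole -/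
def Cx.sg : Cx → List Bool
  | .here _ => []
  | .dn d t _ => d :: t.sg
  | .nx _ _ t => t.sg

/-- the tree with direction `d` and children forest `M` (with a hole) is put into the hole -/
def Cx.cmp : Cx → Bool → Cx → Cx
  | .here s, d, M => .dn d M s
  | .dn d1 t s, d, M => .dn d1 (t.cmp d M) s
  | .nx d1 c t, d, M => .nx d1 c (t.cmp d M)

/-- what remains at the common vertex if all branches with an arc of direction `σ` to their root are removed -/
def clo (σ : Bool) : Fd → Fd
  | .nil => .nil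
  | .node d c s => if d = σ then clo σ s else .node d (clo σ c) (clo σ s)

/-- the same for a forest with a hole; the path to the hole remains -/
def Cx.clo (σ : Bool) : Cx → Cx
  | .here s => .here (AEW.clo σ s)
  | .dn d t s => .dn d (t.clo σ) (AEW.clo σ s)
  | .nx d c t => if d = σ then t.clo σ else .nx d (AEW.clo σ c) (t.clo σ)

variable {V : Type*} {R : V → V → Prop}

/-- the forest hangs on `x` and covers `S`, the vertex with the hole being put on `w` -/
def EmbC (R : V → V → Prop) : Cx → V → Finset V → V → Prop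
  | .here s, x, S, w => Emb R s x S ∧ w = x
  | .dn d t s, x, S, w => ∃ x1 A B, Adj R d x x1 ∧ x1 ∉ A ∧ x1 ∉ B ∧ Disjoint A B ∧ S = insert x1 (A ∪ B) ∧
      EmbC R t x1 A w ∧ Emb R s x B
  | .nx d c t, x, S, w => ∃ x1 A B, Adj R d x x1 ∧ x1 ∉ A ∧ x1 ∉ B ∧ Disjoint A B ∧ S = insert x1 (A ∪ B) ∧
      Emb R c x1 A ∧ EmbC R t x B w

/-- forests with pieces: `node` is an ordinary vertex, `pc1` is a branch which is a piece; the root of the piece `M` of
`pc2` hangs on the common vertex, and in the hole of `M` there is an ordinary vertex with the forest `c` -/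
inductive Dk : Type
  | nil : Dk
  | node (d : Bool) (c s : Dk) : Dk
  | pc1 (d : Bool) (q : Fd) (s : Dk) : Dk
  | pc2 (d : Bool) (M : Cx) (d' : Bool) (c s : Dk) : Dk

/-- the forest -/
def Dk.un : Dk → Fd
  | .nil => .nil
  | .node d c s => .node d c.un s.un
  | .pc1 d q s => .node d q s.un
  | .pc2 d M d' c s => .node d (M.plug (d', c.un)) s.un

/-- the component of the common vertex after removal of the pieces -/
def Dk.core : Dk → Fd
  | .nil => .nil
  | .node d c s => .node d c.core s.core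
  | .pc1 _ _ s => s.core
  | .pc2 _ _ _ _ s => s.core

/-- number of vertices outside the pieces -/
def Dk.csz : Dk → ℕ
  | .nil => 0
  | .node _ c s => c.csz + s.csz + 1
  | .pc1 _ _ s => s.csz
  | .pc2 _ _ _ c s => c.csz + s.csz + 1

/-- number of vertices in the pieces -/
def Dk.psz : Dk → ℕ
  | .nil => 0
  | .node _ c s => c.psz + s.psz
  | .pc1 _ q s => s.psz + (q.size + 1)
  | .pc2 _ M _ c s => c.psz + s.psz + (M.un.size + 1)

/-- number of pieces -/
def Dk.cnt : Dk → ℕ
  | .nil => 0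
  | .node _ c s => c.cnt + s.cnt
  | .pc1 _ _ s => s.cnt + 1
  | .pc2 _ _ _ c s => c.cnt + s.cnt + 1

/-- a branch which can absorb any vertices: only few vertices are joined to its root by directed paths -/
def Good1 (ε : ℝ) (q : Fd) : Prop := ∀ σ : Bool, ((clo σ q).size : ℝ) + 1 ≤ ε * (q.size + 1)

/-- a segment which can absorb any vertices -/
def Good2 (ε : ℝ) (M : Cx) : Prop := ∀ σ₁ σ₂ : Bool, ∃ U C B : Cx,
  M = U.cmp σ₁ (C.cmp (!σ₂) B) ∧ ((U.clo σ₁).un.size : ℝ) + 1 ≤ ε * (M.un.size + 1) ∧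
    ((B.clo σ₂).un.size : ℝ) + 1 ≤ ε * (M.un.size + 1) ∧ ∀ σ₃ : Bool, ∃ C₁ C₂ : Cx, C = C₁.cmp σ₃ C₂

/-- all pieces are good and have at most `m` vertices -/
def Dk.Ok (ε : ℝ) (m : ℕ) : Dk → Prop
  | .nil => True
  | .node _ c s => c.Ok ε m ∧ s.Ok ε m
  | .pc1 _ q s => Good1 ε q ∧ q.size + 1 ≤ m ∧ s.Ok ε m
  | .pc2 _ M _ c s => Good2 ε M ∧ M.un.size + 1 ≤ m ∧ c.Ok ε m ∧ s.Ok ε m

/-- the tree is contained in every set of `|T| + C` vertices of every tournament -/
def Fits (C : ℕ) (c : Fd) : Prop := ∀ {V : Type} {R : V → V → Prop}, AE32.Tour R → ∀ X : Finset V,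
  c.size + 1 + C ≤ X.card → In R c (fun _ => True) X

/-- all orientations of a forest -/
noncomputable def OF : Fd → Finset Fd
  | .nil => {.nil}
  | .node _ c s => ((univ : Finset Bool) ×ˢ (OF c ×ˢ OF s)).image (fun p => .node p.1 p.2.1 p.2.2)

/-- all orientations of a forest with a hole -/
noncomputable def OC : Cx → Finset Cx
  | .here s => (OF s).image .here
  | .dn _ t s => ((univ : Finset Bool) ×ˢ (OC t ×ˢ OF s)).image (fun p => .dn p.1 p.2.1 p.2.2)
  | .nx _ c t => ((univ : Finset Bool) ×ˢ (OF c ×ˢ OC t)).image (fun p => .nx p.1 p.2.1 p.2.2)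

/-- all orientations of a forest with pieces -/
noncomputable def OD : Dk → Finset Dk
  | .nil => {.nil}
  | .node _ c s => ((univ : Finset Bool) ×ˢ (OD c ×ˢ OD s)).image (fun p => .node p.1 p.2.1 p.2.2)
  | .pc1 _ q s => ((univ : Finset Bool) ×ˢ (OF q ×ˢ OD s)).image (fun p => .pc1 p.1 p.2.1 p.2.2)
  | .pc2 _ M _ c s => (((univ : Finset Bool) ×ˢ OC M) ×ˢ ((univ : Finset Bool) ×ˢ (OD c ×ˢ OD s))).image
      (fun p => .pc2 p.1.1 p.1.2 p.2.1 p.2.2.1 p.2.2.2)

/-- number of good pieces -/
noncomputable def Dk.gct (ε : ℝ) : Dk → ℕ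
  | .nil => 0
  | .node _ c s => c.gct ε + s.gct ε
  | .pc1 _ q s => s.gct ε + if Good1 ε q then 1 else 0
  | .pc2 _ M _ c s => c.gct ε + s.gct ε + if Good2 ε M then 1 else 0

/-- the pieces have between `a` and `m` vertices; the paths through the segments have at least `L` arcs -/
def Dk.Sz (a m L : ℕ) : Dk → Prop
  | .nil => True
  | .node _ c s => c.Sz a m L ∧ s.Sz a m L
  | .pc1 _ q s => a ≤ q.size + 1 ∧ q.size + 1 ≤ m ∧ s.Sz a m L
  | .pc2 _ M _ c s => a ≤ M.un.size + 1 ∧ M.un.size + 1 ≤ m ∧ L ≤ M.sg.length ∧ c.Sz a m L ∧ s.Sz a m L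

theorem Cx.size_plug (p : Bool × Fd) (M : Cx) : (M.plug p).size = M.un.size + (p.2.size + 1) := by
  induction M with
  | here s => simp only [Cx.plug, Cx.un, Fd.size]; omega
  | dn d t s ih => simp only [Cx.plug, Cx.un, Fd.size, ih]; omega
  | nx d c t ih => simp only [Cx.plug, Cx.un, Fd.size, ih]; omega

theorem Cx.plug_cmp (d : Bool) (M : Cx) (p : Bool × Fd) (U : Cx) : (U.cmp d M).plug p = U.plug (d, M.plug p) := by
  induction U with
  | here s => rfl
  | dn d1 t s ih => simp only [Cx.cmp, Cx.plug, ih]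
  | nx d1 c t ih => simp only [Cx.cmp, Cx.plug, ih]

theorem Cx.size_cmp (d : Bool) (M : Cx) (U : Cx) : (U.cmp d M).un.size = U.un.size + (M.un.size + 1) := by
  induction U with
  | here s => simp only [Cx.cmp, Cx.un, Fd.size]; omega
  | dn d1 t s ih => simp only [Cx.cmp, Cx.un, Fd.size, ih]; omega
  | nx d1 c t ih => simp only [Cx.cmp, Cx.un, Fd.size, ih]; omega

theorem Cx.sg_cmp (d : Bool) (M : Cx) (U : Cx) : (U.cmp d M).sg = U.sg ++ d :: M.sg := by
  induction U with
  | here s => rfl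
  | dn d1 t s ih => simp only [Cx.cmp, Cx.sg, ih, List.cons_append]
  | nx d1 c t ih => simp only [Cx.cmp, Cx.sg, ih]

theorem Cx.cmp_assoc (d d' : Bool) (M N : Cx) (U : Cx) : (U.cmp d M).cmp d' N = U.cmp d (M.cmp d' N) := by
  induction U with
  | here s => rfl
  | dn d1 t s ih => simp only [Cx.cmp, ih]
  | nx d1 c t ih => simp only [Cx.cmp, ih]

theorem Dk.size_un (D : Dk) : D.un.size = D.csz + D.psz := by
  induction D with
  | nil => rfl
  | node d c s ihc ihs => simp only [Dk.un, Dk.csz, Dk.psz, Fd.size, ihc, ihs]; omega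
  | pc1 d q s ihs => simp only [Dk.un, Dk.csz, Dk.psz, Fd.size, ihs]; omega
  | pc2 d M d' c s ihc ihs =>
    simp only [Dk.un, Dk.csz, Dk.psz, Fd.size, Cx.size_plug, ihc, ihs]
    omega

theorem mem_OF_nil {c : Fd} : c ∈ OF .nil ↔ c = .nil := by simp [OF]

theorem mem_OF_node {c' c s : Fd} {d : Bool} : c' ∈ OF (.node d c s) ↔
    ∃ d' c1 s1, c1 ∈ OF c ∧ s1 ∈ OF s ∧ c' = .node d' c1 s1 := by
  simp only [OF, mem_image, mem_product, mem_univ, true_and, Prod.exists]
  constructor
  · rintro ⟨d', c1, s1, ⟨h1, h2⟩, rfl⟩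
    exact ⟨d', c1, s1, h1, h2, rfl⟩
  · rintro ⟨d', c1, s1, h1, h2, rfl⟩
    exact ⟨d', c1, s1, ⟨h1, h2⟩, rfl⟩

/-- an orientation has the same size, the same number of trees and the same degrees -/
theorem OF_size {c : Fd} : ∀ {c' : Fd}, c' ∈ OF c → c'.size = c.size ∧ c'.len = c.len := by
  induction c with
  | nil => intro c' h; rw [mem_OF_nil] at h; subst h; exact ⟨rfl, rfl⟩
  | node d c s ihc ihs =>
    intro c' h
    obtain ⟨d', c1, s1, h1, h2, rfl⟩ := mem_OF_node.1 h
    obtain ⟨a1, a2⟩ := ihc h1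
    obtain ⟨b1, b2⟩ := ihs h2
    exact ⟨by simp only [Fd.size, a1, b1], by simp only [Fd.len, b2]⟩

theorem OF_deg {b : ℕ} {c : Fd} : ∀ {c' : Fd}, c' ∈ OF c → c.Deg b → c'.Deg b := by
  induction c with
  | nil => intro c' h _; rw [mem_OF_nil] at h; subst h; trivial
  | node d c s ihc ihs =>
    intro c' h hD
    obtain ⟨d', c1, s1, h1, h2, rfl⟩ := mem_OF_node.1 h
    obtain ⟨g1, g2, g3⟩ := hD
    exact ⟨by rw [(OF_size h1).2]; exact g1, ihc h1 g2, ihs h2 g3⟩

end AEW
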