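import Pool.Agent.AEW.Defs

/-!
# Trees most of whose pieces are good
-/

set_option autoImplicit false

namespace AEW

open Finset AE15 AED AELT
open scoped Classical

/-- a forest without pieces -/
private def plain : Fd → Dk
  | .nil => .nil
  | .node d c s => .node d (plain c) (plain s)

private theorem plain_un (c : Fd) : (plain c).un = c := by
  induction c with
  | nil => rfl
  | node d c s ihc ihs => simp only [plain, Dk.un, ihc, ihs]

private theorem plain_ok (ε : ℝ) (m : ℕ) (c : Fd) : (plain c).Ok ε m := by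
  induction c with
  | nil => trivial
  | node d c s ihc ihs => exact ⟨ihc, ihs⟩

private theorem plain_psz (c : Fd) : (plain c).psz = 0 := by
  induction c with
  | nil => rfl
  | node d c s ihc ihs => simp only [plain, Dk.psz, ihc, ihs]

/-- a forest with pieces is put into a hole, the rest being ordinary vertices -/
private def plugD (d' : Bool) (c : Dk) : Cx → Dk
  | .here s => .node d' c (plain s)
  | .dn d t s => .node d (plugD d' c t) (plain s)
  | .nx d q t => .node d (plain q) (plugD d' c t)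

private theorem plugD_un (d' : Bool) (c : Dk) (M : Cx) : (plugD d' c M).un = M.plug (d', c.un) := by
  induction M with
  | here s => simp only [plugD, Dk.un, Cx.plug, plain_un]
  | dn d t s ih => simp only [plugD, Dk.un, Cx.plug, plain_un, ih]
  | nx d q t ih => simp only [plugD, Dk.un, Cx.plug, plain_un, ih]

private theorem plugD_ok {ε : ℝ} {m : ℕ} (d' : Bool) {c : Dk} (hc : c.Ok ε m) (M : Cx) : (plugD d' c M).Ok ε m := by
  induction M with
  | here s => exact ⟨hc, plain_ok ε m s⟩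
  | dn d t s ih => exact ⟨ih, plain_ok ε m s⟩
  | nx d q t ih => exact ⟨plain_ok ε m q, ih⟩

private theorem plugD_psz (d' : Bool) (c : Dk) (M : Cx) : (plugD d' c M).psz = c.psz := by
  induction M with
  | here s => simp only [plugD, Dk.psz, plain_psz, add_zero]
  | dn d t s ih => simp only [plugD, Dk.psz, plain_psz, ih, add_zero]
  | nx d q t ih => simp only [plugD, Dk.psz, plain_psz, ih, zero_add]

/-- the bad pieces become ordinary vertices -/
private theorem opn (ε : ℝ) (a m L : ℕ) (D : Dk) (hD : D.Sz a m L) :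
    ∃ D' : Dk, D'.un = D.un ∧ D'.Ok ε m ∧ a * D.gct ε ≤ D'.psz := by
  induction D with
  | nil => exact ⟨.nil, rfl, trivial, by simp [Dk.gct]⟩
  | node d c s ihc ihs =>
    obtain ⟨C', c1, c2, c3⟩ := ihc hD.1
    obtain ⟨S', s1, s2, s3⟩ := ihs hD.2
    refine ⟨.node d C' S', ?_, ⟨c2, s2⟩, ?_⟩
    · simp only [Dk.un, c1, s1]
    · simp only [Dk.gct, Dk.psz, mul_add]
      omega
  | pc1 d q s ihs =>
    obtain ⟨h1, h2, h3⟩ := hD
    obtain ⟨S', s1, s2, s3⟩ := ihs h3
    by_cases hg : Good1 ε q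
    · refine ⟨.pc1 d q S', ?_, ⟨hg, h2, s2⟩, ?_⟩
      · simp only [Dk.un, s1]
      · simp only [Dk.gct, Dk.psz, if_pos hg, mul_add, mul_one]
        omega
    · refine ⟨.node d (plain q) S', ?_, ⟨plain_ok ε m q, s2⟩, ?_⟩
      · simp only [Dk.un, s1, plain_un]
      · simp only [Dk.gct, Dk.psz, if_neg hg, plain_psz, add_zero, zero_add]
        exact s3
  | pc2 d M d' c s ihc ihs =>
    obtain ⟨h1, h2, -, h3, h4⟩ := hD
    obtain ⟨C', c1, c2, c3⟩ := ihc h3
    obtain ⟨S', s1, s2, s3⟩ := ihs h4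
    by_cases hg : Good2 ε M
    · refine ⟨.pc2 d M d' C' S', ?_, ⟨hg, h2, c2, s2⟩, ?_⟩
      · simp only [Dk.un, c1, s1]
      · simp only [Dk.gct, Dk.psz, if_pos hg, mul_add, mul_one]
        omega
    · refine ⟨.node d (plugD d' C' M) S', ?_, ⟨plugD_ok d' c2 M, s2⟩, ?_⟩
      · simp only [Dk.un, plugD_un, c1, s1]
      · simp only [Dk.gct, Dk.psz, if_neg hg, plugD_psz, add_zero, mul_add]
        omega

/-- the absorption theorem -/
def AbsorbSt (b : ℕ) : Prop := ∀ θ : ℝ, 0 < θ → ∃ ε : ℝ, 0 < ε ∧ ∀ m : ℕ, ∃ C : ℕ, ∀ D : Dk, D.un.len ≤ b →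
    D.un.Deg b → D.Ok ε m → θ * (D.un.size + 1) ≤ D.psz → Fits C D.un

/-- the deterministic theorem for trees all but half of whose pieces are good, from the absorption theorem -/
theorem det_of (b L : ℕ) (hb : 1 ≤ b) (hA : AbsorbSt b) : ∃ ε : ℝ, 0 < ε ∧ ∀ a : ℕ, 1 ≤ a → ∃ C : ℕ, ∀ D : Dk,
    D.un.len ≤ b → D.un.Deg b →
    D.Sz a (16 * b ^ 2 * (L + 1) * a) L → D.un.size + 1 ≤ 2 * (16 * b ^ 2 * (L + 1) * a) * (D.cnt + 1) →
      D.cnt ≤ 2 * D.gct ε → Fits C D.un := by
  obtain ⟨B, hB⟩ : ∃ B : ℕ, B = 16 * b ^ 2 * (L + 1) := ⟨_, rfl⟩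
  have hB1 : 1 ≤ B := by
    rw [hB]
    have h1 : 1 ≤ b ^ 2 := Nat.one_le_pow _ _ hb
    have h2 : 1 ≤ b ^ 2 * (L + 1) := Nat.mul_pos h1 (by omega)
    calc 1 ≤ b ^ 2 * (L + 1) := h2
      _ ≤ 16 * (b ^ 2 * (L + 1)) := by omega
      _ = 16 * b ^ 2 * (L + 1) := by ring
  have hBR : (1 : ℝ) ≤ B := by exact_mod_cast hB1
  obtain ⟨ε, hε, h⟩ := hA (1 / (6 * B)) (by positivity)
  refine ⟨ε, hε, fun a ha => ?_⟩
  rw [← hB]
  obtain ⟨C, hC⟩ := h (B * a)
  refine ⟨max C (6 * (B * a)), fun D hl hd hS hsz hg => ?_⟩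
  rcases Nat.eq_zero_or_pos (D.gct ε) with h0 | h0
  · -- a small tree
    have hcnt : D.cnt = 0 := by omega
    rw [hcnt] at hsz
    intro V R hT X hX
    refine AEX.un_four hT b D.un hl hd X ?_
    have h2 : 4 * (D.un.size + 1) ≤ X.card := by
      have := le_max_right C (6 * (B * a))
      omega
    have h3 : ((4 * (D.un.size + 1) : ℕ) : ℝ) ≤ X.card := by exact_mod_cast h2
    push_cast at h3
    linarith
  · obtain ⟨D', e1, e2, e3⟩ := opn ε a (B * a) L D hS
    have hfit : Fits C D.un := by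
      rw [← e1]
      refine hC D' (by rw [e1]; exact hl) (by rw [e1]; exact hd) e2 ?_
      rw [e1]
      have h1 : D.un.size + 1 ≤ 6 * B * (a * D.gct ε) := by
        calc D.un.size + 1 ≤ 2 * (B * a) * (D.cnt + 1) := hsz
          _ ≤ 2 * (B * a) * (3 * D.gct ε) := Nat.mul_le_mul_left _ (by omega)
          _ = 6 * B * (a * D.gct ε) := by ring
      have h2 : D.un.size + 1 ≤ 6 * B * D'.psz := h1.trans (Nat.mul_le_mul_left _ e3)
      have h3 : ((D.un.size : ℝ) + 1) ≤ 6 * B * D'.psz := by exact_mod_cast h2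
      rw [one_div, ← div_eq_inv_mul, div_le_iff₀ (by positivity)]
      linarith
    intro V R hT X hX
    exact hfit hT X (by have := le_max_left C (6 * (B * a)); omega)

end AEW
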