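import Pool.Agent.AEW.Defs

/-!
# Random orientations of codes

`Tr α` are forests with labels on the vertices; `g a` is the probability that the arc above the vertex with label `a` has
direction `true`. The expectations are defined by recursion.
-/

namespace AEW

open Finset AE15 AED AELT
open scoped Classical

/-! ### Functionals -/

/-- expectation of a function of a random bit which is `true` with probability `p` -/
def E1 (p : ℝ) (φ : Bool → ℝ) : ℝ := p * φ true + (1 - p) * φ false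

/-- expectations of functions of a random element which lies in `S` -/
structure Pf {β : Type*} (S : β → Prop) (Φ : (β → ℝ) → ℝ) : Prop where
  add : ∀ φ ψ, Φ (fun x => φ x + ψ x) = Φ φ + Φ ψ
  mul : ∀ (a : ℝ) φ, Φ (fun x => a * φ x) = a * Φ φ
  one : Φ (fun _ => 1) = 1
  mono : ∀ φ ψ, (∀ x, S x → φ x ≤ ψ x) → Φ φ ≤ Φ ψ

namespace Pf

variable {β γ : Type*} {S : β → Prop} {Φ : (β → ℝ) → ℝ} {S' : γ → Prop} {Ψ : (γ → ℝ) → ℝ}

theorem const (h : Pf S Φ) (a : ℝ) : Φ (fun _ => a) = a := by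
  have h1 := h.mul a (fun _ => 1)
  simp only [mul_one, h.one] at h1
  exact h1

theorem congr (h : Pf S Φ) {φ ψ : β → ℝ} (h1 : ∀ x, S x → φ x = ψ x) : Φ φ = Φ ψ :=
  le_antisymm (h.mono _ _ fun x hx => (h1 x hx).le) (h.mono _ _ fun x hx => (h1 x hx).ge)

theorem nonneg (h : Pf S Φ) {φ : β → ℝ} (h1 : ∀ x, S x → 0 ≤ φ x) : 0 ≤ Φ φ := by
  have := h.mono (fun _ => 0) φ h1
  rwa [h.const] at this

/-- product rule -/
theorem prod (h : Pf S Φ) (h' : Pf S' Ψ) (f : β → ℝ) (f' : γ → ℝ) :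
    Φ (fun x => Ψ (fun y => f x * f' y)) = Φ f * Ψ f' := by
  have h1 : ∀ x, Ψ (fun y => f x * f' y) = Ψ f' * f x := fun x => by rw [h'.mul, mul_comm]
  simp only [h1]
  rw [h.mul, mul_comm]

end Pf

theorem E1_pf {p : ℝ} (h0 : 0 ≤ p) (h1 : p ≤ 1) : Pf (fun _ => True) (E1 p) := by
  refine ⟨fun φ ψ => ?_, fun a φ => ?_, ?_, fun φ ψ h => ?_⟩
  · unfold E1
    ring
  · unfold E1
    ring
  · unfold E1
    ring
  · unfold E1
    exact add_le_add (mul_le_mul_of_nonneg_left (h _ trivial) h0)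
      (mul_le_mul_of_nonneg_left (h _ trivial) (by linarith))

/-! ### Labelled forests -/

/-- forests with labels on the vertices -/
inductive Tr (α : Type) : Type
  | nil : Tr α
  | node (a : α) (c s : Tr α) : Tr α

/-- labelled forests with a hole -/
inductive CT (α : Type) : Type
  | here (s : Tr α) : CT α
  | dn (a : α) (t : CT α) (s : Tr α) : CT α
  | nx (a : α) (c : Tr α) (t : CT α) : CT α

/-- labelled forests with pieces -/
inductive DT (α : Type) : Type
  | nil : DT α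
  | node (a : α) (c s : DT α) : DT α
  | pc1 (a : α) (q : Tr α) (s : DT α) : DT α
  | pc2 (a : α) (M : CT α) (a' : α) (c s : DT α) : DT α

variable {α : Type}

/-- number of vertices -/
def Tr.size : Tr α → ℕ
  | .nil => 0
  | .node _ c s => c.size + s.size + 1

/-- number of trees -/
def Tr.len : Tr α → ℕ
  | .nil => 0
  | .node _ _ s => s.len + 1

/-- every vertex has at most `b` children -/
def Tr.Deg (b : ℕ) : Tr α → Prop
  | .nil => True
  | .node _ c s => c.len ≤ b ∧ c.Deg b ∧ s.Deg b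

/-- all labels satisfy `p` -/
def Tr.All (p : α → Prop) : Tr α → Prop
  | .nil => True
  | .node a c s => p a ∧ c.All p ∧ s.All p

/-- the orientation in which the arc above the vertex with label `a` has direction `f a` -/
def Tr.or (f : α → Bool) : Tr α → Fd
  | .nil => .nil
  | .node a c s => .node (f a) (c.or f) (s.or f)

/-- the unlabelled forest -/
def CT.un : CT α → Tr α
  | .here s => s
  | .dn a t s => .node a t.un s
  | .nx a c t => .node a c t.un

/-- a tree is put into the hole -/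
def CT.plug (a' : α) (c' : Tr α) : CT α → Tr α
  | .here s => .node a' c' s
  | .dn a t s => .node a (t.plug a' c') s
  | .nx a c t => .node a c (t.plug a' c')

/-- number of arcs of the path to the hole -/
def CT.pl : CT α → ℕ
  | .here _ => 0
  | .dn _ t _ => t.pl + 1
  | .nx _ _ t => t.pl

/-- all labels satisfy `p` -/
def CT.All (p : α → Prop) : CT α → Prop
  | .here s => s.All p
  | .dn a t s => p a ∧ t.All p ∧ s.All p
  | .nx a c t => p a ∧ c.All p ∧ t.All p

/-- the forest -/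
def DT.un : DT α → Tr α
  | .nil => .nil
  | .node a c s => .node a c.un s.un
  | .pc1 a q s => .node a q s.un
  | .pc2 a M a' c s => .node a (M.plug a' c.un) s.un

/-- number of pieces -/
def DT.cnt : DT α → ℕ
  | .nil => 0
  | .node _ c s => c.cnt + s.cnt
  | .pc1 _ _ s => s.cnt + 1
  | .pc2 _ _ _ c s => c.cnt + s.cnt + 1

/-- all labels satisfy `p` -/
def DT.All (p : α → Prop) : DT α → Prop
  | .nil => True
  | .node a c s => p a ∧ c.All p ∧ s.All p
  | .pc1 a q s => p a ∧ q.All p ∧ s.All p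
  | .pc2 a M a' c s => p a ∧ M.All p ∧ p a' ∧ c.All p ∧ s.All p

/-! ### Shapes -/

/-- `c` is an orientation of `T` -/
def Sh : Tr α → Fd → Prop
  | .nil, x => x = .nil
  | .node _ c s, x => ∃ d c' s', x = .node d c' s' ∧ Sh c c' ∧ Sh s s'

/-- the same for forests with a hole -/
def ShC : CT α → Cx → Prop
  | .here s, x => ∃ s', x = .here s' ∧ Sh s s'
  | .dn _ t s, x => ∃ d t' s', x = .dn d t' s' ∧ ShC t t' ∧ Sh s s'
  | .nx _ c t, x => ∃ d c' t', x = .nx d c' t' ∧ Sh c c' ∧ ShC t t'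

/-- the same for forests with pieces -/
def ShD : DT α → Dk → Prop
  | .nil, x => x = .nil
  | .node _ c s, x => ∃ d c' s', x = .node d c' s' ∧ ShD c c' ∧ ShD s s'
  | .pc1 _ q s, x => ∃ d q' s', x = .pc1 d q' s' ∧ Sh q q' ∧ ShD s s'
  | .pc2 _ M _ c s, x => ∃ d M' d' c' s', x = .pc2 d M' d' c' s' ∧ ShC M M' ∧ ShD c c' ∧ ShD s s'

theorem Sh.size {T : Tr α} : ∀ {c : Fd}, Sh T c → c.size = T.size := by
  induction T with
  | nil => rintro c rfl; rfl
  | node a t s iht ihs =>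
    rintro c ⟨d, c', s', rfl, h1, h2⟩
    simp only [Fd.size, Tr.size, iht h1, ihs h2]

theorem Sh.len {T : Tr α} : ∀ {c : Fd}, Sh T c → c.len = T.len := by
  induction T with
  | nil => rintro c rfl; rfl
  | node a t s iht ihs =>
    rintro c ⟨d, c', s', rfl, h1, h2⟩
    simp only [Fd.len, Tr.len, ihs h2]

theorem Sh.deg {T : Tr α} {b : ℕ} : ∀ {c : Fd}, Sh T c → T.Deg b → c.Deg b := by
  induction T with
  | nil => rintro c rfl _; trivial
  | node a t s iht ihs =>
    rintro c ⟨d, c', s', rfl, h1, h2⟩ ⟨g1, g2, g3⟩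
    exact ⟨by rw [h1.len]; exact g1, iht h1 g2, ihs h2 g3⟩

theorem Sh.or (f : α → Bool) (T : Tr α) : Sh T (T.or f) := by
  induction T with
  | nil => rfl
  | node a t s iht ihs => exact ⟨f a, _, _, rfl, iht, ihs⟩

theorem ShC.un {T : CT α} : ∀ {M : Cx}, ShC T M → Sh T.un M.un := by
  induction T with
  | here s =>
    rintro M ⟨s', rfl, h⟩
    exact h
  | dn a t s ih =>
    rintro M ⟨d, t', s', rfl, h1, h2⟩
    exact ⟨d, _, _, rfl, ih h1, h2⟩
  | nx a c t ih =>
    rintro M ⟨d, c', t', rfl, h1, h2⟩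
    exact ⟨d, _, _, rfl, h1, ih h2⟩

theorem ShC.sg {T : CT α} : ∀ {M : Cx}, ShC T M → M.sg.length = T.pl := by
  induction T with
  | here s =>
    rintro M ⟨s', rfl, h⟩
    rfl
  | dn a t s ih =>
    rintro M ⟨d, t', s', rfl, h1, h2⟩
    simp only [Cx.sg, CT.pl, List.length_cons, ih h1]
  | nx a c t ih =>
    rintro M ⟨d, c', t', rfl, h1, h2⟩
    simp only [Cx.sg, CT.pl, ih h2]

theorem ShC.plug {T : CT α} {a : α} {c : Tr α} {d : Bool} {c' : Fd} (hc : Sh c c') :
    ∀ {M : Cx}, ShC T M → Sh (T.plug a c) (M.plug (d, c')) := by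
  induction T with
  | here s =>
    rintro M ⟨s', rfl, h⟩
    exact ⟨d, _, _, rfl, hc, h⟩
  | dn a t s ih =>
    rintro M ⟨d, t', s', rfl, h1, h2⟩
    exact ⟨d, _, _, rfl, ih h1, h2⟩
  | nx a c t ih =>
    rintro M ⟨d, c', t', rfl, h1, h2⟩
    exact ⟨d, _, _, rfl, h1, ih h2⟩

theorem ShD.un {D : DT α} : ∀ {D' : Dk}, ShD D D' → Sh D.un D'.un := by
  induction D with
  | nil => rintro D' rfl; rfl
  | node a c s ihc ihs =>
    rintro D' ⟨d, c', s', rfl, h1, h2⟩
    exact ⟨d, _, _, rfl, ihc h1, ihs h2⟩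
  | pc1 a q s ihs =>
    rintro D' ⟨d, q', s', rfl, h1, h2⟩
    exact ⟨d, _, _, rfl, h1, ihs h2⟩
  | pc2 a M a' c s ihc ihs =>
    rintro D' ⟨d, M', d', c', s', rfl, h1, h2, h3⟩
    exact ⟨d, _, _, rfl, h1.plug (ihc h2), ihs h3⟩

theorem ShD.cnt {D : DT α} : ∀ {D' : Dk}, ShD D D' → D'.cnt = D.cnt := by
  induction D with
  | nil => rintro D' rfl; rfl
  | node a c s ihc ihs =>
    rintro D' ⟨d, c', s', rfl, h1, h2⟩
    simp only [Dk.cnt, DT.cnt, ihc h1, ihs h2]
  | pc1 a q s ihs =>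
    rintro D' ⟨d, q', s', rfl, h1, h2⟩
    simp only [Dk.cnt, DT.cnt, ihs h2]
  | pc2 a M a' c s ihc ihs =>
    rintro D' ⟨d, M', d', c', s', rfl, h1, h2, h3⟩
    simp only [Dk.cnt, DT.cnt, ihc h2, ihs h3]

/-- the sizes of the pieces and the paths through the segments -/
def DT.Sz (a m L : ℕ) : DT α → Prop
  | .nil => True
  | .node _ c s => c.Sz a m L ∧ s.Sz a m L
  | .pc1 _ q s => a ≤ q.size + 1 ∧ q.size + 1 ≤ m ∧ s.Sz a m L
  | .pc2 _ M _ c s => a ≤ M.un.size + 1 ∧ M.un.size + 1 ≤ m ∧ L ≤ M.pl ∧ c.Sz a m L ∧ s.Sz a m L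

theorem ShD.sz {D : DT α} {a m L : ℕ} : ∀ {D' : Dk}, ShD D D' → (D'.Sz a m L ↔ D.Sz a m L) := by
  induction D with
  | nil => rintro D' rfl; exact Iff.rfl
  | node x c s ihc ihs =>
    rintro D' ⟨d, c', s', rfl, h1, h2⟩
    simp only [Dk.Sz, DT.Sz, ihc h1, ihs h2]
  | pc1 x q s ihs =>
    rintro D' ⟨d, q', s', rfl, h1, h2⟩
    simp only [Dk.Sz, DT.Sz, h1.size, ihs h2]
  | pc2 x M x' c s ihc ihs =>
    rintro D' ⟨d, M', d', c', s', rfl, h1, h2, h3⟩
    simp only [Dk.Sz, DT.Sz, h1.un.size, h1.sg, ihc h2, ihs h3]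

/-! ### Lifting a decomposition -/

theorem lift_plug {d' : Bool} {c' : Fd} {M : Cx} : ∀ {T : Tr α}, Sh T (M.plug (d', c')) →
    ∃ (M' : CT α) (a' : α) (T' : Tr α), ShC M' M ∧ Sh T' c' ∧ M'.plug a' T' = T := by
  induction M with
  | here s =>
    intro T h
    cases T with
    | nil => exact absurd h (by simp [Sh, Cx.plug])
    | node a c t =>
      obtain ⟨d, c1, s1, h1, h2, h3⟩ := h
      simp only [Cx.plug, Fd.node.injEq] at h1
      obtain ⟨rfl, rfl, rfl⟩ := h1
      exact ⟨.here t, a, c, ⟨_, rfl, h3⟩, h2, rfl⟩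
  | dn d t s ih =>
    intro T h
    cases T with
    | nil => exact absurd h (by simp [Sh, Cx.plug])
    | node a c s0 =>
      obtain ⟨d1, c1, s1, h1, h2, h3⟩ := h
      simp only [Cx.plug, Fd.node.injEq] at h1
      obtain ⟨rfl, rfl, rfl⟩ := h1
      obtain ⟨M', a', T', k1, k2, k3⟩ := ih h2
      exact ⟨.dn a M' s0, a', T', ⟨_, _, _, rfl, k1, h3⟩, k2, by simp only [CT.plug, k3]⟩
  | nx d c t ih =>
    intro T h
    cases T with
    | nil => exact absurd h (by simp [Sh, Cx.plug])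
    | node a c0 s0 =>
      obtain ⟨d1, c1, s1, h1, h2, h3⟩ := h
      simp only [Cx.plug, Fd.node.injEq] at h1
      obtain ⟨rfl, rfl, rfl⟩ := h1
      obtain ⟨M', a', T', k1, k2, k3⟩ := ih h3
      exact ⟨.nx a c0 M', a', T', ⟨_, _, _, rfl, h2, k1⟩, k2, by simp only [CT.plug, k3]⟩

/-- **lifting**: a decomposition of an orientation of `T` gives a decomposition of `T` -/
theorem lift_un {D : Dk} : ∀ {T : Tr α}, Sh T D.un → ∃ D' : DT α, ShD D' D ∧ D'.un = T := by
  induction D with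
  | nil =>
    intro T h
    cases T with
    | nil => exact ⟨.nil, rfl, rfl⟩
    | node a c s =>
      obtain ⟨d, c1, s1, h1, -⟩ := h
      simp [Dk.un] at h1
  | node d c s ihc ihs =>
    intro T h
    cases T with
    | nil => exact absurd h (by simp [Sh, Dk.un])
    | node a c0 s0 =>
      obtain ⟨d1, c1, s1, h1, h2, h3⟩ := h
      simp only [Dk.un, Fd.node.injEq] at h1
      obtain ⟨rfl, rfl, rfl⟩ := h1
      obtain ⟨C', k1, k2⟩ := ihc h2
      obtain ⟨S', l1, l2⟩ := ihs h3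
      exact ⟨.node a C' S', ⟨_, _, _, rfl, k1, l1⟩, by simp only [DT.un, k2, l2]⟩
  | pc1 d q s ihs =>
    intro T h
    cases T with
    | nil => exact absurd h (by simp [Sh, Dk.un])
    | node a c0 s0 =>
      obtain ⟨d1, c1, s1, h1, h2, h3⟩ := h
      simp only [Dk.un, Fd.node.injEq] at h1
      obtain ⟨rfl, rfl, rfl⟩ := h1
      obtain ⟨S', l1, l2⟩ := ihs h3
      exact ⟨.pc1 a c0 S', ⟨_, _, _, rfl, h2, l1⟩, by simp only [DT.un, l2]⟩
  | pc2 d M d' c s ihc ihs =>
    intro T h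
    cases T with
    | nil => exact absurd h (by simp [Sh, Dk.un])
    | node a c0 s0 =>
      obtain ⟨d1, c1, s1, h1, h2, h3⟩ := h
      simp only [Dk.un, Fd.node.injEq] at h1
      obtain ⟨rfl, rfl, rfl⟩ := h1
      obtain ⟨M', a', T', m1, m2, m3⟩ := lift_plug h2
      obtain ⟨C', k1, k2⟩ := ihc m2
      obtain ⟨S', l1, l2⟩ := ihs h3
      exact ⟨.pc2 a M' a' C' S', ⟨_, _, _, _, _, rfl, m1, k1, l1⟩, by simp only [DT.un, k2, l2, m3]⟩

theorem CT.all_plug {p : α → Prop} {a : α} {c : Tr α} {M : CT α} : (M.plug a c).All p ↔ M.All p ∧ p a ∧ c.All p := by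
  induction M with
  | here s =>
    simp only [CT.plug, CT.All, Tr.All]
    tauto
  | dn x t s ih =>
    simp only [CT.plug, CT.All, Tr.All, ih]
    tauto
  | nx x c t ih =>
    simp only [CT.plug, CT.All, Tr.All, ih]
    tauto

theorem DT.all_un {p : α → Prop} {D : DT α} : D.un.All p ↔ D.All p := by
  induction D with
  | nil => exact Iff.rfl
  | node a c s ihc ihs => simp only [DT.un, DT.All, Tr.All, ihc, ihs]
  | pc1 a q s ihs => simp only [DT.un, DT.All, Tr.All, ihs]
  | pc2 a M a' c s ihc ihs =>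
    simp only [DT.un, DT.All, Tr.All, ihc, ihs, CT.all_plug]
    tauto

/-! ### Expectations -/

variable (g : α → ℝ)

/-- expectation of a function of the random orientation of `T` -/
def Ex : Tr α → (Fd → ℝ) → ℝ
  | .nil, φ => φ .nil
  | .node a c s, φ => E1 (g a) fun d => Ex c fun c' => Ex s fun s' => φ (.node d c' s')

/-- the same for forests with a hole -/
def ExC : CT α → (Cx → ℝ) → ℝ
  | .here s, φ => Ex g s fun s' => φ (.here s')
  | .dn a t s, φ => E1 (g a) fun d => ExC t fun t' => Ex g s fun s' => φ (.dn d t' s')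
  | .nx a c t, φ => E1 (g a) fun d => Ex g c fun c' => ExC t fun t' => φ (.nx d c' t')

/-- the same for forests with pieces -/
def ExD : DT α → (Dk → ℝ) → ℝ
  | .nil, φ => φ .nil
  | .node a c s, φ => E1 (g a) fun d => ExD c fun c' => ExD s fun s' => φ (.node d c' s')
  | .pc1 a q s, φ => E1 (g a) fun d => Ex g q fun q' => ExD s fun s' => φ (.pc1 d q' s')
  | .pc2 a M a' c s, φ => E1 (g a) fun d => ExC g M fun M' => E1 (g a') fun d' => ExD c fun c' => ExD s fun s' =>
      φ (.pc2 d M' d' c' s')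

variable {g}

/-- the labels have probabilities -/
abbrev P01 (g : α → ℝ) : α → Prop := fun a => 0 ≤ g a ∧ g a ≤ 1

theorem Ex_pf {T : Tr α} (h : T.All (P01 g)) : Pf (Sh T) (Ex g T) := by
  induction T with
  | nil => exact ⟨fun _ _ => rfl, fun _ _ => rfl, rfl, fun φ ψ h => h _ rfl⟩
  | node a c s ihc ihs =>
    obtain ⟨⟨h1, h2⟩, h3, h4⟩ := h
    have e := E1_pf h1 h2
    have ic := ihc h3
    have is := ihs h4
    refine ⟨fun φ ψ => ?_, fun x φ => ?_, ?_, fun φ ψ h => ?_⟩
    · simp only [Ex, is.add, ic.add, e.add]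
    · simp only [Ex, is.mul, ic.mul, e.mul]
    · simp only [Ex, is.one, ic.one, e.one]
    · exact e.mono _ _ fun d _ => ic.mono _ _ fun c' hc' => is.mono _ _ fun s' hs' => h _ ⟨d, c', s', rfl, hc', hs'⟩

theorem ExC_pf {M : CT α} (h : M.All (P01 g)) : Pf (ShC M) (ExC g M) := by
  induction M with
  | here s =>
    have is := Ex_pf (T := s) h
    refine ⟨fun φ ψ => ?_, fun x φ => ?_, ?_, fun φ ψ h => ?_⟩
    · simp only [ExC, is.add]
    · simp only [ExC, is.mul]
    · simp only [ExC, is.one]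
    · exact is.mono _ _ fun s' hs' => h _ ⟨s', rfl, hs'⟩
  | dn a t s iht =>
    obtain ⟨⟨h1, h2⟩, h3, h4⟩ := h
    have e := E1_pf h1 h2
    have it := iht h3
    have is := Ex_pf h4
    refine ⟨fun φ ψ => ?_, fun x φ => ?_, ?_, fun φ ψ h => ?_⟩
    · simp only [ExC, is.add, it.add, e.add]
    · simp only [ExC, is.mul, it.mul, e.mul]
    · simp only [ExC, is.one, it.one, e.one]
    · exact e.mono _ _ fun d _ => it.mono _ _ fun c' hc' => is.mono _ _ fun s' hs' => h _ ⟨d, c', s', rfl, hc', hs'⟩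
  | nx a c t iht =>
    obtain ⟨⟨h1, h2⟩, h3, h4⟩ := h
    have e := E1_pf h1 h2
    have ic := Ex_pf h3
    have it := iht h4
    refine ⟨fun φ ψ => ?_, fun x φ => ?_, ?_, fun φ ψ h => ?_⟩
    · simp only [ExC, ic.add, it.add, e.add]
    · simp only [ExC, ic.mul, it.mul, e.mul]
    · simp only [ExC, ic.one, it.one, e.one]
    · exact e.mono _ _ fun d _ => ic.mono _ _ fun c' hc' => it.mono _ _ fun s' hs' => h _ ⟨d, c', s', rfl, hc', hs'⟩

theorem ExD_pf {D : DT α} (h : D.All (P01 g)) : Pf (ShD D) (ExD g D) := by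
  induction D with
  | nil => exact ⟨fun _ _ => rfl, fun _ _ => rfl, rfl, fun φ ψ h => h _ rfl⟩
  | node a c s ihc ihs =>
    obtain ⟨⟨h1, h2⟩, h3, h4⟩ := h
    have e := E1_pf h1 h2
    have ic := ihc h3
    have is := ihs h4
    refine ⟨fun φ ψ => ?_, fun x φ => ?_, ?_, fun φ ψ h => ?_⟩
    · simp only [ExD, is.add, ic.add, e.add]
    · simp only [ExD, is.mul, ic.mul, e.mul]
    · simp only [ExD, is.one, ic.one, e.one]
    · exact e.mono _ _ fun d _ => ic.mono _ _ fun c' hc' => is.mono _ _ fun s' hs' => h _ ⟨d, c', s', rfl, hc', hs'⟩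
  | pc1 a q s ihs =>
    obtain ⟨⟨h1, h2⟩, h3, h4⟩ := h
    have e := E1_pf h1 h2
    have iq := Ex_pf h3
    have is := ihs h4
    refine ⟨fun φ ψ => ?_, fun x φ => ?_, ?_, fun φ ψ h => ?_⟩
    · simp only [ExD, is.add, iq.add, e.add]
    · simp only [ExD, is.mul, iq.mul, e.mul]
    · simp only [ExD, is.one, iq.one, e.one]
    · exact e.mono _ _ fun d _ => iq.mono _ _ fun c' hc' => is.mono _ _ fun s' hs' => h _ ⟨d, c', s', rfl, hc', hs'⟩
  | pc2 a M a' c s ihc ihs =>
    obtain ⟨⟨h1, h2⟩, h3, ⟨h4, h5⟩, h6, h7⟩ := h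
    have e := E1_pf h1 h2
    have e' := E1_pf h4 h5
    have iM := ExC_pf h3
    have ic := ihc h6
    have is := ihs h7
    refine ⟨fun φ ψ => ?_, fun x φ => ?_, ?_, fun φ ψ h => ?_⟩
    · simp only [ExD, is.add, ic.add, e'.add, iM.add, e.add]
    · simp only [ExD, is.mul, ic.mul, e'.mul, iM.mul, e.mul]
    · simp only [ExD, is.one, ic.one, e'.one, iM.one, e.one]
    · exact e.mono _ _ fun d _ => iM.mono _ _ fun M' hM' => e'.mono _ _ fun d' _ => ic.mono _ _ fun c' hc' =>
        is.mono _ _ fun s' hs' => h _ ⟨d, M', d', c', s', rfl, hM', hc', hs'⟩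

/-- the order of expectations can be changed -/
theorem Ex_comm {β : Type*} {S : β → Prop} {Φ : (β → ℝ) → ℝ} (h : Pf S Φ) (T : Tr α) : ∀ F : β → Fd → ℝ,
    Ex g T (fun y => Φ fun x => F x y) = Φ fun x => Ex g T fun y => F x y := by
  induction T with
  | nil => intro F; rfl
  | node a c s ihc ihs =>
    intro F
    simp only [Ex, ihs, ihc]
    unfold E1
    rw [h.add, h.mul, h.mul]

theorem ExC_plug {a' : α} (h' : P01 g a') {c : Tr α} (hc : c.All (P01 g)) (M : CT α) : ∀ ψ : Fd → ℝ,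
    Ex g (M.plug a' c) ψ = ExC g M fun M' => E1 (g a') fun d' => Ex g c fun c' => ψ (M'.plug (d', c')) := by
  have e' := E1_pf h'.1 h'.2
  have ic := Ex_pf hc
  induction M with
  | here s =>
    intro ψ
    simp only [CT.plug, ExC, Ex, Cx.plug]
    rw [Ex_comm e' s]
    congr 1
    funext d'
    rw [Ex_comm ic s]
  | dn a t s ih =>
    intro ψ
    simp only [CT.plug, ExC, Ex, Cx.plug, ih]
    congr 1
    funext d
    congr 1
    funext t'
    rw [Ex_comm e' s]
    congr 1
    funext d'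
    rw [Ex_comm ic s]
  | nx a c t ih =>
    intro ψ
    simp only [CT.plug, ExC, Ex, Cx.plug, ih]

/-- a random orientation of a forest with pieces is a random orientation of the forest -/
theorem ExD_un {D : DT α} (h : D.All (P01 g)) : ∀ φ : Fd → ℝ, ExD g D (fun D' => φ D'.un) = Ex g D.un φ := by
  induction D with
  | nil => intro φ; rfl
  | node a c s ihc ihs =>
    intro φ
    obtain ⟨-, h3, h4⟩ := h
    simp only [ExD, Ex, DT.un, Dk.un]
    congr 1
    funext d
    rw [← ihc h3]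
    congr 1
    funext c'
    rw [← ihs h4]
  | pc1 a q s ihs =>
    intro φ
    obtain ⟨-, h3, h4⟩ := h
    simp only [ExD, Ex, DT.un, Dk.un]
    congr 1
    funext d
    congr 1
    funext c'
    rw [← ihs h4]
  | pc2 a M a' c s ihc ihs =>
    intro φ
    obtain ⟨-, h3, h4, h5, h6⟩ := h
    simp only [ExD, Ex, DT.un, Dk.un]
    congr 1
    funext d
    rw [ExC_plug h4 (DT.all_un.2 h5)]
    congr 1
    funext M'
    congr 1
    funext d'
    rw [← ihc h5]
    congr 1
    funext c'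
    rw [← ihs h6]

end AEW
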