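import Pool.Agent.AEJT.Typ
import Pool.Agent.AEJT.CountE
import Pool.Agent.AEW.Ran

/-!
# The labelled shape of a rooted tree
-/

namespace AEW

open Finset Relation AE15 AED AELT AESK AEJT
open scoped Classical

/-- the labels -/
def Tr.labs {α : Type} : Tr α → List α
  | .nil => []
  | .node a c s => a :: (c.labs ++ s.labs)

/-- the shape with given trees -/
def tmk {α : Type} : List (α × Tr α) → Tr α
  | [] => .nil
  | p :: L => .node p.1 p.2 (tmk L)

section shape

variable {α : Type}

theorem tmk_or (f : α → Bool) (L : List (α × Tr α)) :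
    (tmk L).or f = AESK.mk (L.map fun p => (f p.1, p.2.or f)) := by
  induction L with
  | nil => rfl
  | cons p L ih => simp only [tmk, Tr.or, List.map_cons, AESK.mk, ih]

theorem tmk_labs (L : List (α × Tr α)) : (tmk L).labs = L.flatMap fun p => p.1 :: p.2.labs := by
  induction L with
  | nil => rfl
  | cons p L ih => simp only [tmk, Tr.labs, List.flatMap_cons, ih, List.cons_append]

theorem Tr.or_size (f : α → Bool) (T : Tr α) : (T.or f).size = T.size := by
  induction T with
  | nil => rfl
  | node a c s ihc ihs => simp only [Tr.or, Fd.size, Tr.size, ihc, ihs]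

theorem Tr.or_len (f : α → Bool) (T : Tr α) : (T.or f).len = T.len := by
  induction T with
  | nil => rfl
  | node a c s ihc ihs => simp only [Tr.or, Fd.len, Tr.len, ihs]

theorem Tr.or_deg (f : α → Bool) {b : ℕ} (T : Tr α) : (T.or f).Deg b ↔ T.Deg b := by
  induction T with
  | nil => exact Iff.rfl
  | node a c s ihc ihs => simp only [Tr.or, Fd.Deg, Tr.Deg, ihc, ihs, Tr.or_len]

end shape

section rooted

variable {τ : Type} [Fintype τ] {E P : τ → τ → Prop}

/-- the labelled shape of the tree below a vertex, up to depth `n` -/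
noncomputable def trN (P : τ → τ → Prop) : ℕ → τ → Tr τ
  | 0, _ => .nil
  | n + 1, v => tmk ((chl P v).toList.map (fun w => (w, trN P n w)))

theorem trN_or {f : τ → Bool} (h : ∀ v w, P v w → (E v w ↔ f w = true)) (n : ℕ) :
    ∀ v, (trN P n v).or f = codeN E P n v := by
  induction n with
  | zero => intro v; rfl
  | succ n ih =>
    intro v
    rw [trN, tmk_or, List.map_map, codeN]
    congr 1
    apply List.map_congr_left
    intro w hw
    have hw' : P v w := mem_chl.1 (mem_toList.1 hw)
    simp only [Function.comp]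
    rw [ih w]
    congr 1
    by_cases h1 : f w = true
    · rw [h1]
      exact (decide_eq_true ((h v w hw').2 h1)).symm
    · have h2 : ¬ E v w := fun h3 => h1 ((h v w hw').1 h3)
      rw [Bool.not_eq_true] at h1
      rw [h1]
      exact (decide_eq_false h2).symm

/-- every label lies below a child of `v` -/
theorem trN_labs (n : ℕ) : ∀ v, ∀ x ∈ (trN P n v).labs, ∃ w, P v w ∧ x ∈ AE32.desc P w := by
  induction n with
  | zero => intro v x hx; simp [trN, Tr.labs] at hx
  | succ n ih =>
    intro v x hx
    rw [trN, tmk_labs, List.mem_flatMap] at hx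
    obtain ⟨p, hp, hx⟩ := hx
    obtain ⟨w, hw, rfl⟩ := List.mem_map.1 hp
    have hw' : P v w := mem_chl.1 (mem_toList.1 hw)
    refine ⟨w, hw', ?_⟩
    rcases List.mem_cons.1 hx with rfl | hx
    · exact AE32.self_mem_desc _
    · obtain ⟨w', h1, h2⟩ := ih w x hx
      exact AE32.desc_subset h1 h2

theorem trN_nodup {h : τ → ℕ} (hE : ∀ a b, P a b → h a < h b) (hin : ∀ a b c, P a c → P b c → a = b) (n : ℕ) :
    ∀ v, (trN P n v).labs.Nodup := by
  induction n with
  | zero => intro v; simp [trN, Tr.labs]
  | succ n ih =>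
    intro v
    rw [trN, tmk_labs, List.nodup_flatMap]
    constructor
    · intro p hp
      obtain ⟨w, hw, rfl⟩ := List.mem_map.1 hp
      rw [List.nodup_cons]
      refine ⟨fun hx => ?_, ih w⟩
      obtain ⟨w', h1, h2⟩ := trN_labs n w w hx
      exact AE32.notMem_desc hE h1 h2
    · rw [List.pairwise_map]
      have h1 : ((chl P v).toList).Pairwise (fun a b => a ≠ b) := Finset.nodup_toList _
      refine List.Pairwise.imp_of_mem ?_ h1
      intro a b ha hb hab
      have ha' : P v a := mem_chl.1 (mem_toList.1 ha)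
      have hb' : P v b := mem_chl.1 (mem_toList.1 hb)
      have hd := AE32.desc_disjoint hE hin ha' hb' hab
      have hsub : ∀ c, ∀ x ∈ (c :: (trN P n c).labs), x ∈ AE32.desc P c := by
        intro c x hx
        rcases List.mem_cons.1 hx with rfl | hx
        · exact AE32.self_mem_desc _
        · obtain ⟨w', h1, h2⟩ := trN_labs n c x hx
          exact AE32.desc_subset h1 h2
      intro x hx1 hx2
      exact (Finset.disjoint_left.1 hd) (hsub a x hx1) (hsub b x hx2)

end rooted

variable {k : ℕ} {G : SimpleGraph (Fin (k + 1))}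

/-- **The labelled shape of a rooted tree** -/
theorem exists_tr (hG : G.IsTree) {b : ℕ} (hb : ∀ v, (G.neighborSet v).ncard ≤ b) (r : Fin (k + 1)) :
    ∃ T : Tr (Fin (k + 1)), T.labs.Nodup ∧ r ∉ T.labs ∧ T.size = k ∧ T.len ≤ b ∧ T.Deg b ∧
      ∀ f : Fin (k + 1) → Bool, code (orf G r f) (Par G r) r = T.or f := by
  have hlt : ∀ a c, Par G r a c → G.dist r a < G.dist r c := fun _ _ h => h.lt
  have huq : ∀ a c d, Par G r a d → Par G r c d → a = c := fun _ _ _ h h' => h.unique hG h'
  have hcode : ∀ f : Fin (k + 1) → Bool,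
      code (orf G r f) (Par G r) r = (trN (Par G r) (Fintype.card (Fin (k + 1))) r).or f := fun f =>
    (trN_or (E := orf G r f) (P := Par G r) (f := f) (fun v w h => orf_eq f h.1 h.2) _ r).symm
  obtain ⟨f⟩ : Nonempty (Fin (k + 1) → Bool) := ⟨fun _ => true⟩
  refine ⟨trN (Par G r) (Fintype.card (Fin (k + 1))) r, trN_nodup hlt huq _ r, ?_, ?_, ?_, ?_, hcode⟩
  · intro h
    obtain ⟨w, h1, h2⟩ := trN_labs _ r r h
    exact AE32.notMem_desc hlt h1 h2
  · have h1 := size_code (E := orf G r f) hG (r := r) r
    rw [desc_root hG, card_univ, Fintype.card_fin, hcode f, Tr.or_size] at h1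
    omega
  · rw [← Tr.or_len f, ← hcode f, code_len hlt]
    exact code_len_le hG hb r
  · rw [← Tr.or_deg f, ← hcode f]
    exact code_deg hlt (code_len_le hG hb) _ r rfl

end AEW
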