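import Pool.Agent.AEW.Glue

/-!
# Random orientations of a labelled forest: sums over codes and expectations
-/

namespace AEW

open Finset Relation AE15 AED AELT AESK AEJT
open scoped Classical

section mix

variable {V : Type*} [Fintype V] {g : V → Bool → ℝ}

/-- resampling the coordinates in `S` -/
theorem resample (h : ∀ v, g v true + g v false = 1) (S : Set V) (ψ : (V → Bool) → ℝ) :
    ∑ f, pw g f * ψ f = ∑ f, pw g f * ∑ f', pw g f' * ψ (fun v => if v ∈ S then f' v else f v) := by
  obtain ⟨σ, hσ⟩ : ∃ σ : (V → Bool) × (V → Bool) → (V → Bool) × (V → Bool),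
      σ = fun p => (fun v => if v ∈ S then p.2 v else p.1 v, fun v => if v ∈ S then p.1 v else p.2 v) := ⟨_, rfl⟩
  have hσσ : ∀ p, σ (σ p) = p := by
    intro p
    rw [hσ]
    refine Prod.ext ?_ ?_
    · funext v
      by_cases hv : v ∈ S
      · simp [hv]
      · simp [hv]
    · funext v
      by_cases hv : v ∈ S
      · simp [hv]
      · simp [hv]
  have h1 : ∑ f, pw g f * ∑ f', pw g f' * ψ (fun v => if v ∈ S then f' v else f v) =
      ∑ p : (V → Bool) × (V → Bool), (pw g p.1 * pw g p.2) * ψ (σ p).1 := by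
    rw [← univ_product_univ, sum_product]
    refine sum_congr rfl fun f _ => ?_
    rw [mul_sum]
    refine sum_congr rfl fun f' _ => ?_
    rw [hσ]
    ring
  have h2 : ∑ f, pw g f * ψ f = ∑ p : (V → Bool) × (V → Bool), (pw g p.1 * pw g p.2) * ψ p.1 := by
    rw [← univ_product_univ, sum_product]
    refine sum_congr rfl fun f _ => ?_
    have h3 : ∀ f', pw g f * pw g f' * ψ f = (pw g f * ψ f) * pw g f' := fun f' => by ring
    simp only [h3]
    rw [← mul_sum, pw_total h, mul_one]
  rw [h1, h2]
  symm
  refine sum_bij (fun p _ => σ p) (fun _ _ => mem_univ _) ?_ ?_ ?_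
  · intro p _ p' _ hpp
    rw [← hσσ p, ← hσσ p', hpp]
  · intro p _
    exact ⟨σ p, mem_univ _, hσσ p⟩
  · intro p _
    have e1 : pw g (σ p).1 * pw g (σ p).2 = pw g p.1 * pw g p.2 := by
      unfold pw
      rw [← prod_mul_distrib, ← prod_mul_distrib]
      refine prod_congr rfl fun v _ => ?_
      rw [hσ]
      by_cases hv : v ∈ S
      · simp only [hv, if_true]
        ring
      · simp only [hv, if_false]
    rw [e1]

/-- one coordinate -/
theorem marginal (h : ∀ v, g v true + g v false = 1) (a : V) (χ : Bool → ℝ) :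
    ∑ f, pw g f * χ (f a) = g a true * χ true + g a false * χ false := by
  obtain ⟨g', hg'⟩ : ∃ g' : V → Bool → ℝ, g' = fun v j => if v = a then g a j * χ j else g v j := ⟨_, rfl⟩
  have h1 : ∀ f : V → Bool, pw g f * χ (f a) = ∏ v, g' v (f v) := by
    intro f
    have e1 : ∏ v, g' v (f v) = g' a (f a) * ∏ v ∈ univ.erase a, g' v (f v) :=
      (mul_prod_erase univ (fun v => g' v (f v)) (mem_univ a)).symm
    have e2 : pw g f = g a (f a) * ∏ v ∈ univ.erase a, g v (f v) :=
      (mul_prod_erase univ (fun v => g v (f v)) (mem_univ a)).symm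
    have e3 : ∏ v ∈ univ.erase a, g' v (f v) = ∏ v ∈ univ.erase a, g v (f v) := by
      refine prod_congr rfl fun v hv => ?_
      rw [hg']
      simp only [(mem_erase.1 hv).1, if_false]
    rw [e1, e2, e3, hg']
    simp only [if_true]
    ring
  simp only [h1]
  have h2 : ∑ f : V → Bool, ∏ v, g' v (f v) = ∏ v, ∑ j ∈ (univ : Finset Bool), g' v j := by
    rw [prod_univ_sum]
    simp only [Fintype.piFinset_univ]
  rw [h2, ← mul_prod_erase univ _ (mem_univ a)]
  have h3 : ∏ v ∈ univ.erase a, ∑ j ∈ (univ : Finset Bool), g' v j = 1 := by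
    refine prod_eq_one fun v hv => ?_
    rw [Fintype.sum_bool, hg']
    simp only [(mem_erase.1 hv).1, if_false]
    exact h v
  rw [h3, mul_one, Fintype.sum_bool, hg']
  simp only [if_true]

end mix

/-- the orientation depends only on the directions at the labels -/
theorem Tr.or_congr {α : Type} {f f' : α → Bool} {T : Tr α} (h : ∀ x ∈ T.labs, f x = f' x) : T.or f = T.or f' := by
  induction T with
  | nil => rfl
  | node a c s ihc ihs =>
    simp only [Tr.labs, List.mem_cons, List.mem_append] at h
    simp only [Tr.or]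
    rw [h a (Or.inl rfl), ihc fun x hx => h x (Or.inr (Or.inl hx)), ihs fun x hx => h x (Or.inr (Or.inr hx))]

/-- **Sums over codes are expectations** -/
theorem sum_eq_Ex {V : Type} [Fintype V] {g : V → Bool → ℝ} (h : ∀ v, g v true + g v false = 1) (T : Tr V) :
    T.labs.Nodup → ∀ φ : Fd → ℝ, ∑ f, pw g f * φ (T.or f) = Ex (fun v => g v true) T φ := by
  induction T with
  | nil =>
    intro _ φ
    simp only [Tr.or, Ex]
    rw [← sum_mul, pw_total h, one_mul]
  | node a c s ihc ihs =>
    intro hnd φ
    simp only [Tr.labs, List.nodup_cons, List.nodup_append, List.mem_append, not_or] at hnd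
    obtain ⟨⟨hac, has⟩, hc, hs, hcs⟩ := hnd
    obtain ⟨S, hS⟩ : ∃ S : Set V, ∀ v, v ∈ S ↔ v ∈ s.labs := ⟨{v | v ∈ s.labs}, fun _ => Iff.rfl⟩
    obtain ⟨S', hS'⟩ : ∃ S' : Set V, ∀ v, v ∈ S' ↔ v ∈ c.labs := ⟨{v | v ∈ c.labs}, fun _ => Iff.rfl⟩
    have e1 : ∑ f, pw g f * φ ((Tr.node a c s).or f) =
        ∑ f, pw g f * Ex (fun v => g v true) s (fun s' => φ (.node (f a) (c.or f) s')) := by
      refine (resample h S fun f => φ ((Tr.node a c s).or f)).trans (sum_congr rfl fun f _ => ?_)
      rw [← ihs hs fun s' => φ (.node (f a) (c.or f) s')]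
      congr 1
      refine sum_congr rfl fun f' _ => ?_
      have e2 : c.or (fun v => if v ∈ S then f' v else f v) = c.or f := by
        refine Tr.or_congr fun x hx => ?_
        have : x ∉ S := fun hx' => hcs x hx x ((hS x).1 hx') rfl
        simp only [this, if_false]
      have e3 : s.or (fun v => if v ∈ S then f' v else f v) = s.or f' := by
        refine Tr.or_congr fun x hx => ?_
        simp only [(hS x).2 hx, if_true]
      have e4 : (if a ∈ S then f' a else f a) = f a := by
        have : a ∉ S := fun h' => has ((hS a).1 h')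
        simp only [this, if_false]
      simp only [Tr.or]
      rw [e2, e3, e4]
    obtain ⟨φ2, hφ2⟩ : ∃ φ2 : Bool → Fd → ℝ, φ2 = fun d c' => Ex (fun v => g v true) s fun s' => φ (.node d c' s') :=
      ⟨_, rfl⟩
    have e5 : ∑ f, pw g f * φ2 (f a) (c.or f) =
        ∑ f, pw g f * Ex (fun v => g v true) c (fun c' => φ2 (f a) c') := by
      refine (resample h S' fun f => φ2 (f a) (c.or f)).trans (sum_congr rfl fun f _ => ?_)
      rw [← ihc hc fun c' => φ2 (f a) c']
      congr 1
      refine sum_congr rfl fun f' _ => ?_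
      have e3 : c.or (fun v => if v ∈ S' then f' v else f v) = c.or f' := by
        refine Tr.or_congr fun x hx => ?_
        simp only [(hS' x).2 hx, if_true]
      have e4 : (if a ∈ S' then f' a else f a) = f a := by
        have : a ∉ S' := fun h' => hac ((hS' a).1 h')
        simp only [this, if_false]
      show pw g f' * φ2 (if a ∈ S' then f' a else f a) (c.or (fun v => if v ∈ S' then f' v else f v)) = _
      rw [e3, e4]
    have e6 := marginal h a fun d => Ex (fun v => g v true) c fun c' => φ2 d c'
    have e8 : g a false = 1 - g a true := by linarith [h a]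
    rw [e1]
    rw [hφ2] at e5 e6
    refine e5.trans (e6.trans ?_)
    rw [Ex, E1, e8]

end AEW
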