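import Pool.Agent.AEW.GlueS

/-!
# From codes to orientations of trees
-/

namespace AEW

open Finset Relation AE15 AED AELT AESK AEJT
open scoped Classical

theorem Tr.all_of_labs {α : Type} {p : α → Prop} {T : Tr α} (h : ∀ x ∈ T.labs, p x) : T.All p := by
  induction T with
  | nil => trivial
  | node a c s ihc ihs =>
    simp only [Tr.labs, List.mem_cons, List.mem_append] at h
    exact ⟨h a (Or.inl rfl), ihc fun x hx => h x (Or.inr (Or.inl hx)), ihs fun x hx => h x (Or.inr (Or.inr hx))⟩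

/-- the weight of a set of orientations is at most an expectation -/
theorem fsum_le_Ex {V : Type} [Fintype V] {G : SimpleGraph V} (hG : G.IsTree) (r : V) {ρ : ℝ} (hρ : 0 ≤ ρ)
    {q : V → V → ℝ} (hq : Wts G ρ q) {T : Tr V} (hnd : T.labs.Nodup) (P : (V → V → Prop) → Prop) {φ : Fd → ℝ}
    (h0 : ∀ c, 0 ≤ φ c) (h1 : ∀ f, P (orf G r f) → 1 ≤ φ (T.or f)) :
    fsum {E | E ∈ Ori G ∧ P E} (wt q) ≤ Ex (fun v => gV G r q v true) T φ := by
  rw [← sum_eq_Ex (gV_total hG r hq) T hnd, fsum_ori hG r q P, sum_filter]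
  refine sum_le_sum fun f _ => ?_
  have h2 := pw_nonneg (gV_nonneg hG r hρ hq) f
  split_ifs with h3
  · exact le_mul_of_one_le_right h2 (h1 f h3)
  · exact mul_nonneg h2 (h0 _)

/-- the exponential bound for codes -/
def ProbSt : Prop := ∀ b : ℕ, 1 ≤ b → ∀ ρ : ℝ, 0 < ρ → ρ ≤ 1 / 2 → ∃ C K : ℕ, 1 ≤ K ∧
  ∀ {α : Type} (g : α → ℝ) (T : Tr α), T.len ≤ b → T.Deg b → T.All (fun a => ρ ≤ g a ∧ g a ≤ 1 - ρ) →
    Ex g T (fun c => if Fits C c then 0 else 1) ≤ 2 / 2 ^ ((T.size + 1) / K)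

/-- **Random orientations: exponentially small probability of failure** -/
theorem expo_of (hP : ProbSt) (Δ : ℕ) {ρ : ℝ} (hρ : 0 < ρ) : ∃ C K : ℕ, 1 ≤ K ∧
    ∀ (k : ℕ) (G : SimpleGraph (Fin (k + 1))), G.IsTree → (∀ v, (G.neighborSet v).ncard ≤ Δ) →
      ∀ q : Fin (k + 1) → Fin (k + 1) → ℝ, Wts G ρ q →
      fsum {E : Fin (k + 1) → Fin (k + 1) → Prop | E ∈ Ori G ∧ ∃ n : ℕ, k + C ≤ n ∧
        ∃ R : Fin n → Fin n → Prop, (∀ a, ¬ R a a) ∧ (∀ a b, a ≠ b → R a b ∨ R b a) ∧ (∀ a b, R a b → ¬ R b a) ∧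
        ¬ ∃ f : Fin (k + 1) → Fin n, Function.Injective f ∧ ∀ a b, E a b → R (f a) (f b)} (wt q) ≤
      1 / 2 ^ (k / K) := by
  obtain ⟨σ, hσ⟩ : ∃ σ, σ = min ρ (1 / 2) := ⟨_, rfl⟩
  have hσ0 : 0 < σ := by rw [hσ]; exact lt_min hρ (by norm_num)
  have hσ1 : σ ≤ 1 / 2 := by rw [hσ]; exact min_le_right _ _
  have hσρ : σ ≤ ρ := by rw [hσ]; exact min_le_left _ _
  obtain ⟨C, K, hK, hC⟩ := hP (max Δ 1) (le_max_right _ _) σ hσ0 hσ1
  refine ⟨C + 1, 2 * K, by omega, ?_⟩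
  intro k G hG hdeg q hq
  have hqσ : Wts G σ q := fun a b hab => ⟨hσρ.trans (hq a b hab).1, (hq a b hab).2⟩
  have hdeg' : ∀ v, (G.neighborSet v).ncard ≤ max Δ 1 := fun v => (hdeg v).trans (le_max_left _ _)
  obtain ⟨T, hnd, hr, hsz, hlen, hD, hcode⟩ := exists_tr hG hdeg' (0 : Fin (k + 1))
  have hall : T.All (fun a => σ ≤ gV G 0 q a true ∧ gV G 0 q a true ≤ 1 - σ) := by
    refine Tr.all_of_labs fun x hx => ?_
    have hx0 : x ≠ 0 := fun h => hr (h ▸ hx)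
    obtain ⟨p1, -⟩ := parW_spec hG hx0
    have e1 := hqσ _ _ p1
    have e2 := hqσ _ _ p1.symm
    have e3 : gV G 0 q x true = q (parW G 0 x) x := by
      unfold gV gW
      simp only [hx0, if_false, if_true]
    rw [e3]
    exact ⟨e1.1, by linarith [e1.2, e2.1]⟩
  have h1 := hC (fun v => gV G 0 q v true) T hlen hD hall
  rw [hsz] at h1
  have h2 := fsum_le_Ex hG (0 : Fin (k + 1)) hσ0.le hqσ hnd (fun E => ∃ n : ℕ, k + (C + 1) ≤ n ∧
        ∃ R : Fin n → Fin n → Prop, (∀ a, ¬ R a a) ∧ (∀ a b, a ≠ b → R a b ∨ R b a) ∧ (∀ a b, R a b → ¬ R b a) ∧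
        ¬ ∃ f : Fin (k + 1) → Fin n, Function.Injective f ∧ ∀ a b, E a b → R (f a) (f b))
      (φ := fun c => if Fits C c then 0 else 1) (fun c => by split_ifs <;> norm_num) (by
    rintro f ⟨n, hn, R, r1, r2, r3, r4⟩
    rw [if_neg]
    intro h4
    apply r4
    have h5 : In R (code (orf G 0 f) (Par G 0) 0) (fun _ => True) univ := by
      rw [hcode f]
      refine h4 ⟨r1, r2, r3⟩ univ ?_
      rw [card_univ, Fintype.card_fin, Tr.or_size, hsz]
      omega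
    exact emb_code hG (orf_mem hG 0 f) h5)
  rcases Nat.lt_or_ge k (2 * K) with hk | hk
  · rw [Nat.div_eq_of_lt hk, pow_zero, div_one, ← wt_total hG hq]
    exact fsum_mono (fun E hE => hE.1) fun E hE => wt_nonneg hρ.le hq hE
  · refine h2.trans (h1.trans ?_)
    have h6 : k / (2 * K) + 1 ≤ (k + 1) / K := by
      have e1 : 1 ≤ k / (2 * K) := (Nat.one_le_div_iff (by omega)).2 hk
      have e2 : 2 * K * (k / (2 * K)) ≤ k := Nat.mul_div_le k (2 * K)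
      rw [Nat.le_div_iff_mul_le (by omega)]
      nlinarith
    rw [div_le_div_iff₀ (by positivity) (by positivity), one_mul]
    calc (2 : ℝ) * 2 ^ (k / (2 * K)) = 2 ^ (k / (2 * K) + 1) := by rw [pow_succ]; ring
      _ ≤ 2 ^ ((k + 1) / K) := pow_le_pow_right₀ (by norm_num) h6

end AEW
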