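import Pool.Agent.AEW.Abs
import Pool.Agent.AEW.Pool
import Pool.Agent.AEW.Det
import Pool.Agent.AEK.Main

/-!
# The absorption theorem

The core is embedded in the set `Y` of all vertices with many neighbours in the pool `S`; the pieces are placed one after
the other and swallow all remaining vertices.
-/

namespace AEW

open Finset AE15 AED AELT
open scoped Classical

/-- **absorption theorem** -/
theorem absorb (b : ℕ) (hb : 1 ≤ b) {θ : ℝ} (hθ : 0 < θ) : ∃ ε : ℝ, 0 < ε ∧ ∀ m : ℕ, ∃ C : ℕ, ∀ D : Dk, D.un.len ≤ b →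
    D.un.Deg b → D.Ok ε m → θ * (D.un.size + 1) ≤ D.psz → Fits C D.un := by
  obtain ⟨t, ht⟩ : ∃ t : ℝ, t = min θ 1 := ⟨_, rfl⟩
  have ht0 : 0 < t := by rw [ht]; exact lt_min hθ one_pos
  have ht1 : t ≤ 1 := by rw [ht]; exact min_le_right _ _
  have htθ : t ≤ θ := by rw [ht]; exact min_le_left _ _
  refine ⟨t / 2 ^ 18, by positivity, fun m => ?_⟩
  obtain ⟨Cβ, hCβ, hUn⟩ := AEK.un_one b hb (show (0 : ℝ) < t / 4 by positivity)
  obtain ⟨n₀, hpool⟩ := pool (η := t / 64) (by positivity) (by linarith)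
  obtain ⟨n₁, hn₁⟩ := exists_nat_ge ((4 * Cβ + 4) / t)
  obtain ⟨N, hN⟩ : ∃ N : ℕ, N = max (1024 * m) (max n₀ n₁) := ⟨_, rfl⟩
  have hN1 : 1024 * m ≤ N := by rw [hN]; exact le_max_left _ _
  have hN2 : n₀ ≤ N := by rw [hN]; exact (le_max_left _ _).trans (le_max_right _ _)
  have hN3 : n₁ ≤ N := by rw [hN]; exact (le_max_right _ _).trans (le_max_right _ _)
  refine ⟨3 * N, ?_⟩
  intro D hl hdeg hOk hΦ V R hT X0 hX0
  by_cases hn : D.un.size + 1 < N
  · obtain ⟨x, hx, A, hA, hxA, hE⟩ := four hT D.un (X := X0) (by omega)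
    exact ⟨x, hx, A, hA, hxA, trivial, hE⟩
  push Not at hn
  have hsz := D.size_un
  -- the set of hosts
  obtain ⟨X, hXX0, hX⟩ := exists_subset_card_eq (s := X0) (n := D.un.size + 1 + 1024 * m) (by omega)
  have hXr : (X.card : ℝ) = (D.un.size + 1) + 1024 * m := by
    rw [hX]; push_cast; ring
  have hnr : (N : ℝ) ≤ D.un.size + 1 := by exact_mod_cast hn
  have hN1r : (1024 : ℝ) * m ≤ N := by exact_mod_cast hN1
  have hN3r : (n₁ : ℝ) ≤ N := by exact_mod_cast hN3
  have hszr : (D.un.size : ℝ) = D.csz + D.psz := by exact_mod_cast hsz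
  have hbig : 4 * Cβ + 4 ≤ t * (D.un.size + 1) := by
    have h1 : (4 * Cβ + 4) / t ≤ D.un.size + 1 := by linarith
    rwa [div_le_iff₀' ht0] at h1
  have hn0 : (0 : ℝ) ≤ D.un.size + 1 := by positivity
  have hΦt : t * (D.un.size + 1) ≤ D.psz := (mul_le_mul_of_nonneg_right htθ hn0).trans hΦ
  have hΦ4r : (4 : ℝ) ≤ D.psz := by linarith
  have hΦ4 : 4 ≤ D.psz := by exact_mod_cast hΦ4r
  have hcszr : (0 : ℝ) ≤ D.csz := by positivity
  obtain ⟨s, hs⟩ : ∃ s : ℕ, s = D.psz / 4 := ⟨_, rfl⟩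
  have hs1 : 4 * s ≤ D.psz := by omega
  have hs2 : D.psz ≤ 8 * s := by omega
  have hs1r : (4 : ℝ) * s ≤ D.psz := by exact_mod_cast hs1
  have hs2r : (D.psz : ℝ) ≤ 8 * s := by exact_mod_cast hs2
  have hX2 : (X.card : ℝ) ≤ 2 * (D.un.size + 1) := by linarith
  have hηX : t / 64 * X.card ≤ D.psz / 32 := by
    have h1 : t / 64 * X.card ≤ t / 64 * (2 * (D.un.size + 1)) := mul_le_mul_of_nonneg_left hX2 (by positivity)
    linarith
  obtain ⟨S, Y, hSX, hYX, hSY, hSs, hSl, hYc, hY⟩ := hpool hT X s (by omega) (by linarith) (by omega)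
  obtain ⟨x, hxY, A, hAY, ps, hxA, hE⟩ := core_emb (β := t / 4) (Cβ := Cβ) (by positivity) hCβ (hUn hT) D hl hdeg
    (Y := Y) (by
      have h1 : (0 : ℝ) ≤ m := by positivity
      linarith)
  have hxAY : insert x A ⊆ Y := insert_subset hxY hAY
  have hcardA := hE.card
  have hsum := hE.sum
  have hSU : S ⊆ X \ insert x A := by
    intro v hv
    rw [mem_sdiff]
    exact ⟨hSX hv, fun h => disjoint_left.1 hSY hv (hxAY h)⟩
  have hUc : (X \ insert x A).card = D.psz + 1024 * m := by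
    rw [card_sdiff_of_subset (hxAY.trans hYX), card_insert_of_notMem hxA, hcardA, hX]
    omega
  obtain ⟨Q, hQU, hQ⟩ := absorb_list hT (ε := t / 2 ^ 18) (by positivity) (by
      rw [div_le_div_iff₀ (by positivity) (by norm_num)]
      norm_num
      linarith) (m := m) (C := 1024 * m) le_rfl ps (hE.ok hOk) hSU (by rw [hsum, hUc]) (by
      intro p hp w hw d
      have hwY : w ∈ Y := hxAY (hE.hosts p hp hw)
      have h1 := hY w hwY d
      rw [hsum]
      have h2 : (D.psz : ℝ) / 16 ≤ S.card := by linarith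
      have h3 : t / 64 / 4 * (D.psz / 16) ≤ t / 64 / 4 * S.card := mul_le_mul_of_nonneg_left h2 (by positivity)
      have h4 : 64 * (t / 2 ^ 18) * (D.psz : ℝ) = t / 64 / 4 * (D.psz / 16) := by ring
      rw [h4]
      exact h3.trans h1)
  have hQd : Disjoint Q (insert x A) := by
    rw [disjoint_left]
    intro v hv hv'
    exact (mem_sdiff.1 (hQU hv)).2 hv'
  refine ⟨x, hXX0 (hYX hxY), A ∪ Q, ?_, ?_, trivial, hE.done hxA hQ hQd⟩
  · exact union_subset ((hAY.trans hYX).trans hXX0) ((hQU.trans sdiff_subset).trans hXX0)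
  · rw [mem_union, not_or]
    exact ⟨hxA, fun h => disjoint_left.1 hQd h (mem_insert_self _ _)⟩

/-- the deterministic theorem for trees at least half of whose pieces are good -/
theorem det (b L : ℕ) (hb : 1 ≤ b) : ∃ ε : ℝ, 0 < ε ∧ ∀ a : ℕ, 1 ≤ a → ∃ C : ℕ, ∀ D : Dk, D.un.len ≤ b → D.un.Deg b →
    D.Sz a (16 * b ^ 2 * (L + 1) * a) L → D.un.size + 1 ≤ 2 * (16 * b ^ 2 * (L + 1) * a) * (D.cnt + 1) →
      D.cnt ≤ 2 * D.gct ε → Fits C D.un :=
  det_of b L hb (fun _ hθ => absorb b hb hθ)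

end AEW
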