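import Pool.Agent.AEW.Ran

/-!
# Most orientations of a piece are good
-/

namespace AEW

open Finset AE15 AED AELT
open scoped Classical

variable {α : Type} {g : α → ℝ}

/-- both directions have probability at least `ρ` -/
abbrev Pρ (ρ : ℝ) (g : α → ℝ) : α → Prop := fun a => ρ ≤ g a ∧ g a ≤ 1 - ρ

theorem Tr.All.mono {p p' : α → Prop} (h : ∀ a, p a → p' a) {T : Tr α} (hT : T.All p) : T.All p' := by
  induction T with
  | nil => trivial
  | node a c s ihc ihs => exact ⟨h _ hT.1, ihc hT.2.1, ihs hT.2.2⟩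

theorem CT.All.mono {p p' : α → Prop} (h : ∀ a, p a → p' a) {T : CT α} (hT : T.All p) : T.All p' := by
  induction T with
  | here s => exact Tr.All.mono h hT
  | dn a t s ih => exact ⟨h _ hT.1, ih hT.2.1, Tr.All.mono h hT.2.2⟩
  | nx a c t ih => exact ⟨h _ hT.1, Tr.All.mono h hT.2.1, ih hT.2.2⟩

theorem P01_of {ρ : ℝ} (hρ : 0 ≤ ρ) {a : α} (h : Pρ ρ g a) : P01 g a := ⟨by linarith [h.1], by linarith [h.2]⟩

theorem pf_of {ρ : ℝ} (hρ : 0 ≤ ρ) {T : Tr α} (h : T.All (Pρ ρ g)) : Pf (Sh T) (Ex g T) :=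
  Ex_pf (h.mono fun _ => P01_of hρ)

theorem pfC_of {ρ : ℝ} (hρ : 0 ≤ ρ) {T : CT α} (h : T.All (Pρ ρ g)) : Pf (ShC T) (ExC g T) :=
  ExC_pf (h.mono fun _ => P01_of hρ)

theorem size_clo (σ : Bool) (c : Fd) : (clo σ c).size ≤ c.size := by
  induction c with
  | nil => exact le_rfl
  | node d c s ihc ihs =>
    simp only [clo]
    split_ifs
    · simp only [Fd.size]
      omega
    · simp only [Fd.size]
      omega

/-- bound for the number of vertices near the root, per tree -/
def NL (b : ℕ) : ℕ → ℝ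
  | 0 => 0
  | L + 1 => 1 + b * NL b L

theorem NL_nonneg (b L : ℕ) : 0 ≤ NL b L := by
  induction L with
  | zero => exact le_rfl
  | succ L ih =>
    unfold NL
    positivity

/-- one random bit -/
theorem E1_le {ρ : ℝ} {p : ℝ} (h : ρ ≤ p) (h' : p ≤ 1 - ρ) (σ : Bool) {x y : ℝ} (hy : 0 ≤ y) :
    E1 p (fun d => if d = σ then x else x + y) ≤ x + (1 - ρ) * y := by
  unfold E1
  cases σ
  · simp only [Bool.true_eq_false, if_false, if_true]
    nlinarith
  · simp only [Bool.false_eq_true, if_false, if_true]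
    nlinarith

/-- **first moment** -/
theorem clo_mean {b : ℕ} {ρ : ℝ} (hρ : 0 ≤ ρ) (hρ1 : ρ ≤ 1) (σ : Bool) (L : ℕ) : ∀ T : Tr α, T.Deg b →
    T.All (Pρ ρ g) → Ex g T (fun c => ((clo σ c).size : ℝ)) ≤ NL b L * T.len + (1 - ρ) ^ L * T.size := by
  induction L with
  | zero =>
    intro T _ hT
    have h := (pf_of hρ hT).mono (fun c => ((clo σ c).size : ℝ)) (fun _ => (T.size : ℝ)) (fun c hc => by
      have := size_clo σ c
      rw [hc.size] at this
      exact_mod_cast this)
    rw [(pf_of hρ hT).const] at h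
    simp only [NL, zero_mul, pow_zero, one_mul, zero_add]
    exact h
  | succ L ihL =>
    intro T
    induction T with
    | nil => intro _ _; simp [Ex, clo, Fd.size, Tr.len, Tr.size]
    | node a c s ihc ihs =>
      intro hD hT
      obtain ⟨d1, d2, d3⟩ := hD
      obtain ⟨t1, t2, t3⟩ := hT
      have pc := pf_of hρ t2
      have ps := pf_of hρ t3
      have h1 : Ex g (.node a c s) (fun c => ((clo σ c).size : ℝ)) = E1 (g a) (fun d => if d = σ then
          Ex g s (fun c => ((clo σ c).size : ℝ)) else Ex g s (fun c => ((clo σ c).size : ℝ)) +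
            (Ex g c (fun c => ((clo σ c).size : ℝ)) + 1)) := by
        simp only [Ex]
        congr 1
        funext d
        split_ifs with hd
        · subst hd
          simp only [clo, if_true]
          exact pc.const _
        · simp only [clo, hd, if_false, Fd.size, Nat.cast_add, Nat.cast_one]
          have e1 : ∀ c' : Fd, Ex g s (fun s' => ((clo σ c').size : ℝ) + ((clo σ s').size : ℝ) + 1) =
              ((clo σ c').size : ℝ) + (Ex g s (fun c => ((clo σ c).size : ℝ)) + 1) := by
            intro c'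
            rw [ps.add, ps.add, ps.const, ps.const]
            ring
          simp only [e1]
          rw [pc.add, pc.const]
          ring
      rw [h1]
      have h2 := ihL c d2 t2
      have h3 := ihs d3 t3
      have h4 : 0 ≤ Ex g c (fun c => ((clo σ c).size : ℝ)) := pc.nonneg fun _ _ => Nat.cast_nonneg _
      refine (E1_le t1.1 t1.2 σ (by linarith)).trans ?_
      have hρ' : 0 ≤ 1 - ρ := by linarith
      have hρ'' : 1 - ρ ≤ 1 := by linarith
      have h5 : (1 - ρ) * (Ex g c (fun c => ((clo σ c).size : ℝ)) + 1) ≤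
          (1 - ρ) * ((NL b L * c.len + (1 - ρ) ^ L * c.size) + 1) :=
        mul_le_mul_of_nonneg_left (by linarith) hρ'
      have h6 : (1 - ρ) * ((NL b L * c.len + (1 - ρ) ^ L * c.size) + 1) =
          (1 - ρ) * (NL b L * c.len + 1) + (1 - ρ) ^ (L + 1) * c.size := by
        rw [pow_succ]
        ring
      have h7 : (1 - ρ) * (NL b L * c.len + 1) ≤ b * NL b L + 1 := by
        have e1 : (0 : ℝ) ≤ NL b L * c.len + 1 := by
          have := NL_nonneg b L
          positivity
        have e2 : NL b L * c.len ≤ b * NL b L := by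
          rw [mul_comm]
          exact mul_le_mul_of_nonneg_right (by exact_mod_cast d1) (NL_nonneg b L)
        calc (1 - ρ) * (NL b L * c.len + 1) ≤ 1 * (NL b L * c.len + 1) := mul_le_mul_of_nonneg_right hρ'' e1
          _ ≤ _ := by linarith
      have h8 : (0 : ℝ) ≤ (1 - ρ) ^ (L + 1) := pow_nonneg hρ' _
      simp only [Tr.len, Tr.size, NL, Nat.cast_add, Nat.cast_one] at h3 ⊢
      nlinarith

/-! ### The beginning and the end of the path through a segment -/

/-- the vertices near the first `n` vertices of the path -/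
def tp (σ : Bool) : ℕ → Cx → ℕ
  | 0, _ => 0
  | _ + 1, .here s => (clo σ s).size
  | n + 1, .dn _ t s => (clo σ s).size + 1 + tp σ n t
  | n + 1, .nx d c t => (if d = σ then 0 else (clo σ c).size + 1) + tp σ (n + 1) t

/-- the vertices near the last `n` vertices of the path -/
def bt (σ : Bool) (n : ℕ) : Cx → ℕ
  | .here s => tp σ n (.here s)
  | .dn d t s => if (Cx.dn d t s).sg.length < n then tp σ n (.dn d t s) else bt σ n t
  | .nx d c t => if (Cx.nx d c t).sg.length < n then tp σ n (.nx d c t) else bt σ n t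

theorem tp_eq {σ : Bool} (M : Cx) : ∀ n, M.sg.length < n → tp σ n M = (M.clo σ).un.size := by
  induction M with
  | here s =>
    intro n hn
    obtain ⟨n, rfl⟩ : ∃ m, n = m + 1 := ⟨n - 1, by omega⟩
    rfl
  | dn d t s ih =>
    intro n hn
    obtain ⟨n, rfl⟩ : ∃ m, n = m + 1 := ⟨n - 1, by omega⟩
    simp only [Cx.sg, List.length_cons] at hn
    simp only [tp, Cx.clo, Cx.un, Fd.size, ih n (by omega)]
    omega
  | nx d c t ih =>
    intro n hn
    obtain ⟨n, rfl⟩ : ∃ m, n = m + 1 := ⟨n - 1, by omega⟩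
    simp only [Cx.sg] at hn
    simp only [tp, Cx.clo, ih (n + 1) hn]
    split_ifs
    · omega
    · simp only [Cx.un, Fd.size]
      omega

theorem bt_eq {σ : Bool} {n : ℕ} {M : Cx} (h : M.sg.length < n) : bt σ n M = tp σ n M := by
  cases M with
  | here s => rfl
  | dn d t s => simp only [bt, if_pos h]
  | nx d c t => simp only [bt, if_pos h]

theorem tp_le {σ d : Bool} {B : Cx} (U : Cx) : ∀ n, U.sg.length < n → (U.clo σ).un.size ≤ tp σ n (U.cmp d B) := by
  induction U with
  | here s =>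
    intro n hn
    obtain ⟨n, rfl⟩ : ∃ m, n = m + 1 := ⟨n - 1, by omega⟩
    simp only [Cx.cmp, tp, Cx.clo, Cx.un]
    omega
  | dn d1 t s ih =>
    intro n hn
    obtain ⟨n, rfl⟩ : ∃ m, n = m + 1 := ⟨n - 1, by omega⟩
    simp only [Cx.sg, List.length_cons] at hn
    have := ih n (by omega)
    simp only [Cx.cmp, tp, Cx.clo, Cx.un, Fd.size]
    omega
  | nx d1 c t ih =>
    intro n hn
    obtain ⟨n, rfl⟩ : ∃ m, n = m + 1 := ⟨n - 1, by omega⟩
    simp only [Cx.sg] at hn
    have := ih (n + 1) hn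
    simp only [Cx.cmp, tp, Cx.clo]
    split_ifs
    · omega
    · simp only [Cx.un, Fd.size]
      omega

theorem bt_mono_dn {σ d : Bool} {n : ℕ} {t : Cx} {s : Fd} : bt σ n t ≤ bt σ n (.dn d t s) := by
  by_cases h : (Cx.dn d t s).sg.length < n
  · have h' : t.sg.length < n := by
      simp only [Cx.sg, List.length_cons] at h
      omega
    rw [bt_eq h, bt_eq h', tp_eq _ n h, tp_eq _ n h']
    simp only [Cx.clo, Cx.un, Fd.size]
    omega
  · simp only [bt, if_neg h]
    exact le_rfl

theorem bt_mono_nx {σ d : Bool} {n : ℕ} {c : Fd} {t : Cx} : bt σ n t ≤ bt σ n (.nx d c t) := by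
  by_cases h : (Cx.nx d c t).sg.length < n
  · have h' : t.sg.length < n := by
      simp only [Cx.sg] at h
      exact h
    rw [bt_eq h, bt_eq h', tp_eq _ n h, tp_eq _ n h']
    simp only [Cx.clo]
    split_ifs
    · exact le_rfl
    · simp only [Cx.un, Fd.size]
      omega
  · simp only [bt, if_neg h]
    exact le_rfl

theorem bt_le {σ d : Bool} {B : Cx} {n : ℕ} (hB : B.sg.length < n) (U : Cx) :
    (B.clo σ).un.size ≤ bt σ n (U.cmp d B) := by
  induction U with
  | here s =>
    simp only [Cx.cmp]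
    refine le_trans ?_ bt_mono_dn
    rw [bt_eq hB, tp_eq _ n hB]
  | dn d1 t s ih =>
    simp only [Cx.cmp]
    exact ih.trans bt_mono_dn
  | nx d1 c t ih =>
    simp only [Cx.cmp]
    exact ih.trans bt_mono_nx

/-- the segment is cut at the `i`-th arc of the path -/
theorem split (M : Cx) : ∀ (i : ℕ) (d : Bool), M.sg[i]? = some d →
    ∃ U B : Cx, M = U.cmp d B ∧ U.sg.length = i ∧ ∀ j, B.sg[j]? = M.sg[i + 1 + j]? := by
  induction M with
  | here s =>
    intro i d h
    simp [Cx.sg] at h
  | dn d1 t s ih =>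
    intro i d h
    cases i with
    | zero =>
      simp only [Cx.sg, List.getElem?_cons_zero, Option.some.injEq] at h
      subst h
      refine ⟨.here s, t, rfl, rfl, fun j => ?_⟩
      simp only [Cx.sg]
      rw [show 0 + 1 + j = j + 1 by omega, List.getElem?_cons_succ]
    | succ i =>
      simp only [Cx.sg, List.getElem?_cons_succ] at h
      obtain ⟨U, B, h1, h2, h3⟩ := ih i d h
      refine ⟨.dn d1 U s, B, by simp only [Cx.cmp, ← h1], by simp only [Cx.sg, List.length_cons, h2], fun j => ?_⟩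
      rw [h3 j]
      simp only [Cx.sg]
      rw [show i + 1 + 1 + j = (i + 1 + j) + 1 by omega, List.getElem?_cons_succ]
  | nx d1 c t ih =>
    intro i d h
    simp only [Cx.sg] at h
    obtain ⟨U, B, h1, h2, h3⟩ := ih i d h
    exact ⟨.nx d1 c U, B, by simp only [Cx.cmp, ← h1], by simp only [Cx.sg, h2], fun j => by simp only [Cx.sg]; exact h3 j⟩

/-- the direction `σ` occurs among the `n` arcs behind the first `m` arcs of the path -/
def Occ (σ : Bool) (m n : ℕ) (M : Cx) : Prop := ∃ i < n, M.sg[m + i]? = some σ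

/-- sufficient conditions for a good segment -/
theorem good2_of {ε : ℝ} {n : ℕ} {M : Cx} (hl : 3 * n ≤ M.sg.length) (h1 : ∀ σ, Occ σ 0 n M) (h2 : ∀ σ, Occ σ n n M)
    (h3 : ∀ σ, Occ σ (M.sg.length - n) n M) (h4 : ∀ σ, (tp σ n M : ℝ) + 1 ≤ ε * (M.un.size + 1))
    (h5 : ∀ σ, (bt σ n M : ℝ) + 1 ≤ ε * (M.un.size + 1)) : Good2 ε M := by
  intro σ₁ σ₂
  obtain ⟨i, hi, ei⟩ := h1 σ₁
  obtain ⟨k, hk, ek⟩ := h3 (!σ₂)
  rw [zero_add] at ei
  obtain ⟨U, M₁, e1, l1, g1⟩ := split M i σ₁ ei
  obtain ⟨C, B, e2, l2, g2⟩ := split M₁ (M.sg.length - n + k - i - 1) (!σ₂) (by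
    rw [g1, ← ek]
    congr 1
    omega)
  have eM : M = U.cmp σ₁ (C.cmp (!σ₂) B) := by rw [e1, e2]
  refine ⟨U, C, B, eM, ?_, ?_, ?_⟩
  · refine le_trans ?_ (h4 σ₁)
    have : (U.clo σ₁).un.size ≤ tp σ₁ n M := by
      rw [e1]
      exact tp_le U n (by omega)
    have : ((U.clo σ₁).un.size : ℝ) ≤ tp σ₁ n M := by exact_mod_cast this
    linarith
  · refine le_trans ?_ (h5 σ₂)
    have hlen : M.sg.length = U.sg.length + (C.sg.length + (B.sg.length + 1) + 1) := by
      conv_lhs => rw [eM]
      simp only [Cx.sg_cmp, List.length_append, List.length_cons]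
    have hB : B.sg.length < n := by omega
    have : (B.clo σ₂).un.size ≤ bt σ₂ n M := by
      have key : ∀ (W X : Cx) (d : Bool), bt σ₂ n X ≤ bt σ₂ n (W.cmp d X) := by
        intro W X d
        induction W with
        | here s => exact bt_mono_dn
        | dn d1 t s ih => exact ih.trans bt_mono_dn
        | nx d1 c t ih => exact ih.trans bt_mono_nx
      rw [eM]
      exact (bt_le hB C).trans (key _ _ _)
    have : ((B.clo σ₂).un.size : ℝ) ≤ bt σ₂ n M := by exact_mod_cast this
    linarith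
  · intro σ₃
    obtain ⟨j, hj, ej⟩ := h2 σ₃
    have h6 : C.sg[n + j - i - 1]? = some σ₃ := by
      have h7 : M₁.sg[n + j - i - 1]? = some σ₃ := by
        rw [g1, ← ej]
        congr 1
        omega
      rw [e2, Cx.sg_cmp, List.getElem?_append_left (by omega)] at h7
      exact h7
    obtain ⟨C₁, C₂, e3, -, -⟩ := split C (n + j - i - 1) σ₃ h6
    exact ⟨C₁, C₂, e3⟩

end AEW
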