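import Pool.Agent.AEW.RanP
import Pool.Agent.AEW.Decomp
import Pool.Agent.AEW.Det

/-!
# Random orientations: all but exponentially few orientations are contained in all large tournaments
-/

namespace AEW

open Finset AE15 AED AELT
open scoped Classical

variable {α : Type} {g : α → ℝ}

theorem good1_prob (b : ℕ) {ρ ε : ℝ} (hρ : 0 < ρ) (hρ1 : ρ ≤ 1) (hε : 0 < ε) : ∃ a₀ : ℕ, ∀ {α : Type} (g : α → ℝ)
    (q : Tr α), q.len ≤ b → q.Deg b → q.All (Pρ ρ g) → a₀ ≤ q.size + 1 →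
      Ex g q (fun c => if Good1 ε c then 1 else 16) ≤ 2 := by
  obtain ⟨L, hL⟩ : ∃ L : ℕ, (1 - ρ) ^ L < ε / 60 := exists_pow_lt_of_lt_one (by positivity) (by linarith)
  obtain ⟨a₀, ha₀⟩ := exists_nat_ge ((NL b L * b + 1) * 60 / ε)
  refine ⟨a₀ + 1, ?_⟩
  intro α g q hl hD hA hs
  have p := pf_of hρ.le hA
  have hN := NL_nonneg b L
  obtain ⟨s, hs'⟩ : ∃ s : ℝ, s = q.size := ⟨_, rfl⟩
  have hs0 : 0 ≤ s := by rw [hs']; exact Nat.cast_nonneg _
  have hs1 : (a₀ : ℝ) ≤ s + 1 := by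
    rw [hs']
    have : a₀ ≤ q.size + 1 := by omega
    exact_mod_cast this
  obtain ⟨A, hA'⟩ : ∃ A : ℝ, A = 1 / (ε * (s + 1)) := ⟨_, rfl⟩
  have hεs : 0 < ε * (s + 1) := by positivity
  have hA0 : 0 ≤ A := by rw [hA']; positivity
  have h1 : Ex g q (fun c => if Good1 ε c then 1 else 16) ≤
      Ex g q (fun c => 1 + (15 * A) * ((((clo true c).size : ℝ) + 1) + (((clo false c).size : ℝ) + 1))) := by
    refine p.mono _ _ fun c hc => ?_
    have hc' : (c.size : ℝ) = s := by rw [hs', hc.size]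
    have e1 : (0 : ℝ) ≤ (clo true c).size := Nat.cast_nonneg _
    have e2 : (0 : ℝ) ≤ (clo false c).size := Nat.cast_nonneg _
    split_ifs with h
    · have : 0 ≤ (15 * A) * ((((clo true c).size : ℝ) + 1) + (((clo false c).size : ℝ) + 1)) := by positivity
      linarith
    · unfold Good1 at h
      push Not at h
      obtain ⟨σ, hσ⟩ := h
      rw [hc'] at hσ
      have e3 : ((clo σ c).size : ℝ) + 1 ≤ (((clo true c).size : ℝ) + 1) + (((clo false c).size : ℝ) + 1) := by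
        cases σ
        · linarith
        · linarith
      have e4 : 1 ≤ A * ((((clo true c).size : ℝ) + 1) + (((clo false c).size : ℝ) + 1)) := by
        rw [hA', one_div_mul_eq_div, one_le_div hεs]
        linarith
      linarith
  refine h1.trans ?_
  rw [p.add, p.mul, p.add, p.add, p.add, p.const]
  have h2 := clo_mean hρ.le hρ1 true L q hD hA
  have h3 := clo_mean hρ.le hρ1 false L q hD hA
  rw [← hs'] at h2 h3
  have h4 : NL b L * q.len ≤ NL b L * b := mul_le_mul_of_nonneg_left (by exact_mod_cast hl) hN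
  have h5 : 15 * A * (Ex g q (fun c => ((clo true c).size : ℝ)) + 1 + (Ex g q (fun c => ((clo false c).size : ℝ)) + 1)) ≤
      15 * A * (2 * (NL b L * b + 1) + 2 * ((1 - ρ) ^ L * s)) :=
    mul_le_mul_of_nonneg_left (by linarith) (by positivity)
  have h6 : A * (NL b L * b + 1) ≤ 1 / 60 := by
    rw [hA', one_div_mul_eq_div, div_le_iff₀ hεs]
    rw [div_le_iff₀ hε] at ha₀
    have : (a₀ : ℝ) * ε ≤ (s + 1) * ε := mul_le_mul_of_nonneg_right hs1 hε.le
    linarith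
  have h7 : A * ((1 - ρ) ^ L * s) ≤ 1 / 60 := by
    rw [hA', one_div_mul_eq_div, div_le_iff₀ hεs]
    have : (1 - ρ) ^ L * s ≤ ε / 60 * s := mul_le_mul_of_nonneg_right hL.le hs0
    nlinarith
  linarith

theorem good2_prob {ρ : ℝ} (hρ : 0 < ρ) (hρ1 : ρ ≤ 1) : ∃ n : ℕ, ∀ (b : ℕ) {ε : ℝ}, 0 < ε → ∃ a₀ : ℕ, ∀ {α : Type}
    (g : α → ℝ) (M : CT α), M.len ≤ b → M.Deg b → M.All (Pρ ρ g) → a₀ ≤ M.un.size + 1 → 3 * n ≤ M.pl →
      ExC g M (fun c => if Good2 ε c then 1 else 16) ≤ 2 := by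
  obtain ⟨n, hn⟩ : ∃ n : ℕ, (1 - ρ) ^ n < 1 / 180 := exists_pow_lt_of_lt_one (by norm_num) (by linarith)
  refine ⟨n, ?_⟩
  intro b ε hε
  obtain ⟨L, hL⟩ : ∃ L : ℕ, (1 - ρ) ^ L < ε / 240 := exists_pow_lt_of_lt_one (by positivity) (by linarith)
  obtain ⟨a₀, ha₀⟩ := exists_nat_ge ((2 * (NL b L * (b + n * b)) + 2 * n + 2) * 120 / ε)
  refine ⟨a₀ + 1, ?_⟩
  intro α g M hl hD hA hs hpl
  have p := pfC_of hρ.le hA
  have hN := NL_nonneg b L
  obtain ⟨s, hs'⟩ : ∃ s : ℝ, s = M.un.size := ⟨_, rfl⟩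
  have hs0 : 0 ≤ s := by rw [hs']; exact Nat.cast_nonneg _
  have hs1 : (a₀ : ℝ) ≤ s + 1 := by
    rw [hs']
    have : a₀ ≤ M.un.size + 1 := by omega
    exact_mod_cast this
  obtain ⟨A, hA'⟩ : ∃ A : ℝ, A = 1 / (ε * (s + 1)) := ⟨_, rfl⟩
  have hεs : 0 < ε * (s + 1) := by positivity
  have hA0 : 0 ≤ A := by rw [hA']; positivity
  -- the bad events for one direction
  obtain ⟨F, hF⟩ : ∃ F : Bool → Cx → ℝ, F = fun σ x => (if Occ σ 0 n x then 0 else 1) + (if Occ σ n n x then 0 else 1) +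
      (if Occ σ (M.pl - n) n x then 0 else 1) + A * ((tp σ n x : ℝ) + (bt σ n x : ℝ) + 2) := ⟨_, rfl⟩
  have hF0 : ∀ σ x, 0 ≤ F σ x := by
    intro σ x
    rw [hF]
    dsimp only
    have e1 : (0 : ℝ) ≤ (if Occ σ 0 n x then 0 else 1) := by split_ifs <;> norm_num
    have e2 : (0 : ℝ) ≤ (if Occ σ n n x then 0 else 1) := by split_ifs <;> norm_num
    have e3 : (0 : ℝ) ≤ (if Occ σ (M.pl - n) n x then 0 else 1) := by split_ifs <;> norm_num
    have e4 : (0 : ℝ) ≤ A * ((tp σ n x : ℝ) + (bt σ n x : ℝ) + 2) := by positivity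
    linarith
  have hFE : ∀ σ, ExC g M (F σ) ≤ 1 / 30 := by
    intro σ
    rw [hF]
    dsimp only
    rw [p.add, p.add, p.add, p.mul, p.add, p.add, p.const]
    have e1 := occ_prob hρ.le hρ1 σ M hA 0 n (by omega)
    have e2 := occ_prob hρ.le hρ1 σ M hA n n (by omega)
    have e3 := occ_prob hρ.le hρ1 σ M hA (M.pl - n) n (by omega)
    have e4 := tp_mean hρ.le hρ1 σ L M hD hA n
    have e5 := bt_mean hρ.le hρ1 σ L n M hl hD hA
    rw [← hs'] at e4 e5
    have e6 : NL b L * (M.len + n * b) ≤ NL b L * (b + n * b) :=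
      mul_le_mul_of_nonneg_left (by
        have : (M.len : ℝ) ≤ b := by exact_mod_cast hl
        linarith) hN
    have e7 : A * (ExC g M (fun c => (tp σ n c : ℝ)) + ExC g M (fun c => (bt σ n c : ℝ)) + 2) ≤
        A * ((2 * (NL b L * (b + n * b)) + 2 * n + 2) + 2 * ((1 - ρ) ^ L * s)) :=
      mul_le_mul_of_nonneg_left (by linarith) hA0
    have e8 : A * (2 * (NL b L * (b + n * b)) + 2 * n + 2) ≤ 1 / 120 := by
      rw [hA', one_div_mul_eq_div, div_le_iff₀ hεs]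
      rw [div_le_iff₀ hε] at ha₀
      have : (a₀ : ℝ) * ε ≤ (s + 1) * ε := mul_le_mul_of_nonneg_right hs1 hε.le
      linarith
    have e9 : A * (2 * ((1 - ρ) ^ L * s)) ≤ 1 / 120 := by
      rw [hA', one_div_mul_eq_div, div_le_iff₀ hεs]
      have : (1 - ρ) ^ L * s ≤ ε / 240 * s := mul_le_mul_of_nonneg_right hL.le hs0
      nlinarith
    linarith
  have h1 : ExC g M (fun c => if Good2 ε c then 1 else 16) ≤ ExC g M (fun c => 1 + 15 * (F true c + F false c)) := by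
    refine p.mono _ _ fun x hx => ?_
    have t1 := hF0 true x
    have t2 := hF0 false x
    split_ifs with h
    · linarith
    · have hx1 : (x.un.size : ℝ) = s := by rw [hs', hx.un.size]
      have hx2 : x.sg.length = M.pl := hx.sg
      suffices hh : ∃ σ, 1 ≤ F σ x by
        obtain ⟨σ, hσ⟩ := hh
        cases σ
        · linarith
        · linarith
      by_contra hcon
      push Not at hcon
      apply h
      have key : ∀ σ, Occ σ 0 n x ∧ Occ σ n n x ∧ Occ σ (M.pl - n) n x ∧ (tp σ n x : ℝ) + 1 ≤ ε * (s + 1) ∧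
          (bt σ n x : ℝ) + 1 ≤ ε * (s + 1) := by
        intro σ
        have hσ := hcon σ
        rw [hF] at hσ
        dsimp only at hσ
        have e1 : (0 : ℝ) ≤ (if Occ σ 0 n x then 0 else 1) := by split_ifs <;> norm_num
        have e2 : (0 : ℝ) ≤ (if Occ σ n n x then 0 else 1) := by split_ifs <;> norm_num
        have e3 : (0 : ℝ) ≤ (if Occ σ (M.pl - n) n x then 0 else 1) := by split_ifs <;> norm_num
        have e4 : (0 : ℝ) ≤ A * ((tp σ n x : ℝ) + (bt σ n x : ℝ) + 2) := by positivity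
        have e5 : A * ((tp σ n x : ℝ) + (bt σ n x : ℝ) + 2) < 1 := by linarith
        rw [hA', one_div_mul_eq_div, div_lt_one hεs] at e5
        have e6 : (0 : ℝ) ≤ tp σ n x := Nat.cast_nonneg _
        have e7 : (0 : ℝ) ≤ bt σ n x := Nat.cast_nonneg _
        refine ⟨?_, ?_, ?_, by linarith, by linarith⟩
        · by_contra hc
          rw [if_neg hc] at hσ
          linarith
        · by_contra hc
          rw [if_neg hc] at hσ
          linarith
        · by_contra hc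
          rw [if_neg hc] at hσ
          linarith
      refine good2_of (n := n) (by rw [hx2]; exact hpl) (fun σ => (key σ).1) (fun σ => (key σ).2.1) (fun σ => ?_)
        (fun σ => ?_) (fun σ => ?_)
      · rw [hx2]
        exact (key σ).2.2.1
      · rw [hx1]
        exact (key σ).2.2.2.1
      · rw [hx1]
        exact (key σ).2.2.2.2
  refine h1.trans ?_
  rw [p.add, p.mul, p.add, p.const]
  have e1 := hFE true
  have e2 := hFE false
  linarith

/-- number of bad pieces -/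
noncomputable def Dk.bct (ε : ℝ) : Dk → ℕ
  | .nil => 0
  | .node _ c s => c.bct ε + s.bct ε
  | .pc1 _ q s => (if Good1 ε q then 0 else 1) + s.bct ε
  | .pc2 _ M _ c s => (if Good2 ε M then 0 else 1) + (c.bct ε + s.bct ε)

theorem Dk.gct_add_bct (ε : ℝ) (D : Dk) : D.gct ε + D.bct ε = D.cnt := by
  induction D with
  | nil => rfl
  | node d c s ihc ihs => simp only [Dk.gct, Dk.bct, Dk.cnt]; omega
  | pc1 d q s ihs =>
    simp only [Dk.gct, Dk.bct, Dk.cnt]
    split_ifs <;> omega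
  | pc2 d M d' c s ihc ihs =>
    simp only [Dk.gct, Dk.bct, Dk.cnt]
    split_ifs <;> omega

theorem DT.All.mono {p p' : α → Prop} (h : ∀ a, p a → p' a) {D : DT α} (hD : D.All p) : D.All p' := by
  rw [← DT.all_un] at hD ⊢
  exact Tr.All.mono h hD

/-- exponential moment of the number of bad pieces -/
theorem bad_mean {b a m L : ℕ} {ρ ε : ℝ} (hρ : 0 ≤ ρ)
    (h1 : ∀ q : Tr α, q.len ≤ b → q.Deg b → q.All (Pρ ρ g) → a ≤ q.size + 1 →
      Ex g q (fun c => if Good1 ε c then 1 else 16) ≤ 2)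
    (h2 : ∀ M : CT α, M.len ≤ b → M.Deg b → M.All (Pρ ρ g) → a ≤ M.un.size + 1 → L ≤ M.pl →
      ExC g M (fun c => if Good2 ε c then 1 else 16) ≤ 2) (D : DT α) :
    D.un.Deg b → D.All (Pρ ρ g) → D.Sz a m L → ExD g D (fun x => (16 : ℝ) ^ x.bct ε) ≤ 2 ^ D.cnt := by
  have hpf : ∀ D : DT α, D.All (Pρ ρ g) → Pf (ShD D) (ExD g D) := fun D hD => ExD_pf (hD.mono fun _ => P01_of hρ)
  have hnn : ∀ D : DT α, D.All (Pρ ρ g) → 0 ≤ ExD g D (fun x => (16 : ℝ) ^ x.bct ε) := fun D hD =>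
    (hpf D hD).nonneg fun x _ => by positivity
  induction D with
  | nil => intro _ _ _; simp [ExD, Dk.bct, DT.cnt]
  | node x c s ihc ihs =>
    rintro ⟨-, d2, d3⟩ ⟨t1, t2, t3⟩ ⟨s1, s2⟩
    have e := E1_pf (p := g x) (by linarith [t1.1]) (by linarith [t1.2])
    have pc := hpf c t2
    have ps := hpf s t3
    have h3 : ExD g (.node x c s) (fun x => (16 : ℝ) ^ x.bct ε) =
        ExD g c (fun x => (16 : ℝ) ^ x.bct ε) * ExD g s (fun x => (16 : ℝ) ^ x.bct ε) := by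
      simp only [ExD, Dk.bct, pow_add]
      rw [← pc.prod ps, e.const]
    rw [h3, DT.cnt, pow_add]
    exact mul_le_mul (ihc d2 t2 s1) (ihs d3 t3 s2) (hnn s t3) (by positivity)
  | pc1 x q s ihs =>
    rintro ⟨d1, d2, d3⟩ ⟨t1, t2, t3⟩ ⟨s1, s2, s3⟩
    have e := E1_pf (p := g x) (by linarith [t1.1]) (by linarith [t1.2])
    have pq := pf_of hρ t2
    have ps := hpf s t3
    have h3 : ExD g (.pc1 x q s) (fun x => (16 : ℝ) ^ x.bct ε) =
        Ex g q (fun c => if Good1 ε c then 1 else 16) * ExD g s (fun x => (16 : ℝ) ^ x.bct ε) := by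
      rw [← pq.prod ps]
      simp only [ExD, Dk.bct, pow_add]
      rw [e.const]
      congr 1
      funext q'
      congr 1
      funext s'
      split_ifs
      · rw [pow_zero]
      · rw [pow_one]
    rw [h3, DT.cnt, pow_succ, mul_comm ((2 : ℝ) ^ s.cnt)]
    exact mul_le_mul (h1 q d1 d2 t2 s1) (ihs d3 t3 s3) (hnn s t3) (by norm_num)
  | pc2 x M x' c s ihc ihs =>
    rintro ⟨d1, d2, d3⟩ ⟨t1, t2, t3, t4, t5⟩ ⟨s1, s2, s3, s4, s5⟩
    obtain ⟨k1, k2, k3⟩ := CT.deg_plug M d2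
    have k4 : M.len ≤ b := by
      rw [← CT.len_plug (a := x') (c := c.un) M]
      exact d1
    have e := E1_pf (p := g x) (by linarith [t1.1]) (by linarith [t1.2])
    have e' := E1_pf (p := g x') (by linarith [t3.1]) (by linarith [t3.2])
    have pM := pfC_of hρ t2
    have pc := hpf c t4
    have ps := hpf s t5
    have h3 : ExD g (.pc2 x M x' c s) (fun x => (16 : ℝ) ^ x.bct ε) =
        ExC g M (fun c => if Good2 ε c then 1 else 16) *
          (ExD g c (fun x => (16 : ℝ) ^ x.bct ε) * ExD g s (fun x => (16 : ℝ) ^ x.bct ε)) := by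
      rw [← pc.prod ps]
      simp only [ExD, Dk.bct, pow_add]
      have h4 : ∀ M' : Cx, ExD g c (fun c' => ExD g s (fun s' => (16 : ℝ) ^ (if Good2 ε M' then 0 else 1) *
          (16 ^ c'.bct ε * 16 ^ s'.bct ε))) = (if Good2 ε M' then 1 else 16) *
            ExD g c (fun c' => ExD g s (fun s' => (16 : ℝ) ^ c'.bct ε * 16 ^ s'.bct ε)) := by
        intro M'
        simp only [ps.mul, pc.mul]
        congr 1
        split_ifs
        · rw [pow_zero]
        · rw [pow_one]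
      simp only [h4, e'.const]
      rw [e.const]
      have h5 : ∀ y : ℝ, ExC g M (fun M' => (if Good2 ε M' then 1 else 16) * y) =
          ExC g M (fun c => if Good2 ε c then 1 else 16) * y := by
        intro y
        rw [mul_comm _ y, ← pM.mul]
        congr 1
        funext M'
        rw [mul_comm]
      rw [h5]
    have h6 : ExD g c (fun x => (16 : ℝ) ^ x.bct ε) * ExD g s (fun x => (16 : ℝ) ^ x.bct ε) ≤ 2 ^ c.cnt * 2 ^ s.cnt :=
      mul_le_mul (ihc k3 t4 s4) (ihs d3 t5 s5) (hnn s t5) (by positivity)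
    rw [h3, DT.cnt, pow_succ, pow_add, mul_comm ((2 : ℝ) ^ c.cnt * 2 ^ s.cnt)]
    exact mul_le_mul (h2 M k4 k1 t2 s1 s3) h6 (mul_nonneg (hnn c t4) (hnn s t5)) (by norm_num)

/-- **Random orientations of codes.** -/
theorem prob_of (b : ℕ) (hb : 1 ≤ b) (hAb : AbsorbSt b) {ρ : ℝ} (hρ : 0 < ρ) (hρ1 : ρ ≤ 1) :
    ∃ C K : ℕ, 1 ≤ K ∧ ∀ {α : Type} (g : α → ℝ) (T : Tr α), T.len ≤ b → T.Deg b →
      T.All (fun a => ρ ≤ g a ∧ g a ≤ 1 - ρ) →
      Ex g T (fun c => if Fits C c then 0 else 1) ≤ 2 / 2 ^ ((T.size + 1) / K) := by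
  obtain ⟨n, hn⟩ := good2_prob hρ hρ1
  obtain ⟨ε, hε, hdet⟩ := det_of b (3 * n) hb hAb
  obtain ⟨a₂, ha₂⟩ := hn b hε
  obtain ⟨a₁, ha₁⟩ := good1_prob b hρ hρ1 hε
  obtain ⟨a, ha⟩ : ∃ a, a = max (max a₁ a₂) 1 := ⟨_, rfl⟩
  have ha1 : 1 ≤ a := by rw [ha]; exact le_max_right _ _
  have haa₁ : a₁ ≤ a := by rw [ha]; exact (le_max_left _ _).trans (le_max_left _ _)
  have haa₂ : a₂ ≤ a := by rw [ha]; exact (le_max_right _ _).trans (le_max_left _ _)
  obtain ⟨C, hC⟩ := hdet a ha1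
  obtain ⟨m, hm⟩ : ∃ m, m = 16 * b ^ 2 * (3 * n + 1) * a := ⟨_, rfl⟩
  have hm1 : 1 ≤ m := by
    rw [hm]
    exact Nat.mul_pos (Nat.mul_pos (Nat.mul_pos (by norm_num) (pow_pos hb _)) (by omega)) ha1
  rw [← hm] at hC
  refine ⟨C, 2 * m, by omega, ?_⟩
  intro α g T hl hD hA
  -- the decomposition
  obtain ⟨D₀, f1, f2, f3⟩ := decomp b (3 * n) a hb ha1 (T.or fun _ => true) (by rw [(Sh.or _ T).len]; exact hl)
    ((Sh.or _ T).deg hD)
  rw [← hm] at f2 f3
  obtain ⟨D, g1, g2⟩ := lift_un (D := D₀) (T := T) (by rw [f1]; exact Sh.or _ T)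
  have hDA : D.All (Pρ ρ g) := by
    rw [← DT.all_un, g2]
    exact hA
  have hsz : D.Sz a m (3 * n) := g1.sz.1 f2
  have hcnt : T.size + 1 ≤ 2 * m * (D.cnt + 1) := by
    rw [g1.cnt, (Sh.or _ T).size] at f3
    exact f3
  have pD := ExD_pf (hDA.mono fun _ => P01_of hρ.le)
  have h1 : Ex g T (fun c => if Fits C c then 0 else 1) = ExD g D (fun x => if Fits C x.un then 0 else 1) := by
    have h0 := ExD_un (hDA.mono fun _ => P01_of hρ.le) (fun c => if Fits C c then (0 : ℝ) else 1)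
    rw [g2] at h0
    exact h0.symm
  have h2 : ExD g D (fun x => if Fits C x.un then 0 else 1) ≤
      ExD g D (fun x => (1 / 4 ^ D.cnt) * (16 : ℝ) ^ x.bct ε) := by
    refine pD.mono _ _ fun x hx => ?_
    by_cases hg : x.cnt ≤ 2 * x.gct ε
    · have hu := hx.un
      rw [g2] at hu
      rw [if_pos]
      · positivity
      · intro V R hR
        refine hC x (by rw [hu.len]; exact hl) (hu.deg hD) (hx.sz.2 hsz) ?_ hg hR
        rw [hu.size, hx.cnt]
        exact hcnt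
    · have h3 : x.cnt ≤ 2 * x.bct ε := by
        have := x.gct_add_bct ε
        omega
      rw [hx.cnt] at h3
      have h4 : (1 : ℝ) ≤ 1 / 4 ^ D.cnt * 16 ^ x.bct ε := by
        rw [one_div_mul_eq_div, one_le_div (by positivity), show (16 : ℝ) = 4 ^ 2 by norm_num, ← pow_mul]
        exact pow_le_pow_right₀ (by norm_num) h3
      split_ifs
      · linarith
      · exact h4
  have h3 := bad_mean hρ.le (fun q k1 k2 k3 k4 => ha₁ g q k1 k2 k3 (haa₁.trans k4))
    (fun M k1 k2 k3 k4 k5 => ha₂ g M k1 k2 k3 (haa₂.trans k4) k5) D (by rw [g2]; exact hD) hDA hsz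
  rw [h1]
  refine h2.trans ?_
  rw [pD.mul]
  have h4 : 1 / (4 : ℝ) ^ D.cnt * ExD g D (fun x => (16 : ℝ) ^ x.bct ε) ≤ 1 / (4 : ℝ) ^ D.cnt * 2 ^ D.cnt :=
    mul_le_mul_of_nonneg_left h3 (by positivity)
  refine h4.trans ?_
  have h5 : 1 / (4 : ℝ) ^ D.cnt * 2 ^ D.cnt = 1 / 2 ^ D.cnt := by
    rw [show (4 : ℝ) = 2 * 2 by norm_num, mul_pow]
    field_simp
  rw [h5]
  have h6 : (T.size + 1) / (2 * m) ≤ D.cnt + 1 := by
    rw [← Nat.mul_div_cancel_left (D.cnt + 1) (show 0 < 2 * m by omega)]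
    exact Nat.div_le_div_right hcnt
  rw [div_le_div_iff₀ (by positivity) (by positivity), one_mul]
  calc (2 : ℝ) ^ ((T.size + 1) / (2 * m)) ≤ 2 ^ (D.cnt + 1) := pow_le_pow_right₀ (by norm_num) h6
    _ = 2 * 2 ^ D.cnt := by rw [pow_succ]; ring

end AEW
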