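import Pool.Agent.AEW.RanG

/-!
# Most orientations of a piece are good: the probabilities
-/

namespace AEW

open Finset AE15 AED AELT
open scoped Classical

variable {α : Type} {g : α → ℝ}

/-- number of trees, with a tree in the hole -/
def CT.len : CT α → ℕ
  | .here s => s.len + 1
  | .dn _ _ s => s.len + 1
  | .nx _ _ t => t.len + 1

/-- every vertex has at most `b` children -/
def CT.Deg (b : ℕ) : CT α → Prop
  | .here s => s.Deg b
  | .dn _ t s => t.len ≤ b ∧ t.Deg b ∧ s.Deg b
  | .nx _ c t => c.len ≤ b ∧ c.Deg b ∧ t.Deg b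

theorem CT.len_plug {a : α} {c : Tr α} (M : CT α) : (M.plug a c).len = M.len := by
  induction M with
  | here s => rfl
  | dn x t s ih => rfl
  | nx x c t ih => simp only [CT.plug, Tr.len, CT.len, ih]

theorem CT.deg_plug {b : ℕ} {a : α} {c : Tr α} (M : CT α) (h : (M.plug a c).Deg b) :
    M.Deg b ∧ c.len ≤ b ∧ c.Deg b := by
  induction M with
  | here s => exact ⟨h.2.2, h.1, h.2.1⟩
  | dn x t s ih =>
    obtain ⟨h1, h2, h3⟩ := h
    obtain ⟨k1, k2, k3⟩ := ih h2
    exact ⟨⟨by rw [← CT.len_plug]; exact h1, k1, h3⟩, k2, k3⟩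
  | nx x c t ih =>
    obtain ⟨h1, h2, h3⟩ := h
    obtain ⟨k1, k2, k3⟩ := ih h3
    exact ⟨⟨h1, h2, k1⟩, k2, k3⟩

theorem tp_mean {b : ℕ} {ρ : ℝ} (hρ : 0 ≤ ρ) (hρ1 : ρ ≤ 1) (σ : Bool) (L : ℕ) (M : CT α) : M.Deg b →
    M.All (Pρ ρ g) → ∀ n : ℕ, ExC g M (fun c => (tp σ n c : ℝ)) ≤
      NL b L * (M.len + n * b) + (1 - ρ) ^ L * M.un.size + n := by
  have hN := NL_nonneg b L
  have hp : (0 : ℝ) ≤ (1 - ρ) ^ L := pow_nonneg (by linarith) _
  have hpos : ∀ (M : CT α) (n : ℕ), (0 : ℝ) ≤ NL b L * (M.len + n * b) + (1 - ρ) ^ L * M.un.size + n := by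
    intro M n
    positivity
  induction M with
  | here s =>
    intro hD hA n
    have ps := pf_of hρ hA
    cases n with
    | zero =>
      simp only [ExC, tp, Nat.cast_zero]
      rw [ps.const]
      have := hpos (.here s) 0
      simpa using this
    | succ n =>
      have h1 := clo_mean hρ hρ1 σ L s hD hA
      simp only [ExC, tp, CT.len, CT.un, Nat.cast_add, Nat.cast_one]
      have h2 : 0 ≤ NL b L * (1 + ((n : ℝ) + 1) * b) := by positivity
      have h3 : (0 : ℝ) ≤ n := Nat.cast_nonneg _
      nlinarith
  | dn a t s ih =>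
    intro hD hA n
    obtain ⟨d1, d2, d3⟩ := hD
    obtain ⟨t1, t2, t3⟩ := hA
    have e := E1_pf (p := g a) (by linarith [t1.1]) (by linarith [t1.2])
    have pt := pfC_of hρ t2
    have ps := pf_of hρ t3
    cases n with
    | zero =>
      simp only [ExC, tp, Nat.cast_zero]
      rw [ps.const, pt.const, e.const]
      have := hpos (.dn a t s) 0
      simpa using this
    | succ n =>
      have h1 := clo_mean hρ hρ1 σ L s d3 t3
      have h2 := ih d2 t2 n
      have h3 : ExC g (.dn a t s) (fun c => (tp σ (n + 1) c : ℝ)) =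
          Ex g s (fun c => ((clo σ c).size : ℝ)) + 1 + ExC g t (fun c => (tp σ n c : ℝ)) := by
        simp only [ExC, tp, Nat.cast_add, Nat.cast_one]
        have e1 : ∀ t' : Cx, Ex g s (fun s' => ((clo σ s').size : ℝ) + 1 + (tp σ n t' : ℝ)) =
            (Ex g s (fun c => ((clo σ c).size : ℝ)) + 1) + (tp σ n t' : ℝ) := by
          intro t'
          rw [ps.add, ps.add, ps.const, ps.const]
        simp only [e1]
        rw [pt.add, pt.const, e.const]
      rw [h3]
      simp only [CT.len, CT.un, Tr.size, Nat.cast_add, Nat.cast_one]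
      have h4 : NL b L * t.len ≤ NL b L * b := mul_le_mul_of_nonneg_left (by exact_mod_cast d1) hN
      nlinarith
  | nx a c t ih =>
    intro hD hA n
    obtain ⟨d1, d2, d3⟩ := hD
    obtain ⟨t1, t2, t3⟩ := hA
    have e := E1_pf (p := g a) (by linarith [t1.1]) (by linarith [t1.2])
    have pc := pf_of hρ t2
    have pt := pfC_of hρ t3
    cases n with
    | zero =>
      simp only [ExC, tp, Nat.cast_zero]
      rw [pt.const, pc.const, e.const]
      have := hpos (.nx a c t) 0
      simpa using this
    | succ n =>
      have h1 := clo_mean (b := b) hρ hρ1 σ L (.node a c .nil) ⟨d1, d2, trivial⟩ ⟨t1, t2, trivial⟩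
      have h2 := ih d3 t3 (n + 1)
      have h3 : ExC g (.nx a c t) (fun c => (tp σ (n + 1) c : ℝ)) =
          Ex g (.node a c .nil) (fun c => ((clo σ c).size : ℝ)) + ExC g t (fun c => (tp σ (n + 1) c : ℝ)) := by
        have e0 : ∀ (d : Bool) (c' : Fd) (t' : Cx), (tp σ (n + 1) (.nx d c' t') : ℝ) =
            ((clo σ (.node d c' .nil)).size : ℝ) + (tp σ (n + 1) t' : ℝ) := by
          intro d c' t'
          simp only [tp, clo]
          split_ifs
          · simp [Fd.size]
          · simp [Fd.size]
        simp only [ExC, Ex, e0]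
        have e1 : ∀ (d : Bool) (c' : Fd), ExC g t (fun t' => ((clo σ (.node d c' .nil)).size : ℝ) + (tp σ (n + 1) t' : ℝ)) =
            ((clo σ (.node d c' .nil)).size : ℝ) + ExC g t (fun c => (tp σ (n + 1) c : ℝ)) := by
          intro d c'
          rw [pt.add, pt.const]
        simp only [e1]
        simp only [pc.add, pc.const]
        rw [e.add, e.const]
      rw [h3]
      simp only [CT.len, CT.un, Tr.size, Tr.len, Nat.cast_add, Nat.cast_one, Nat.cast_zero] at h1 h2 ⊢
      nlinarith

theorem bt_mean {b : ℕ} {ρ : ℝ} (hρ : 0 ≤ ρ) (hρ1 : ρ ≤ 1) (σ : Bool) (L n : ℕ) (M : CT α) : M.len ≤ b → M.Deg b →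
    M.All (Pρ ρ g) → ExC g M (fun c => (bt σ n c : ℝ)) ≤
      NL b L * (b + n * b) + (1 - ρ) ^ L * M.un.size + n := by
  have hN := NL_nonneg b L
  have hp : (0 : ℝ) ≤ (1 - ρ) ^ L := pow_nonneg (by linarith) _
  have htp : ∀ M : CT α, M.len ≤ b → M.Deg b → M.All (Pρ ρ g) → ExC g M (fun c => (tp σ n c : ℝ)) ≤
      NL b L * (b + n * b) + (1 - ρ) ^ L * M.un.size + n := by
    intro M hl hD hA
    refine (tp_mean hρ hρ1 σ L M hD hA n).trans ?_
    have : NL b L * (M.len + n * b) ≤ NL b L * (b + n * b) :=
      mul_le_mul_of_nonneg_left (by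
        have : (M.len : ℝ) ≤ b := by exact_mod_cast hl
        linarith) hN
    linarith
  induction M with
  | here s =>
    intro hl hD hA
    exact htp (.here s) hl hD hA
  | dn a t s ih =>
    intro hl hD hA
    by_cases hn : t.pl + 1 < n
    · refine le_trans (le_of_eq ?_) (htp _ hl hD hA)
      refine (pfC_of hρ hA).congr fun x hx => ?_
      rw [bt_eq]
      rw [hx.sg]
      exact hn
    · obtain ⟨d1, d2, d3⟩ := hD
      have hA' := hA
      obtain ⟨t1, t2, t3⟩ := hA
      have e := E1_pf (p := g a) (by linarith [t1.1]) (by linarith [t1.2])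
      have ps := pf_of hρ t3
      have h1 := ih d1 d2 t2
      have h2 : ExC g (.dn a t s) (fun c => (bt σ n c : ℝ)) = ExC g t (fun c => (bt σ n c : ℝ)) := by
        have h3 : ExC g (.dn a t s) (fun c => (bt σ n c : ℝ)) =
            E1 (g a) fun d => ExC g t fun t' => Ex g s fun s' => (bt σ n t' : ℝ) := by
          simp only [ExC]
          refine e.congr fun d _ => (pfC_of hρ t2).congr fun t' ht' => ps.congr fun s' _ => ?_
          simp only [bt]
          rw [if_neg]
          simp only [Cx.sg, List.length_cons, ht'.sg]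
          exact hn
        rw [h3]
        simp only [ps.const]
        rw [e.const]
      rw [h2]
      refine h1.trans ?_
      simp only [CT.un, Tr.size, Nat.cast_add, Nat.cast_one]
      nlinarith
  | nx a c t ih =>
    intro hl hD hA
    by_cases hn : t.pl < n
    · refine le_trans (le_of_eq ?_) (htp _ hl hD hA)
      refine (pfC_of hρ hA).congr fun x hx => ?_
      rw [bt_eq]
      rw [hx.sg]
      exact hn
    · obtain ⟨d1, d2, d3⟩ := hD
      obtain ⟨t1, t2, t3⟩ := hA
      have e := E1_pf (p := g a) (by linarith [t1.1]) (by linarith [t1.2])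
      have pc := pf_of hρ t2
      simp only [CT.len] at hl
      have h1 := ih (by omega) d3 t3
      have h2 : ExC g (.nx a c t) (fun c => (bt σ n c : ℝ)) = ExC g t (fun c => (bt σ n c : ℝ)) := by
        have h3 : ExC g (.nx a c t) (fun c => (bt σ n c : ℝ)) =
            E1 (g a) fun d => Ex g c fun c' => ExC g t fun t' => (bt σ n t' : ℝ) := by
          simp only [ExC]
          refine e.congr fun d _ => pc.congr fun c' _ => (pfC_of hρ t3).congr fun t' ht' => ?_
          simp only [bt]
          rw [if_neg]
          simp only [Cx.sg, ht'.sg]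
          exact hn
        rw [h3]
        simp only [pc.const]
        rw [e.const]
      rw [h2]
      refine h1.trans ?_
      simp only [CT.un, Tr.size, Nat.cast_add, Nat.cast_one]
      nlinarith

/-- the direction `σ` occurs among `n` consecutive arcs -/
theorem occ_prob {ρ : ℝ} (hρ : 0 ≤ ρ) (hρ1 : ρ ≤ 1) (σ : Bool) (M : CT α) : M.All (Pρ ρ g) → ∀ m n : ℕ, m + n ≤ M.pl →
    ExC g M (fun c => if Occ σ m n c then 0 else 1) ≤ (1 - ρ) ^ n := by
  have hρ' : 0 ≤ 1 - ρ := by linarith
  induction M with
  | here s =>
    intro hA m n h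
    simp only [CT.pl] at h
    obtain rfl : n = 0 := by omega
    rw [pow_zero]
    have := (pfC_of hρ (T := .here s) hA).mono (fun c => if Occ σ m 0 c then 0 else 1) (fun _ => 1) (fun x _ => by
      split_ifs <;> norm_num)
    rwa [(pfC_of hρ (T := .here s) hA).one] at this
  | dn a t s ih =>
    intro hA m n h
    have hA' := hA
    obtain ⟨t1, t2, t3⟩ := hA
    simp only [CT.pl] at h
    have e := E1_pf (p := g a) (by linarith [t1.1]) (by linarith [t1.2])
    have pt := pfC_of hρ t2
    have ps := pf_of hρ t3
    cases m with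
    | succ m =>
      have h1 : ExC g (.dn a t s) (fun c => if Occ σ (m + 1) n c then 0 else 1) =
          ExC g t (fun c => if Occ σ m n c then 0 else 1) := by
        simp only [ExC]
        have h2 : ∀ (d : Bool) (t' : Cx) (s' : Fd), Occ σ (m + 1) n (.dn d t' s') ↔ Occ σ m n t' := by
          intro d t' s'
          unfold Occ
          simp only [Cx.sg]
          refine exists_congr fun i => and_congr Iff.rfl ?_
          rw [show m + 1 + i = m + i + 1 by omega, List.getElem?_cons_succ]
        simp only [h2, ps.const]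
        rw [e.const]
      rw [h1]
      exact ih t2 m n (by omega)
    | zero =>
      cases n with
      | zero =>
        rw [pow_zero]
        have := (pfC_of hρ hA').mono (fun c => if Occ σ 0 0 c then 0 else 1) (fun _ => 1) (fun x _ => by
          split_ifs <;> norm_num)
        rwa [(pfC_of hρ hA').one] at this
      | succ n =>
        obtain ⟨y, hy⟩ : ∃ y, y = ExC g t (fun c => if Occ σ 0 n c then (0 : ℝ) else 1) := ⟨_, rfl⟩
        have h1 : ExC g (.dn a t s) (fun c => if Occ σ 0 (n + 1) c then 0 else 1) =
            E1 (g a) (fun d => if d = σ then 0 else 0 + y) := by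
          simp only [ExC]
          have h2 : ∀ (d : Bool) (t' : Cx) (s' : Fd), Occ σ 0 (n + 1) (.dn d t' s') ↔ d = σ ∨ Occ σ 0 n t' := by
            intro d t' s'
            unfold Occ
            simp only [Cx.sg, zero_add]
            constructor
            · rintro ⟨i, hi, h⟩
              cases i with
              | zero =>
                rw [List.getElem?_cons_zero, Option.some.injEq] at h
                exact Or.inl h
              | succ i =>
                rw [List.getElem?_cons_succ] at h
                exact Or.inr ⟨i, by omega, h⟩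
            · rintro (h | ⟨i, hi, h⟩)
              · exact ⟨0, by omega, by rw [List.getElem?_cons_zero, h]⟩
              · exact ⟨i + 1, by omega, by rw [List.getElem?_cons_succ, h]⟩
          simp only [h2, ps.const]
          congr 1
          funext d
          by_cases hd : d = σ
          · simp only [hd, true_or, if_true]
            exact pt.const 0
          · simp only [hd, false_or, if_false, hy, zero_add]
        rw [h1]
        have hy0 : 0 ≤ y := by
          rw [hy]
          exact pt.nonneg fun x _ => by split_ifs <;> norm_num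
        have hy1 : y ≤ (1 - ρ) ^ n := by
          rw [hy]
          exact ih t2 0 n (by omega)
        refine (E1_le t1.1 t1.2 σ hy0).trans ?_
        rw [zero_add, pow_succ, mul_comm]
        exact mul_le_mul_of_nonneg_right hy1 hρ'
  | nx a c t ih =>
    intro hA m n h
    obtain ⟨t1, t2, t3⟩ := hA
    simp only [CT.pl] at h
    have e := E1_pf (p := g a) (by linarith [t1.1]) (by linarith [t1.2])
    have pc := pf_of hρ t2
    have h1 : ExC g (.nx a c t) (fun c => if Occ σ m n c then 0 else 1) =
        ExC g t (fun c => if Occ σ m n c then 0 else 1) := by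
      simp only [ExC]
      have h2 : ∀ (d : Bool) (c' : Fd) (t' : Cx), Occ σ m n (.nx d c' t') ↔ Occ σ m n t' := fun d c' t' => Iff.rfl
      simp only [h2, pc.const]
      rw [e.const]
    rw [h1]
    exact ih t3 m n h

end AEW
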