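import Pool.Agent.AEW.Core

/-!
# Pieces with a movable centre

A piece is gadgetable if it contains a vertex `y` (the centre) all of whose neighbours dominate it (`σ = true`) or are
dominated by it (`σ = false`), such that the parts of the piece between `y` and its hosts contain all changes of direction.
-/

namespace AEW

open Finset AE15 AED AELT
open scoped Classical

/-- all arcs at the common vertex have direction `d` -/
def TopD (d : Bool) : Fd → Prop
  | .nil => True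
  | .node d' _ s => d' = d ∧ TopD d s

/-- a branch which is gadgetable: `M₁` is the context of the parent of `x₀`, `N₀` are the other trees at `x₀`, `cy` are the
trees at the centre -/
def Gad1 (b : ℕ) (q : Fd) : Prop := ∀ σ : Bool, ∃ (M₁ N₀ : Cx) (d₁ : Bool) (cy : Fd),
  q = M₁.plug (d₁, N₀.plug (σ, cy)) ∧ N₀.sg = [] ∧ Good2 1 M₁ ∧ TopD (!σ) cy ∧ cy.len ≤ b

/-- a segment which is gadgetable: `N₁` are the other trees at the centre, `N₂` the other trees at `x₁` -/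
def Gad2 (b : ℕ) (M : Cx) : Prop := ∀ σ : Bool, ∃ (M₁ N₀ N₁ N₂ M₂ : Cx) (d₁ d₂ : Bool),
  M = M₁.cmp d₁ (N₀.cmp σ (N₁.cmp (!σ) (N₂.cmp d₂ M₂))) ∧ N₀.sg = [] ∧ N₁.sg = [] ∧ N₂.sg = [] ∧ Good2 1 M₁ ∧
    Good2 1 M₂ ∧ TopD (!σ) N₁.un ∧ N₁.un.len + 1 ≤ b

/-- number of pieces which are good and gadgetable -/
noncomputable def Dk.act (ε : ℝ) (b : ℕ) : Dk → ℕ
  | .nil => 0
  | .node _ c s => c.act ε b + s.act ε b
  | .pc1 _ q s => (if Good1 ε q ∧ Gad1 b q then 1 else 0) + s.act ε b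
  | .pc2 _ M _ c s => (if Good2 ε M ∧ Gad2 b M then 1 else 0) + (c.act ε b + s.act ε b)

variable {V : Type}

/-- the piece is gadgetable -/
def Pd.Gad (b : ℕ) : Pd V → Prop
  | .one _ _ q => Gad1 b q
  | .two _ _ M _ _ => Gad2 b M

/-- the absorption theorem without additional vertices -/
def AbsorbXSt (b : ℕ) : Prop := ∀ θ : ℝ, 0 < θ → ∃ ε : ℝ, 0 < ε ∧ ∀ (m : ℕ) (δ : ℝ), 0 < δ → ∃ n₀ : ℕ, ∀ D : Dk,
  D.un.len ≤ b → D.un.Deg b → D.Ok ε m → θ * (D.un.size + 1) ≤ D.psz → δ * (D.un.size + 1) ≤ D.act ε b →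
    n₀ ≤ D.un.size → Fits 0 D.un

end AEW
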