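import Pool.Agent.AEW.XProb
import Pool.Agent.AEW.XDefs
import Pool.Agent.AEW.Decomp

/-!
# Antidirected pieces are good and contain gadgets
-/

namespace AEW

open Finset AE15 AED AELT
open scoped Classical

/-- the direction of the `i`-th arc of an antidirected path -/
def alt (e : Bool) (i : ℕ) : Bool := if i % 2 = 0 then e else !e

theorem alt_zero (e : Bool) : alt e 0 = e := rfl

theorem alt_succ (e : Bool) (i : ℕ) : alt e (i + 1) = alt (!e) i := by
  unfold alt
  rcases Nat.mod_two_eq_zero_or_one i with h | h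
  · rw [if_neg (by omega), if_pos h]
  · rw [if_pos (by omega), if_neg (by omega), Bool.not_not]

theorem alt_succ' (e : Bool) (i : ℕ) : alt e (i + 1) = !alt e i := by
  unfold alt
  rcases Nat.mod_two_eq_zero_or_one i with h | h
  · rw [if_neg (by omega), if_pos h]
  · rw [if_pos (by omega), if_neg (by omega), Bool.not_not]

theorem alt_add (e : Bool) (i j : ℕ) : alt e (i + j) = alt (alt e i) j := by
  induction i generalizing e with
  | zero => rw [zero_add, alt_zero]
  | succ i ih => rw [show i + 1 + j = (i + j) + 1 by omega, alt_succ, ih, alt_succ]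

/-- one of two consecutive arcs has direction `σ` -/
theorem alt_or (e : Bool) (i : ℕ) (σ : Bool) : alt e i = σ ∨ alt e (i + 1) = σ := by
  rw [alt_succ']
  cases alt e i <;> cases σ <;> simp

theorem AntiC.sg {M : Cx} : ∀ {e : Bool}, AntiC e M → ∀ i < M.sg.length, M.sg[i]? = some (alt e i) := by
  induction M with
  | here s =>
    intro e _ i hi
    simp [Cx.sg] at hi
  | dn d t s ih =>
    rintro e ⟨h1, h2, h3⟩ i hi
    cases i with
    | zero => simp only [Cx.sg, List.getElem?_cons_zero, h1, alt_zero]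
    | succ i =>
      simp only [Cx.sg, List.length_cons] at hi
      simp only [Cx.sg, List.getElem?_cons_succ]
      rw [ih h2 i (by omega), alt_succ]
  | nx d c t ih =>
    rintro e ⟨h1, h2, h3⟩ i hi
    exact ih h3 i hi

theorem AntiC.cmp {d : Bool} {B U : Cx} : ∀ {e : Bool}, AntiC e (U.cmp d B) →
    AntiC e U ∧ d = alt e U.sg.length ∧ AntiC (!d) B := by
  induction U with
  | here s =>
    rintro e ⟨h1, h2, h3⟩
    refine ⟨h3, h1, ?_⟩
    rw [h1]
    exact h2
  | dn d1 t s ih =>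
    rintro e ⟨h1, h2, h3⟩
    obtain ⟨k1, k2, k3⟩ := ih h2
    refine ⟨⟨h1, k1, h3⟩, ?_, k3⟩
    rw [k2]
    simp only [Cx.sg, List.length_cons]
    rw [alt_succ]
  | nx d1 c t ih =>
    rintro e ⟨h1, h2, h3⟩
    obtain ⟨k1, k2, k3⟩ := ih h3
    exact ⟨⟨h1, h2, k1⟩, k2, k3⟩

/-- the branches which are removed -/
theorem Anti.clo_nil {c : Fd} {σ : Bool} (h : Anti σ c) : clo σ c = .nil := by
  induction c with
  | nil => rfl
  | node d c s _ ihs =>
    obtain ⟨h1, -, h3⟩ := h
    simp only [clo, h1, if_true]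
    exact ihs h3

theorem Anti.clo_le {c : Fd} {e σ : Bool} (h : Anti e c) : (clo σ c).size ≤ c.len := by
  induction c with
  | nil => exact le_rfl
  | node d c s _ ihs =>
    obtain ⟨h1, h2, h3⟩ := h
    have := ihs h3
    simp only [clo]
    split_ifs with hd
    · simp only [Fd.len]
      omega
    · have : (!e) = σ := by
        rw [← h1]
        cases d <;> cases σ <;> simp at hd ⊢
      rw [this] at h2
      simp only [Fd.size, Fd.len, h2.clo_nil]
      omega

theorem anti_good1 {b : ℕ} {ε : ℝ} {q : Fd} {e : Bool} (h : Anti e q) (hl : q.len ≤ b)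
    (hs : (b : ℝ) + 1 ≤ ε * (q.size + 1)) : Good1 ε q := by
  intro σ
  refine le_trans ?_ hs
  have : (clo σ q).size ≤ b := h.clo_le.trans hl
  have : ((clo σ q).size : ℝ) ≤ b := by exact_mod_cast this
  linarith

theorem tp_le_size {σ : Bool} (M : Cx) : ∀ n, tp σ n M ≤ M.un.size := by
  induction M with
  | here s =>
    intro n
    cases n with
    | zero => exact Nat.zero_le _
    | succ n => exact size_clo σ s
  | dn d t s ih =>
    intro n
    cases n with
    | zero => exact Nat.zero_le _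
    | succ n =>
      have h1 := ih n
      have h2 := size_clo σ s
      simp only [tp, Cx.un, Fd.size]
      omega
  | nx d c t ih =>
    intro n
    cases n with
    | zero => exact Nat.zero_le _
    | succ n =>
      have h1 := ih (n + 1)
      have h2 := size_clo σ c
      simp only [tp, Cx.un, Fd.size]
      split_ifs <;> omega

theorem bt_le_size {σ : Bool} (n : ℕ) (M : Cx) : bt σ n M ≤ M.un.size := by
  induction M with
  | here s => exact tp_le_size _ n
  | dn d t s ih =>
    simp only [bt]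
    split_ifs
    · exact tp_le_size _ n
    · refine ih.trans ?_
      simp only [Cx.un, Fd.size]
      omega
  | nx d c t ih =>
    simp only [bt]
    split_ifs
    · exact tp_le_size _ n
    · refine ih.trans ?_
      simp only [Cx.un, Fd.size]
      omega

theorem AntiC.tp_le {b : ℕ} {σ : Bool} {M : Cx} : ∀ {e : Bool}, AntiC e M → M.un.Deg b →
    ∀ n, tp σ n M ≤ M.un.len + n * b := by
  induction M with
  | here s =>
    intro e h _ n
    cases n with
    | zero => exact Nat.zero_le _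
    | succ n =>
      have := Anti.clo_le (σ := σ) h
      simp only [tp, Cx.un]
      omega
  | dn d t s ih =>
    rintro e ⟨h1, h2, h3⟩ hD n
    cases n with
    | zero => exact Nat.zero_le _
    | succ n =>
      obtain ⟨g1, g2, g3⟩ := hD
      have k1 := ih h2 g2 n
      have k2 := Anti.clo_le (σ := σ) h3
      simp only [tp, Cx.un, Fd.len]
      rw [Nat.succ_mul]
      omega
  | nx d c t ih =>
    rintro e ⟨h1, h2, h3⟩ hD n
    cases n with
    | zero => exact Nat.zero_le _
    | succ n =>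
      obtain ⟨g1, g2, g3⟩ := hD
      have k1 := ih h3 g3 (n + 1)
      simp only [tp, Cx.un, Fd.len]
      split_ifs with hd
      · omega
      · have : (!e) = σ := by
          rw [← h1]
          cases d <;> cases σ <;> simp at hd ⊢
        rw [this] at h2
        rw [h2.clo_nil]
        simp only [Fd.size]
        omega

theorem AntiC.bt_le {b : ℕ} {σ : Bool} (n : ℕ) {M : Cx} : ∀ {e : Bool}, AntiC e M → M.un.len ≤ b → M.un.Deg b →
    bt σ n M ≤ b + n * b := by
  induction M with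
  | here s =>
    intro e h hl hD
    exact (AntiC.tp_le (M := .here s) h hD n).trans (by omega)
  | dn d t s ih =>
    intro e h hl hD
    simp only [bt]
    split_ifs
    · exact (AntiC.tp_le h hD n).trans (by omega)
    · exact ih h.2.1 hD.1 hD.2.1
  | nx d c t ih =>
    intro e h hl hD
    simp only [bt]
    split_ifs
    · exact (AntiC.tp_le h hD n).trans (by omega)
    · simp only [Cx.un, Fd.len] at hl
      exact ih h.2.2 (by omega) hD.2.2

theorem AntiC.occ {M : Cx} {e : Bool} (h : AntiC e M) (σ : Bool) {m : ℕ} (hm : m + 2 ≤ M.sg.length) : Occ σ m 2 M := by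
  rcases alt_or e m σ with h1 | h1
  · exact ⟨0, by omega, by rw [add_zero, h.sg m (by omega), h1]⟩
  · exact ⟨1, by omega, by rw [h.sg (m + 1) (by omega), h1]⟩

/-- antidirected segments are good -/
theorem antiC_good2 {b : ℕ} {ε : ℝ} {M : Cx} {e : Bool} (h : AntiC e M) (hl : M.un.len ≤ b) (hD : M.un.Deg b)
    (h6 : 6 ≤ M.sg.length) (hs : (3 * b : ℝ) + 1 ≤ ε * (M.un.size + 1)) : Good2 ε M := by
  refine good2_of (n := 2) (by omega) (fun σ => h.occ σ (by omega)) (fun σ => h.occ σ (by omega))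
    (fun σ => h.occ σ (by omega)) (fun σ => ?_) (fun σ => ?_)
  · refine le_trans ?_ hs
    have h1 := AntiC.tp_le (σ := σ) h hD 2
    have h2 : tp σ 2 M ≤ 3 * b := by omega
    have h3 : (tp σ 2 M : ℝ) ≤ 3 * b := by exact_mod_cast h2
    linarith
  · refine le_trans ?_ hs
    have h1 := AntiC.bt_le (σ := σ) 2 h hl hD
    have h2 : bt σ 2 M ≤ 3 * b := by omega
    have h3 : (bt σ 2 M : ℝ) ≤ 3 * b := by exact_mod_cast h2
    linarith

/-- the path has enough direction changes -/
theorem antiC_turns {M : Cx} {e : Bool} (h : AntiC e M) (h6 : 6 ≤ M.sg.length) : Good2 1 M := by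
  refine good2_of (n := 2) (by omega) (fun σ => h.occ σ (by omega)) (fun σ => h.occ σ (by omega))
    (fun σ => h.occ σ (by omega)) (fun σ => ?_) (fun σ => ?_)
  · have h1 : (tp σ 2 M : ℝ) ≤ M.un.size := by exact_mod_cast tp_le_size M 2
    linarith
  · have h1 : (bt σ 2 M : ℝ) ≤ M.un.size := by exact_mod_cast bt_le_size 2 M
    linarith

/-- an antidirected segment is cut -/
theorem AntiC.cut {M : Cx} {e : Bool} (h : AntiC e M) {i : ℕ} (hi : i < M.sg.length) :
    ∃ U B : Cx, M = U.cmp (alt e i) B ∧ U.sg.length = i ∧ B.sg.length = M.sg.length - i - 1 ∧ AntiC e U ∧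
      AntiC (alt e (i + 1)) B := by
  obtain ⟨U, B, h1, h2, -⟩ := split M i _ (h.sg i hi)
  have h' := h
  rw [h1] at h'
  obtain ⟨k1, -, k3⟩ := h'.cmp
  have hlen : M.sg.length = U.sg.length + (B.sg.length + 1) := by
    conv_lhs => rw [h1]
    simp only [Cx.sg_cmp, List.length_append, List.length_cons]
  refine ⟨U, B, h1, h2, by omega, k1, ?_⟩
  rw [alt_succ']
  exact k3

/-- deep vertices -/
def Sd (b : ℕ) : ℕ → ℕ
  | 0 => 0
  | D + 1 => b * (1 + Sd b D)

theorem exists_deep (b : ℕ) (D : ℕ) : ∀ q : Fd, q.Deg b → (q.len * (match D with | 0 => 0 | D + 1 => 1 + Sd b D)) < q.size →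
    ∃ (M : Cx) (p : Bool × Fd), q = M.plug p ∧ M.sg.length = D := by
  induction D with
  | zero =>
    intro q _ hq
    cases q with
    | nil => simp [Fd.size] at hq
    | node d c s => exact ⟨.here s, (d, c), rfl, rfl⟩
  | succ D ihD =>
    intro q
    induction q with
    | nil => intro _ hq; simp [Fd.size] at hq
    | node d c s ihc ihs =>
      rintro ⟨g1, g2, g3⟩ hq
      simp only [Fd.len, Fd.size] at hq
      by_cases hc : Sd b D < c.size
      · obtain ⟨M, p, h1, h2⟩ := ihD c g2 (by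
          cases D with
          | zero => simp only [Nat.mul_zero]; simp only [Sd] at hc; exact hc
          | succ D =>
            simp only [Sd] at hc
            exact lt_of_le_of_lt (Nat.mul_le_mul_right _ g1) hc)
        exact ⟨.dn d M s, p, by rw [Cx.plug, ← h1], by simp only [Cx.sg, List.length_cons, h2]⟩
      · obtain ⟨M, p, h1, h2⟩ := ihs g3 (by
          rw [Nat.succ_mul] at hq
          simp only
          omega)
        exact ⟨.nx d c M, p, by rw [Cx.plug, ← h1], h2⟩

theorem Anti.plug {p : Bool × Fd} {M : Cx} : ∀ {e : Bool}, Anti e (M.plug p) →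
    AntiC e M ∧ p.1 = alt e M.sg.length ∧ Anti (!p.1) p.2 := by
  induction M with
  | here s =>
    rintro e ⟨h1, h2, h3⟩
    refine ⟨h3, h1, ?_⟩
    rw [h1]
    exact h2
  | dn d1 t s ih =>
    rintro e ⟨h1, h2, h3⟩
    obtain ⟨k1, k2, k3⟩ := ih h2
    refine ⟨⟨h1, k1, h3⟩, ?_, k3⟩
    rw [k2]
    simp only [Cx.sg, List.length_cons]
    rw [alt_succ]
  | nx d1 c t ih =>
    rintro e ⟨h1, h2, h3⟩
    obtain ⟨k1, k2, k3⟩ := ih h3
    exact ⟨⟨h1, h2, k1⟩, k2, k3⟩

theorem Anti.tops {e : Bool} {c : Fd} (h : Anti e c) : TopD e c := by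
  induction c with
  | nil => trivial
  | node d c s _ ihs => exact ⟨h.1, ihs h.2.2⟩

theorem AntiC.tops {e : Bool} {M : Cx} (h : AntiC e M) (h0 : M.sg.length = 0) : TopD e M.un := by
  induction M with
  | here s => exact Anti.tops h
  | dn d t s _ => simp [Cx.sg] at h0
  | nx d c t ih => exact ⟨h.1, ih h.2.2 h0⟩

theorem len_zero {M : Cx} (h : M.sg.length = 0) : M.sg = [] := List.length_eq_zero_iff.1 h

/-- degrees behind a cut -/
theorem deg_cmp {b : ℕ} {d : Bool} {B : Cx} (U : Cx) (h : (U.cmp d B).un.Deg b) : B.un.len ≤ b ∧ B.un.Deg b := by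
  induction U with
  | here s => exact ⟨h.1, h.2.1⟩
  | dn d1 t s ih => exact ih h.2.1
  | nx d1 c t ih => exact ih h.2.2

theorem len_cmp {d : Bool} {B : Cx} (U : Cx) (h : U.sg.length = 0) : (U.cmp d B).un.len = U.un.len + 1 := by
  induction U with
  | here s => rfl
  | dn d1 t s _ => simp [Cx.sg] at h
  | nx d1 c t ih => simp only [Cx.cmp, Cx.un, Fd.len, ih h]

/-- antidirected segments contain gadgets of both types -/
theorem antiC_gad {b : ℕ} {M : Cx} {e : Bool} (h : AntiC e M) (hD : M.un.Deg b) (hl : 18 ≤ M.sg.length) :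
    Gad2 b M := by
  intro sg
  obtain ⟨i, hi6, hi7, hi⟩ : ∃ i, 6 ≤ i ∧ i ≤ 7 ∧ alt e (i + 1) = sg := by
    rcases alt_or e 7 sg with h1 | h1
    · exact ⟨6, by omega, by omega, h1⟩
    · exact ⟨7, by omega, by omega, h1⟩
  obtain ⟨M₁, B₀, e1, l1, m1, a1, c1⟩ := h.cut (i := i) (by omega)
  rw [hi] at c1
  obtain ⟨N₀, B₁, e2, l2, m2, a2, c2⟩ := c1.cut (i := 0) (by omega)
  rw [alt_zero] at e2
  rw [alt_succ, alt_zero] at c2
  obtain ⟨Ny, B₂, e3, l3, m3, a3, c3⟩ := c2.cut (i := 0) (by omega)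
  rw [alt_zero] at e3
  rw [alt_succ, alt_zero, Bool.not_not] at c3
  obtain ⟨N₁, M₂, e4, l4, m4, a4, c4⟩ := c3.cut (i := 0) (by omega)
  rw [alt_zero] at e4
  rw [e1] at hD
  have hD1 := (deg_cmp _ hD).2
  rw [e2] at hD1
  have hD2 := (deg_cmp _ hD1).1
  rw [e3, len_cmp _ l3] at hD2
  refine ⟨M₁, N₀, Ny, N₁, M₂, alt e i, sg, ?_, len_zero l2, len_zero l3, len_zero l4,
    antiC_turns a1 (by omega), antiC_turns c4 (by omega), a3.tops l3, hD2⟩
  rw [e1, e2, e3, e4]

theorem Sd_mono {b : ℕ} (hb : 1 ≤ b) (D : ℕ) : Sd b D ≤ Sd b (D + 1) := by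
  show Sd b D ≤ b * (1 + Sd b D)
  nlinarith

/-- large antidirected branches contain gadgets of both types -/
theorem anti_gad {b : ℕ} (hb : 1 ≤ b) {q : Fd} {e : Bool} (h : Anti e q) (hl : q.len ≤ b) (hD : q.Deg b)
    (hs : Sd b 9 < q.size) : Gad1 b q := by
  intro sg
  obtain ⟨D, hD7, hD8, hDs⟩ : ∃ D, 7 ≤ D ∧ D ≤ 8 ∧ alt e D = sg := by
    rcases alt_or e 7 sg with h1 | h1
    · exact ⟨7, by omega, by omega, h1⟩
    · exact ⟨8, by omega, by omega, h1⟩
  obtain ⟨M, p, e1, l1⟩ : ∃ (M : Cx) (p : Bool × Fd), q = M.plug p ∧ M.sg.length = D := by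
    refine exists_deep b D q hD ?_
    obtain ⟨D', rfl⟩ : ∃ D', D = D' + 1 := ⟨D - 1, by omega⟩
    simp only
    have h1 : q.len * (1 + Sd b D') ≤ b * (1 + Sd b D') := Nat.mul_le_mul_right _ hl
    have h2 : b * (1 + Sd b D') = Sd b (D' + 1) := rfl
    have h3 : Sd b (D' + 1) ≤ Sd b 9 := by
      have h5 : D' + 1 = 7 ∨ D' + 1 = 8 := by omega
      rcases h5 with h5 | h5
      · rw [h5]
        exact (Sd_mono hb 7).trans (Sd_mono hb 8)
      · rw [h5]
        exact Sd_mono hb 8
    omega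
  have hD' := hD
  rw [e1] at h hD'
  obtain ⟨k1, k2, k3⟩ := h.plug
  rw [l1, hDs] at k2
  obtain ⟨M₁, N₀, e2, l2, m2, a2, c2⟩ := k1.cut (i := D - 1) (by omega)
  refine ⟨M₁, N₀, alt e (D - 1), p.2, ?_, len_zero (by omega), antiC_turns a2 (by omega), ?_, (Cx.deg_plug p M hD').1⟩
  · rw [e1, e2, Cx.plug_cmp, ← k2]
  · rw [← k2]
    exact k3.tops

/-- antidirected pieces are good and gadgetable -/
theorem pct_le_act {b a m L : ℕ} (hb : 1 ≤ b) {ε : ℝ} (hε : 0 < ε) (hL : 18 ≤ L) (ha : ((3 * b : ℕ) : ℝ) + 1 ≤ ε * a)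
    (ha' : Sd b 9 + 1 < a) (D : Dk) : D.un.Deg b → D.Sz a m L → D.pct (Anti true) (AntiC true) ≤ D.act ε b := by
  have hb0 : (0 : ℝ) ≤ b := Nat.cast_nonneg _
  push_cast at ha
  have key1 : ∀ q : Fd, q.len ≤ b → q.Deg b → a ≤ q.size + 1 → Anti true q → Good1 ε q ∧ Gad1 b q := by
    intro q h1 h2 h3 h4
    refine ⟨anti_good1 h4 h1 ?_, anti_gad hb h4 h1 h2 (by omega)⟩
    have h5 : (a : ℝ) ≤ q.size + 1 := by exact_mod_cast h3
    have h6 : ε * a ≤ ε * (q.size + 1) := mul_le_mul_of_nonneg_left h5 hε.le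
    linarith
  have key2 : ∀ M : Cx, M.un.len ≤ b → M.un.Deg b → a ≤ M.un.size + 1 → L ≤ M.sg.length → AntiC true M →
      Good2 ε M ∧ Gad2 b M := by
    intro M h1 h2 h3 h4 h5
    refine ⟨antiC_good2 h5 h1 h2 (by omega) ?_, antiC_gad h5 h2 (by omega)⟩
    have h6 : (a : ℝ) ≤ M.un.size + 1 := by exact_mod_cast h3
    have h7 : ε * a ≤ ε * (M.un.size + 1) := mul_le_mul_of_nonneg_left h6 hε.le
    linarith
  induction D with
  | nil => intro _ _; exact le_rfl
  | node d c s ihc ihs =>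
    rintro ⟨d1, d2, d3⟩ ⟨s1, s2⟩
    have h1 := ihc d2 s1
    have h2 := ihs d3 s2
    simp only [Dk.pct, Dk.act]
    omega
  | pc1 d q s ihs =>
    rintro ⟨d1, d2, d3⟩ ⟨s1, s2, s3⟩
    have h2 := ihs d3 s3
    simp only [Dk.pct, Dk.act]
    by_cases h : Anti true q
    · rw [if_pos h, if_pos (key1 q d1 d2 s1 h)]
      omega
    · rw [if_neg h]
      omega
  | pc2 d M d' c s ihc ihs =>
    rintro ⟨d1, d2, d3⟩ ⟨s1, s2, s3, s4, s5⟩
    have h1 := ihc (Cx.deg_plug (d', c.un) M d2).2 s4
    have h2 := ihs d3 s5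
    simp only [Dk.pct, Dk.act]
    by_cases h : AntiC true M
    · rw [if_pos h, if_pos (key2 M ((un_len_le (d', c.un) M).trans d1) (un_deg (d', c.un) M d2) s1 s3 h)]
      omega
    · rw [if_neg h]
      omega

end AEW
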