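import Pool.Agent.AEW.XDefs
import Pool.Agent.AEW.Piece
import Pool.Agent.AEW.Pool

/-!
# Contexts with a given host of the vertex with the hole

The other vertices are put on unused vertices, one after the other, beginning at the hole. All of them have many neighbours
of both kinds among the unused vertices.
-/

namespace AEW

open Finset AE15 AED AELT
open scoped Classical

variable {V : Type} {R : V → V → Prop}

/-- the vertices of the next level have at least `K` neighbours of each kind in the preceding one -/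
noncomputable def lev (R : V → V → Prop) (K : ℕ) (S : Finset V) : ℕ → Finset V
  | 0 => S
  | j + 1 => (lev R K S j).filter (fun v => ∀ d, K ≤ (nb R d (lev R K S j) v).card)

theorem lev_succ_sub (K : ℕ) (S : Finset V) (j : ℕ) : lev R K S (j + 1) ⊆ lev R K S j := filter_subset _ _

theorem lev_sub (K : ℕ) (S : Finset V) (j : ℕ) : lev R K S j ⊆ S := by
  induction j with
  | zero => exact Subset.refl _
  | succ j ih => exact (lev_succ_sub K S j).trans ih

theorem mem_lev_succ {K : ℕ} {S : Finset V} {j : ℕ} {v : V} (h : v ∈ lev R K S (j + 1)) (d : Bool) :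
    K ≤ (nb R d (lev R K S j) v).card := (mem_filter.1 h).2 d

theorem lev_diff (hT : AE32.Tour R) (K : ℕ) (S : Finset V) (j : ℕ) : (S \ lev R K S j).card ≤ 4 * K * j := by
  induction j with
  | zero => simp [lev]
  | succ j ih =>
    have h1 : S \ lev R K S (j + 1) ⊆ (S \ lev R K S j) ∪
        ((lev R K S j).filter (fun v => (nb R true (lev R K S j) v).card < K) ∪
          (lev R K S j).filter (fun v => (nb R false (lev R K S j) v).card < K)) := by
      intro v hv
      obtain ⟨h1, h2⟩ := mem_sdiff.1 hv
      rw [mem_union, mem_union, mem_sdiff, mem_filter, mem_filter]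
      by_cases h3 : v ∈ lev R K S j
      · right
        by_contra hcon
        push Not at hcon
        apply h2
        refine mem_filter.2 ⟨h3, fun d => ?_⟩
        cases d
        · exact hcon.2 h3
        · exact hcon.1 h3
      · exact Or.inl ⟨h1, h3⟩
    have h2 := (card_le_card h1).trans (card_union_le _ _)
    have h3 := card_union_le ((lev R K S j).filter (fun v => (nb R true (lev R K S j) v).card < K))
      ((lev R K S j).filter (fun v => (nb R false (lev R K S j) v).card < K))
    have h4 := card_few hT true (lev R K S j) K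
    have h5 := card_few hT false (lev R K S j) K
    have h6 : 4 * K * (j + 1) = 4 * K * j + 4 * K := by ring
    omega

/-- few neighbours are lost -/
theorem nb_lev (hT : AE32.Tour R) (K : ℕ) (S : Finset V) (j : ℕ) (d : Bool) (y : V) :
    (nb R d S y).card ≤ (nb R d (lev R K S j) y).card + 4 * K * j := by
  have h1 : nb R d S y ⊆ nb R d (lev R K S j) y ∪ (S \ lev R K S j) := by
    intro v hv
    rw [mem_nb] at hv
    rw [mem_union, mem_nb, mem_sdiff]
    by_cases h : v ∈ lev R K S j
    · exact Or.inl ⟨h, hv.2⟩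
    · exact Or.inr ⟨hv.1, h⟩
  have h2 := (card_le_card h1).trans (card_union_le _ _)
  have h3 := lev_diff hT K S j
  omega

theorem nb_mono {d : Bool} {A B : Finset V} (h : A ⊆ B) (y : V) : (nb R d A y).card ≤ (nb R d B y).card := by
  refine card_le_card fun v hv => ?_
  rw [mem_nb] at hv ⊢
  exact ⟨h hv.1, hv.2⟩

/-- a forest is hung on `x` in unused vertices -/
theorem bush' (hT : AE32.Tour R) {S : Finset V} {x : V} (c : Fd) : ∀ {W : Finset V},
    (∀ d, (W ∩ S).card + 4 * (c.size + 1) ≤ (nb R d S x).card) → ∃ A ⊆ S, Disjoint A W ∧ Emb R c x A := by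
  induction c with
  | nil => intro W _; exact ⟨∅, empty_subset _, disjoint_empty_left _, rfl⟩
  | node d c s _ ihs =>
    intro W hW
    simp only [Fd.size] at hW
    obtain ⟨A, hA, hAW, hE⟩ := ihs (W := W) (fun d => (by have := hW d; omega))
    obtain ⟨x1, y1, y2, y3, B, y4, y5, y6, y7⟩ := four_nb hT (le_refl (nb R d S x).card) (W := W ∪ A) c (by
      have h1 := card_union_inter_le' W A S
      have h2 := hW d
      have h3 := hE.card
      omega)
    rw [mem_union, not_or] at y3
    rw [disjoint_union_right] at y5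
    refine ⟨insert x1 (B ∪ A), insert_subset y1 (union_subset y4 hA), ?_, x1, B, A, y2, y6, y3.2, y5.2, rfl, y7, hE⟩
    rw [disjoint_insert_left, disjoint_union_left]
    exact ⟨y3.1, y5.1, hAW⟩

/-- **contexts with a given host of the vertex with the hole** -/
theorem back (hT : AE32.Tour R) {K : ℕ} {S W : Finset V} {xh : V} (hx : xh ∉ S) (M : Cx) : ∀ i : ℕ,
    (W ∩ S).card + 8 * (M.un.size + 1) ≤ K → (∀ d, K ≤ (nb R d (lev R K S (i + M.sg.length)) xh).card) →
      ∃ (z : V) (B : Finset V), EmbC R M z B xh ∧ z ∉ B ∧ (M.sg = [] ∧ z = xh ∨ z ∈ S ∧ z ∉ W ∧ xh ∈ B) ∧ B ⊆ insert xh S ∧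
        Disjoint (B.erase xh) W ∧ ∀ d, K ≤ (nb R d (lev R K S i) z).card := by
  induction M with
  | here s =>
    intro i hK hnb
    simp only [Cx.un, Cx.sg, List.length_nil, add_zero] at hK hnb
    obtain ⟨A, hA, hAW, hE⟩ := bush' hT (S := S) (x := xh) s (W := W) (fun d => by
      have h1 := hnb d
      have h2 := nb_mono (R := R) (d := d) (lev_sub (R := R) K S i) xh
      omega)
    refine ⟨xh, A, ⟨hE, rfl⟩, fun h => hx (hA h), Or.inl ⟨rfl, rfl⟩, hA.trans (subset_insert _ _), ?_, hnb⟩
    exact hAW.mono_left (erase_subset _ _)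
  | dn d t s ih =>
    intro i hK hnb
    simp only [Cx.un, Fd.size] at hK
    obtain ⟨u, B, e1, e2, e3, e4, e5, e6⟩ := ih (i + 1) (by omega) (fun d' => by
      have := hnb d'
      simp only [Cx.sg, List.length_cons] at this
      rw [show i + 1 + t.sg.length = i + (t.sg.length + 1) by ring]
      exact this)
    have hBc := e1.card
    -- the host of the parent
    obtain ⟨W', hW'⟩ : ∃ W' : Finset V, W' = W ∪ insert u B := ⟨_, rfl⟩
    have hW'c : (W' ∩ S).card ≤ (W ∩ S).card + (t.un.size + 1) := by
      rw [hW']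
      refine (card_union_inter_le' _ _ _).trans ?_
      have := card_insert_le u B
      omega
    have h1 : nb R (!d) (lev R K S (i + 1)) u ⊆ (nb R (!d) (lev R K S (i + 1)) u \ W') ∪ (W' ∩ S) := by
      intro v hv
      rw [mem_union, mem_sdiff, mem_inter]
      by_cases h : v ∈ W'
      · exact Or.inr ⟨h, lev_sub K S _ (mem_nb.1 hv).1⟩
      · exact Or.inl ⟨hv, h⟩
    have h2 := (card_le_card h1).trans (card_union_le _ _)
    have h3 := e6 (!d)
    obtain ⟨z, hz⟩ := card_pos.1 (by omega : 0 < (nb R (!d) (lev R K S (i + 1)) u \ W').card)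
    obtain ⟨hz1, hz2⟩ := mem_sdiff.1 hz
    obtain ⟨hz3, hz4⟩ := mem_nb.1 hz1
    have hzd : Adj R d z u := by
      have := adj_flip hz4
      rwa [Bool.not_not] at this
    have hzS : z ∈ S := lev_sub K S _ hz3
    have hz5 := mem_lev_succ hz3
    rw [hW', mem_union, mem_insert, not_or, not_or] at hz2
    obtain ⟨hzW, hzu, hzB⟩ := hz2
    obtain ⟨A, hA, hAW, hE⟩ := bush' hT (S := S) (x := z) s (W := insert z W') (fun d' => by
      have h4 := hz5 d'
      have h5 := nb_mono (R := R) (d := d') (lev_sub (R := R) K S i) z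
      have h6 : (insert z W' ∩ S).card ≤ (W' ∩ S).card + 1 := by
        rw [insert_eq, union_comm]
        exact (card_union_inter_le' _ _ _).trans (by simp)
      omega)
    rw [disjoint_insert_right, hW', disjoint_union_right, disjoint_insert_right] at hAW
    obtain ⟨hzA, hAW1, huA, hAB⟩ := hAW
    refine ⟨z, insert u (B ∪ A), ⟨u, B, A, hzd, e2, huA, hAB.symm, rfl, e1, hE⟩, ?_, Or.inr ⟨hzS, hzW, ?_⟩, ?_, ?_, hz5⟩
    · rw [mem_insert, mem_union]
      tauto
    · rw [mem_insert, mem_union]
      rcases e3 with ⟨-, h⟩ | ⟨-, -, h⟩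
      · exact Or.inl h.symm
      · exact Or.inr (Or.inl h)
    · refine insert_subset ?_ (union_subset e4 (hA.trans (subset_insert _ _)))
      rw [mem_insert]
      rcases e3 with ⟨-, h⟩ | ⟨h, -, -⟩
      · exact Or.inl h
      · exact Or.inr h
    · rw [disjoint_left]
      intro v hv hvW
      rw [mem_erase, mem_insert, mem_union] at hv
      obtain ⟨hv1, rfl | hv2 | hv2⟩ := hv
      · rcases e3 with ⟨-, h⟩ | ⟨-, h, -⟩
        · exact hv1 h
        · exact h hvW
      · exact disjoint_left.1 e5 (mem_erase.2 ⟨hv1, hv2⟩) hvW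
      · exact disjoint_left.1 hAW1 hv2 hvW
  | nx d c t ih =>
    intro i hK hnb
    simp only [Cx.un, Fd.size] at hK
    simp only [Cx.sg] at hnb
    obtain ⟨z, B, e1, e2, e3, e4, e5, e6⟩ := ih i (by omega) hnb
    have hBc := e1.card
    obtain ⟨x1, y1, y2, y3, A, y4, y5, y6, y7⟩ := four_nb hT (σ := d) (le_refl (nb R d S z).card) (W := W ∪ insert z (insert xh B)) c (by
      have h1 := card_union_inter_le' W (insert z (insert xh B)) S
      have h2 := e6 d
      have h3 := nb_mono (R := R) (d := d) (lev_sub (R := R) K S i) z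
      have h4 := card_insert_le z (insert xh B)
      have h5 := card_insert_le xh B
      omega)
    rw [mem_union, mem_insert, mem_insert, not_or, not_or, not_or] at y3
    obtain ⟨k1, k2, k3, k4⟩ := y3
    rw [disjoint_union_right, disjoint_insert_right, disjoint_insert_right] at y5
    obtain ⟨l1, l2, l3, l4⟩ := y5
    refine ⟨z, insert x1 (A ∪ B), ⟨x1, A, B, y2, y6, k4, l4, rfl, y7, e1⟩, ?_, ?_, ?_, ?_, e6⟩
    · rw [mem_insert, mem_union]
      rintro (h | h | h)
      · exact k2 h.symm
      · exact l2 h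
      · exact e2 h
    · rcases e3 with ⟨h1, h2⟩ | ⟨h1, h2, h3⟩
      · exact Or.inl ⟨h1, h2⟩
      · exact Or.inr ⟨h1, h2, mem_insert_of_mem (mem_union_right _ h3)⟩
    · exact insert_subset (mem_insert_of_mem y1) (union_subset (y4.trans (subset_insert _ _)) e4)
    · rw [disjoint_left]
      intro v hv hvW
      rw [mem_erase, mem_insert, mem_union] at hv
      obtain ⟨hv1, rfl | hv2 | hv2⟩ := hv
      · exact k1 hvW
      · exact disjoint_left.1 l1 hv2 hvW
      · exact disjoint_left.1 e5 (mem_erase.2 ⟨hv1, hv2⟩) hvW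

end AEW
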