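import Pool.Agent.AEW.XDefs

/-!
# Trees most of whose pieces are good, sufficiently many of them being gadgetable

The bad pieces are opened; what remains is a tree to which the exact absorption theorem applies.
-/

set_option autoImplicit false

namespace AEW

open Finset AE15 AED AELT
open scoped Classical

/-- a forest without pieces -/
private def plainX : Fd → Dk
  | .nil => .nil
  | .node d c s => .node d (plainX c) (plainX s)

private theorem plainX_un (c : Fd) : (plainX c).un = c := by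
  induction c with
  | nil => rfl
  | node d c s ihc ihs => simp only [plainX, Dk.un, ihc, ihs]

private theorem plainX_ok (ε : ℝ) (m : ℕ) (c : Fd) : (plainX c).Ok ε m := by
  induction c with
  | nil => trivial
  | node d c s ihc ihs => exact ⟨ihc, ihs⟩

private theorem plainX_psz (c : Fd) : (plainX c).psz = 0 := by
  induction c with
  | nil => rfl
  | node d c s ihc ihs => simp only [plainX, Dk.psz, ihc, ihs]

private theorem plainX_act (ε : ℝ) (b : ℕ) (c : Fd) : (plainX c).act ε b = 0 := by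
  induction c with
  | nil => rfl
  | node d c s ihc ihs => simp only [plainX, Dk.act, ihc, ihs]

/-- a forest with pieces is put into a hole, the rest being ordinary vertices -/
private def plugX (d' : Bool) (c : Dk) : Cx → Dk
  | .here s => .node d' c (plainX s)
  | .dn d t s => .node d (plugX d' c t) (plainX s)
  | .nx d q t => .node d (plainX q) (plugX d' c t)

private theorem plugX_un (d' : Bool) (c : Dk) (M : Cx) : (plugX d' c M).un = M.plug (d', c.un) := by
  induction M with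
  | here s => simp only [plugX, Dk.un, Cx.plug, plainX_un]
  | dn d t s ih => simp only [plugX, Dk.un, Cx.plug, plainX_un, ih]
  | nx d q t ih => simp only [plugX, Dk.un, Cx.plug, plainX_un, ih]

private theorem plugX_ok {ε : ℝ} {m : ℕ} (d' : Bool) {c : Dk} (hc : c.Ok ε m) (M : Cx) : (plugX d' c M).Ok ε m := by
  induction M with
  | here s => exact ⟨hc, plainX_ok ε m s⟩
  | dn d t s ih => exact ⟨ih, plainX_ok ε m s⟩
  | nx d q t ih => exact ⟨plainX_ok ε m q, ih⟩

private theorem plugX_psz (d' : Bool) (c : Dk) (M : Cx) : (plugX d' c M).psz = c.psz := by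
  induction M with
  | here s => simp only [plugX, Dk.psz, plainX_psz, add_zero]
  | dn d t s ih => simp only [plugX, Dk.psz, plainX_psz, ih, add_zero]
  | nx d q t ih => simp only [plugX, Dk.psz, plainX_psz, ih, zero_add]

private theorem plugX_act (ε : ℝ) (b : ℕ) (d' : Bool) (c : Dk) (M : Cx) : (plugX d' c M).act ε b = c.act ε b := by
  induction M with
  | here s => simp only [plugX, Dk.act, plainX_act, add_zero]
  | dn d t s ih => simp only [plugX, Dk.act, plainX_act, ih, add_zero]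
  | nx d q t ih => simp only [plugX, Dk.act, plainX_act, ih, zero_add]

/-- the bad pieces become ordinary vertices; the gadgetable good pieces remain -/
theorem opnX (ε : ℝ) (a m L b : ℕ) (D : Dk) (hD : D.Sz a m L) :
    ∃ D' : Dk, D'.un = D.un ∧ D'.Ok ε m ∧ a * D.gct ε ≤ D'.psz ∧ D'.act ε b = D.act ε b := by
  induction D with
  | nil => exact ⟨.nil, rfl, trivial, by simp [Dk.gct], rfl⟩
  | node d c s ihc ihs =>
    obtain ⟨C', c1, c2, c3, c4⟩ := ihc hD.1
    obtain ⟨S', s1, s2, s3, s4⟩ := ihs hD.2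
    refine ⟨.node d C' S', ?_, ⟨c2, s2⟩, ?_, ?_⟩
    · simp only [Dk.un, c1, s1]
    · simp only [Dk.gct, Dk.psz, mul_add]
      omega
    · simp only [Dk.act, c4, s4]
  | pc1 d q s ihs =>
    obtain ⟨h1, h2, h3⟩ := hD
    obtain ⟨S', s1, s2, s3, s4⟩ := ihs h3
    by_cases hg : Good1 ε q
    · refine ⟨.pc1 d q S', ?_, ⟨hg, h2, s2⟩, ?_, ?_⟩
      · simp only [Dk.un, s1]
      · simp only [Dk.gct, Dk.psz, if_pos hg, mul_add, mul_one]
        omega
      · simp only [Dk.act, s4]
    · refine ⟨.node d (plainX q) S', ?_, ⟨plainX_ok ε m q, s2⟩, ?_, ?_⟩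
      · simp only [Dk.un, s1, plainX_un]
      · simp only [Dk.gct, Dk.psz, if_neg hg, plainX_psz, add_zero, zero_add]
        exact s3
      · simp only [Dk.act, plainX_act, s4, if_neg (fun h : Good1 ε q ∧ Gad1 b q => hg h.1)]
  | pc2 d M d' c s ihc ihs =>
    obtain ⟨h1, h2, -, h3, h4⟩ := hD
    obtain ⟨C', c1, c2, c3, c4⟩ := ihc h3
    obtain ⟨S', s1, s2, s3, s4⟩ := ihs h4
    by_cases hg : Good2 ε M
    · refine ⟨.pc2 d M d' C' S', ?_, ⟨hg, h2, c2, s2⟩, ?_, ?_⟩
      · simp only [Dk.un, c1, s1]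
      · simp only [Dk.gct, Dk.psz, if_pos hg, mul_add, mul_one]
        omega
      · simp only [Dk.act, c4, s4]
    · refine ⟨.node d (plugX d' C' M) S', ?_, ⟨plugX_ok d' c2 M, s2⟩, ?_, ?_⟩
      · simp only [Dk.un, plugX_un, c1, s1]
      · simp only [Dk.gct, Dk.psz, if_neg hg, plugX_psz, add_zero, mul_add]
        omega
      · simp only [Dk.act, plugX_act, c4, s4, if_neg (fun h : Good2 ε M ∧ Gad2 b M => hg h.1), zero_add]

/-- the deterministic theorem for trees at least half of whose pieces are good, a constant proportion of the pieces being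
good and gadgetable, from the exact absorption theorem -/
theorem detX_of (b L : ℕ) (hb : 1 ≤ b) (hA : AbsorbXSt b) : ∃ ε : ℝ, 0 < ε ∧ ∀ a N : ℕ, 1 ≤ a → 1 ≤ N → ∃ n₀ : ℕ,
    ∀ D : Dk, D.un.len ≤ b → D.un.Deg b → D.Sz a (16 * b ^ 2 * (L + 1) * a) L →
      D.un.size + 1 ≤ 2 * (16 * b ^ 2 * (L + 1) * a) * (D.cnt + 1) →
        D.cnt ≤ 2 * D.gct ε → D.cnt ≤ N * D.act ε b → n₀ ≤ D.un.size → Fits 0 D.un := by
  obtain ⟨B, hB⟩ : ∃ B : ℕ, B = 16 * b ^ 2 * (L + 1) := ⟨_, rfl⟩
  have hB1 : 1 ≤ B := by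
    rw [hB]
    have h1 : 1 ≤ b ^ 2 := Nat.one_le_pow _ _ hb
    have h2 : 1 ≤ b ^ 2 * (L + 1) := Nat.mul_pos h1 (by omega)
    calc 1 ≤ b ^ 2 * (L + 1) := h2
      _ ≤ 16 * (b ^ 2 * (L + 1)) := by omega
      _ = 16 * b ^ 2 * (L + 1) := by ring
  have hBR : (1 : ℝ) ≤ B := by exact_mod_cast hB1
  obtain ⟨ε, hε, h⟩ := hA (1 / (6 * B)) (by positivity)
  refine ⟨ε, hε, fun a N ha hN => ?_⟩
  rw [← hB]
  have haR : (1 : ℝ) ≤ a := by exact_mod_cast ha
  have hNR : (1 : ℝ) ≤ N := by exact_mod_cast hN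
  obtain ⟨n₀, hn₀⟩ := h (B * a) (1 / (4 * B * a * N)) (by positivity)
  refine ⟨max n₀ (2 * (B * a)), fun D hl hd hS hsz hg hact hn => ?_⟩
  have hn1 : n₀ ≤ D.un.size := (le_max_left _ _).trans hn
  have hn2 : 2 * (B * a) ≤ D.un.size := (le_max_right _ _).trans hn
  have hcnt : 1 ≤ D.cnt := by
    rcases Nat.eq_zero_or_pos D.cnt with h0 | h0
    · rw [h0] at hsz
      omega
    · exact h0
  obtain ⟨D', e1, e2, e3, e4⟩ := opnX ε a (B * a) L b D hS
  rw [← e1]
  intro V R hT X hX
  refine hn₀ D' (by rw [e1]; exact hl) (by rw [e1]; exact hd) e2 ?_ ?_ (by rw [e1]; exact hn1) hT X hX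
  · rw [e1]
    have h1 : D.un.size + 1 ≤ 6 * B * (a * D.gct ε) := by
      calc D.un.size + 1 ≤ 2 * (B * a) * (D.cnt + 1) := hsz
        _ ≤ 2 * (B * a) * (3 * D.gct ε) := Nat.mul_le_mul_left _ (by omega)
        _ = 6 * B * (a * D.gct ε) := by ring
    have h2 : D.un.size + 1 ≤ 6 * B * D'.psz := h1.trans (Nat.mul_le_mul_left _ e3)
    have h3 : ((D.un.size : ℝ) + 1) ≤ 6 * B * D'.psz := by exact_mod_cast h2
    rw [one_div, ← div_eq_inv_mul, div_le_iff₀ (by positivity)]
    linarith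
  · rw [e1, e4]
    have h1 : D.un.size + 1 ≤ 4 * B * a * N * D.act ε b := by
      calc D.un.size + 1 ≤ 2 * (B * a) * (D.cnt + 1) := hsz
        _ ≤ 2 * (B * a) * (2 * (N * D.act ε b)) := Nat.mul_le_mul_left _ (by omega)
        _ = 4 * B * a * N * D.act ε b := by ring
    have h3 : ((D.un.size : ℝ) + 1) ≤ 4 * B * a * N * D.act ε b := by exact_mod_cast h1
    rw [one_div, ← div_eq_inv_mul, div_le_iff₀ (by positivity)]
    linarith

end AEW
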