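import Pool.Agent.AEW.XDefs

/-!
# Placed pieces: order, unions, sizes, numbers of pieces
-/

namespace AEW

open Finset AE15 AED AELT
open scoped Classical

section

variable {V : Type} {R : V → V → Prop}

theorem Pl.append {ps1 ps2 : List (Pd V)} {Q1 Q2 : Finset V} (h1 : Pl R ps1 Q1) (h2 : Pl R ps2 Q2)
    (hd : Disjoint Q1 Q2) : Pl R (ps1 ++ ps2) (Q1 ∪ Q2) := by
  induction ps1 generalizing Q1 with
  | nil =>
    have h0 : Q1 = ∅ := h1
    subst h0
    rw [empty_union]
    exact h2
  | cons p ps ih =>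
    cases p with
    | one w d q =>
      obtain ⟨u, B, Q', g1, g2, g3, g4, rfl, g6⟩ := h1
      rw [disjoint_union_left] at hd
      exact ⟨u, B, Q' ∪ Q2, g1, g2, g3, disjoint_union_right.2 ⟨g4, hd.1⟩, by rw [union_assoc], ih g6 hd.2⟩
    | two w d M d' w' =>
      obtain ⟨u, y, B, Q', g1, g2, g3, g3', g4, rfl, g6⟩ := h1
      rw [disjoint_union_left] at hd
      exact ⟨u, y, B, Q' ∪ Q2, g1, g2, g3, g3', disjoint_union_right.2 ⟨g4, hd.1⟩, by rw [union_assoc], ih g6 hd.2⟩

theorem Pl.cons {p : Pd V} {ps : List (Pd V)} {Q1 Q2 : Finset V} (h1 : Pl R [p] Q1) (h2 : Pl R ps Q2)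
    (hd : Disjoint Q1 Q2) : Pl R (p :: ps) (Q1 ∪ Q2) := h1.append h2 hd

theorem Pl.uncons {p : Pd V} {ps : List (Pd V)} {Q : Finset V} (h : Pl R (p :: ps) Q) :
    ∃ Q1 Q2, Disjoint Q1 Q2 ∧ Q = Q1 ∪ Q2 ∧ Pl R [p] Q1 ∧ Pl R ps Q2 := Pl.split (ps1 := [p]) h

/-- the order does not matter -/
theorem Pl.perm {ps ps' : List (Pd V)} (h : ps.Perm ps') : ∀ {Q : Finset V}, Pl R ps Q → Pl R ps' Q := by
  induction h with
  | nil => exact fun h => h
  | cons p _ ih =>
    intro Q hQ
    obtain ⟨Q1, Q2, h1, rfl, h3, h4⟩ := hQ.uncons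
    exact h3.cons (ih h4) h1
  | swap p q l =>
    intro Q hQ
    obtain ⟨Q1, Q', h1, rfl, h3, h4⟩ := hQ.uncons
    obtain ⟨Q2, Q3, k1, rfl, k3, k4⟩ := h4.uncons
    rw [disjoint_union_right] at h1
    have := k3.cons (h3.cons k4 h1.2) (disjoint_union_right.2 ⟨h1.1.symm, k1⟩)
    have e : Q1 ∪ (Q2 ∪ Q3) = Q2 ∪ (Q1 ∪ Q3) := by
      ext t
      simp only [mem_union]
      tauto
    rw [e]
    exact this
  | trans _ _ ih1 ih2 => exact fun h => ih2 (ih1 h)

private theorem embC_card' {M : Cx} {u : V} {B : Finset V} {y : V} (h : EmbC R M u B y) : B.card = M.un.size := by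
  induction M generalizing u B with
  | here s => exact h.1.card
  | dn d t s ih =>
    obtain ⟨x1, A, B', h1, h2, h3, h4, rfl, h6, h7⟩ := h
    rw [card_insert_of_notMem (by rw [mem_union]; rintro (hm | hm); exacts [h2 hm, h3 hm]), card_union_of_disjoint h4,
      ih h6, h7.card]
    rfl
  | nx d c t ih =>
    obtain ⟨x1, A, B', h1, h2, h3, h4, rfl, h6, h7⟩ := h
    rw [card_insert_of_notMem (by rw [mem_union]; rintro (hm | hm); exacts [h2 hm, h3 hm]), card_union_of_disjoint h4,
      h6.card, ih h7]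
    rfl

theorem Pl.card {ps : List (Pd V)} {Q : Finset V} (h : Pl R ps Q) : Q.card = (ps.map Pd.sz).sum := by
  induction ps generalizing Q with
  | nil =>
    have h0 : Q = ∅ := h
    subst h0
    rfl
  | cons p ps ih =>
    rw [List.map_cons, List.sum_cons]
    cases p with
    | one w d q =>
      obtain ⟨u, B, Q', g1, g2, g3, g4, rfl, g6⟩ := h
      rw [card_union_of_disjoint g4, card_insert_of_notMem g2, g3.card, ih g6]
      rfl
    | two w d M d' w' =>
      obtain ⟨u, y, B, Q', g1, g2, g3, g3', g4, rfl, g6⟩ := h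
      rw [card_union_of_disjoint g4, card_insert_of_notMem g2, embC_card' g3, ih g6]
      rfl

/-- the placed pieces with a root outside a set stay placed if the relation is changed there -/
theorem Pl.nil_iff {Q : Finset V} : Pl R [] Q ↔ Q = ∅ := Iff.rfl

/-- the piece without the hosts: a branch or a segment -/
def Pd.pc : Pd V → Fd ⊕ Cx
  | .one _ _ q => .inl q
  | .two _ _ M _ _ => .inr M

end

/-- the list of the pieces -/
def Dk.pcs : Dk → List (Fd ⊕ Cx)
  | .nil => []
  | .node _ c s => c.pcs ++ s.pcs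
  | .pc1 _ q s => .inl q :: s.pcs
  | .pc2 _ M _ c s => .inr M :: (c.pcs ++ s.pcs)

/-- number of vertices of a piece -/
def pz : Fd ⊕ Cx → ℕ
  | .inl q => q.size + 1
  | .inr M => M.un.size + 1

theorem Dk.length_pcs (D : Dk) : D.pcs.length = D.cnt := by
  induction D with
  | nil => rfl
  | node d c s ihc ihs => simp only [Dk.pcs, Dk.cnt, List.length_append, ihc, ihs]
  | pc1 d q s ihs => simp only [Dk.pcs, Dk.cnt, List.length_cons, ihs]
  | pc2 d M d' c s ihc ihs => simp only [Dk.pcs, Dk.cnt, List.length_cons, List.length_append, ihc, ihs]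

theorem Dk.sum_pcs (D : Dk) : (D.pcs.map pz).sum = D.psz := by
  induction D with
  | nil => rfl
  | node d c s ihc ihs => simp only [Dk.pcs, Dk.psz, List.map_append, List.sum_append, ihc, ihs]
  | pc1 d q s ihs => simp only [Dk.pcs, Dk.psz, List.map_cons, List.sum_cons, ihs, pz]; omega
  | pc2 d M d' c s ihc ihs =>
    simp only [Dk.pcs, Dk.psz, List.map_cons, List.sum_cons, List.map_append, List.sum_append, ihc, ihs, pz]; omega

theorem Pd.pz_pc {V : Type} (p : Pd V) : pz p.pc = p.sz := by
  cases p <;> rfl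

/-- the list of the pieces does not depend on the embedding -/
theorem EmbD.pcs {V : Type} {R : V → V → Prop} {D : Dk} {x : V} {A : Finset V} {ps : List (Pd V)}
    (h : EmbD R D x A ps) : ps.map Pd.pc = D.pcs := by
  induction D generalizing x A ps with
  | nil =>
    obtain ⟨-, h1⟩ := h
    subst h1
    rfl
  | node d c s ihc ihs =>
    obtain ⟨x1, A1, A2, ps1, ps2, -, -, -, -, -, rfl, h6, h7⟩ := h
    rw [List.map_append, ihc h6, ihs h7]
    rfl
  | pc1 d q s ihs =>
    obtain ⟨ps2, rfl, h2⟩ := h
    rw [List.map_cons, ihs h2]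
    rfl
  | pc2 d M d' c s ihc ihs =>
    obtain ⟨w', A1, A2, ps1, ps2, -, -, -, -, rfl, h6, h7⟩ := h
    rw [List.map_cons, List.map_append, ihc h6, ihs h7]
    rfl

/-- number of the pieces with a given property -/
theorem EmbD.countP {V : Type} {R : V → V → Prop} {D : Dk} {x : V} {A : Finset V} {ps : List (Pd V)}
    (h : EmbD R D x A ps) (P : Fd ⊕ Cx → Bool) : ps.countP (fun p => P p.pc) = D.pcs.countP P := by
  rw [← h.pcs, List.countP_map]
  rfl

theorem EmbD.length {V : Type} {R : V → V → Prop} {D : Dk} {x : V} {A : Finset V} {ps : List (Pd V)}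
    (h : EmbD R D x A ps) : ps.length = D.cnt := by
  rw [← Dk.length_pcs, ← h.pcs, List.length_map]

/-- the gadgetable pieces -/
theorem EmbD.gad {V : Type} {R : V → V → Prop} {ε : ℝ} {b : ℕ} {D : Dk} {x : V} {A : Finset V} {ps : List (Pd V)}
    (h : EmbD R D x A ps) : D.act ε b ≤ (ps.filter (fun p => decide (p.Gad b))).length := by
  induction D generalizing x A ps with
  | nil => exact Nat.zero_le _
  | node d c s ihc ihs =>
    obtain ⟨x1, A1, A2, ps1, ps2, -, -, -, -, -, rfl, h6, h7⟩ := h
    rw [List.filter_append, List.length_append]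
    exact Nat.add_le_add (ihc h6) (ihs h7)
  | pc1 d q s ihs =>
    obtain ⟨ps2, rfl, h2⟩ := h
    have h3 := ihs h2
    simp only [Dk.act]
    by_cases hg : Gad1 b q
    · rw [List.filter_cons_of_pos (p := fun p : Pd V => decide (p.Gad b)) (decide_eq_true (show (Pd.one x d q).Gad b from hg)), List.length_cons]
      split_ifs <;> omega
    · rw [List.filter_cons_of_neg (p := fun p : Pd V => decide (p.Gad b)) (by simpa using (show ¬ (Pd.one x d q).Gad b from hg)), if_neg (fun hh => hg hh.2)]
      omega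
  | pc2 d M d' c s ihc ihs =>
    obtain ⟨w', A1, A2, ps1, ps2, -, -, -, -, rfl, h6, h7⟩ := h
    have h3 := ihc h6
    have h4 := ihs h7
    simp only [Dk.act]
    by_cases hg : Gad2 b M
    · rw [List.filter_cons_of_pos (p := fun p : Pd V => decide (p.Gad b)) (decide_eq_true (show (Pd.two x d M d' w').Gad b from hg)), List.length_cons,
        List.filter_append, List.length_append]
      split_ifs <;> omega
    · rw [List.filter_cons_of_neg (p := fun p : Pd V => decide (p.Gad b)) (by simpa using (show ¬ (Pd.two x d M d' w').Gad b from hg)),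
        if_neg (fun hh => hg hh.2), List.filter_append, List.length_append]
      omega

/-- a list is split into two parts of given lengths (of the elements with a given property) and the rest -/
theorem perm_split {α : Type*} (P : α → Prop) : ∀ (l : List α) (t : ℕ), t ≤ l.countP (fun a => decide (P a)) →
    ∃ l1 l2 : List α, l.Perm (l1 ++ l2) ∧ l1.length = t ∧ (∀ a ∈ l1, P a) ∧
      l2.countP (fun a => decide (P a)) + t = l.countP (fun a => decide (P a)) := by
  intro l t ht
  obtain ⟨F, hF⟩ : ∃ F, F = l.filter (fun a => decide (P a)) := ⟨_, rfl⟩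
  obtain ⟨G, hG⟩ : ∃ G, G = l.filter (fun a => !decide (P a)) := ⟨_, rfl⟩
  have h1 : (F ++ G).Perm l := by
    rw [hF, hG]
    exact List.filter_append_perm _ _
  have h2 : F.length = l.countP (fun a => decide (P a)) := by
    rw [hF, List.countP_eq_length_filter]
  have h3 : ∀ a ∈ F, P a := by
    intro a ha
    rw [hF, List.mem_filter] at ha
    simpa using ha.2
  have h4 : (F.take t ++ (F.drop t ++ G)).Perm l := by
    rw [← List.append_assoc, List.take_append_drop]
    exact h1
  have h5 : (F.take t).length = t := by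
    rw [List.length_take, h2]
    omega
  have h6 : (F.take t).countP (fun a => decide (P a)) = t :=
    (List.countP_eq_length.2 (fun a ha => by simpa using h3 a (List.mem_of_mem_take ha))).trans h5
  refine ⟨F.take t, F.drop t ++ G, h4.symm, h5, fun a ha => h3 a (List.mem_of_mem_take ha), ?_⟩
  have h7 := h4.countP_eq (fun a => decide (P a))
  rw [List.countP_append, h6] at h7
  omega

end AEW
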