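import Pool.Agent.AEW.XDefs
import Pool.Agent.AEW.Piece
import Pool.Agent.AEW.XPl
import Pool.Agent.AEV.Cover

/-!
# Placing a piece with a gadget: the centre remains open

The upper segment of the piece is placed between the host of the core and the first leaf of the star, the lower segment
between the second leaf and the second host, all other branches hang on the leaves. The centre may be put on every vertex
which fits the leaves.
-/

namespace AEW

open Finset AE15 AED AELT AEV
open scoped Classical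

variable {V : Type} {R : V → V → Prop}

/-- a forest is hung on `x` in unused vertices -/
theorem bush (hT : AE32.Tour R) {S : Finset V} {x : V} (c : Fd) : ∀ {W : Finset V},
    (∀ d, (W ∩ S).card + 4 * (c.size + 1) ≤ (nb R d S x).card) → ∃ A ⊆ S, Disjoint A W ∧ Emb R c x A := by
  induction c with
  | nil => intro W _; exact ⟨∅, empty_subset _, disjoint_empty_left _, rfl⟩
  | node d c s _ ihs =>
    intro W hW
    simp only [Fd.size] at hW
    obtain ⟨A, hA, hAW, hE⟩ := ihs (W := W) (fun d => (by have := hW d; omega))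
    obtain ⟨x1, y1, y2, y3, B, y4, y5, y6, y7⟩ := four_nb hT (le_refl (nb R d S x).card) (W := W ∪ A) c (by
      have h1 := card_union_inter_le' W A S
      have h2 := hW d
      have h3 := hE.card
      omega)
    rw [mem_union, not_or] at y3
    rw [disjoint_union_right] at y5
    refine ⟨insert x1 (B ∪ A), insert_subset y1 (union_subset y4 hA), ?_, x1, B, A, y2, y6, y3.2, y5.2, rfl, y7, hE⟩
    rw [disjoint_insert_left, disjoint_union_left]
    exact ⟨y3.1, y5.1, hAW⟩

/-- the trees at the centre: their roots are the given leaves -/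
theorem centre (hT : AE32.Tour R) {S : Finset V} {sg : Bool} (c : Fd) : ∀ {W : Finset V} {xs : List V},
    TopD (!sg) c → xs.length = c.len → xs.Nodup → (∀ x ∈ xs, x ∉ S) →
      (∀ x ∈ xs, ∀ d, (W ∩ S).card + 4 * (c.size + 1) ≤ (nb R d S x).card) →
        ∃ A ⊆ S, Disjoint A W ∧ A.card + xs.length = c.size ∧
          ∀ z, (∀ x ∈ xs, Adj R sg x z) → Emb R c z (xs.toFinset ∪ A) := by
  induction c with
  | nil =>
    intro W xs _ hl _ _ _
    rw [Fd.len, List.length_eq_zero_iff] at hl
    subst hl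
    exact ⟨∅, empty_subset _, disjoint_empty_left _, by simp [Fd.size], fun z _ => by simp [AED.Emb]⟩
  | node d c s _ ihs =>
    intro W xs hc hl hn hxS hW
    obtain ⟨hd, hs⟩ := hc
    cases xs with
    | nil => simp [Fd.len] at hl
    | cons x xs =>
      simp only [Fd.len, List.length_cons] at hl
      rw [List.nodup_cons] at hn
      simp only [Fd.size] at hW ⊢
      obtain ⟨A, hA, hAW, hAc, hE⟩ := ihs (W := W) (xs := xs) hs (by omega) hn.2
        (fun y hy => hxS y (List.mem_cons_of_mem _ hy)) (fun y hy d => by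
          have := hW y (List.mem_cons_of_mem _ hy) d
          omega)
      obtain ⟨B, hB, hBW, hEB⟩ := bush hT (S := S) (x := x) c (W := W ∪ A) (fun d => by
        have h1 := card_union_inter_le' W A S
        have h2 := hW x (List.mem_cons_self ..) d
        omega)
      rw [disjoint_union_right] at hBW
      have hBc := hEB.card
      refine ⟨B ∪ A, union_subset hB hA, ?_, ?_, fun z hz => ?_⟩
      · rw [disjoint_union_left]; exact ⟨hBW.1, hAW⟩
      · rw [card_union_of_disjoint hBW.2, List.length_cons]; omega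
      · have hxS1 : x ∉ S := hxS x (List.mem_cons_self ..)
        refine ⟨x, B, xs.toFinset ∪ A, ?_, fun h => hxS1 (hB h), ?_, ?_, ?_, hEB,
          hE z (fun y hy => hz y (List.mem_cons_of_mem _ hy))⟩
        · rw [hd]; exact adj_flip (hz x (List.mem_cons_self ..))
        · rw [mem_union, not_or, List.mem_toFinset]
          exact ⟨hn.1, fun h => hxS1 (hA h)⟩
        · rw [disjoint_union_right]
          refine ⟨?_, hBW.2⟩
          rw [disjoint_left]
          intro u hu hu'
          exact hxS u (List.mem_cons_of_mem _ (List.mem_toFinset.1 hu')) (hB hu)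
        · ext u
          simp only [List.toFinset_cons, mem_union, mem_insert]
          tauto

/-- the hole is at the common vertex -/
theorem embC_top {M : Cx} : ∀ {x : V} {S : Finset V}, M.sg = [] → Emb R M.un x S → EmbC R M x S x := by
  induction M with
  | here s => intro x S _ h; exact ⟨h, rfl⟩
  | dn d t s _ => intro x S h _; simp [Cx.sg] at h
  | nx d c t ih =>
    rintro x S h ⟨x1, A, B, h1, h2, h3, h4, h5, h6, h7⟩
    exact ⟨x1, A, B, h1, h2, h3, h4, h5, h6, ih (by simpa [Cx.sg] using h) h7⟩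

/-- a segment between two given hosts -/
theorem seg_between (hT : AE32.Tour R) {M : Cx} (hM : Good2 1 M) {S W : Finset V} {v v' : V} {d d' : Bool}
    (h1 : (W ∩ S).card + 2048 * (M.un.size + 1) ≤ (nb R d S v).card)
    (h2 : (W ∩ S).card + 2048 * (M.un.size + 1) ≤ (nb R (!d') S v').card) :
    ∃ (u : V) (B : Finset V) (y : V), Adj R d v u ∧ Adj R d' y v' ∧ u ∉ B ∧ insert u B ⊆ S ∧ Disjoint (insert u B) W ∧
      EmbC R M u B y := by
  obtain ⟨f, hf⟩ : ∃ f, f = M.un.size + 1 := ⟨_, rfl⟩
  rw [← hf] at h1 h2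
  have key : ∀ A : Finset V, A ⊆ S → A.card ≤ (A \ W).card + (W ∩ S).card := by
    intro A hA
    have h3 : A ⊆ (A \ W) ∪ (W ∩ S) := by
      intro u hu
      rw [mem_union, mem_sdiff, mem_inter]
      by_cases hW : u ∈ W
      · exact Or.inr ⟨hW, hA hu⟩
      · exact Or.inl ⟨hu, hW⟩
    exact (card_le_card h3).trans (card_union_le _ _)
  have k1 := key (nb R d S v) (filter_subset _ _)
  have k2 := key (nb R (!d') S v') (filter_subset _ _)
  obtain ⟨R1, hR1, hR1c⟩ := exists_subset_card_eq (show 16 * f ≤ (nb R d S v \ W).card by omega)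
  have k3 := le_card_sdiff R1 (nb R (!d') S v' \ W)
  obtain ⟨R2, hR2, hR2c⟩ := exists_subset_card_eq (show 16 * f ≤ ((nb R (!d') S v' \ W) \ R1).card by omega)
  have k4 : ((nb R d S v) \ W) ⊆ S \ W := sdiff_subset_sdiff (filter_subset _ _) (subset_refl _)
  have k5 := card_le_card k4
  have k6 := le_card_sdiff (R1 ∪ R2) (S \ W)
  have k7 := card_union_le R1 R2
  have hd1 : Disjoint R1 ((S \ W) \ (R1 ∪ R2)) := disjoint_sdiff.mono_left subset_union_left
  have hd2 : Disjoint R2 ((S \ W) \ (R1 ∪ R2)) := disjoint_sdiff.mono_left subset_union_right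
  have hd12 : Disjoint R1 R2 := disjoint_right.2 fun z hz => (mem_sdiff.1 (hR2 hz)).2
  obtain ⟨u, hu, y, hy, B, hB, huB, hE⟩ := seg_place hT M hM hd12 hd1 hd2
    (by rw [hR1c, hf]; push_cast; linarith) (by rw [hR2c, hf]; push_cast; linarith) (by omega)
  have hu' := mem_sdiff.1 (hR1 hu)
  have hy' := mem_sdiff.1 (mem_sdiff.1 (hR2 hy)).1
  have hsub : R1 ∪ R2 ∪ ((S \ W) \ (R1 ∪ R2)) ⊆ S \ W := by
    refine union_subset (union_subset (hR1.trans k4) ?_) sdiff_subset
    exact (hR2.trans sdiff_subset).trans (sdiff_subset_sdiff (filter_subset _ _) (subset_refl _))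
  have hall : insert u B ⊆ S \ W := insert_subset (k4 (hR1 hu)) (hB.trans hsub)
  refine ⟨u, B, y, (mem_nb.1 hu'.1).2, ?_, huB, hall.trans sdiff_subset, ?_, hE⟩
  · have := adj_flip (mem_nb.1 hy'.1).2
    rwa [Bool.not_not] at this
  · rw [disjoint_left]
    intro t ht
    exact (mem_sdiff.1 (hall ht)).2

/-- a segment with the centre on its path -/
theorem gad_two (hT : AE32.Tour R) {b m : ℕ} {w : V} {d : Bool} {M : Cx} {d' : Bool} {w' : V} (σ : Bool)
    (hp : ∃ (M₁ N₀ N₁ N₂ M₂ : Cx) (d₁ d₂ : Bool),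
      M = M₁.cmp d₁ (N₀.cmp σ (N₁.cmp (!σ) (N₂.cmp d₂ M₂))) ∧ N₀.sg = [] ∧ N₁.sg = [] ∧ N₂.sg = [] ∧ Good2 1 M₁ ∧
        Good2 1 M₂ ∧ TopD (!σ) N₁.un ∧ N₁.un.len + 1 ≤ b)
    (hm : (Pd.two w d M d' w' : Pd V).sz ≤ m) {l : List V}
    (hl : l.length = b + 1) (hnd : l.Nodup) {S : Finset V} (hlS : ∀ x ∈ l, x ∉ S)
    (hS : ∀ y, (y ∈ (Pd.two w d M d' w' : Pd V).hosts ∨ y ∈ l) → ∀ d, 4096 * m ≤ (nb R d S y).card) :
    ∃ B : Finset V, B ⊆ S ∪ l.toFinset ∧ B.card + 1 = (Pd.two w d M d' w' : Pd V).sz ∧
      ∀ z, z ∉ B → (∀ x ∈ l, Adj R σ x z) → Pl R [Pd.two w d M d' w'] (insert z B) := by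
    obtain ⟨M₁, N₀, Ny, N₁, M₂, d₁, d₂, rfl, hN₀, hNy, hN₁, hM₁, hM₂, hcy, hcyb⟩ := hp
    have hw : ∀ d, 4096 * m ≤ (nb R d S w).card := hS w (Or.inl (by simp [Pd.hosts]))
    have hw' : ∀ d, 4096 * m ≤ (nb R d S w').card := hS w' (Or.inl (by simp [Pd.hosts]))
    have hsz : (M₁.cmp d₁ (N₀.cmp σ (Ny.cmp (!σ) (N₁.cmp d₂ M₂)))).un.size =
        M₁.un.size + (N₀.un.size + (Ny.un.size + (N₁.un.size + (M₂.un.size + 1) + 1) + 1) + 1) := by
      rw [Cx.size_cmp, Cx.size_cmp, Cx.size_cmp, Cx.size_cmp]
    simp only [Pd.sz] at hm ⊢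
    rw [hsz] at hm
    match l, hl, hnd, hlS, hS with
    | [], hl, _, _, _ => simp at hl
    | [_], hl, _, _, _ => simp at hl; omega
    | x₀ :: x₁ :: l', hl, hnd, hlS, hS =>
      rw [List.nodup_cons, List.nodup_cons, List.mem_cons, not_or] at hnd
      simp only [List.length_cons] at hl
      obtain ⟨xs, hxs'⟩ : ∃ xs, xs = l'.take Ny.un.len := ⟨_, rfl⟩
      have hll : xs.length = Ny.un.len := by rw [hxs', List.length_take]; omega
      have hsub : ∀ x ∈ xs, x ∈ l' := fun x hx => by rw [hxs'] at hx; exact List.mem_of_mem_take hx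
      have hln : (x₀ ≠ x₁ ∧ x₀ ∉ xs) ∧ x₁ ∉ xs ∧ xs.Nodup :=
        ⟨⟨hnd.1.1, fun h => hnd.1.2 (hsub _ h)⟩, fun h => hnd.2.1 (hsub _ h), by rw [hxs']; exact hnd.2.2.take⟩
      have h2 : ∀ x ∈ x₀ :: x₁ :: l', ∀ d, 4096 * m ≤ (nb R d S x).card := fun x hx => hS x (Or.inr hx)
      have hx₀ : x₀ ∈ x₀ :: x₁ :: l' := by simp
      have hx₁ : x₁ ∈ x₀ :: x₁ :: l' := by simp
      have hxs : ∀ x ∈ xs, x ∈ x₀ :: x₁ :: l' := fun x hx => by simp [hsub x hx]
      have hNS' : ∀ x ∈ x₀ :: x₁ :: l', x ∉ S := hlS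
      obtain ⟨u₁, B₁, e₁, a1, a2, a3, a4, -, a6⟩ := seg_between hT hM₁ (S := S) (W := ∅) (v := w) (v' := x₀) (d := d)
        (d' := d₁) (by simp; have := hw d; omega) (by simp; have := h2 x₀ hx₀ (!d₁); omega)
      have c1 : (insert u₁ B₁).card = M₁.un.size + 1 := by rw [card_insert_of_notMem a3, a6.card]
      have c1' := card_le_card (inter_subset_left (s₁ := insert u₁ B₁) (s₂ := S))
      obtain ⟨u₂, B₂, e₂, p1, p2, p3, p4, p5, p6⟩ := seg_between hT hM₂ (S := S) (W := insert u₁ B₁) (v := x₁)
        (v' := w') (d := d₂) (d' := d') (by have := h2 x₁ hx₁ d₂; omega) (by have := hw' (!d'); omega)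
      have c2 : (insert u₂ B₂).card = M₂.un.size + 1 := by rw [card_insert_of_notMem p3, p6.card]
      obtain ⟨W2, hW2⟩ : ∃ W2, W2 = insert u₁ B₁ ∪ insert u₂ B₂ := ⟨_, rfl⟩
      have c3 : (W2 ∩ S).card ≤ M₁.un.size + M₂.un.size + 2 := by
        have h4 := card_le_card (inter_subset_left (s₁ := W2) (s₂ := S))
        have h5 := card_union_le (insert u₁ B₁) (insert u₂ B₂)
        rw [← hW2] at h5
        omega
      obtain ⟨A₀, b1, b2, b3⟩ := bush hT (S := S) (x := x₀) N₀.un (W := W2) (fun d => by
        have := h2 x₀ hx₀ d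
        omega)
      obtain ⟨A₁, q1, q2, q3⟩ := bush hT (S := S) (x := x₁) N₁.un (W := W2 ∪ A₀) (fun d => by
        have := h2 x₁ hx₁ d
        have h5 := card_union_inter_le' W2 A₀ S
        have h6 := b3.card
        omega)
      obtain ⟨Ay, g1, g2, g3, g4⟩ := centre hT (S := S) (sg := σ) Ny.un (W := W2 ∪ A₀ ∪ A₁) (xs := xs) hcy (by omega)
        hln.2.2 (fun x hx => hNS' x (hxs x hx)) (fun x hx d => by
          have := h2 x (hxs x hx) d
          have h5 := card_union_inter_le' W2 A₀ S
          have h6 := card_union_inter_le' (W2 ∪ A₀) A₁ S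
          have h7 := b3.card
          have h8 := q3.card
          omega)
      rw [disjoint_union_right] at g2 q2
      rw [disjoint_union_right] at g2
      have hBS : ∀ t, t ∈ insert u₁ B₁ → t ∈ S := fun t ht => a4 ht
      have hDS : ∀ t, t ∈ insert u₂ B₂ → t ∈ S := fun t ht => p4 ht
      have hAS : ∀ t, t ∈ A₀ → t ∈ S := fun t ht => b1 ht
      have hCS : ∀ t, t ∈ A₁ → t ∈ S := fun t ht => q1 ht
      have hGS : ∀ t, t ∈ Ay → t ∈ S := fun t ht => g1 ht
      have d1 : ∀ t, t ∈ insert u₂ B₂ → t ∉ insert u₁ B₁ := fun t ht => disjoint_left.1 p5 ht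
      have d2 : ∀ t, t ∈ A₀ → t ∉ W2 := fun t ht => disjoint_left.1 b2 ht
      have d3 : ∀ t, t ∈ A₁ → t ∉ W2 := fun t ht => disjoint_left.1 q2.1 ht
      have d4 : ∀ t, t ∈ A₁ → t ∉ A₀ := fun t ht => disjoint_left.1 q2.2 ht
      have d5 : ∀ t, t ∈ Ay → t ∉ W2 := fun t ht => disjoint_left.1 g2.1.1 ht
      have d6 : ∀ t, t ∈ Ay → t ∉ A₀ := fun t ht => disjoint_left.1 g2.1.2 ht
      have d7 : ∀ t, t ∈ Ay → t ∉ A₁ := fun t ht => disjoint_left.1 g2.2 ht
      have hW2' : ∀ t, t ∈ W2 ↔ (t = u₁ ∨ t ∈ B₁) ∨ (t = u₂ ∨ t ∈ B₂) := fun t => by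
        rw [hW2]; simp only [mem_union, mem_insert]
      simp only [hW2', mem_insert] at hBS hDS d1 d2 d3 d5
      have hxS : ∀ x ∈ xs, x ∉ S := fun x hx => hNS' x (hxs x hx)
      have hx₀S := hNS' x₀ hx₀
      have hx₁S := hNS' x₁ hx₁
      refine ⟨insert u₁ (B₁ ∪ insert x₀ (A₀ ∪ ((xs.toFinset ∪ Ay) ∪ insert x₁ (A₁ ∪ insert u₂ B₂)))), ?_, ?_,
        fun z hz hzN => ?_⟩
      · intro t ht
        simp only [mem_insert, mem_union, List.mem_toFinset] at ht ⊢
        rcases ht with h | h | h | h | (h | h) | h | h | h | h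
        · exact Or.inl (hBS t (Or.inl h))
        · exact Or.inl (hBS t (Or.inr h))
        · exact Or.inr (h ▸ hx₀)
        · exact Or.inl (hAS t h)
        · exact Or.inr (hxs t h)
        · exact Or.inl (hGS t h)
        · exact Or.inr (h ▸ hx₁)
        · exact Or.inl (hCS t h)
        · exact Or.inl (hDS t (Or.inl h))
        · exact Or.inl (hDS t (Or.inr h))
      · have e1 : x₀ ∉ A₀ ∪ ((xs.toFinset ∪ Ay) ∪ insert x₁ (A₁ ∪ insert u₂ B₂)) := by
          simp only [mem_insert, mem_union, List.mem_toFinset]; grind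
        have e2 : Disjoint B₁ (insert x₀ (A₀ ∪ ((xs.toFinset ∪ Ay) ∪ insert x₁ (A₁ ∪ insert u₂ B₂)))) := by
          rw [disjoint_left]; intro t ht ht'
          simp only [mem_insert, mem_union, List.mem_toFinset] at ht'; grind
        have e3 : u₁ ∉ B₁ ∪ insert x₀ (A₀ ∪ ((xs.toFinset ∪ Ay) ∪ insert x₁ (A₁ ∪ insert u₂ B₂))) := by
          simp only [mem_insert, mem_union, List.mem_toFinset]; grind
        have e4 : Disjoint A₀ ((xs.toFinset ∪ Ay) ∪ insert x₁ (A₁ ∪ insert u₂ B₂)) := by
          rw [disjoint_left]; intro t ht ht'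
          simp only [mem_insert, mem_union, List.mem_toFinset] at ht'; grind
        have e5 : Disjoint xs.toFinset Ay := by
          rw [disjoint_left]; intro t ht ht'
          simp only [List.mem_toFinset] at ht; grind
        have e6 : Disjoint (xs.toFinset ∪ Ay) (insert x₁ (A₁ ∪ insert u₂ B₂)) := by
          rw [disjoint_left]; intro t ht ht'
          simp only [mem_insert, mem_union, List.mem_toFinset] at ht ht'; grind
        have e7 : x₁ ∉ A₁ ∪ insert u₂ B₂ := by
          simp only [mem_insert, mem_union]; grind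
        have e8 : Disjoint A₁ (insert u₂ B₂) := by
          rw [disjoint_left]; intro t ht ht'
          simp only [mem_insert] at ht'; grind
        rw [card_insert_of_notMem e3, card_union_of_disjoint e2, card_insert_of_notMem e1, card_union_of_disjoint e4,
          card_union_of_disjoint e6, card_union_of_disjoint e5, card_insert_of_notMem e7, card_union_of_disjoint e8,
          List.toFinset_card_of_nodup hln.2.2, hsz, a6.card, b3.card, q3.card, c2]
        omega
      · simp only [mem_insert, mem_union, List.mem_toFinset, not_or] at hz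
        have hzx : ∀ x ∈ x₀ :: x₁ :: xs, Adj R σ x z := fun x hx => hzN x (by
          rw [List.mem_cons, List.mem_cons] at hx
          rcases hx with rfl | rfl | h
          · exact hx₀
          · exact hx₁
          · exact hxs x h)
        have f4 := EmbC.cmp (embC_top hN₁ q3) p1 p6 p3 (by
          rw [disjoint_left]; intro t ht ht'
          simp only [mem_insert] at ht ht'; grind)
        have f3 := EmbC.cmp (embC_top hNy (g4 z fun x hx => hzx x (by simp [hx]))) (adj_flip (hzx x₁ (by simp))) f4 (by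
            simp only [mem_insert, mem_union]; grind) (by
            rw [disjoint_left]; intro t ht ht'
            simp only [mem_insert, mem_union, List.mem_toFinset] at ht ht'; grind)
        have f2 := EmbC.cmp (embC_top hN₀ b3) (hzx x₀ (by simp)) f3 (by
            simp only [mem_insert, mem_union, List.mem_toFinset]; tauto) (by
            rw [disjoint_left]; intro t ht ht'
            simp only [mem_insert, mem_union, List.mem_toFinset] at ht ht'; grind)
        have f1 := EmbC.cmp a6 a2 f2 (by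
            simp only [mem_insert, mem_union, List.mem_toFinset]; grind) (by
            rw [disjoint_left]; intro t ht ht'
            simp only [mem_insert, mem_union, List.mem_toFinset] at ht ht'; grind)
        refine ⟨u₁, e₂, _, ∅, a1, ?_, f1, p2, disjoint_empty_right _, ?_, rfl⟩
        · simp only [mem_insert, mem_union, List.mem_toFinset]; grind
        · ext t
          simp only [mem_insert, mem_union, List.mem_toFinset, notMem_empty, or_false]
          tauto

/-- **One gadget**: its centre may be any vertex which fits -/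
theorem gad_place (hT : AE32.Tour R) {b m : ℕ} {p : Pd V} (hp : p.Gad b) (hm : p.sz ≤ m) (σ : Bool) {l : List V}
    (hl : l.length = b + 1) (hnd : l.Nodup) {S : Finset V} (hlS : ∀ x ∈ l, x ∉ S)
    (hS : ∀ y, (y ∈ p.hosts ∨ y ∈ l) → ∀ d, 4096 * m ≤ (nb R d S y).card) :
    ∃ B : Finset V, B ⊆ S ∪ l.toFinset ∧ B.card + 1 = p.sz ∧
      ∀ z, z ∉ B → (∀ x ∈ l, Adj R σ x z) → Pl R [p] (insert z B) := by
  cases p with
  | one w d q =>
    obtain ⟨M₁, N₀, d₁, cy, rfl, hN₀, hM₁, hcy, hcyb⟩ := hp σ
    have hw : ∀ d, 4096 * m ≤ (nb R d S w).card := hS w (Or.inl (by simp [Pd.hosts]))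
    have hsz : (M₁.plug (d₁, N₀.plug (σ, cy))).size = M₁.un.size + (N₀.un.size + (cy.size + 1) + 1) := by
      rw [Cx.size_plug, Cx.size_plug]
    simp only [Pd.sz] at hm ⊢
    match l, hl, hnd, hlS, hS with
    | [], hl, _, _, _ => simp at hl
    | x₀ :: l', hl, hnd, hlS, hS =>
      rw [List.nodup_cons] at hnd
      simp only [List.length_cons] at hl
      obtain ⟨xs, hxs'⟩ : ∃ xs, xs = l'.take cy.len := ⟨_, rfl⟩
      have hll : xs.length = cy.len := by rw [hxs', List.length_take]; omega
      have hsub : ∀ x ∈ xs, x ∈ l' := fun x hx => by rw [hxs'] at hx; exact List.mem_of_mem_take hx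
      have hln : x₀ ∉ xs ∧ xs.Nodup := ⟨fun h => hnd.1 (hsub _ h), by rw [hxs']; exact hnd.2.take⟩
      have h2 : ∀ x ∈ x₀ :: l', ∀ d, 4096 * m ≤ (nb R d S x).card := fun x hx => hS x (Or.inr hx)
      have hx₀ : x₀ ∈ x₀ :: l' := List.mem_cons_self ..
      have hxs : ∀ x ∈ xs, x ∈ x₀ :: l' := fun x hx => List.mem_cons_of_mem _ (hsub x hx)
      have hNS' : ∀ x ∈ x₀ :: l', x ∉ S := hlS
      obtain ⟨u₁, B₁, e₁, a1, a2, a3, a4, -, a6⟩ := seg_between hT hM₁ (S := S) (W := ∅) (v := w) (v' := x₀) (d := d)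
        (d' := d₁) (by simp; have := hw d; omega) (by simp; have := h2 x₀ hx₀ (!d₁); omega)
      have c1 : (insert u₁ B₁).card = M₁.un.size + 1 := by rw [card_insert_of_notMem a3, a6.card]
      obtain ⟨A₀, b1, b2, b3⟩ := bush hT (S := S) (x := x₀) N₀.un (W := insert u₁ B₁) (fun d => by
        have := h2 x₀ hx₀ d
        have := card_le_card (inter_subset_left (s₁ := insert u₁ B₁) (s₂ := S))
        omega)
      obtain ⟨Ay, g1, g2, g3, g4⟩ := centre hT (S := S) (sg := σ) cy (W := insert u₁ B₁ ∪ A₀) (xs := xs) hcy (by omega)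
        hln.2 (fun x hx => hNS' x (hxs x hx)) (fun x hx d => by
          have := h2 x (hxs x hx) d
          have h4 := card_le_card (inter_subset_left (s₁ := insert u₁ B₁ ∪ A₀) (s₂ := S))
          have h5 := card_union_le (insert u₁ B₁) A₀
          have h6 := b3.card
          omega)
      have hBS : ∀ t, t ∈ insert u₁ B₁ → t ∈ S := fun t ht => a4 ht
      have hAS : ∀ t, t ∈ A₀ → t ∈ S := fun t ht => b1 ht
      have hGS : ∀ t, t ∈ Ay → t ∈ S := fun t ht => g1 ht
      rw [disjoint_union_right] at g2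
      have d1 : ∀ t, t ∈ A₀ → t ∉ insert u₁ B₁ := fun t ht => disjoint_left.1 b2 ht
      have d2 : ∀ t, t ∈ Ay → t ∉ insert u₁ B₁ := fun t ht => disjoint_left.1 g2.1 ht
      have d3 : ∀ t, t ∈ Ay → t ∉ A₀ := fun t ht => disjoint_left.1 g2.2 ht
      simp only [mem_insert] at hBS d1 d2
      have hxS : ∀ x ∈ xs, x ∉ S := fun x hx => hNS' x (hxs x hx)
      have hx₀S := hNS' x₀ hx₀
      refine ⟨insert u₁ (B₁ ∪ insert x₀ (A₀ ∪ (xs.toFinset ∪ Ay))), ?_, ?_, fun z hz hzN => ?_⟩
      · intro t ht
        simp only [mem_insert, mem_union, List.mem_toFinset] at ht ⊢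
        rcases ht with h | h | h | h | h | h
        · exact Or.inl (hBS t (Or.inl h))
        · exact Or.inl (hBS t (Or.inr h))
        · exact Or.inr (h ▸ hx₀)
        · exact Or.inl (hAS t h)
        · exact Or.inr (hxs t h)
        · exact Or.inl (hGS t h)
      · have e1 : x₀ ∉ A₀ ∪ (xs.toFinset ∪ Ay) := by
          simp only [mem_union, List.mem_toFinset]; grind
        have e2 : Disjoint B₁ (insert x₀ (A₀ ∪ (xs.toFinset ∪ Ay))) := by
          rw [disjoint_left]; intro t ht ht'
          simp only [mem_insert, mem_union, List.mem_toFinset] at ht'; grind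
        have e3 : u₁ ∉ B₁ ∪ insert x₀ (A₀ ∪ (xs.toFinset ∪ Ay)) := by
          simp only [mem_insert, mem_union, List.mem_toFinset]; grind
        have e4 : Disjoint A₀ (xs.toFinset ∪ Ay) := by
          rw [disjoint_left]; intro t ht ht'
          simp only [mem_union, List.mem_toFinset] at ht'; grind
        have e5 : Disjoint xs.toFinset Ay := by
          rw [disjoint_left]; intro t ht ht'
          simp only [List.mem_toFinset] at ht; grind
        rw [card_insert_of_notMem e3, card_union_of_disjoint e2, card_insert_of_notMem e1, card_union_of_disjoint e4,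
          card_union_of_disjoint e5, List.toFinset_card_of_nodup hln.2, hsz, a6.card, b3.card]
        omega
      · simp only [mem_insert, mem_union, List.mem_toFinset, not_or] at hz
        have hzx : ∀ x ∈ x₀ :: xs, Adj R σ x z := fun x hx => hzN x (by
          rcases List.mem_cons.1 hx with rfl | h
          · exact hx₀
          · exact hxs x h)
        have f1 := EmbC.plug (embC_top hN₀ b3) (d := σ) (c := cy) (w := z) (hzx x₀ (List.mem_cons_self ..))
          (E := xs.toFinset ∪ Ay) (by simp only [mem_union, List.mem_toFinset]; tauto)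
          (g4 z fun x hx => hzx x (List.mem_cons_of_mem _ hx)) (by
            rw [disjoint_left]; intro t ht ht'
            simp only [mem_insert, mem_union, List.mem_toFinset] at ht'; grind)
        have f2 := EmbC.plug a6 a2 (E := A₀ ∪ insert z (xs.toFinset ∪ Ay)) (by
            simp only [mem_insert, mem_union, List.mem_toFinset]; grind) f1 (by
            rw [disjoint_left]; intro t ht ht'
            simp only [mem_insert, mem_union, List.mem_toFinset] at ht'; grind)
        refine ⟨u₁, _, ∅, a1, ?_, f2, disjoint_empty_right _, ?_, rfl⟩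
        · simp only [mem_insert, mem_union, List.mem_toFinset]; grind
        · ext t
          simp only [mem_insert, mem_union, List.mem_toFinset, notMem_empty, or_false]
          tauto
  | two w d M d' w' => exact gad_two hT σ (hp σ) hm hl hnd hlS hS

/-- **Many gadgets**: `g.1` is the piece, `g.2.1` the direction of the arcs to the centre, `g.2.2` the neighbours of the
centre -/
theorem gads_place (hT : AE32.Tour R) {b m : ℕ} (gs : List (Pd V × Bool × List V)) (h1 : ∀ g ∈ gs, g.1.Gad b ∧ g.1.sz ≤ m ∧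
      g.2.2.length = b + 1) (hnd : (gs.flatMap (fun g => g.2.2)).Nodup) {S : Finset V}
    (hlS : ∀ g ∈ gs, ∀ x ∈ g.2.2, x ∉ S)
    (hS : ∀ g ∈ gs, ∀ y, (y ∈ g.1.hosts ∨ y ∈ g.2.2) → ∀ d, gs.length * m + 4096 * m ≤ (nb R d S y).card) :
    ∃ B : Finset V, B ⊆ S ∪ (gs.flatMap (fun g => g.2.2)).toFinset ∧
      B.card + gs.length = (gs.map (fun g => g.1.sz)).sum ∧
      ∀ Z, Cen R (gs.map (fun g => (g.2.1, g.2.2))) Z → Disjoint B Z → Pl R (gs.map (fun g => g.1)) (B ∪ Z) := by
  induction gs with
  | nil =>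
    refine ⟨∅, empty_subset _, rfl, fun Z hZ _ => ?_⟩
    have hZ' : Z = ∅ := hZ
    rw [hZ', union_empty]
    rfl
  | cons g gs ih =>
    rw [List.flatMap_cons, List.nodup_append] at hnd
    obtain ⟨B', hB', hBc', hB'Z⟩ := ih (fun g' hg' => h1 g' (List.mem_cons_of_mem _ hg')) hnd.2.1
      (fun g' hg' => hlS g' (List.mem_cons_of_mem _ hg')) (fun g' hg' y hy d => by
        have := hS g' (List.mem_cons_of_mem _ hg') y hy d
        rw [List.length_cons, Nat.add_mul] at this
        omega)
    have hsum : (gs.map (fun g => g.1.sz)).sum ≤ gs.length * m := by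
      have := List.sum_le_card_nsmul (gs.map (fun g => g.1.sz)) m (fun x hx => by
        obtain ⟨g', hg', rfl⟩ := List.mem_map.1 hx
        exact (h1 g' (List.mem_cons_of_mem _ hg')).2.1)
      rwa [List.length_map, smul_eq_mul] at this
    have key : ∀ y d, (nb R d S y).card ≤ (nb R d (S \ B') y).card + B'.card := by
      intro y d
      have h : nb R d S y ⊆ nb R d (S \ B') y ∪ B' := by
        intro u hu
        rw [mem_nb] at hu
        rw [mem_union, mem_nb, mem_sdiff]
        by_cases h : u ∈ B'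
        · exact Or.inr h
        · exact Or.inl ⟨⟨hu.1, h⟩, hu.2⟩
      exact (card_le_card h).trans (card_union_le _ _)
    obtain ⟨h1a, h1b, h1c⟩ := h1 g (List.mem_cons_self ..)
    obtain ⟨B, hB, hBc, hBZ⟩ := gad_place hT h1a h1b g.2.1 h1c hnd.1 (S := S \ B')
      (fun x hx h => hlS g (List.mem_cons_self ..) x hx (mem_sdiff.1 h).1) (fun y hy d => by
        have h4 := hS g (List.mem_cons_self ..) y hy d
        have h5 := key y d
        rw [List.length_cons, Nat.add_mul] at h4
        omega)
    have hd : Disjoint B B' := by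
      rw [disjoint_left]
      intro t ht ht'
      rcases mem_union.1 (hB ht) with h | h
      · exact (mem_sdiff.1 h).2 ht'
      · rw [List.mem_toFinset] at h
        rcases mem_union.1 (hB' ht') with h' | h'
        · exact hlS g (List.mem_cons_self ..) t h h'
        · exact hnd.2.2 t h t (List.mem_toFinset.1 h') rfl
    refine ⟨B ∪ B', ?_, ?_, fun Z hZ hdZ => ?_⟩
    · intro t ht
      rw [List.flatMap_cons, mem_union, List.mem_toFinset, List.mem_append]
      rcases mem_union.1 ht with h | h
      · rcases mem_union.1 (hB h) with h' | h'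
        · exact Or.inl (mem_sdiff.1 h').1
        · exact Or.inr (Or.inl (List.mem_toFinset.1 h'))
      · rcases mem_union.1 (hB' h) with h' | h'
        · exact Or.inl h'
        · exact Or.inr (Or.inr (List.mem_toFinset.1 h'))
    · rw [card_union_of_disjoint hd, List.map_cons, List.sum_cons, List.length_cons]
      omega
    · obtain ⟨v, A, hvA, rfl, hv, hA⟩ := hZ
      rw [disjoint_insert_right, mem_union, not_or, disjoint_union_left] at hdZ
      have p1 := hBZ v hdZ.1.1 hv
      have p2 := hB'Z A hA hdZ.2.2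
      have p3 := Pl.append p1 p2 (by
        rw [disjoint_union_right, disjoint_insert_left, disjoint_insert_left]
        exact ⟨⟨hdZ.1.2, hd⟩, hvA, hdZ.2.1⟩)
      have e : B ∪ B' ∪ insert v A = insert v B ∪ (B' ∪ A) := by
        ext t
        simp only [mem_union, mem_insert]
        tauto
      rw [e]
      exact p3

end AEW
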