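import Pool.Agent.AEV.Cover

/-!
# Special and fitting stars inside a linear set
-/

set_option autoImplicit false

namespace AEW

open Finset AE15 AED AELT AEV
open scoped Classical

/-- the star for sinks -/
private theorem starA_true (b : ℕ) {c : ℝ} (hc : 0 < c) : ∃ p μ : ℝ, 0 < p ∧ p ≤ 1 ∧ 0 < μ ∧ ∃ n₀ : ℕ,
    ∀ {V : Type} {R : V → V → Prop},
    AE32.Tour R → ∀ (X A : Finset V), A ⊆ X → n₀ ≤ X.card → c * X.card ≤ (A.card : ℝ) → ∀ (w : V → ℝ),
      (∀ v, 0 ≤ w v) → ∀ Bad : Finset V, (Bad.card : ℝ) ≤ μ * X.card → ∀ m ≤ b + 1,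
        ∃ h ∈ A, h ∉ Bad ∧ ∃ l : List V, l.length = m ∧ l.Nodup ∧
          (∀ x ∈ l, x ∈ A ∧ x ∉ Bad ∧ x ≠ h ∧ Adj R true x h) ∧
          p * ∑ v ∈ X.filter (fun v => Tp R A A true v), w v ≤
            ∑ v ∈ X.filter (fun v => Tp R A A true v ∧ ∀ x ∈ l, Adj R true x v), w v := by
  obtain ⟨c', hc'⟩ : ∃ c', c' = min c 1 := ⟨_, rfl⟩
  have c0 : 0 < c' := by rw [hc']; exact lt_min hc one_pos
  have c1 : c' ≤ 1 := by rw [hc']; exact min_le_right _ _
  have cc : c' ≤ c := by rw [hc']; exact min_le_left _ _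
  obtain ⟨q, hq⟩ : ∃ q, q = c' / 128 := ⟨_, rfl⟩
  have q0 : 0 < q := by rw [hq]; positivity
  have q1 : q ≤ 1 := by rw [hq]; linarith
  refine ⟨c' ^ 2 / 64 * q ^ (b + 1), c' ^ 2 / 64, by positivity, ?_, by positivity, ⌈(b + 2) / q⌉₊ + 1, ?_⟩
  · have h1 : q ^ (b + 1) ≤ 1 := pow_le_one₀ q0.le q1
    have h2 : c' ^ 2 / 64 ≤ 1 := by nlinarith
    exact mul_le_one₀ h2 (by positivity) h1
  intro V R hT X A hAX hn hcA w hw Bad hBad m hm
  obtain ⟨n, hnd⟩ : ∃ n : ℝ, n = X.card := ⟨_, rfl⟩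
  obtain ⟨α, hα⟩ : ∃ α : ℝ, α = A.card := ⟨_, rfl⟩
  rw [← hnd] at hBad hcA
  rw [← hα] at hcA
  have hn0 : 0 < n := by
    rw [hnd]
    exact_mod_cast (by omega : 0 < X.card)
  have hbq : (b + 2 : ℝ) ≤ q * n := by
    have h1 : (b + 2 : ℝ) / q ≤ n := by
      refine (Nat.le_ceil _).trans ?_
      rw [hnd]
      exact_mod_cast (by omega : ⌈((b : ℝ) + 2) / q⌉₊ ≤ X.card)
    rw [div_le_iff₀ q0] at h1
    linarith
  have hαn : α ≤ n := by rw [hα, hnd]; exact_mod_cast card_le_card hAX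
  have hcα : c' * n ≤ α := (mul_le_mul_of_nonneg_right cc hn0.le).trans hcA
  have hα0 : 0 < α := lt_of_lt_of_le (by positivity) hcα
  have hcsq : c' ^ 2 ≤ c' := by nlinarith
  have hsq : c' ^ 2 * n ≤ c' * α := by nlinarith
  -- the number of arcs to `h`
  obtain ⟨P, hP⟩ : ∃ P : V → V → ℝ, P = fun h v => ((A.filter (fun u => R u h ∧ R u v)).card : ℝ) := ⟨_, rfl⟩
  have hPn : ∀ h v, P h v ≤ n := by
    intro h v
    rw [hP, hnd]
    show ((A.filter (fun u => R u h ∧ R u v)).card : ℝ) ≤ X.card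
    exact_mod_cast card_le_card ((filter_subset _ _).trans hAX)
  obtain ⟨T, hTd⟩ : ∃ T, T = X.filter (fun v => Tp R A A true v) := ⟨_, rfl⟩
  have hTp : ∀ v ∈ T, α ^ 2 / 16 ≤ ∑ h ∈ A, P h v := by
    intro v hv
    rw [hTd, mem_filter] at hv
    have := hv.2
    unfold Tp at this
    rw [hα, hP]
    simpa [Adj] using this
  -- the choice of `h`
  obtain ⟨h, hh, hhw⟩ := AEV.avgS (S := A \ Bad) (T := T) hw (fun h v => α / 32 ≤ P h v) (q := c' ^ 2 / 64) (N := n)
    (by positivity) (by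
      rw [sdiff_nonempty]
      intro hsub
      have h1 : α ≤ Bad.card := by rw [hα]; exact_mod_cast card_le_card hsub
      nlinarith) (by rw [hnd]; exact_mod_cast card_le_card (sdiff_subset.trans hAX)) (by
      intro v hv
      obtain ⟨H, hH⟩ : ∃ H, H = A.filter (fun h => α / 32 ≤ P h v) := ⟨_, rfl⟩
      have h1 : ∑ h ∈ A, P h v ≤ H.card * n + α * (α / 32) := by
        rw [← sum_filter_add_sum_filter_not A (fun h => α / 32 ≤ P h v), ← hH]
        refine add_le_add ?_ ?_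
        · refine (sum_le_sum (g := fun _ => n) fun h _ => hPn h v).trans ?_
          rw [sum_const, nsmul_eq_mul]
        · refine (sum_le_sum (g := fun _ => α / 32) fun h hh => (not_le.1 (mem_filter.1 hh).2).le).trans ?_
          rw [sum_const, nsmul_eq_mul, hα]
          refine mul_le_mul_of_nonneg_right ?_ (by positivity)
          exact_mod_cast card_le_card (filter_subset _ _)
      have h2 := hTp v hv
      have h3 : α ^ 2 / 32 ≤ H.card * n := by nlinarith
      have h4 : c' ^ 2 / 32 * n ≤ H.card := by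
        have h5 : c' ^ 2 * n * n ≤ α ^ 2 := by nlinarith
        have h6 : (c' ^ 2 / 32 * n) * n ≤ H.card * n := by nlinarith
        exact le_of_mul_le_mul_right h6 hn0
      have h7 : H.card ≤ ((A \ Bad).filter (fun h => α / 32 ≤ P h v)).card + Bad.card := by
        rw [hH]
        refine (card_le_card ?_).trans (card_union_le _ _)
        intro h hh
        rw [mem_filter] at hh
        rw [mem_union, mem_filter, mem_sdiff]
        by_cases hb : h ∈ Bad
        · exact Or.inr hb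
        · exact Or.inl ⟨⟨hh.1, hb⟩, hh.2⟩
      have h8 : (H.card : ℝ) ≤ ((A \ Bad).filter (fun h => α / 32 ≤ P h v)).card + Bad.card := by exact_mod_cast h7
      linarith)
  rw [mem_sdiff] at hh
  obtain ⟨Z, hZ⟩ : ∃ Z, Z = (A \ Bad).filter (fun u => R u h) := ⟨_, rfl⟩
  have hZX : Z ⊆ X := by
    rw [hZ]
    exact ((filter_subset _ _).trans sdiff_subset).trans hAX
  have hcount : ∀ v ∈ T.filter (fun v => α / 32 ≤ P h v), 2 * (q * (X.card : ℝ)) ≤ ((Z.filter (fun x => R x v)).card : ℝ) := by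
    intro v hv
    have h1 := (mem_filter.1 hv).2
    have h2 : (A.filter (fun u => R u h ∧ R u v)).card ≤ (Z.filter (fun x => R x v)).card + Bad.card := by
      refine (card_le_card ?_).trans (card_union_le _ _)
      intro u hu
      rw [mem_filter] at hu
      rw [mem_union, hZ, mem_filter, mem_filter, mem_sdiff]
      by_cases hb : u ∈ Bad
      · exact Or.inr hb
      · exact Or.inl ⟨⟨⟨hu.1, hb⟩, hu.2.1⟩, hu.2.2⟩
    have h3 : P h v ≤ ((Z.filter (fun x => R x v)).card : ℝ) + Bad.card := by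
      rw [hP]
      show ((A.filter (fun u => R u h ∧ R u v)).card : ℝ) ≤ _
      exact_mod_cast h2
    rw [← hnd, hq]
    have h4 : c' ^ 2 / 64 * n ≤ c' * n / 64 := by nlinarith
    linarith
  by_cases hTe : (T.filter (fun v => α / 32 ≤ P h v)).Nonempty
  · obtain ⟨v₀, hv₀⟩ := hTe
    have hZc : ((b + 1 : ℕ) : ℝ) < Z.card := by
      have h1 := hcount v₀ hv₀
      have h2 : ((Z.filter (fun x => R x v₀)).card : ℝ) ≤ Z.card := by exact_mod_cast card_le_card (filter_subset _ _)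
      rw [← hnd] at h1
      push_cast
      linarith
    obtain ⟨l, l1, l2, l3, l4⟩ := star_aux hw hZX q0 (j := b + 1) (by rw [← hnd]; push_cast; linarith) hcount hZc m hm
    refine ⟨h, hh.1, hh.2, l, l1, l2, ?_, ?_⟩
    · intro x hx
      have h1 := l3 x hx
      rw [hZ, mem_filter, mem_sdiff] at h1
      refine ⟨h1.1.1, h1.1.2, ?_, by simpa [Adj] using h1.2⟩
      rintro rfl
      exact hT.irr _ h1.2
    · have hW : 0 ≤ ∑ v ∈ T, w v := sum_nonneg fun v _ => hw v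
      have h1 : q ^ (b + 1) ≤ q ^ m := pow_le_pow_of_le_one q0.le q1 hm
      rw [← hTd]
      calc c' ^ 2 / 64 * q ^ (b + 1) * ∑ v ∈ T, w v
          = q ^ (b + 1) * (c' ^ 2 / 64 * ∑ v ∈ T, w v) := by ring
        _ ≤ q ^ m * (c' ^ 2 / 64 * ∑ v ∈ T, w v) := mul_le_mul_of_nonneg_right h1 (by positivity)
        _ ≤ q ^ m * ∑ v ∈ T.filter (fun v => α / 32 ≤ P h v), w v := mul_le_mul_of_nonneg_left hhw (by positivity)
        _ ≤ _ := l4
        _ ≤ _ := by
          refine sum_le_sum_of_subset_of_nonneg ?_ fun v _ _ => hw v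
          intro v hv
          rw [mem_filter, mem_filter, hTd, mem_filter] at hv
          rw [mem_filter]
          exact ⟨hv.1.1.1, hv.1.1.2, fun x hx => by simpa [Adj] using hv.2 x hx⟩
  · -- no weight: any vertex with many in-neighbours
    rw [not_nonempty_iff_eq_empty] at hTe
    rw [hTe, sum_empty] at hhw
    have hW : 0 ≤ ∑ v ∈ T, w v := sum_nonneg fun v _ => hw v
    have hW0 : ∑ v ∈ T, w v = 0 := by
      refine le_antisymm ?_ hW
      by_contra hcon
      push Not at hcon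
      have : 0 < c' ^ 2 / 64 * ∑ v ∈ T, w v := by positivity
      linarith
    obtain ⟨j, hj⟩ : ∃ j, j = ⌊α / 8⌋₊ := ⟨_, rfl⟩
    have hj1 : (j : ℝ) ≤ α / 8 := by rw [hj]; exact Nat.floor_le (by positivity)
    have hlow := card_low (R := fun a b => R b a) ⟨fun a => hT.irr a, fun a b hab => (hT.tot a b hab).symm,
      fun a b hab => hT.asym b a hab⟩ A j
    have hbig : (128 : ℝ) ≤ α := by
      have h1 : q * n ≤ α / 128 := by rw [hq]; linarith
      have h2 : (0 : ℝ) ≤ b := Nat.cast_nonneg _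
      linarith
    have hBα : (Bad.card : ℝ) ≤ α / 64 := by
      have h4 : c' ^ 2 * n ≤ c' * n := mul_le_mul_of_nonneg_right hcsq hn0.le
      linarith
    obtain ⟨h₂, k1, k2, k3⟩ : ∃ h₂ ∈ A, h₂ ∉ Bad ∧ α / 8 < ((nI R A h₂).card : ℝ) := by
      by_contra hcon
      push Not at hcon
      have h1 : A ⊆ Bad ∪ A.filter (fun v => (nO (fun a b => R b a) A v).card ≤ j) := by
        intro h hh
        rw [mem_union, mem_filter]
        by_cases hb : h ∈ Bad
        · exact Or.inl hb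
        · exact Or.inr ⟨hh, by rw [hj]; exact Nat.le_floor (hcon h hh hb)⟩
      have h2 : A.card ≤ Bad.card + (2 * j + 1) :=
        (card_le_card h1).trans ((card_union_le _ _).trans (Nat.add_le_add_left hlow _))
      have h3 : α ≤ Bad.card + (2 * j + 1) := by rw [hα]; exact_mod_cast h2
      linarith
    obtain ⟨Z₂, hZ₂⟩ : ∃ Z₂, Z₂ = (nI R A h₂) \ Bad := ⟨_, rfl⟩
    have h5 : m ≤ Z₂.card := by
      have h6 : (nI R A h₂).card ≤ Z₂.card + Bad.card := by
        rw [hZ₂]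
        exact card_le_card_sdiff_add_card
      have h7 : ((nI R A h₂).card : ℝ) ≤ Z₂.card + Bad.card := by exact_mod_cast h6
      have h8 : (m : ℝ) ≤ Z₂.card := by
        have h9 : (m : ℝ) ≤ b + 1 := by exact_mod_cast hm
        have h10 : q * n ≤ α / 128 := by rw [hq]; linarith
        linarith
      exact_mod_cast h8
    obtain ⟨Z₃, z1, z2⟩ := exists_subset_card_eq h5
    refine ⟨h₂, k1, k2, Z₃.toList, by rw [length_toList, z2], nodup_toList _, ?_, ?_⟩
    · intro x hx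
      have h6 := z1 (mem_toList.1 hx)
      rw [hZ₂, mem_sdiff, mem_nI] at h6
      refine ⟨h6.1.1, h6.2, ?_, by simpa [Adj] using h6.1.2⟩
      rintro rfl
      exact hT.irr _ h6.1.2
    · rw [← hTd, hW0, mul_zero]
      exact sum_nonneg fun v _ => hw v

theorem starA (b : ℕ) {c : ℝ} (hc : 0 < c) : ∃ p μ : ℝ, 0 < p ∧ p ≤ 1 ∧ 0 < μ ∧ ∃ n₀ : ℕ,
    ∀ {V : Type} {R : V → V → Prop},
    AE32.Tour R → ∀ (X A : Finset V), A ⊆ X → n₀ ≤ X.card → c * X.card ≤ (A.card : ℝ) → ∀ (σ : Bool) (w : V → ℝ),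
      (∀ v, 0 ≤ w v) → ∀ Bad : Finset V, (Bad.card : ℝ) ≤ μ * X.card → ∀ m ≤ b + 1,
        ∃ h ∈ A, h ∉ Bad ∧ ∃ l : List V, l.length = m ∧ l.Nodup ∧
          (∀ x ∈ l, x ∈ A ∧ x ∉ Bad ∧ x ≠ h ∧ Adj R σ x h) ∧
          p * ∑ v ∈ X.filter (fun v => Tp R A A σ v), w v ≤
            ∑ v ∈ X.filter (fun v => Tp R A A σ v ∧ ∀ x ∈ l, Adj R σ x v), w v := by
  obtain ⟨p, μ, h1, h2, h3, n₀, h4⟩ := starA_true b hc
  refine ⟨p, μ, h1, h2, h3, n₀, ?_⟩
  intro V R hT X A hAX hn hcA σ w hw Bad hBad m hm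
  cases σ with
  | true => exact h4 hT X A hAX hn hcA w hw Bad hBad m hm
  | false =>
    obtain ⟨h, g1, g2, l, g3, g4, g5, g6⟩ := h4 (R := fun a b => R b a) ⟨fun a => hT.irr a,
      fun a b hab => (hT.tot a b hab).symm, fun a b hab => hT.asym b a hab⟩ X A hAX hn hcA w hw Bad hBad m hm
    refine ⟨h, g1, g2, l, g3, g4, fun x hx => ?_, ?_⟩
    · obtain ⟨a1, a2, a3, a4⟩ := g5 x hx
      exact ⟨a1, a2, a3, by simpa [Adj] using a4⟩
    · simpa [Tp, Adj] using g6

/-- the potential -/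
noncomputable def potA {V : Type} (R : V → V → Prop) (X A : Finset V) (L : List (Bool × V × List V)) (σ : Bool) : ℝ :=
  ∑ v ∈ X.filter (fun v => Tp R A A σ v), (1 / 2 : ℝ) ^ nfit R L σ v

theorem potA_nil {V : Type} (R : V → V → Prop) (X A : Finset V) (σ : Bool) : potA R X A [] σ ≤ X.card := by
  unfold potA
  simp only [nfit, List.filter_nil, List.length_nil, pow_zero, sum_const, nsmul_eq_mul, mul_one]
  exact_mod_cast card_le_card (filter_subset _ _)

/-- the greedy step -/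
theorem coverA_step (b : ℕ) {c : ℝ} (hc : 0 < c) : ∃ p μ : ℝ, 0 < p ∧ p ≤ 1 ∧ 0 < μ ∧ ∃ n₀ : ℕ,
    ∀ {V : Type} {R : V → V → Prop}, AE32.Tour R → ∀ (X A : Finset V), A ⊆ X → n₀ ≤ X.card → c * X.card ≤ (A.card : ℝ) →
      ∀ (σ : Bool) (L : List (Bool × V × List V)) (Bad : Finset V), (Bad.card : ℝ) ≤ μ * X.card → ∀ m ≤ b + 1,
        ∃ h ∈ A, h ∉ Bad ∧ ∃ l : List V, l.length = m ∧ l.Nodup ∧
          (∀ x ∈ l, x ∈ A ∧ x ∉ Bad ∧ x ≠ h ∧ Adj R σ x h) ∧
          potA R X A ((σ, h, l) :: L) σ ≤ (1 - p / 2) * potA R X A L σ := by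
  obtain ⟨p, μ, h1, h2, h3, n₀, h4⟩ := starA b hc
  refine ⟨p, μ, h1, h2, h3, n₀, ?_⟩
  intro V R hT X A hAX hn hcA σ L Bad hBad m hm
  obtain ⟨h, g1, g2, l, g3, g4, g5, g6⟩ := h4 hT X A hAX hn hcA σ (fun v => (1 / 2 : ℝ) ^ nfit R L σ v)
    (fun v => by positivity) Bad hBad m hm
  refine ⟨h, g1, g2, l, g3, g4, g5, ?_⟩
  have e1 : potA R X A ((σ, h, l) :: L) σ = potA R X A L σ -
      1 / 2 * ∑ v ∈ X.filter (fun v => Tp R A A σ v ∧ ∀ x ∈ l, Adj R σ x v), (1 / 2 : ℝ) ^ nfit R L σ v := by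
    unfold potA
    have e2 : ∑ v ∈ X.filter (fun v => Tp R A A σ v ∧ ∀ x ∈ l, Adj R σ x v), (1 / 2 : ℝ) ^ nfit R L σ v =
        ∑ v ∈ X.filter (fun v => Tp R A A σ v), if ∀ x ∈ l, Adj R σ x v then (1 / 2 : ℝ) ^ nfit R L σ v else 0 := by
      rw [← sum_filter, filter_filter]
    rw [e2, mul_sum, ← sum_sub_distrib]
    refine sum_congr rfl fun v _ => ?_
    rw [nfit_cons]
    by_cases hf : ∀ x ∈ l, Adj R σ x v
    · rw [if_pos hf, if_pos hf, pow_succ]
      ring
    · rw [if_neg hf, if_neg hf]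
      ring
  rw [e1]
  have e3 : p * potA R X A L σ ≤
      ∑ v ∈ X.filter (fun v => Tp R A A σ v ∧ ∀ x ∈ l, Adj R σ x v), (1 / 2 : ℝ) ^ nfit R L σ v := g6
  linarith

theorem nfitA_ge {V : Type} {R : V → V → Prop} {X A : Finset V} {L : List (Bool × V × List V)} {σ : Bool} {C : ℕ}
    (h : potA R X A L σ < (1 / 2) ^ C) {v : V} (hv : v ∈ X) (ht : Tp R A A σ v) : C ≤ nfit R L σ v := by
  by_contra hcon
  push Not at hcon
  have h1 : (1 / 2 : ℝ) ^ nfit R L σ v ≤ potA R X A L σ := by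
    unfold potA
    exact single_le_sum (f := fun v => (1 / 2 : ℝ) ^ nfit R L σ v) (fun _ _ => by positivity)
      (mem_filter.2 ⟨hv, ht⟩)
  have h2 : (1 / 2 : ℝ) ^ C ≤ (1 / 2) ^ nfit R L σ v := pow_le_pow_of_le_one (by norm_num) (by norm_num) hcon.le
  linarith

/-- all vertices of the stars -/
def stV {V : Type} (L : List (Bool × V × List V)) : List V := (L.map (fun p => p.2.1 :: p.2.2)).flatten

theorem stV_length {V : Type} {L : List (Bool × V × List V)} {m : ℕ} (h : ∀ p ∈ L, p.2.2.length = m) :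
    (stV L).length = L.length * (m + 1) := by
  induction L with
  | nil => simp [stV]
  | cons p L ih =>
    have h1 := ih fun q hq => h q (List.mem_cons_of_mem _ hq)
    have h2 := h p List.mem_cons_self
    simp only [stV, List.map_cons, List.flatten_cons, List.length_append, List.length_cons] at h1 ⊢
    rw [h1, h2]
    ring

/-- stars of one sign -/
private theorem build (b : ℕ) {c : ℝ} (hc : 0 < c) : ∃ p μ : ℝ, 0 < p ∧ p ≤ 1 ∧ 0 < μ ∧ ∃ n₀ : ℕ,
    ∀ {V : Type} {R : V → V → Prop}, AE32.Tour R → ∀ (X A : Finset V), A ⊆ X → n₀ ≤ X.card → c * X.card ≤ (A.card : ℝ) →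
      ∀ (σ : Bool) (Bad : Finset V) (t : ℕ), (Bad.card : ℝ) + t * (b + 2) ≤ μ * X.card →
        ∃ L : List (Bool × V × List V), L.length = t ∧ (∀ p ∈ L, p.1 = σ ∧ p.2.2.length = b + 1 ∧ FitS R p p.2.1) ∧
          (stV L).Nodup ∧ (∀ x ∈ stV L, x ∈ A ∧ x ∉ Bad) ∧ potA R X A L σ ≤ (1 - p / 2) ^ t * X.card := by
  obtain ⟨p, μ, h1, h2, h3, n₀, h4⟩ := coverA_step b hc
  refine ⟨p, μ, h1, h2, h3, n₀, ?_⟩
  intro V R hT X A hAX hn hcA σ Bad t
  induction t with
  | zero =>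
    intro _
    exact ⟨[], rfl, by simp, by simp [stV], by simp [stV], by rw [pow_zero, one_mul]; exact potA_nil R X A σ⟩
  | succ t ih =>
    intro ht
    push_cast at ht
    obtain ⟨L, l1, l2, l3, l4, l5⟩ := ih (by
      have : (0 : ℝ) ≤ b := Nat.cast_nonneg b
      linarith)
    have hlen := stV_length (m := b + 1) fun q hq => (l2 q hq).2.1
    have hBc : ((Bad ∪ (stV L).toFinset).card : ℝ) ≤ μ * X.card := by
      have e1 : (Bad ∪ (stV L).toFinset).card ≤ Bad.card + t * (b + 1 + 1) := by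
        refine (card_union_le _ _).trans (Nat.add_le_add_left ?_ _)
        refine (List.toFinset_card_le _).trans ?_
        rw [hlen, l1]
      have e2 : ((Bad ∪ (stV L).toFinset).card : ℝ) ≤ Bad.card + t * (b + 1 + 1) := by exact_mod_cast e1
      have : (0 : ℝ) ≤ b := Nat.cast_nonneg b
      linarith
    obtain ⟨h, g1, g2, l, g3, g4, g5, g6⟩ := h4 hT X A hAX hn hcA σ L _ hBc (b + 1) le_rfl
    rw [mem_union, not_or, List.mem_toFinset] at g2
    refine ⟨(σ, h, l) :: L, by rw [List.length_cons, l1], ?_, ?_, ?_, ?_⟩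
    · intro q hq
      rcases List.mem_cons.1 hq with rfl | hq
      · exact ⟨rfl, g3, fun x hx => (g5 x hx).2.2.2⟩
      · exact l2 q hq
    · have e1 : stV ((σ, h, l) :: L) = (h :: l) ++ stV L := by simp [stV]
      rw [e1, List.nodup_append]
      refine ⟨List.nodup_cons.2 ⟨fun hl => (g5 h hl).2.2.1 rfl, g4⟩, l3, ?_⟩
      intro x hx y hy
      rintro rfl
      rcases List.mem_cons.1 hx with rfl | hx
      · exact g2.2 hy
      · have := (g5 x hx).2.1
        rw [mem_union, not_or, List.mem_toFinset] at this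
        exact this.2 hy
    · intro x hx
      have e1 : stV ((σ, h, l) :: L) = (h :: l) ++ stV L := by simp [stV]
      rw [e1, List.mem_append, List.mem_cons] at hx
      rcases hx with (rfl | hx) | hx
      · exact ⟨g1, g2.1⟩
      · obtain ⟨k1, k2, -⟩ := g5 x hx
        rw [mem_union, not_or] at k2
        exact ⟨k1, k2.1⟩
      · exact l4 x hx
    · refine g6.trans ?_
      rw [pow_succ, mul_comm _ (1 - p / 2), mul_assoc]
      exact mul_le_mul_of_nonneg_left l5 (by linarith)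

/-- number of stars which fit `v` -/
noncomputable def cfit {V : Type} (R : V → V → Prop) (L : List (Bool × V × List V)) (v : V) : ℕ :=
  (L.filter (fun p => decide (FitS R p v))).length

theorem nfit_le_cfit {V : Type} {R : V → V → Prop} {L : List (Bool × V × List V)} {σ : Bool} {v : V} :
    nfit R L σ v ≤ cfit R L v := by
  unfold nfit cfit
  rw [← List.countP_eq_length_filter, ← List.countP_eq_length_filter]
  refine List.countP_mono_left ?_
  intro p _ hp
  rw [decide_eq_true_eq] at hp ⊢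
  exact hp.2

/-- **the fitting stars**, `t` of each kind -/
theorem fit_stars_all (b C : ℕ) {c : ℝ} (hc : 0 < c) : ∃ κ : ℝ, 0 < κ ∧ ∃ K n₀ : ℕ, ∀ {V : Type} {R : V → V → Prop},
    AE32.Tour R → ∀ (X A : Finset V), A ⊆ X → n₀ ≤ X.card → c * X.card ≤ (A.card : ℝ) → ∀ t : ℕ,
      K * Real.log X.card ≤ t → (t : ℝ) ≤ κ * X.card → ∃ Si So : List (Bool × V × List V), Si.length = t ∧ So.length = t ∧
        (∀ p ∈ Si, p.1 = true) ∧ (∀ p ∈ So, p.1 = false) ∧
        (∀ p ∈ Si ++ So, p.2.2.length = b + 1 ∧ FitS R p p.2.1) ∧ (stV (Si ++ So)).Nodup ∧ (∀ x ∈ stV (Si ++ So), x ∈ A) ∧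
        ∀ v ∈ X, C ≤ cfit R (Si ++ So) v := by
  obtain ⟨p, μ, h1, h2, h3, n₁, h4⟩ := build b hc
  obtain ⟨K, n₂, h5⟩ := pot_num h1 h2 C
  refine ⟨μ / (2 * (b + 2)), by positivity, K, n₁ + n₂ + ⌈8 / c⌉₊, ?_⟩
  intro V R hT X A hAX hn hcA t ht1 ht2
  have hb0 : (0 : ℝ) ≤ b := Nat.cast_nonneg b
  have htb : 2 * ((t : ℝ) * (b + 2)) ≤ μ * X.card := by
    rw [div_mul_eq_mul_div, le_div_iff₀ (by positivity)] at ht2
    linarith
  obtain ⟨Si, s1, s2, s3, s4, s5⟩ := h4 hT X A hAX (by omega) hcA true ∅ t (by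
    rw [card_empty, Nat.cast_zero, zero_add]
    have : (0 : ℝ) ≤ (t : ℝ) * (b + 2) := by positivity
    linarith)
  have hlen := stV_length (m := b + 1) fun q hq => (s2 q hq).2.1
  obtain ⟨So, o1, o2, o3, o4, o5⟩ := h4 hT X A hAX (by omega) hcA false (stV Si).toFinset t (by
    have e1 : (stV Si).toFinset.card ≤ t * (b + 1 + 1) := by
      refine (List.toFinset_card_le _).trans ?_
      rw [hlen, s1]
    have e2 : ((stV Si).toFinset.card : ℝ) ≤ t * (b + 1 + 1) := by exact_mod_cast e1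
    linarith)
  have hst : stV (Si ++ So) = stV Si ++ stV So := by simp [stV]
  refine ⟨Si, So, s1, o1, fun q hq => (s2 q hq).1, fun q hq => (o2 q hq).1, ?_, ?_, ?_, ?_⟩
  · intro q hq
    rcases List.mem_append.1 hq with hq | hq
    · exact (s2 q hq).2
    · exact (o2 q hq).2
  · rw [hst, List.nodup_append]
    refine ⟨s3, o3, ?_⟩
    intro x hx y hy
    rintro rfl
    exact (o4 x hy).2 (List.mem_toFinset.2 hx)
  · intro x hx
    rw [hst, List.mem_append] at hx
    rcases hx with hx | hx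
    · exact (s4 x hx).1
    · exact (o4 x hx).1
  · intro v hv
    have hA8 : 8 ≤ A.card := by
      have e1 : 8 / c ≤ X.card := (Nat.le_ceil _).trans (by exact_mod_cast (by omega : ⌈8 / c⌉₊ ≤ X.card))
      rw [div_le_iff₀ hc] at e1
      have e2 : (8 : ℝ) ≤ A.card := by linarith
      exact_mod_cast e2
    have hnum := h5 X.card t (by omega) ht1
    have hadd : cfit R (Si ++ So) v = cfit R Si v + cfit R So v := by
      unfold cfit
      rw [List.filter_append, List.length_append]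
    rw [hadd]
    rcases type_cover' hT (Subset.refl A) hA8 v with ht | ht
    · have := nfitA_ge (lt_of_le_of_lt s5 hnum) hv ht
      have := nfit_le_cfit (R := R) (L := Si) (σ := true) (v := v)
      omega
    · have := nfitA_ge (lt_of_le_of_lt o5 hnum) hv ht
      have := nfit_le_cfit (R := R) (L := So) (σ := false) (v := v)
      omega

/-- **the fitting stars**, few of them -/
theorem fit_stars (b C : ℕ) {c : ℝ} (hc : 0 < c) {κ : ℝ} (hκ : 0 < κ) : ∃ n₀ : ℕ, ∀ {V : Type} {R : V → V → Prop},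
    AE32.Tour R → ∀ X A : Finset V, A ⊆ X → n₀ ≤ X.card → c * X.card ≤ (A.card : ℝ) →
      ∃ (No : List (Bool × V × List V)), (No.length : ℝ) ≤ κ * X.card ∧
        (∀ p ∈ No, p.2.2.length = b + 1 ∧ FitS R p p.2.1) ∧ (No.flatMap (fun p => p.2.1 :: p.2.2)).Nodup ∧
        (∀ x ∈ No.flatMap (fun p => p.2.1 :: p.2.2), x ∈ A) ∧
        ∀ v ∈ X, C ≤ (No.filter (fun p => decide (FitS R p v))).length := by
  obtain ⟨κ₀, k0, K, n₀, h⟩ := fit_stars_all b C hc
  obtain ⟨κ', hκ'⟩ : ∃ κ', κ' = min κ₀ (κ / 2) := ⟨_, rfl⟩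
  have k0' : 0 < κ' := by rw [hκ']; exact lt_min k0 (by positivity)
  have k1 : κ' ≤ κ₀ := by rw [hκ']; exact min_le_left _ _
  have k2 : 2 * κ' ≤ κ := by
    have : κ' ≤ κ / 2 := by rw [hκ']; exact min_le_right _ _
    linarith
  have hlog := Real.isLittleO_log_id_atTop.def (c := κ' / (2 * (K + 1))) (by positivity)
  obtain ⟨N, hN⟩ := Filter.eventually_atTop.1 hlog
  refine ⟨n₀ + ⌈N⌉₊ + ⌈2 / κ'⌉₊ + 1, ?_⟩
  intro V R hT X A hAX hn hcA
  have hX1 : (1 : ℝ) ≤ X.card := by exact_mod_cast (by omega : 1 ≤ X.card)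
  have e1 : Real.log X.card ≤ κ' / (2 * (K + 1)) * X.card := by
    have h1 := hN X.card ((Nat.le_ceil _).trans (by exact_mod_cast (by omega : ⌈N⌉₊ ≤ X.card)))
    rw [id, Real.norm_eq_abs, Real.norm_eq_abs, abs_of_nonneg (by linarith : (0 : ℝ) ≤ X.card)] at h1
    exact (le_abs_self _).trans h1
  have hK0 : (0 : ℝ) ≤ K := Nat.cast_nonneg K
  have e2 : (K : ℝ) * Real.log X.card ≤ κ' / 2 * X.card := by
    have h1 : (K : ℝ) * Real.log X.card ≤ K * (κ' / (2 * (K + 1)) * X.card) := mul_le_mul_of_nonneg_left e1 hK0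
    have h2 : (K : ℝ) * (κ' / (2 * (K + 1)) * X.card) ≤ (K + 1) * (κ' / (2 * (K + 1)) * X.card) := by
      refine mul_le_mul_of_nonneg_right (by linarith) (by positivity)
    have h3 : ((K : ℝ) + 1) * (κ' / (2 * (K + 1)) * X.card) = κ' / 2 * X.card := by
      field_simp
    linarith
  have e3 : 1 ≤ κ' / 2 * X.card := by
    have h1 : 2 / κ' ≤ X.card := (Nat.le_ceil _).trans (by exact_mod_cast (by omega : ⌈2 / κ'⌉₊ ≤ X.card))
    rw [div_le_iff₀ k0'] at h1
    linarith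
  have hl0 : 0 ≤ (K : ℝ) * Real.log X.card := mul_nonneg hK0 (Real.log_nonneg hX1)
  have e4 := Nat.le_ceil ((K : ℝ) * Real.log X.card)
  have e5 : (⌈(K : ℝ) * Real.log X.card⌉₊ : ℝ) ≤ κ' * X.card := by
    have := (Nat.ceil_lt_add_one hl0).le
    linarith
  have e6 : κ' * X.card ≤ κ₀ * X.card := mul_le_mul_of_nonneg_right k1 (by linarith)
  obtain ⟨Si, So, s1, s2, -, -, s3, s4, s5, s6⟩ := h hT X A hAX (by omega) hcA _ e4 (e5.trans e6)
  have hst : (Si ++ So).flatMap (fun p => p.2.1 :: p.2.2) = stV (Si ++ So) := by rw [stV, List.flatMap_def]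
  refine ⟨Si ++ So, ?_, s3, by rw [hst]; exact s4, by rw [hst]; exact s5, fun v hv => ?_⟩
  · rw [List.length_append, s1, s2]
    push_cast
    have : 2 * κ' * X.card ≤ κ * X.card := mul_le_mul_of_nonneg_right k2 (by linarith)
    linarith
  · exact s6 v hv

/-! ### Special stars -/

private theorem exists_out {V : Type} {R : V → V → Prop} (hT : AE32.Tour R) {B : Finset V} (hB : B.Nonempty) :
    ∃ x ∈ B, B.card ≤ 2 * (nO R B x).card + 1 := by
  by_contra hcon
  push Not at hcon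
  have h1 := two_mul_sum_nO hT B
  have h2 : ∑ x ∈ B, (2 * (nO R B x).card) < ∑ x ∈ B, (B.card - 1) :=
    sum_lt_sum_of_nonempty hB fun x hx => by
      have := hcon x hx
      omega
  rw [← mul_sum, sum_const, smul_eq_mul] at h2
  omega

private theorem long {V : Type} {R : V → V → Prop} (hT : AE32.Tour R) (m : ℕ) : ∀ Y : Finset V, 2 ^ m ≤ Y.card →
    ∃ (l : List V) (B : Finset V), l.length = m ∧ l.Nodup ∧ (∀ x ∈ l, x ∈ Y) ∧ B ⊆ Y ∧ Y.card + 1 ≤ 2 ^ m * (B.card + 1) ∧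
      ∀ x ∈ l, ∀ h ∈ B, R x h := by
  induction m with
  | zero =>
    intro Y _
    exact ⟨[], Y, rfl, List.nodup_nil, by simp, Subset.refl _, by simp, by simp⟩
  | succ m ih =>
    intro Y hY
    have hp : 1 ≤ 2 ^ m := Nat.one_le_two_pow
    rw [pow_succ] at hY
    obtain ⟨l, B, l1, l2, l3, l4, l5, l6⟩ := ih Y (by omega)
    have hB : B.Nonempty := by
      rw [← card_pos]
      by_contra hcon
      have h0 : B.card = 0 := by omega
      rw [h0, zero_add, mul_one] at l5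
      omega
    obtain ⟨x, hx, hx'⟩ := exists_out hT hB
    refine ⟨x :: l, nO R B x, by rw [List.length_cons, l1], List.nodup_cons.2 ⟨fun hxl => hT.irr x (l6 x hxl x hx), l2⟩,
      ?_, (filter_subset _ _).trans l4, ?_, ?_⟩
    · intro y hy
      rcases List.mem_cons.1 hy with rfl | hy
      · exact l4 hx
      · exact l3 y hy
    · refine l5.trans ?_
      rw [pow_succ, mul_assoc]
      exact Nat.mul_le_mul_left _ (by omega)
    · intro y hy h hh
      rw [mem_nO] at hh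
      rcases List.mem_cons.1 hy with rfl | hy
      · exact hh.2
      · exact l6 y hy h hh.1

private theorem chunks {V : Type} (m C : ℕ) : ∀ l : List V, l.length = C * m → ∃ Sp : List (List V), Sp.length = C ∧
    (∀ xs ∈ Sp, xs.length = m) ∧ Sp.flatten = l := by
  induction C with
  | zero =>
    intro l hl
    rw [zero_mul, List.length_eq_zero_iff] at hl
    exact ⟨[], rfl, by simp, by rw [hl]; rfl⟩
  | succ C ih =>
    intro l hl
    have hl' : l.length = C * m + m := by rw [hl]; ring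
    obtain ⟨Sp, s1, s2, s3⟩ := ih (l.drop m) (by rw [List.length_drop]; omega)
    refine ⟨l.take m :: Sp, by rw [List.length_cons, s1], ?_, ?_⟩
    · intro xs hxs
      rcases List.mem_cons.1 hxs with rfl | hxs
      · rw [List.length_take]
        omega
      · exact s2 xs hxs
    · rw [List.flatten_cons, s3, List.take_append_drop]

/-- **the special stars** -/
theorem sp_stars_all {V : Type} {R : V → V → Prop} (hT : AE32.Tour R) (m C : ℕ) (Y : Finset V) (hY : 2 ^ (C * m) ≤ Y.card) :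
    ∃ (Sp : List (List V)) (B : Finset V), Sp.length = C ∧ (∀ xs ∈ Sp, xs.length = m) ∧ Sp.flatten.Nodup ∧
      (∀ x ∈ Sp.flatten, x ∈ Y ∧ x ∉ B) ∧ B ⊆ Y ∧ Y.card ≤ 2 ^ (C * m + 1) * B.card ∧
      ∀ xs ∈ Sp, ∀ x ∈ xs, ∀ h ∈ B, R x h := by
  obtain ⟨l, B, l1, l2, l3, l4, l5, l6⟩ := long hT (C * m) Y hY
  obtain ⟨Sp, s1, s2, s3⟩ := chunks m C l l1
  refine ⟨Sp, B, s1, s2, by rw [s3]; exact l2, ?_, l4, ?_, ?_⟩
  · rw [s3]
    exact fun x hx => ⟨l3 x hx, fun hxB => hT.irr x (l6 x hx x hxB)⟩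
  · have hp : 1 ≤ 2 ^ (C * m) := Nat.one_le_two_pow
    have hB : 1 ≤ B.card := by
      by_contra hcon
      have h0 : B.card = 0 := by omega
      rw [h0, zero_add, mul_one] at l5
      omega
    calc Y.card ≤ 2 ^ (C * m) * (B.card + 1) := by omega
      _ ≤ 2 ^ (C * m) * (2 * B.card) := Nat.mul_le_mul_left _ (by omega)
      _ = 2 ^ (C * m + 1) * B.card := by rw [pow_succ]; ring
  · intro xs hxs x hx h hh
    exact l6 x (by rw [← s3]; exact List.mem_flatten.2 ⟨xs, hxs, hx⟩) h hh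

theorem sp_stars (b C : ℕ) : ∃ n₀ : ℕ, ∀ {V : Type} {R : V → V → Prop}, AE32.Tour R → ∀ Y : Finset V, n₀ ≤ Y.card →
    ∃ (Sp : List (List V)) (B : Finset V), Sp.length = C ∧ (∀ xs ∈ Sp, xs.length = b + 1) ∧ Sp.flatten.Nodup ∧
      (∀ x ∈ Sp.flatten, x ∈ Y ∧ x ∉ B) ∧ B ⊆ Y ∧ Y.card ≤ 2 ^ (C * (b + 1) + 1) * B.card ∧
      ∀ xs ∈ Sp, ∀ x ∈ xs, ∀ h ∈ B, R x h :=
  ⟨2 ^ (C * (b + 1)), fun hT Y hY => sp_stars_all hT (b + 1) C Y hY⟩

/-! ### The exchange -/

theorem cen_list {V : Type} {R : V → V → Prop} (L : List (Bool × List V)) : ∀ {S : Finset V}, Cen R L S →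
    ∃ zs : List V, zs.Nodup ∧ zs.toFinset = S ∧ List.Forall₂ (fun p z => ∀ x ∈ p.2, Adj R p.1 x z) L zs := by
  induction L with
  | nil =>
    intro S h
    exact ⟨[], List.nodup_nil, by rw [List.toFinset_nil]; exact h.symm, List.Forall₂.nil⟩
  | cons p L ih =>
    intro S h
    obtain ⟨v, A, h1, h2, h3, h4⟩ := h
    obtain ⟨zs, z1, z2, z3⟩ := ih h4
    refine ⟨v :: zs, List.nodup_cons.2 ⟨?_, z1⟩, by rw [List.toFinset_cons, z2, h2], List.Forall₂.cons h3 z3⟩
    rw [← List.mem_toFinset, z2]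
    exact h1

/-- **the exchange of the centres** -/
theorem swap {V : Type} {R : V → V → Prop} (Sp : List (List V)) (No : List (Bool × V × List V)) (Lv : Finset V)
    (hc : Lv.card = Sp.length) (hnd : (No.map (fun p => p.2.1)).Nodup) (h1 : ∀ p ∈ No, FitS R p p.2.1)
    (h2 : ∀ p ∈ No, ∀ xs ∈ Sp, ∀ x ∈ xs, R x p.2.1) (h3 : ∀ p ∈ No, p.2.1 ∉ Lv) (h4 : ∀ v ∈ Lv, Sp.length ≤ cfit R No v) :
    ∃ zs : List V, zs.Nodup ∧ zs.toFinset = Lv ∪ (No.map (fun p => p.2.1)).toFinset ∧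
      List.Forall₂ (fun (p : Bool × List V) z => ∀ x ∈ p.2, Adj R p.1 x z)
        (Sp.map (fun xs => (true, xs)) ++ No.map (fun p => (p.1, p.2.2))) zs :=
  cen_list _ (cen_swap Sp No Lv hc hnd h1 (fun p hp xs hxs x hx => by simpa [Adj] using h2 p hp xs hxs x hx) h3 h4)

end AEW
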