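import Pool.Agent.AEW.XDefs
import Pool.Agent.AEW.Main
import Pool.Agent.AEW.XPl
import Pool.Agent.AEW.XGad
import Pool.Agent.AEW.XStar

/-!
# The absorption theorem without additional vertices

`C = 1024 m` special gadgets are placed without their centres, `t` further gadgets with their centres `h_j`. The other
pieces are placed as before; `C` vertices remain. Each of them becomes the centre of one of the `t` gadgets, the former
centres of which become centres of the special gadgets.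
-/

namespace AEW

open Finset AE15 AED AELT AEV
open scoped Classical

theorem pick {α : Type*} (p : α → Bool) (l : List α) (G : ℕ) (h : G ≤ (l.filter p).length) :
    ∃ l1 l2 : List α, l.Perm (l1 ++ l2) ∧ l1.length = G ∧ ∀ a ∈ l1, p a = true := by
  refine ⟨(l.filter p).take G, (l.filter p).drop G ++ l.filter (fun a => !p a), ?_, ?_, ?_⟩
  · rw [← List.append_assoc, List.take_append_drop]
    exact (List.filter_append_perm p l).symm
  · rw [List.length_take]
    omega
  · intro a ha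
    exact (List.mem_filter.1 (List.mem_of_mem_take ha)).2

theorem sum_sz_le {V : Type} {m : ℕ} (l : List (Pd V)) (h : ∀ p ∈ l, p.sz ≤ m) : (l.map Pd.sz).sum ≤ l.length * m := by
  induction l with
  | nil => simp
  | cons p l ih =>
    rw [List.map_cons, List.sum_cons, List.length_cons, Nat.succ_mul]
    have h1 := h p List.mem_cons_self
    have h2 := ih fun q hq => h q (List.mem_cons_of_mem _ hq)
    omega

theorem Pd.Ok.sz_le {V : Type} {ε : ℝ} {m : ℕ} {p : Pd V} (h : p.Ok ε m) : p.sz ≤ m := by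
  cases p with
  | one w d q => exact h.2
  | two w d M d' w' => exact h.2

theorem flat_len {α : Type*} {k : ℕ} (l : List (List α)) (h : ∀ x ∈ l, x.length = k) : l.flatten.length = l.length * k := by
  induction l with
  | nil => simp
  | cons a l ih =>
    rw [List.flatten_cons, List.length_append, h a List.mem_cons_self, ih fun q hq => h q (List.mem_cons_of_mem _ hq),
      List.length_cons]
    ring

theorem flatMap_len {α β : Type*} {k : ℕ} (f : α → List β) (l : List α) (h : ∀ x ∈ l, (f x).length = k) :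
    (l.flatMap f).length = l.length * k := by
  induction l with
  | nil => simp
  | cons a l ih =>
    rw [List.flatMap_cons, List.length_append, h a List.mem_cons_self, ih fun q hq => h q (List.mem_cons_of_mem _ hq),
      List.length_cons]
    ring

theorem zip_flat {α β γ : Type*} (l1 : List α) (l2 : List (β × List γ)) (h : l1.length = l2.length) :
    (l1.zip l2).flatMap (fun g => g.2.2) = l2.flatMap (fun q => q.2) := by
  have h1 : ((l1.zip l2).map Prod.snd) = l2 := List.map_snd_zip (by omega)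
  conv_rhs => rw [← h1]
  rw [List.flatMap_map]

theorem leaf_sub {α β : Type*} (No : List (β × α × List α)) : (No.flatMap (fun p => p.2.2)).Sublist (No.flatMap (fun p => p.2.1 :: p.2.2)) := by
  induction No with
  | nil => exact List.Sublist.slnil
  | cons p No ih =>
    rw [List.flatMap_cons, List.flatMap_cons]
    exact List.Sublist.append (List.sublist_cons_self _ _) ih

theorem cen_sub {α β : Type*} (No : List (β × α × List α)) : (No.map (fun p => p.2.1)).Sublist (No.flatMap (fun p => p.2.1 :: p.2.2)) := by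
  induction No with
  | nil => exact List.Sublist.slnil
  | cons p No ih =>
    rw [List.map_cons, List.flatMap_cons, List.cons_append]
    exact (ih.trans (List.sublist_append_right _ _)).cons_cons _

theorem cen_leaf {α β : Type*} (No : List (β × α × List α)) (h : (No.flatMap (fun p => p.2.1 :: p.2.2)).Nodup) :
    ∀ y ∈ No.map (fun p => p.2.1), y ∉ No.flatMap (fun p => p.2.2) := by
  induction No with
  | nil => intro y hy; simp at hy
  | cons p No ih =>
    rw [List.flatMap_cons, List.nodup_append] at h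
    obtain ⟨h1, h2, h3⟩ := h
    rw [List.nodup_cons] at h1
    intro y hy hy'
    rw [List.map_cons, List.mem_cons] at hy
    rw [List.flatMap_cons, List.mem_append] at hy'
    rcases hy with rfl | hy
    · rcases hy' with hy' | hy'
      · exact h1.1 hy'
      · exact h3 _ List.mem_cons_self _ ((leaf_sub No).subset hy') rfl
    · rcases hy' with hy' | hy'
      · exact h3 _ (List.mem_cons_of_mem _ hy') _ ((cen_sub No).subset hy) rfl
      · exact ih h2 y hy hy'

/-- the assembly -/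
theorem exact_aux {V : Type} {R : V → V → Prop} (hT : AE32.Tour R) {b m G C : ℕ} {ε : ℝ} (hε : 0 < ε) (hε1 : ε ≤ 1 / 64)
    (hC : C = 1024 * m) {D : Dk} (hl : D.un.len ≤ b) (hdeg : D.un.Deg b) (hOk : D.Ok ε m) {X S Y B : Finset V}
    (hX : X.card = D.un.size + 1) (hSX : S ⊆ X) (hYX : Y ⊆ X) (hSY : Disjoint S Y) {β Cβ : ℝ} (hβ : 0 ≤ β) (hCβ : 0 ≤ Cβ)
    (hUn : Un R b (1 + β) Cβ) {Sp : List (List V)} {No : List (Bool × V × List V)} (hSp1 : Sp.length = C)
    (hSp2 : ∀ xs ∈ Sp, xs.length = b + 1) (hSp3 : Sp.flatten.Nodup) (hSp4 : ∀ x ∈ Sp.flatten, x ∈ Y ∧ x ∉ B) (hBY : B ⊆ Y)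
    (hSp5 : ∀ xs ∈ Sp, ∀ x ∈ xs, ∀ h ∈ B, R x h) (hNo1 : ∀ p ∈ No, p.2.2.length = b + 1 ∧ FitS R p p.2.1)
    (hNo2 : (No.flatMap (fun p => p.2.1 :: p.2.2)).Nodup) (hNo3 : ∀ x ∈ No.flatMap (fun p => p.2.1 :: p.2.2), x ∈ B)
    (hNo4 : ∀ v ∈ X, C ≤ (No.filter (fun p => decide (FitS R p v))).length) (hG : G = C + No.length)
    (hact : G ≤ D.act ε b) (hY : (D.csz : ℝ) + 1 + β * (D.un.size + 1) + Cβ + G * (b + 2) ≤ Y.card)
    (hnb : ∀ y ∈ Y, ∀ d, 64 * ε * D.psz + (2 * G + 4096) * m ≤ ((nb R d S y).card : ℝ)) : In R D.un (fun _ => True) X := by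
  have hsz := D.size_un
  -- the vertices of the stars
  obtain ⟨W, hW⟩ : ∃ W : Finset V, W = (Sp.flatten ++ No.flatMap (fun p => p.2.1 :: p.2.2)).toFinset := ⟨_, rfl⟩
  have hWc : W.card ≤ G * (b + 2) := by
    rw [hW]
    refine (List.toFinset_card_le _).trans ?_
    rw [List.length_append, flat_len Sp hSp2, flatMap_len (k := b + 2) _ No (fun p hp => by
      rw [List.length_cons, (hNo1 p hp).1]), hSp1, hG]
    nlinarith
  have hWY : W ⊆ Y := by
    intro x hx
    rw [hW, List.mem_toFinset, List.mem_append] at hx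
    rcases hx with hx | hx
    · exact (hSp4 x hx).1
    · exact hBY (hNo3 x hx)
  -- the core
  obtain ⟨x, hxY, A, hAY, ps, hxA, hE⟩ := core_emb (β := β) (Cβ := Cβ) hβ hCβ hUn D hl hdeg (Y := Y \ W) (by
    have h1 : ((Y \ W).card : ℝ) = Y.card - W.card := by
      rw [card_sdiff_of_subset hWY, Nat.cast_sub (card_le_card hWY)]
    have h2 : (W.card : ℝ) ≤ G * (b + 2) := by exact_mod_cast hWc
    rw [h1]
    linarith)
  have hxAY : insert x A ⊆ Y \ W := insert_subset hxY hAY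
  have hcardA := hE.card
  have hsum := hE.sum
  have hok := hE.ok hOk
  -- the gadgets
  have hgl : G ≤ (ps.filter (fun p => decide (p.Gad b))).length := hact.trans hE.gad
  obtain ⟨gs0, rs, hperm, hlen, hgad⟩ := pick _ ps G hgl
  obtain ⟨sl, hsl⟩ : ∃ sl : List (Bool × List V), sl = Sp.map (fun xs => (true, xs)) ++ No.map (fun p => (p.1, p.2.2)) :=
    ⟨_, rfl⟩
  have hsll : sl.length = G := by
    rw [hsl, List.length_append, List.length_map, List.length_map, hSp1, hG]
  have hslf : sl.flatMap (fun q => q.2) = Sp.flatten ++ No.flatMap (fun p => p.2.2) := by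
    rw [hsl, List.flatMap_append, List.flatMap_map, List.flatMap_map, List.flatten_eq_flatMap]
    rfl
  obtain ⟨gs, hgs⟩ : ∃ gs : List (Pd V × Bool × List V), gs = gs0.zip sl := ⟨_, rfl⟩
  have hgs1 : gs.map (fun g => g.1) = gs0 := by rw [hgs]; exact List.map_fst_zip (by omega)
  have hgs2 : gs.map (fun g => (g.2.1, g.2.2)) = sl := by rw [hgs]; exact List.map_snd_zip (by omega)
  have hgsl : gs.length = G := by rw [hgs, List.length_zip]; omega
  have hgsf : gs.flatMap (fun g => g.2.2) = Sp.flatten ++ No.flatMap (fun p => p.2.2) := by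
    rw [hgs, zip_flat gs0 sl (by omega), hslf]
  have hmemg : ∀ g ∈ gs, g.1 ∈ gs0 ∧ (g.2.1, g.2.2) ∈ sl := by
    intro g hg
    rw [hgs] at hg
    exact List.of_mem_zip hg
  have hsub := leaf_sub No
  have hnd : (gs.flatMap (fun g => g.2.2)).Nodup := by
    rw [hgsf, List.nodup_append]
    refine ⟨hSp3, hsub.nodup hNo2, fun a ha c hc hac => ?_⟩
    subst hac
    exact (hSp4 a ha).2 (hNo3 a (hsub.subset hc))
  have hleafW : ∀ y ∈ gs.flatMap (fun g => g.2.2), y ∈ W := by
    intro y hy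
    rw [hgsf, List.mem_append] at hy
    rw [hW, List.mem_toFinset, List.mem_append]
    exact hy.imp_right fun h => hsub.subset h
  have hleaf : ∀ g ∈ gs, ∀ y ∈ g.2.2, y ∈ W := fun g hg y hy =>
    hleafW y (List.mem_flatMap.2 ⟨g, hg, hy⟩)
  have hpsY : ∀ p ∈ ps, ∀ w ∈ p.hosts, w ∈ Y := fun p hp w hw => (mem_sdiff.1 (hxAY (hE.hosts p hp hw))).1
  have hmem0 : ∀ p ∈ gs0, p ∈ ps := fun p hp => hperm.mem_iff.2 (List.mem_append_left _ hp)
  have hmemr : ∀ p ∈ rs, p ∈ ps := fun p hp => hperm.mem_iff.2 (List.mem_append_right _ hp)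
  have hε0 : 0 ≤ 64 * ε * (D.psz : ℝ) := by positivity
  obtain ⟨Bg, hBg1, hBg2, hBg3⟩ := gads_place (b := b) (m := m) hT gs (fun g hg => by
      refine ⟨?_, (hok _ (hmem0 _ (hmemg g hg).1)).sz_le, ?_⟩
      · have := hgad _ (hmemg g hg).1
        rwa [decide_eq_true_eq] at this
      · have h2 := (hmemg g hg).2
        rw [hsl, List.mem_append, List.mem_map, List.mem_map] at h2
        rcases h2 with ⟨xs, h3, h4⟩ | ⟨p, h3, h4⟩
        · have h5 : g.2.2 = xs := (congrArg Prod.snd h4).symm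
          rw [h5]
          exact hSp2 xs h3
        · have h5 : g.2.2 = p.2.2 := (congrArg Prod.snd h4).symm
          rw [h5]
          exact (hNo1 p h3).1) hnd (S := S)
    (fun g hg y hy hyS => disjoint_left.1 hSY hyS (hWY (hleaf g hg y hy)))
    (fun g hg y hy d => by
      have hyY : y ∈ Y := hy.elim (fun h => hpsY _ (hmem0 _ (hmemg g hg).1) y h) (fun h => hWY (hleaf g hg y h))
      have h1 := hnb y hyY d
      have h2 : ((G * m + 4096 * m : ℕ) : ℝ) ≤ ((nb R d S y).card : ℝ) := by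
        push_cast
        have : (0 : ℝ) ≤ (G : ℝ) * m := by positivity
        linarith
      rw [hgsl]
      exact_mod_cast h2)
  have hgsz : (gs.map (fun g => g.1.sz)).sum = (gs0.map Pd.sz).sum := by
    rw [← hgs1, List.map_map]
    rfl
  rw [hgsl, hgsz] at hBg2
  rw [hgs1, hgs2] at hBg3
  have hgsm : (gs0.map Pd.sz).sum ≤ G * m := by
    rw [← hlen]
    exact sum_sz_le gs0 fun p hp => (hok p (hmem0 p hp)).sz_le
  have hsums : (gs0.map Pd.sz).sum + (rs.map Pd.sz).sum = D.psz := by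
    rw [← hsum, (hperm.map Pd.sz).sum_eq, List.map_append, List.sum_append]
  -- the centres
  obtain ⟨Hs, hHs⟩ : ∃ Hs : Finset V, Hs = (No.map (fun p => p.2.1)).toFinset := ⟨_, rfl⟩
  have hsubc := cen_sub No
  have hHnd : (No.map (fun p => p.2.1)).Nodup := hsubc.nodup hNo2
  have hHc : Hs.card = No.length := by
    rw [hHs, List.toFinset_card_of_nodup hHnd, List.length_map]
  have hHW : ∀ h ∈ Hs, h ∈ B ∧ h ∈ W := by
    intro h hh
    rw [hHs, List.mem_toFinset] at hh
    refine ⟨hNo3 h (hsubc.subset hh), ?_⟩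
    rw [hW, List.mem_toFinset, List.mem_append]
    exact Or.inr (hsubc.subset hh)
  have hHleaf : ∀ h ∈ Hs, h ∉ (gs.flatMap (fun g => g.2.2)) := by
    intro h hh hcon
    rw [hgsf, List.mem_append] at hcon
    rcases hcon with hcon | hcon
    · exact (hSp4 h hcon).2 (hHW h hh).1
    · rw [hHs, List.mem_toFinset] at hh
      exact cen_leaf No hNo2 h hh hcon
  have hBgX : Bg ⊆ X := by
    refine hBg1.trans (union_subset hSX fun y hy => ?_)
    rw [List.mem_toFinset] at hy
    exact hYX (hWY (hleafW y hy))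
  have hBgH : Disjoint Bg Hs := by
    rw [disjoint_left]
    intro y hy hyH
    rcases mem_union.1 (hBg1 hy) with h | h
    · exact disjoint_left.1 hSY h (hWY (hHW y hyH).2)
    · exact hHleaf y hyH (List.mem_toFinset.1 h)
  have hAB : Disjoint (insert x A) (Bg ∪ Hs) := by
    rw [disjoint_left]
    intro y hy hy'
    obtain ⟨h1, h2⟩ := mem_sdiff.1 (hxAY hy)
    rcases mem_union.1 hy' with h | h
    · rcases mem_union.1 (hBg1 h) with h3 | h3
      · exact disjoint_left.1 hSY h3 h1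
      · exact h2 (hleafW y (List.mem_toFinset.1 h3))
    · exact h2 (hHW y h).2
  have hUsed : insert x A ∪ (Bg ∪ Hs) ⊆ X := union_subset ((hxAY.trans sdiff_subset).trans hYX)
    (union_subset hBgX fun y hy => hYX (hWY (hHW y hy).2))
  obtain ⟨U, hU⟩ : ∃ U : Finset V, U = X \ (insert x A ∪ (Bg ∪ Hs)) := ⟨_, rfl⟩
  have hUc : U.card = (rs.map Pd.sz).sum + C := by
    rw [hU, card_sdiff_of_subset hUsed, card_union_of_disjoint hAB, card_union_of_disjoint hBgH,
      card_insert_of_notMem hxA, hcardA, hHc, hX]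
    omega
  have hSU : S \ Bg ⊆ U := by
    intro y hy
    obtain ⟨h1, h2⟩ := mem_sdiff.1 hy
    rw [hU, mem_sdiff, mem_union, mem_union]
    refine ⟨hSX h1, ?_⟩
    rintro (h | h | h)
    · exact disjoint_left.1 hSY h1 (mem_sdiff.1 (hxAY h)).1
    · exact h2 h
    · exact disjoint_left.1 hSY h1 (hWY (hHW y h).2)
  -- the other pieces
  obtain ⟨Q, hQU, hQ⟩ := absorb_list hT hε hε1 (m := m) (C := C) hC.ge rs (fun p hp => hok p (hmemr p hp)) hSU hUc.ge (by
    intro p hp w hw d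
    have h1 := hnb w (hpsY p (hmemr p hp) w hw) d
    have h2 : (nb R d S w).card ≤ (nb R d (S \ Bg) w).card + Bg.card := by
      refine (card_le_card ?_).trans (card_union_le _ _)
      intro y hy
      rw [mem_nb] at hy
      rw [mem_union, mem_nb, mem_sdiff]
      by_cases h : y ∈ Bg
      · exact Or.inr h
      · exact Or.inl ⟨⟨hy.1, h⟩, hy.2⟩
    have h2' : ((nb R d S w).card : ℝ) ≤ (nb R d (S \ Bg) w).card + Bg.card := by exact_mod_cast h2
    have h3 : (Bg.card : ℝ) ≤ G * m := by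
      have : Bg.card ≤ G * m := by omega
      exact_mod_cast this
    have h4 : ((rs.map Pd.sz).sum : ℝ) ≤ D.psz := by
      have : (rs.map Pd.sz).sum ≤ D.psz := by omega
      exact_mod_cast this
    have h5 : 64 * ε * ((rs.map Pd.sz).sum : ℕ) ≤ 64 * ε * (D.psz : ℝ) := mul_le_mul_of_nonneg_left h4 (by positivity)
    have h6 : (0 : ℝ) ≤ (G : ℝ) * m := by positivity
    have h7 : (0 : ℝ) ≤ (4096 : ℝ) * m := by positivity
    linarith)
  have hQc := hQ.card
  obtain ⟨Lv, hLv⟩ : ∃ Lv : Finset V, Lv = U \ Q := ⟨_, rfl⟩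
  have hLvc : Lv.card = Sp.length := by
    rw [hLv, card_sdiff_of_subset hQU, hUc, hQc, hSp1]
    omega
  have hLU : Lv ⊆ U := by rw [hLv]; exact sdiff_subset
  have hUX : U ⊆ X := by rw [hU]; exact sdiff_subset
  have hUn' : ∀ y ∈ U, y ∉ insert x A ∧ y ∉ Bg ∧ y ∉ Hs := by
    intro y hy
    rw [hU, mem_sdiff, mem_union, mem_union] at hy
    tauto
  -- the exchange
  have hcen := cen_swap (R := R) Sp No Lv hLvc hHnd (fun p hp => (hNo1 p hp).2)
    (fun p hp xs hxs y hy => by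
      have h1 : p.2.1 ∈ B := (hHW p.2.1 (by rw [hHs, List.mem_toFinset]; exact List.mem_map.2 ⟨p, hp, rfl⟩)).1
      simpa [Adj] using hSp5 xs hxs y hy _ h1)
    (fun p hp h => (hUn' _ (hLU h)).2.2 (by rw [hHs, List.mem_toFinset]; exact List.mem_map.2 ⟨p, hp, rfl⟩))
    (fun v hv => by rw [hSp1]; exact hNo4 v (hUX (hLU hv)))
  rw [← hsl, ← hHs] at hcen
  have hBZ : Disjoint Bg (Lv ∪ Hs) := by
    rw [disjoint_union_right]
    exact ⟨disjoint_left.2 fun y hy hyL => (hUn' y (hLU hyL)).2.1 hy, hBgH⟩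
  have hP1 := hBg3 _ hcen hBZ
  have hQd1 : Disjoint (Bg ∪ (Lv ∪ Hs)) Q := by
    rw [disjoint_left]
    intro y hy hyQ
    rw [mem_union, mem_union] at hy
    rcases hy with h | h | h
    · exact (hUn' y (hQU hyQ)).2.1 h
    · rw [hLv] at h
      exact (mem_sdiff.1 h).2 hyQ
    · exact (hUn' y (hQU hyQ)).2.2 h
  have hP := Pl.perm hperm.symm (Pl.append hP1 hQ hQd1)
  have hPd : Disjoint (Bg ∪ (Lv ∪ Hs) ∪ Q) (insert x A) := by
    rw [disjoint_left]
    intro y hy hyA
    rw [mem_union, mem_union, mem_union] at hy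
    rcases hy with (h | h | h) | h
    · exact disjoint_left.1 hAB hyA (mem_union_left _ h)
    · exact (hUn' y (hLU h)).1 hyA
    · exact disjoint_left.1 hAB hyA (mem_union_right _ h)
    · exact (hUn' y (hQU h)).1 hyA
  have hPX : Bg ∪ (Lv ∪ Hs) ∪ Q ⊆ X := by
    refine union_subset (union_subset hBgX (union_subset (hLU.trans hUX) fun y hy => ?_)) (hQU.trans hUX)
    exact hYX (hWY (hHW y hy).2)
  refine ⟨x, hYX (mem_sdiff.1 hxY).1, A ∪ (Bg ∪ (Lv ∪ Hs) ∪ Q), ?_, ?_, trivial, hE.done hxA hP hPd⟩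
  · exact union_subset ((hAY.trans sdiff_subset).trans hYX) hPX
  · rw [mem_union, not_or]
    exact ⟨hxA, fun h => disjoint_left.1 hPd h (mem_insert_self _ _)⟩

/-- **the absorption theorem without additional vertices** -/
theorem absorbX (b : ℕ) (hb : 1 ≤ b) : AbsorbXSt b := by
  intro θ hθ
  obtain ⟨t, ht⟩ : ∃ t : ℝ, t = min θ 1 := ⟨_, rfl⟩
  have ht0 : 0 < t := by rw [ht]; exact lt_min hθ one_pos
  have ht1 : t ≤ 1 := by rw [ht]; exact min_le_right _ _
  have htθ : t ≤ θ := by rw [ht]; exact min_le_left _ _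
  refine ⟨t / 2 ^ 19, by positivity, fun m δ hδ => ?_⟩
  obtain ⟨C, hC⟩ : ∃ C : ℕ, C = 1024 * m := ⟨_, rfl⟩
  obtain ⟨Cβ, hCβ, hUn⟩ := AEK.un_one b hb (show (0 : ℝ) < t / 4 by positivity)
  obtain ⟨nP, hpool⟩ := pool (η := t / 64) (by positivity) (by linarith)
  obtain ⟨nS, hsp⟩ := sp_stars b C
  obtain ⟨e, he⟩ : ∃ e : ℕ, e = C * (b + 1) + 1 := ⟨_, rfl⟩
  obtain ⟨κ, hκ⟩ : ∃ κ : ℝ, κ = min (δ / 4) (t ^ 2 / (2 ^ 18 * (m + b + 2))) := ⟨_, rfl⟩
  have hκ0 : 0 < κ := by
    rw [hκ]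
    exact lt_min (by positivity) (by positivity)
  have hκ1 : κ ≤ δ / 4 := by rw [hκ]; exact min_le_left _ _
  have hκ2 : κ ≤ t ^ 2 / (2 ^ 18 * (m + b + 2)) := by rw [hκ]; exact min_le_right _ _
  obtain ⟨nF, hfit⟩ := fit_stars b C (c := 1 / 2 ^ (e + 1)) (by positivity) hκ0
  obtain ⟨n₁, hn₁⟩ := exists_nat_ge ((4 * Cβ + 4) / t + 2 * C / δ + 2 ^ 18 * (C * (m + b + 2) + 4096 * m) / t ^ 2 + 1)
  obtain ⟨N, hN⟩ : ∃ N : ℕ, N = max (max nP (2 * nS)) (max nF n₁) := ⟨_, rfl⟩
  refine ⟨N, ?_⟩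
  intro D hl hdeg hOk hΦ hact hn V R hT X0 hX0
  have hsz := D.size_un
  obtain ⟨X, hXX0, hX⟩ := exists_subset_card_eq (s := X0) (n := D.un.size + 1) (by omega)
  obtain ⟨n, hnn⟩ : ∃ n : ℝ, n = (D.un.size : ℝ) + 1 := ⟨_, rfl⟩
  have hXr : (X.card : ℝ) = n := by
    rw [hX, hnn]; push_cast; ring
  have hN1 : nP ≤ X.card := by rw [hX]; have := le_max_left nP (2 * nS); have := le_max_left (max nP (2 * nS)) (max nF n₁); omega
  have hN2 : 2 * nS ≤ X.card := by rw [hX]; have := le_max_right nP (2 * nS); have := le_max_left (max nP (2 * nS)) (max nF n₁); omega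
  have hN3 : nF ≤ X.card := by rw [hX]; have := le_max_left nF n₁; have := le_max_right (max nP (2 * nS)) (max nF n₁); omega
  have hN4 : n₁ ≤ X.card := by rw [hX]; have := le_max_right nF n₁; have := le_max_right (max nP (2 * nS)) (max nF n₁); omega
  have hN4r : (n₁ : ℝ) ≤ n := by rw [← hXr]; exact_mod_cast hN4
  have hn0 : 0 < n := by rw [hnn]; positivity
  have hp1 : 0 ≤ (4 * Cβ + 4) / t := by positivity
  have hp2 : 0 ≤ 2 * (C : ℝ) / δ := by positivity
  have hp3 : 0 ≤ 2 ^ 18 * ((C : ℝ) * (m + b + 2) + 4096 * m) / t ^ 2 := by positivity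
  have c1 : 4 * Cβ + 4 ≤ t * n := by
    have h1 : (4 * Cβ + 4) / t ≤ n := by linarith
    rwa [div_le_iff₀' ht0] at h1
  have c2 : 2 * C ≤ δ * n := by
    have h1 : 2 * C / δ ≤ n := by linarith
    rwa [div_le_iff₀' hδ] at h1
  have c3 : 2 ^ 18 * ((C : ℝ) * (m + b + 2) + 4096 * m) ≤ t ^ 2 * n := by
    have h1 : 2 ^ 18 * ((C : ℝ) * (m + b + 2) + 4096 * m) / t ^ 2 ≤ n := by linarith
    rwa [div_le_iff₀' (by positivity)] at h1
  have hszr : (D.un.size : ℝ) = D.csz + D.psz := by exact_mod_cast hsz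
  have hcszr : (0 : ℝ) ≤ D.csz := Nat.cast_nonneg _
  rw [← hnn] at hΦ hact
  have hΦt : t * n ≤ D.psz := (mul_le_mul_of_nonneg_right htθ hn0.le).trans hΦ
  have hΦn : (D.psz : ℝ) ≤ n := by linarith
  have hΦ4r : (4 : ℝ) ≤ D.psz := by linarith
  have hΦ4 : 4 ≤ D.psz := by exact_mod_cast hΦ4r
  obtain ⟨s, hs⟩ : ∃ s : ℕ, s = D.psz / 4 := ⟨_, rfl⟩
  have hs1 : 4 * s ≤ D.psz := by omega
  have hs2 : D.psz ≤ 8 * s := by omega
  have hs1r : (4 : ℝ) * s ≤ D.psz := by exact_mod_cast hs1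
  have hs2r : (D.psz : ℝ) ≤ 8 * s := by exact_mod_cast hs2
  obtain ⟨S, Y, hSX, hYX, hSY, hSs, hSl, hYc, hY⟩ := hpool hT X s hN1 (by rw [hXr]; linarith) (by omega)
  rw [hXr] at hYc
  have hYn : n ≤ 2 * Y.card := by linarith
  obtain ⟨Sp, B, hSp1, hSp2, hSp3, hSp4, hBY, hBc, hSp5⟩ := hsp hT Y (by
    have h1 : X.card ≤ 2 * Y.card := by
      have : (X.card : ℝ) ≤ 2 * Y.card := by rw [hXr]; exact hYn
      exact_mod_cast this
    omega)
  rw [← he] at hBc
  obtain ⟨No, hNo0, hNo1, hNo2, hNo3, hNo4⟩ := hfit hT X B (hBY.trans hYX) hN3 (by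
    have h1 : (Y.card : ℝ) ≤ 2 ^ e * B.card := by exact_mod_cast hBc
    rw [one_div, inv_mul_le_iff₀ (by positivity), hXr, pow_succ]
    linarith)
  rw [hXr] at hNo0
  have hG1 : ((C + No.length : ℕ) : ℝ) ≤ C + κ * n := by push_cast; linarith
  have hmb : (0 : ℝ) < m + b + 2 := by positivity
  have hκn : κ * n * (m + b + 2) ≤ t ^ 2 * n / 2 ^ 18 := by
    have h1 : κ * (m + b + 2) ≤ t ^ 2 / 2 ^ 18 := by
      calc κ * (m + b + 2) ≤ t ^ 2 / (2 ^ 18 * (m + b + 2)) * (m + b + 2) := mul_le_mul_of_nonneg_right hκ2 hmb.le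
        _ = t ^ 2 / 2 ^ 18 := by field_simp
    calc κ * n * (m + b + 2) = κ * (m + b + 2) * n := by ring
      _ ≤ t ^ 2 / 2 ^ 18 * n := mul_le_mul_of_nonneg_right h1 hn0.le
      _ = t ^ 2 * n / 2 ^ 18 := by ring
  have hG2 : ((C + No.length : ℕ) : ℝ) * (m + b + 2) + 4096 * m ≤ t ^ 2 * n / 2 ^ 17 := by
    have h1 : ((C + No.length : ℕ) : ℝ) * (m + b + 2) ≤ (C + κ * n) * (m + b + 2) :=
      mul_le_mul_of_nonneg_right hG1 hmb.le
    linarith
  have ht2 : t ^ 2 * n ≤ t * D.psz := by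
    have : t ^ 2 * n = t * (t * n) := by ring
    rw [this]
    exact mul_le_mul_of_nonneg_left hΦt ht0.le
  have htp : t * D.psz ≤ D.psz := by
    have := mul_le_mul_of_nonneg_right ht1 (show (0 : ℝ) ≤ D.psz by positivity)
    linarith
  have hGm : (0 : ℝ) ≤ ((C + No.length : ℕ) : ℝ) * m := by positivity
  have hGb : (0 : ℝ) ≤ ((C + No.length : ℕ) : ℝ) * (b + 2) := by positivity
  have hm0 : (0 : ℝ) ≤ m := Nat.cast_nonneg _
  obtain ⟨x, hx, A, hA, hxA, -, hE⟩ := exact_aux (b := b) (m := m) (G := C + No.length) (C := C) (ε := t / 2 ^ 19)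
    (β := t / 4) (Cβ := Cβ) hT (by positivity) (by
      rw [div_le_div_iff₀ (by positivity) (by norm_num)]
      norm_num
      linarith) hC hl hdeg hOk hX hSX hYX hSY (by positivity) hCβ (hUn hT) hSp1 hSp2 hSp3 hSp4 hBY hSp5 hNo1 hNo2 hNo3
    hNo4 rfl (by
      have h1 : ((C + No.length : ℕ) : ℝ) ≤ D.act (t / 2 ^ 19) b := by
        have h2 : κ * n ≤ δ / 4 * n := mul_le_mul_of_nonneg_right hκ1 hn0.le
        have h3 : 0 ≤ δ * n := by positivity
        linarith
      exact_mod_cast h1) (by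
      rw [← hnn]
      linarith) (by
      intro y hy d
      have h1 := hY y hy d
      have h2 : (D.psz : ℝ) / 16 ≤ S.card := by linarith
      have h3 : t / 64 / 4 * (D.psz / 16) ≤ t / 64 / 4 * S.card := mul_le_mul_of_nonneg_left h2 (by positivity)
      have h5 : (2 * ((C + No.length : ℕ) : ℝ) + 4096) * m ≤ 2 * (t * D.psz / 2 ^ 17) := by
        have : (2 * ((C + No.length : ℕ) : ℝ) + 4096) * m ≤ 2 * (((C + No.length : ℕ) : ℝ) * (m + b + 2) + 4096 * m) := by
          nlinarith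
        linarith
      have h6 : 0 ≤ t * (D.psz : ℝ) := by positivity
      have h7 : 64 * (t / 2 ^ 19) * (D.psz : ℝ) = t * D.psz / 2 ^ 13 := by ring
      have h8 : t / 64 / 4 * ((D.psz : ℝ) / 16) = t * D.psz / 2 ^ 12 := by ring
      rw [h7]
      rw [h8] at h3
      linarith)
  exact ⟨x, hXX0 hx, A, hA.trans hXX0, hxA, trivial, hE⟩

end AEW
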