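import Pool.Agent.AEW.Hand

/-!
# From codes to orientations of trees: tournaments with exactly `k + 1` vertices
-/

namespace AEW

open Finset Relation AE15 AED AELT AESK AEJT
open scoped Classical

/-- the exponential bound for codes, exact version -/
def ProbX : Prop := ∀ b : ℕ, 1 ≤ b → ∀ ρ : ℝ, 0 < ρ → ρ ≤ 1 / 2 → ∃ n₀ K : ℕ, 1 ≤ K ∧
  ∀ {α : Type} (g : α → ℝ) (T : Tr α), T.len ≤ b → T.Deg b → T.All (fun a => ρ ≤ g a ∧ g a ≤ 1 - ρ) →
    n₀ ≤ T.size → Ex g T (fun c => if Fits 0 c then 0 else 1) ≤ 1 / 2 ^ ((T.size + 1) / K)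

/-- **Random orientations are unavoidable, with exponentially small probability of failure** -/
theorem expoX_of (hP : ProbX) (Δ : ℕ) {ρ : ℝ} (hρ : 0 < ρ) : ∃ K : ℕ, 1 ≤ K ∧
    ∀ (k : ℕ) (G : SimpleGraph (Fin (k + 1))), G.IsTree → (∀ v, (G.neighborSet v).ncard ≤ Δ) →
      ∀ q : Fin (k + 1) → Fin (k + 1) → ℝ, Wts G ρ q →
      fsum {E : Fin (k + 1) → Fin (k + 1) → Prop | E ∈ Ori G ∧
        ∃ R : Fin (k + 1) → Fin (k + 1) → Prop, (∀ a, ¬ R a a) ∧ (∀ a b, a ≠ b → R a b ∨ R b a) ∧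
        (∀ a b, R a b → ¬ R b a) ∧
        ¬ ∃ f : Fin (k + 1) → Fin (k + 1), Function.Injective f ∧ ∀ a b, E a b → R (f a) (f b)} (wt q) ≤
      1 / 2 ^ (k / K) := by
  obtain ⟨σ, hσ⟩ : ∃ σ, σ = min ρ (1 / 2) := ⟨_, rfl⟩
  have hσ0 : 0 < σ := by rw [hσ]; exact lt_min hρ (by norm_num)
  have hσ1 : σ ≤ 1 / 2 := by rw [hσ]; exact min_le_right _ _
  have hσρ : σ ≤ ρ := by rw [hσ]; exact min_le_left _ _
  obtain ⟨n₀, K, hK, hC⟩ := hP (max Δ 1) (le_max_right _ _) σ hσ0 hσ1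
  refine ⟨max K n₀, le_trans hK (le_max_left _ _), ?_⟩
  intro k G hG hdeg q hq
  have hqσ : Wts G σ q := fun a b hab => ⟨hσρ.trans (hq a b hab).1, (hq a b hab).2⟩
  have hdeg' : ∀ v, (G.neighborSet v).ncard ≤ max Δ 1 := fun v => (hdeg v).trans (le_max_left _ _)
  rcases Nat.lt_or_ge k (max K n₀) with hk | hk
  · rw [Nat.div_eq_of_lt hk, pow_zero, div_one, ← wt_total hG hq]
    exact fsum_mono (fun E hE => hE.1) fun E hE => wt_nonneg hρ.le hq hE
  obtain ⟨T, hnd, hr, hsz, hlen, hD, hcode⟩ := exists_tr hG hdeg' (0 : Fin (k + 1))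
  have hall : T.All (fun a => σ ≤ gV G 0 q a true ∧ gV G 0 q a true ≤ 1 - σ) := by
    refine Tr.all_of_labs fun x hx => ?_
    have hx0 : x ≠ 0 := fun h => hr (h ▸ hx)
    obtain ⟨p1, -⟩ := parW_spec hG hx0
    have e1 := hqσ _ _ p1
    have e2 := hqσ _ _ p1.symm
    have e3 : gV G 0 q x true = q (parW G 0 x) x := by
      unfold gV gW
      simp only [hx0, if_false, if_true]
    rw [e3]
    exact ⟨e1.1, by linarith [e1.2, e2.1]⟩
  have h1 := hC (fun v => gV G 0 q v true) T hlen hD hall (by rw [hsz]; exact (le_max_right _ _).trans hk)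
  rw [hsz] at h1
  have h2 := fsum_le_Ex hG (0 : Fin (k + 1)) hσ0.le hqσ hnd (fun E =>
        ∃ R : Fin (k + 1) → Fin (k + 1) → Prop, (∀ a, ¬ R a a) ∧ (∀ a b, a ≠ b → R a b ∨ R b a) ∧
        (∀ a b, R a b → ¬ R b a) ∧
        ¬ ∃ f : Fin (k + 1) → Fin (k + 1), Function.Injective f ∧ ∀ a b, E a b → R (f a) (f b))
      (φ := fun c => if Fits 0 c then 0 else 1) (fun c => by split_ifs <;> norm_num) (by
    rintro f ⟨R, r1, r2, r3, r4⟩
    rw [if_neg]
    intro h4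
    apply r4
    have h5 : In R (code (orf G 0 f) (Par G 0) 0) (fun _ => True) univ := by
      rw [hcode f]
      refine h4 ⟨r1, r2, r3⟩ univ ?_
      rw [card_univ, Fintype.card_fin, Tr.or_size, hsz]
    exact emb_code hG (orf_mem hG 0 f) h5)
  refine h2.trans (h1.trans ?_)
  have h6 : k / max K n₀ ≤ (k + 1) / K :=
    (Nat.div_le_div_left (le_max_left K n₀) (by omega)).trans (Nat.div_le_div_right (by omega))
  rw [div_le_div_iff₀ (by positivity) (by positivity), one_mul, one_mul]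
  exact pow_le_pow_right₀ (by norm_num) h6

end AEW
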