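import Pool.Agent.AEW.XAnti

/-!
# Random orientations of codes: the exact form
-/

namespace AEW

open Finset AE15 AED AELT
open scoped Classical

/-- the deterministic theorem: at least half of the pieces are good, and a positive fraction is antidirected -/
def DetXSt (b L : ℕ) : Prop := ∃ ε : ℝ, 0 < ε ∧ ∃ a₀ : ℕ, ∀ a ≥ a₀, 1 ≤ a → ∀ N : ℕ, ∃ n₀ : ℕ, ∀ D : Dk,
  D.un.len ≤ b → D.un.Deg b → D.Sz a (16 * b ^ 2 * (L + 1) * a) L →
    D.un.size + 1 ≤ 2 * (16 * b ^ 2 * (L + 1) * a) * (D.cnt + 1) → D.cnt ≤ 2 * D.gct ε →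
      D.cnt ≤ N * D.pct (Anti true) (AntiC true) → n₀ ≤ D.un.size → Fits 0 D.un

/-- **Random orientations of codes, exact form** -/
theorem probX_of (b : ℕ) (hb : 1 ≤ b) (hdet : ∀ L ≥ 18, DetXSt b L) {ρ : ℝ} (hρ : 0 < ρ) (hρ1 : ρ ≤ 1) :
    ∃ K : ℕ, 1 ≤ K ∧ ∀ {α : Type} (g : α → ℝ) (T : Tr α), T.len ≤ b → T.Deg b →
      T.All (fun a => ρ ≤ g a ∧ g a ≤ 1 - ρ) →
      Ex g T (fun c => if Fits 0 c then 0 else 1) ≤ 1 / 2 ^ ((T.size + 1) / K) := by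
  obtain ⟨n, hn⟩ := good2_prob hρ hρ1
  obtain ⟨L, hL⟩ : ∃ L, L = max (3 * n) 18 := ⟨_, rfl⟩
  have hL1 : 3 * n ≤ L := by rw [hL]; exact le_max_left _ _
  have hL2 : 18 ≤ L := by rw [hL]; exact le_max_right _ _
  obtain ⟨ε, hε, a₃, hdet'⟩ := hdet L hL2
  obtain ⟨a₂, ha₂⟩ := hn b hε
  obtain ⟨a₁, ha₁⟩ := good1_prob b hρ hρ1 hε
  obtain ⟨a, ha⟩ : ∃ a, a = max (max (max a₁ a₂) a₃) 1 := ⟨_, rfl⟩
  have ha1 : 1 ≤ a := by rw [ha]; exact le_max_right _ _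
  have haa₁ : a₁ ≤ a := by
    rw [ha]; exact (le_max_left _ _).trans ((le_max_left _ _).trans (le_max_left _ _))
  have haa₂ : a₂ ≤ a := by
    rw [ha]; exact (le_max_right _ _).trans ((le_max_left _ _).trans (le_max_left _ _))
  have haa₃ : a₃ ≤ a := by rw [ha]; exact (le_max_right _ _).trans (le_max_left _ _)
  obtain ⟨m, hm⟩ : ∃ m, m = 16 * b ^ 2 * (L + 1) * a := ⟨_, rfl⟩
  have hm1 : 1 ≤ m := by
    rw [hm]
    exact Nat.mul_pos (Nat.mul_pos (Nat.mul_pos (by norm_num) (pow_pos hb _)) (by omega)) ha1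
  obtain ⟨N, hN1, hN⟩ := pct_prob (P₁ := Anti true) (P₂ := AntiC true) (p := ρ ^ m) (pow_pos hρ _)
    (pow_le_one₀ hρ.le hρ1)
  obtain ⟨n₀, hC⟩ := hdet' a haa₃ ha1 N
  rw [← hm] at hC
  refine ⟨max (n₀ + 1) (12 * m * N), le_trans (by omega) (le_max_left _ _), ?_⟩
  intro α g T hl hD hA
  obtain ⟨K, hK⟩ : ∃ K, K = max (n₀ + 1) (12 * m * N) := ⟨_, rfl⟩
  have hK1 : n₀ + 1 ≤ K := by rw [hK]; exact le_max_left _ _
  have hK2 : 12 * m * N ≤ K := by rw [hK]; exact le_max_right _ _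
  rw [← hK]
  have pT := pf_of hρ.le hA
  by_cases hsmall : T.size + 1 < K
  · rw [Nat.div_eq_of_lt hsmall, pow_zero, div_one]
    have := pT.mono (fun c => if Fits 0 c then (0 : ℝ) else 1) (fun _ => 1) (fun x _ => by split_ifs <;> norm_num)
    rwa [pT.one] at this
  have hbig : K ≤ T.size + 1 := by omega
  -- the decomposition
  obtain ⟨D₀, f1, f2, f3⟩ := decomp b L a hb ha1 (T.or fun _ => true) (by rw [(Sh.or _ T).len]; exact hl)
    ((Sh.or _ T).deg hD)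
  rw [← hm] at f2 f3
  obtain ⟨D, g1, g2⟩ := lift_un (D := D₀) (T := T) (by rw [f1]; exact Sh.or _ T)
  have hDA : D.All (Pρ ρ g) := by
    rw [← DT.all_un, g2]
    exact hA
  have hsz : D.Sz a m L := g1.sz.1 f2
  have hcnt : T.size + 1 ≤ 2 * m * (D.cnt + 1) := by
    rw [g1.cnt, (Sh.or _ T).size] at f3
    exact f3
  have pD := ExD_pf (hDA.mono fun _ => P01_of hρ.le)
  have h1 : Ex g T (fun c => if Fits 0 c then 0 else 1) = ExD g D (fun x => if Fits 0 x.un then 0 else 1) := by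
    have h0 := ExD_un (hDA.mono fun _ => P01_of hρ.le) (fun c => if Fits 0 c then (0 : ℝ) else 1)
    rw [g2] at h0
    exact h0.symm
  have h2 : ExD g D (fun x => if Fits 0 x.un then 0 else 1) ≤
      ExD g D (fun x => (1 / 4 ^ D.cnt) * (16 : ℝ) ^ x.bct ε +
        (if x.cnt ≤ N * x.pct (Anti true) (AntiC true) then 0 else 1)) := by
    refine pD.mono _ _ fun x hx => ?_
    have hu := hx.un
    rw [g2] at hu
    have e1 : (0 : ℝ) ≤ (1 / 4 ^ D.cnt) * (16 : ℝ) ^ x.bct ε := by positivity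
    by_cases hp : x.cnt ≤ N * x.pct (Anti true) (AntiC true)
    · by_cases hg : x.cnt ≤ 2 * x.gct ε
      · rw [if_pos]
        · rw [if_pos hp]
          linarith
        · refine hC x (by rw [hu.len]; exact hl) (hu.deg hD) (hx.sz.2 hsz) ?_ hg hp ?_
          · rw [hu.size, hx.cnt]
            exact hcnt
          · rw [hu.size]
            omega
      · have h3 : x.cnt ≤ 2 * x.bct ε := by
          have := x.gct_add_bct ε
          omega
        rw [hx.cnt] at h3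
        have h4 : (1 : ℝ) ≤ 1 / 4 ^ D.cnt * 16 ^ x.bct ε := by
          rw [one_div_mul_eq_div, one_le_div (by positivity), show (16 : ℝ) = 4 ^ 2 by norm_num, ← pow_mul]
          exact pow_le_pow_right₀ (by norm_num) h3
        rw [if_pos hp]
        split_ifs
        · linarith
        · linarith
    · rw [if_neg hp]
      split_ifs
      · linarith
      · linarith
  have h3 := bad_mean hρ.le (fun q k1 k2 k3 k4 => ha₁ g q k1 k2 k3 (haa₁.trans k4))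
    (fun M k1 k2 k3 k4 k5 => ha₂ g M k1 k2 k3 (haa₂.trans k4) (hL1.trans k5)) D (by rw [g2]; exact hD) hDA hsz
  have h4 := hN hρ.le (fun q _ _ k3 _ k5 => (pow_le_pow_of_le_one hρ.le hρ1 (by omega)).trans (anti_prob hρ.le q k3 true))
    (fun M _ _ k3 _ k5 _ => (pow_le_pow_of_le_one hρ.le hρ1 (by omega)).trans (antiC_prob hρ.le M k3 true)) D
    (by rw [g2]; exact hD) hDA hsz
  rw [h1]
  refine h2.trans ?_
  rw [pD.add, pD.mul]
  have h5 : 1 / (4 : ℝ) ^ D.cnt * ExD g D (fun x => (16 : ℝ) ^ x.bct ε) ≤ 1 / 2 ^ D.cnt := by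
    calc 1 / (4 : ℝ) ^ D.cnt * ExD g D (fun x => (16 : ℝ) ^ x.bct ε) ≤ 1 / (4 : ℝ) ^ D.cnt * 2 ^ D.cnt :=
          mul_le_mul_of_nonneg_left h3 (by positivity)
      _ = 1 / 2 ^ D.cnt := by
          rw [show (4 : ℝ) = 2 * 2 by norm_num, mul_pow]
          field_simp
  -- the numbers
  obtain ⟨q, hq⟩ : ∃ q, q = (T.size + 1) / K := ⟨_, rfl⟩
  rw [← hq]
  have hK0 : 0 < K := by omega
  have hq1 : 1 ≤ q := by
    rw [hq, Nat.le_div_iff_mul_le hK0]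
    omega
  have hq2 : q * K ≤ T.size + 1 := by
    rw [hq]
    exact Nat.div_mul_le_self _ _
  have h6 : N * (q + 1) ≤ D.cnt := by
    have e1 : q * (12 * m * N) ≤ 2 * m * (D.cnt + 1) := (Nat.mul_le_mul_left _ hK2).trans (hq2.trans hcnt)
    have e2 : 2 * m * (6 * N * q) ≤ 2 * m * (D.cnt + 1) := by
      calc 2 * m * (6 * N * q) = q * (12 * m * N) := by ring
        _ ≤ _ := e1
    have e3 : 6 * N * q ≤ D.cnt + 1 := Nat.le_of_mul_le_mul_left e2 (by omega)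
    have e4 : N ≤ N * q := Nat.le_mul_of_pos_right _ hq1
    nlinarith
  have h7 : q + 1 ≤ D.cnt / N := by
    rw [Nat.le_div_iff_mul_le (by omega), mul_comm]
    exact h6
  have h8 : q + 1 ≤ D.cnt := by
    have : 1 * (q + 1) ≤ N * (q + 1) := Nat.mul_le_mul_right _ hN1
    omega
  have h9 : ∀ j, q + 1 ≤ j → (1 : ℝ) / 2 ^ j ≤ 1 / 2 ^ (q + 1) := fun j hj =>
    one_div_le_one_div_of_le (by positivity) (pow_le_pow_right₀ (by norm_num) hj)
  have h10 := h9 _ h7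
  have h11 := h9 _ h8
  have h12 : (1 : ℝ) / 2 ^ (q + 1) + 1 / 2 ^ (q + 1) = 1 / 2 ^ q := by
    rw [pow_succ]
    field_simp
    ring
  linarith

/-- the deterministic theorem in the form with gadgetable pieces -/
def DetXGSt (b L : ℕ) : Prop := ∃ ε : ℝ, 0 < ε ∧ ∀ a N : ℕ, 1 ≤ a → 1 ≤ N → ∃ n₀ : ℕ, ∀ D : Dk,
    D.un.len ≤ b → D.un.Deg b → D.Sz a (16 * b ^ 2 * (L + 1) * a) L →
    D.un.size + 1 ≤ 2 * (16 * b ^ 2 * (L + 1) * a) * (D.cnt + 1) →
      D.cnt ≤ 2 * D.gct ε → D.cnt ≤ N * D.act ε b → n₀ ≤ D.un.size → Fits 0 D.un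

theorem DetXGSt.detX {b L : ℕ} (hb : 1 ≤ b) (hL : 18 ≤ L) (h : DetXGSt b L) : DetXSt b L := by
  obtain ⟨ε, hε, h1⟩ := h
  obtain ⟨a₁, ha₁⟩ := exists_nat_ge ((((3 * b : ℕ) : ℝ) + 1) / ε)
  refine ⟨ε, hε, max a₁ (Sd b 9 + 2), ?_⟩
  intro a ha ha1 N
  have h2 : a₁ ≤ a := (le_max_left _ _).trans ha
  have h3 : Sd b 9 + 2 ≤ a := (le_max_right _ _).trans ha
  obtain ⟨n₀, h4⟩ := h1 a (max N 1) ha1 (le_max_right _ _)
  refine ⟨n₀, ?_⟩
  intro D k1 k2 k3 k4 k5 k6 k7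
  refine h4 D k1 k2 k3 k4 k5 ?_ k7
  have h5 := pct_le_act hb hε hL (a := a) (by
    rw [div_le_iff₀ hε] at ha₁
    have h6 : (a₁ : ℝ) ≤ a := by exact_mod_cast h2
    have h7 : (a₁ : ℝ) * ε ≤ a * ε := mul_le_mul_of_nonneg_right h6 hε.le
    linarith) (by omega) D k2 k3
  calc D.cnt ≤ N * D.pct (Anti true) (AntiC true) := k6
    _ ≤ max N 1 * D.act ε b := Nat.mul_le_mul (le_max_left _ _) h5

end AEW
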