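import Pool.Agent.AEW.XDet
import Pool.Agent.AEW.XProb2
import Pool.Agent.AEW.XGlue

/-!
# The exact exponential bound from the exact absorption theorem
-/

namespace AEW

open Finset AE15 AED AELT
open scoped Classical

theorem probX_of_absorb (hA : ∀ b : ℕ, 1 ≤ b → AbsorbXSt b) : ProbX := by
  intro b hb ρ hρ hρ1
  obtain ⟨K, hK, h⟩ := probX_of b hb (fun L hL => DetXGSt.detX hb hL (detX_of b L hb (hA b hb))) hρ (by linarith)
  exact ⟨0, K, hK, fun g T h1 h2 h3 _ => h g T h1 h2 h3⟩

end AEW
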