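import Pool.Agent.AEW.RanM

/-!
# Many antidirected pieces
-/

namespace AEW

open Finset AE15 AED AELT
open scoped Classical

variable {α : Type} {g : α → ℝ}

/-- all arcs at even distance from the common vertex have direction `e` (seen from the common vertex), the others have
direction `!e`: every vertex is a source or a sink -/
def Anti (e : Bool) : Fd → Prop
  | .nil => True
  | .node d c s => d = e ∧ Anti (!e) c ∧ Anti e s

/-- the same for a forest with a hole -/
def AntiC (e : Bool) : Cx → Prop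
  | .here s => Anti e s
  | .dn d t s => d = e ∧ AntiC (!e) t ∧ Anti e s
  | .nx d c t => d = e ∧ Anti (!e) c ∧ AntiC e t

/-- number of pieces with a property -/
noncomputable def Dk.pct (P₁ : Fd → Prop) (P₂ : Cx → Prop) : Dk → ℕ
  | .nil => 0
  | .node _ c s => c.pct P₁ P₂ + s.pct P₁ P₂
  | .pc1 _ q s => (if P₁ q then 1 else 0) + s.pct P₁ P₂
  | .pc2 _ M _ c s => (if P₂ M then 1 else 0) + (c.pct P₁ P₂ + s.pct P₁ P₂)

theorem E1_ge {ρ : ℝ} {p : ℝ} (h : ρ ≤ p) (h' : p ≤ 1 - ρ) (σ : Bool) {y : ℝ} (hy : 0 ≤ y) :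
    ρ * y ≤ E1 p (fun d => if d = σ then y else 0) := by
  unfold E1
  cases σ
  · simp only [Bool.true_eq_false, if_false, if_true]
    nlinarith
  · simp only [Bool.false_eq_true, if_false, if_true]
    nlinarith

theorem anti_prob {ρ : ℝ} (hρ : 0 ≤ ρ) (T : Tr α) : T.All (Pρ ρ g) → ∀ e : Bool,
    ρ ^ T.size ≤ Ex g T (fun c => if Anti e c then 1 else 0) := by
  induction T with
  | nil => intro _ e; simp [Ex, Anti, Tr.size]
  | node a c s ihc ihs =>
    rintro ⟨t1, t2, t3⟩ e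
    have pc := pf_of hρ t2
    have ps := pf_of hρ t3
    have h1 : Ex g (.node a c s) (fun c => if Anti e c then 1 else 0) =
        E1 (g a) (fun d => if d = e then Ex g c (fun c => if Anti (!e) c then 1 else 0) *
          Ex g s (fun c => if Anti e c then 1 else 0) else 0) := by
      simp only [Ex, Anti]
      congr 1
      funext d
      by_cases hd : d = e
      · simp only [hd, true_and, if_true]
        rw [← pc.prod ps]
        congr 1
        funext c'
        congr 1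
        funext s'
        by_cases h2 : Anti (!e) c' <;> by_cases h3 : Anti e s' <;> simp [h2, h3]
      · simp only [hd, false_and, if_false]
        rw [ps.const, pc.const]
    rw [h1]
    have h2 := ihc t2 (!e)
    have h3 := ihs t3 e
    have h4 : ρ ^ c.size * ρ ^ s.size ≤ Ex g c (fun c => if Anti (!e) c then 1 else 0) *
        Ex g s (fun c => if Anti e c then 1 else 0) :=
      mul_le_mul h2 h3 (by positivity) ((pow_nonneg hρ _).trans h2)
    refine le_trans ?_ (E1_ge t1.1 t1.2 e ((by positivity : (0 : ℝ) ≤ ρ ^ c.size * ρ ^ s.size).trans h4))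
    rw [Tr.size, pow_succ, pow_add, mul_comm]
    exact mul_le_mul_of_nonneg_left h4 hρ

theorem antiC_prob {ρ : ℝ} (hρ : 0 ≤ ρ) (M : CT α) : M.All (Pρ ρ g) → ∀ e : Bool,
    ρ ^ M.un.size ≤ ExC g M (fun c => if AntiC e c then 1 else 0) := by
  induction M with
  | here s =>
    intro hA e
    exact anti_prob hρ s hA e
  | dn a t s ih =>
    rintro ⟨t1, t2, t3⟩ e
    have pt := pfC_of hρ t2
    have ps := pf_of hρ t3
    have h1 : ExC g (.dn a t s) (fun c => if AntiC e c then 1 else 0) =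
        E1 (g a) (fun d => if d = e then ExC g t (fun c => if AntiC (!e) c then 1 else 0) *
          Ex g s (fun c => if Anti e c then 1 else 0) else 0) := by
      simp only [ExC, AntiC]
      congr 1
      funext d
      by_cases hd : d = e
      · simp only [hd, true_and, if_true]
        rw [← pt.prod ps]
        congr 1
        funext c'
        congr 1
        funext s'
        by_cases h2 : AntiC (!e) c' <;> by_cases h3 : Anti e s' <;> simp [h2, h3]
      · simp only [hd, false_and, if_false]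
        rw [ps.const, pt.const]
    rw [h1]
    have h2 := ih t2 (!e)
    have h3 := anti_prob hρ s t3 e
    have h4 : ρ ^ t.un.size * ρ ^ s.size ≤ ExC g t (fun c => if AntiC (!e) c then 1 else 0) *
        Ex g s (fun c => if Anti e c then 1 else 0) :=
      mul_le_mul h2 h3 (by positivity) ((pow_nonneg hρ _).trans h2)
    refine le_trans ?_ (E1_ge t1.1 t1.2 e ((by positivity : (0 : ℝ) ≤ ρ ^ t.un.size * ρ ^ s.size).trans h4))
    rw [CT.un, Tr.size, pow_succ, pow_add, mul_comm]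
    exact mul_le_mul_of_nonneg_left h4 hρ
  | nx a c t ih =>
    rintro ⟨t1, t2, t3⟩ e
    have pc := pf_of hρ t2
    have pt := pfC_of hρ t3
    have h1 : ExC g (.nx a c t) (fun c => if AntiC e c then 1 else 0) =
        E1 (g a) (fun d => if d = e then Ex g c (fun c => if Anti (!e) c then 1 else 0) *
          ExC g t (fun c => if AntiC e c then 1 else 0) else 0) := by
      simp only [ExC, AntiC]
      congr 1
      funext d
      by_cases hd : d = e
      · simp only [hd, true_and, if_true]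
        rw [← pc.prod pt]
        congr 1
        funext c'
        congr 1
        funext s'
        by_cases h2 : Anti (!e) c' <;> by_cases h3 : AntiC e s' <;> simp [h2, h3]
      · simp only [hd, false_and, if_false]
        rw [pt.const, pc.const]
    rw [h1]
    have h2 := anti_prob hρ c t2 (!e)
    have h3 := ih t3 e
    have h4 : ρ ^ c.size * ρ ^ t.un.size ≤ Ex g c (fun c => if Anti (!e) c then 1 else 0) *
        ExC g t (fun c => if AntiC e c then 1 else 0) :=
      mul_le_mul h2 h3 (by positivity) ((pow_nonneg hρ _).trans h2)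
    refine le_trans ?_ (E1_ge t1.1 t1.2 e ((by positivity : (0 : ℝ) ≤ ρ ^ c.size * ρ ^ t.un.size).trans h4))
    rw [CT.un, Tr.size, pow_succ, pow_add, mul_comm]
    exact mul_le_mul_of_nonneg_left h4 hρ

/-- exponential moment of the number of pieces with a property -/
theorem pct_mean {P₁ : Fd → Prop} {P₂ : Cx → Prop} {b a m L : ℕ} {ρ p : ℝ} (hρ : 0 ≤ ρ) (hp : p ≤ 2)
    (h1 : ∀ q : Tr α, q.len ≤ b → q.Deg b → q.All (Pρ ρ g) → a ≤ q.size + 1 → q.size + 1 ≤ m →
      p ≤ Ex g q (fun c => if P₁ c then 1 else 0))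
    (h2 : ∀ M : CT α, M.len ≤ b → M.Deg b → M.All (Pρ ρ g) → a ≤ M.un.size + 1 → M.un.size + 1 ≤ m → L ≤ M.pl →
      p ≤ ExC g M (fun c => if P₂ c then 1 else 0)) (D : DT α) :
    D.un.Deg b → D.All (Pρ ρ g) → D.Sz a m L →
      ExD g D (fun x => ((1 : ℝ) / 2) ^ x.pct P₁ P₂) ≤ (1 - p / 2) ^ D.cnt := by
  have hpf : ∀ D : DT α, D.All (Pρ ρ g) → Pf (ShD D) (ExD g D) := fun D hD => ExD_pf (hD.mono fun _ => P01_of hρ)
  have hnn : ∀ D : DT α, D.All (Pρ ρ g) → 0 ≤ ExD g D (fun x => ((1 : ℝ) / 2) ^ x.pct P₁ P₂) := fun D hD =>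
    (hpf D hD).nonneg fun x _ => by positivity
  have hp' : 0 ≤ 1 - p / 2 := by linarith
  have key : ∀ {β : Type} {S : β → Prop} {Φ : (β → ℝ) → ℝ} (_ : Pf S Φ) (P : β → Prop),
      p ≤ Φ (fun c => if P c then 1 else 0) → Φ (fun c => ((1 : ℝ) / 2) ^ (if P c then 1 else 0)) ≤ 1 - p / 2 := by
    intro β S Φ h P hP
    have e1 : ∀ c, ((1 : ℝ) / 2) ^ (if P c then 1 else 0) = 1 + (-(1 / 2)) * (if P c then (1 : ℝ) else 0) := by
      intro c
      split_ifs
      · norm_num
      · norm_num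
    simp only [e1]
    rw [h.add, h.mul, h.const]
    linarith
  induction D with
  | nil => intro _ _ _; simp [ExD, Dk.pct, DT.cnt]
  | node x c s ihc ihs =>
    rintro ⟨-, d2, d3⟩ ⟨t1, t2, t3⟩ ⟨s1, s2⟩
    have e := E1_pf (p := g x) (by linarith [t1.1]) (by linarith [t1.2])
    have pc := hpf c t2
    have ps := hpf s t3
    have h3 : ExD g (.node x c s) (fun x => ((1 : ℝ) / 2) ^ x.pct P₁ P₂) =
        ExD g c (fun x => ((1 : ℝ) / 2) ^ x.pct P₁ P₂) * ExD g s (fun x => ((1 : ℝ) / 2) ^ x.pct P₁ P₂) := by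
      simp only [ExD, Dk.pct, pow_add]
      rw [← pc.prod ps, e.const]
    rw [h3, DT.cnt, pow_add]
    exact mul_le_mul (ihc d2 t2 s1) (ihs d3 t3 s2) (hnn s t3) (pow_nonneg hp' _)
  | pc1 x q s ihs =>
    rintro ⟨d1, d2, d3⟩ ⟨t1, t2, t3⟩ ⟨s1, s2, s3⟩
    have e := E1_pf (p := g x) (by linarith [t1.1]) (by linarith [t1.2])
    have pq := pf_of hρ t2
    have ps := hpf s t3
    have h3 : ExD g (.pc1 x q s) (fun x => ((1 : ℝ) / 2) ^ x.pct P₁ P₂) =
        Ex g q (fun c => ((1 : ℝ) / 2) ^ (if P₁ c then 1 else 0)) *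
          ExD g s (fun x => ((1 : ℝ) / 2) ^ x.pct P₁ P₂) := by
      rw [← pq.prod ps]
      simp only [ExD, Dk.pct, pow_add]
      rw [e.const]
    rw [h3, DT.cnt, pow_succ, mul_comm ((1 - p / 2) ^ s.cnt)]
    exact mul_le_mul (key pq P₁ (h1 q d1 d2 t2 s1 s2)) (ihs d3 t3 s3) (hnn s t3) hp'
  | pc2 x M x' c s ihc ihs =>
    rintro ⟨d1, d2, d3⟩ ⟨t1, t2, t3, t4, t5⟩ ⟨s1, s2, s3, s4, s5⟩
    obtain ⟨k1, k2, k3⟩ := CT.deg_plug M d2
    have k4 : M.len ≤ b := by
      rw [← CT.len_plug (a := x') (c := c.un) M]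
      exact d1
    have e := E1_pf (p := g x) (by linarith [t1.1]) (by linarith [t1.2])
    have e' := E1_pf (p := g x') (by linarith [t3.1]) (by linarith [t3.2])
    have pM := pfC_of hρ t2
    have pc := hpf c t4
    have ps := hpf s t5
    have h3 : ExD g (.pc2 x M x' c s) (fun x => ((1 : ℝ) / 2) ^ x.pct P₁ P₂) =
        ExC g M (fun c => ((1 : ℝ) / 2) ^ (if P₂ c then 1 else 0)) *
          (ExD g c (fun x => ((1 : ℝ) / 2) ^ x.pct P₁ P₂) * ExD g s (fun x => ((1 : ℝ) / 2) ^ x.pct P₁ P₂)) := by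
      rw [← pc.prod ps]
      simp only [ExD, Dk.pct, pow_add]
      simp only [ps.mul, pc.mul, e'.const]
      rw [e.const]
      have h5 : ∀ y : ℝ, ExC g M (fun M' => ((1 : ℝ) / 2) ^ (if P₂ M' then 1 else 0) * y) =
          ExC g M (fun c => ((1 : ℝ) / 2) ^ (if P₂ c then 1 else 0)) * y := by
        intro y
        rw [mul_comm _ y, ← pM.mul]
        congr 1
        funext M'
        rw [mul_comm]
      rw [h5]
    have h6 : ExD g c (fun x => ((1 : ℝ) / 2) ^ x.pct P₁ P₂) * ExD g s (fun x => ((1 : ℝ) / 2) ^ x.pct P₁ P₂) ≤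
        (1 - p / 2) ^ c.cnt * (1 - p / 2) ^ s.cnt :=
      mul_le_mul (ihc k3 t4 s4) (ihs d3 t5 s5) (hnn s t5) (pow_nonneg hp' _)
    rw [h3, DT.cnt, pow_succ, pow_add, mul_comm ((1 - p / 2) ^ c.cnt * (1 - p / 2) ^ s.cnt)]
    exact mul_le_mul (key pM P₂ (h2 M k4 k1 t2 s1 s2 s3)) h6 (mul_nonneg (hnn c t4) (hnn s t5)) hp'

/-- with large probability a positive fraction of the pieces has the property -/
theorem pct_prob {P₁ : Fd → Prop} {P₂ : Cx → Prop} {p : ℝ} (hp0 : 0 < p) (hp : p ≤ 1) :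
    ∃ N : ℕ, 1 ≤ N ∧ ∀ {b a m L : ℕ} {ρ : ℝ}, 0 ≤ ρ → ∀ {α : Type} {g : α → ℝ},
    (∀ q : Tr α, q.len ≤ b → q.Deg b → q.All (Pρ ρ g) → a ≤ q.size + 1 → q.size + 1 ≤ m →
      p ≤ Ex g q (fun c => if P₁ c then 1 else 0)) →
    (∀ M : CT α, M.len ≤ b → M.Deg b → M.All (Pρ ρ g) → a ≤ M.un.size + 1 → M.un.size + 1 ≤ m → L ≤ M.pl →
      p ≤ ExC g M (fun c => if P₂ c then 1 else 0)) → ∀ D : DT α,
    D.un.Deg b → D.All (Pρ ρ g) → D.Sz a m L →
      ExD g D (fun x => if x.cnt ≤ N * x.pct P₁ P₂ then 0 else 1) ≤ 1 / 2 ^ (D.cnt / N) := by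
  obtain ⟨N, hN⟩ : ∃ N : ℕ, (1 - p / 2) ^ N < 1 / 4 := exists_pow_lt_of_lt_one (by norm_num) (by linarith)
  refine ⟨N + 1, by omega, ?_⟩
  intro b a m L ρ hρ α g h1 h2 D hD hA hS
  have pD := ExD_pf (hA.mono fun _ => P01_of hρ)
  have h3 := pct_mean hρ (by linarith : p ≤ 2) h1 h2 D hD hA hS
  obtain ⟨f, hf⟩ : ∃ f, f = D.cnt / (N + 1) := ⟨_, rfl⟩
  rw [← hf]
  have h4 : ExD g D (fun x => if x.cnt ≤ (N + 1) * x.pct P₁ P₂ then 0 else 1) ≤
      ExD g D (fun x => (2 : ℝ) ^ f * (1 / 2) ^ x.pct P₁ P₂) := by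
    refine pD.mono _ _ fun x hx => ?_
    split_ifs with h
    · positivity
    · have h5 : x.pct P₁ P₂ ≤ f := by
        rw [hf, Nat.le_div_iff_mul_le (by omega), ← hx.cnt, mul_comm]
        omega
      calc (1 : ℝ) = 2 ^ f * (1 / 2) ^ f := by
            rw [← mul_pow]
            norm_num
        _ ≤ 2 ^ f * (1 / 2) ^ x.pct P₁ P₂ :=
          mul_le_mul_of_nonneg_left (pow_le_pow_of_le_one (by norm_num) (by norm_num) h5) (by positivity)
  refine h4.trans ?_
  rw [pD.mul]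
  have hq0 : 0 ≤ 1 - p / 2 := by linarith
  have hq1 : 1 - p / 2 ≤ 1 := by linarith
  have h5 : (1 - p / 2) ^ D.cnt ≤ (1 / 4) ^ f := by
    have h6 : N * f ≤ D.cnt := by
      have h7 := Nat.div_mul_le_self D.cnt (N + 1)
      rw [← hf] at h7
      nlinarith
    calc (1 - p / 2) ^ D.cnt ≤ (1 - p / 2) ^ (N * f) := pow_le_pow_of_le_one hq0 hq1 h6
      _ = ((1 - p / 2) ^ N) ^ f := by rw [pow_mul]
      _ ≤ (1 / 4) ^ f := pow_le_pow_left₀ (pow_nonneg hq0 _) hN.le _
  calc (2 : ℝ) ^ f * ExD g D (fun x => (1 / 2) ^ x.pct P₁ P₂) ≤ 2 ^ f * (1 / 4) ^ f :=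
        mul_le_mul_of_nonneg_left (h3.trans h5) (by positivity)
    _ = 1 / 2 ^ f := by
        rw [← mul_pow, ← one_div_pow]
        norm_num

end AEW
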